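import Pool.Agent.Lib.MP_1e1427_nt.SP.Stm

/-!
Project SP (MP_1e1427_nt, StrongProbablePrime): the geometric sum.
-/

namespace Pool.Agent.SP80

open Finset

private theorem w1_ex (x : ℝ) : ex x = Complex.exp (Complex.I * ((2 * Real.pi * x : ℝ) : ℂ)) := by
  unfold ex
  rw [mul_comm]

theorem w1_norm_ex (x : ℝ) : ‖ex x‖ = 1 := by
  rw [w1_ex, Complex.norm_exp_I_mul_ofReal]

private theorem w1_ex_mul (j : ℕ) (x : ℝ) : ex ((j : ℝ) * x) = ex x ^ j := by
  unfold ex
  rw [← Complex.exp_nat_mul]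
  congr 1
  push_cast
  ring

private theorem w1_sub_one (x : ℝ) : 4 * |x - round x| ≤ ‖ex x - 1‖ := by
  rw [w1_ex, Complex.norm_exp_I_mul_ofReal_sub_one, Real.norm_eq_abs, abs_mul, abs_two]
  have h1 : 2 * Real.pi * x / 2 = Real.pi * (x - round x) + (round x : ℤ) * Real.pi := by ring
  rw [h1, Real.sin_add_int_mul_pi, abs_mul, abs_zpow, abs_neg, abs_one, one_zpow, one_mul]
  have h2 : |Real.pi * (x - round x)| ≤ Real.pi / 2 := by
    rw [abs_mul, abs_of_pos Real.pi_pos]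
    have := abs_sub_round x
    have hp := Real.pi_pos
    nlinarith
  have h3 := Real.mul_abs_le_abs_sin h2
  rw [abs_mul, abs_of_pos Real.pi_pos] at h3
  have h4 : 2 / Real.pi * (Real.pi * |x - round x|) = 2 * |x - round x| := by
    field_simp
  rw [h4] at h3
  linarith

theorem sw1 : SW1 := by
  intro j0 N x
  have triv : ‖∑ j ∈ Ico j0 (j0 + N), ex ((j : ℝ) * x)‖ ≤ N := by
    refine (norm_sum_le _ _).trans ?_
    rw [Finset.sum_congr rfl (fun j _ => w1_norm_ex _)]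
    simp
  unfold mn
  split_ifs with h
  · exact triv
  refine le_min triv ?_
  have h0 : 0 < |x - round x| := abs_pos.2 (sub_ne_zero.2 h)
  have h1 : (∑ j ∈ Ico j0 (j0 + N), ex ((j : ℝ) * x)) * (ex x - 1) =
      ex x ^ (j0 + N) - ex x ^ j0 := by
    rw [Finset.sum_congr rfl (fun j _ => w1_ex_mul j x), geom_sum_Ico_mul _ (Nat.le_add_right _ _)]
  have h2 : ‖∑ j ∈ Ico j0 (j0 + N), ex ((j : ℝ) * x)‖ * ‖ex x - 1‖ ≤ 2 := by
    rw [← norm_mul, h1]
    refine (norm_sub_le _ _).trans ?_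
    rw [norm_pow, norm_pow, w1_norm_ex, one_pow, one_pow]
    norm_num
  have h3 := w1_sub_one x
  have h4 := norm_nonneg (∑ j ∈ Ico j0 (j0 + N), ex ((j : ℝ) * x))
  rw [le_div_iff₀ (by positivity)]
  nlinarith [mul_le_mul_of_nonneg_left h3 h4]

end Pool.Agent.SP80
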