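import Pool.Agent.Lib.MP_1e1427_nt.SP.Stm

set_option autoImplicit false

/-!
# Project SP (MP_1e1427_nt): block counting
-/

namespace Pool.Agent.SP80

open Finset

/-- the majorant of a term with residue `t` -/
private noncomputable def w3_A (H : ℝ) (r t : ℕ) : ℝ :=
  if t < 2 then H else (r : ℝ) / (2 * ((t : ℝ) - 1))

private theorem w3_A_nonneg {H : ℝ} (hH : 0 ≤ H) (r t : ℕ) : 0 ≤ w3_A H r t := by
  unfold w3_A
  split_ifs with h
  · exact hH
  · have h2 : (2 : ℝ) ≤ t := by exact_mod_cast (not_lt.1 h)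
    have h3 : (0 : ℝ) < 2 * ((t : ℝ) - 1) := by linarith
    positivity

private theorem w3_sumA (H : ℝ) (r n : ℕ) :
    ∑ t ∈ range (n + 2), w3_A H r t = 2 * H + (r : ℝ) / 2 * (harmonic n : ℝ) := by
  induction n with
  | zero =>
    simp only [Finset.sum_range_succ, Finset.sum_range_zero, harmonic_zero, w3_A]
    norm_num
    ring
  | succ n ih =>
    rw [Finset.sum_range_succ, ih, harmonic_succ]
    have h1 : ¬ (n + 2 < 2) := by omega
    have h2 : ((n + 2 : ℕ) : ℝ) - 1 = (n : ℝ) + 1 := by push_cast; ring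
    have h3 : (n : ℝ) + 1 ≠ 0 := by positivity
    rw [w3_A, if_neg h1, h2]
    push_cast
    field_simp
    ring

private theorem w3_sumA_le {H : ℝ} (hH : 0 ≤ H) (r : ℕ) :
    ∑ t ∈ range r, w3_A H r t ≤ 2 * H + (r : ℝ) / 2 * (1 + Real.log r) := by
  calc ∑ t ∈ range r, w3_A H r t ≤ ∑ t ∈ range (r + 2), w3_A H r t :=
        Finset.sum_le_sum_of_subset_of_nonneg (Finset.range_mono (by omega))
          (fun t _ _ => w3_A_nonneg hH r t)
    _ = 2 * H + (r : ℝ) / 2 * (harmonic r : ℝ) := w3_sumA H r r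
    _ ≤ _ := by
      have h := harmonic_le_one_add_log r
      have h2 : (0 : ℝ) ≤ (r : ℝ) / 2 := by positivity
      have := mul_le_mul_of_nonneg_left h h2
      linarith

private theorem w3_mn_le (H x : ℝ) : mn H x ≤ H := by
  unfold mn
  split_ifs
  · exact le_rfl
  · exact min_le_left _ _

private theorem w3_mn_nonneg {H : ℝ} (hH : 0 ≤ H) (x : ℝ) : 0 ≤ mn H x := by
  unfold mn
  split_ifs
  · exact hH
  · exact le_min hH (by positivity)

/-- a term with residue `t` -/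
private theorem w3_term {θ : ℝ} {a : ℤ} {r : ℕ} {H : ℝ} (hr : 0 < r)
    (hθ : |θ - a / r| ≤ 1 / (r : ℝ) ^ 2) (hH : 0 ≤ H) (v0 s : ℕ) (hs : s < r) :
    mn H (((v0 + s : ℕ) : ℝ) * θ) ≤
      w3_A H r (((⌊(v0 : ℝ) * θ * r⌋ + s * a) % (r : ℤ)).toNat) +
      w3_A H r (r - 1 - ((⌊(v0 : ℝ) * θ * r⌋ + s * a) % (r : ℤ)).toNat) := by
  have hr' : (0 : ℝ) < r := by exact_mod_cast hr
  have hrz : (0 : ℤ) < (r : ℤ) := by exact_mod_cast hr
  set m : ℤ := ⌊(v0 : ℝ) * θ * r⌋ with hm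
  set x : ℝ := ((v0 + s : ℕ) : ℝ) * θ with hx
  set t : ℕ := ((m + s * a) % (r : ℤ)).toNat with ht
  have ht0 : (t : ℤ) = (m + s * a) % (r : ℤ) :=
    Int.toNat_of_nonneg (Int.emod_nonneg _ hrz.ne')
  have htr : t < r := by
    have := Int.emod_lt_of_pos (m + s * a) hrz
    omega
  by_cases h1 : t < 2
  · have h2 : w3_A H r t = H := if_pos h1
    rw [h2]
    have := w3_A_nonneg hH r (r - 1 - t)
    linarith [w3_mn_le H x]
  by_cases h2 : r - 1 - t < 2
  · have h3 : w3_A H r (r - 1 - t) = H := if_pos h2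
    rw [h3]
    have := w3_A_nonneg hH r t
    linarith [w3_mn_le H x]
  -- the main case
  have hA1 : w3_A H r t = (r : ℝ) / (2 * ((t : ℝ) - 1)) := if_neg h1
  have hA2 : w3_A H r (r - 1 - t) = (r : ℝ) / (2 * ((r : ℝ) - t - 2)) := by
    unfold w3_A
    rw [if_neg h2]
    congr 2
    have h3 : r - 1 - t + (t + 1) = r := by omega
    have h4 : ((r - 1 - t : ℕ) : ℝ) + (t + 1) = r := by exact_mod_cast h3
    linarith
  have ht1 : (2 : ℝ) ≤ t := by exact_mod_cast (not_lt.1 h1)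
  have ht2 : (t : ℝ) + 3 ≤ r := by
    have : t + 3 ≤ r := by omega
    exact_mod_cast this
  set q : ℤ := (m + s * a) / (r : ℤ) with hq
  have hdiv : (r : ℤ) * q + t = m + s * a := by
    rw [ht0]
    exact Int.mul_ediv_add_emod _ _
  have hdivR : (r : ℝ) * q + t = m + s * a := by exact_mod_cast hdiv
  have hτ0 : (m : ℝ) ≤ (v0 : ℝ) * θ * r := Int.floor_le _
  have hτ1 : (v0 : ℝ) * θ * r < m + 1 := Int.lt_floor_add_one _
  set δ : ℝ := θ - a / r with hδ
  have hθr : θ * r = a + δ * r := by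
    rw [hδ]
    field_simp
    ring
  have hη : |(s : ℝ) * (δ * r)| ≤ 1 := by
    rw [abs_mul, abs_mul, abs_of_nonneg (Nat.cast_nonneg s), abs_of_pos hr']
    have hsr : (s : ℝ) ≤ r := by exact_mod_cast hs.le
    calc (s : ℝ) * (|δ| * r) ≤ r * (1 / (r : ℝ) ^ 2 * r) := by
          apply mul_le_mul hsr (mul_le_mul_of_nonneg_right hθ hr'.le) (by positivity) hr'.le
      _ = 1 := by field_simp
  obtain ⟨hη1, hη2⟩ := abs_le.1 hη
  have hxr : x * r = (v0 : ℝ) * θ * r + s * a + s * (δ * r) := by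
    rw [hx]
    push_cast
    have : ((v0 : ℝ) + s) * θ * r = (v0 : ℝ) * θ * r + s * (θ * r) := by ring
    rw [this, hθr]
    ring
  have key : (t : ℝ) - 1 ≤ |x - round x| * r ∨ (r : ℝ) - t - 2 ≤ |x - round x| * r := by
    have h5 : |x - round x| * r = |x * r - round x * r| := by
      rw [← sub_mul, abs_mul, abs_of_pos hr']
    rw [h5]
    rcases le_or_gt (round x) q with h6 | h6
    · left
      refine le_trans ?_ (le_abs_self _)
      have h7 : ((round x : ℤ) : ℝ) * r ≤ r * q := by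
        rw [mul_comm]
        exact mul_le_mul_of_nonneg_left (by exact_mod_cast h6) hr'.le
      linarith
    · right
      refine le_trans ?_ (neg_le_abs _)
      have h7 : (q : ℝ) + 1 ≤ ((round x : ℤ) : ℝ) := by exact_mod_cast h6
      have h8 : (r : ℝ) * (q + 1) ≤ ((round x : ℤ) : ℝ) * r := by
        rw [mul_comm ((round x : ℤ) : ℝ)]
        exact mul_le_mul_of_nonneg_left h7 hr'.le
      linarith
  have hpos : 0 < |x - round x| * r := by
    rcases key with h | h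
    · linarith
    · linarith
  have hne : x ≠ round x := by
    intro h
    have h6 : x - round x = 0 := sub_eq_zero.2 h
    rw [h6] at hpos
    simp at hpos
  have hmn : mn H x ≤ 1 / (2 * |x - round x|) := by
    unfold mn
    rw [if_neg hne]
    exact min_le_right _ _
  have hd : 1 / (2 * |x - round x|) = r / (2 * (|x - round x| * r)) := by
    have h6 : |x - round x| ≠ 0 := by
      intro h
      rw [h] at hpos
      simp at hpos
    field_simp
  rw [hA1, hA2]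
  have hp1 : 0 ≤ (r : ℝ) / (2 * ((t : ℝ) - 1)) := div_nonneg hr'.le (by linarith)
  have hp2 : 0 ≤ (r : ℝ) / (2 * ((r : ℝ) - t - 2)) := div_nonneg hr'.le (by linarith)
  rw [hd] at hmn
  rcases key with h | h
  · have h6 : (r : ℝ) / (2 * (|x - round x| * r)) ≤ (r : ℝ) / (2 * ((t : ℝ) - 1)) :=
      div_le_div_of_nonneg_left hr'.le (by linarith) (by linarith)
    linarith
  · have h6 : (r : ℝ) / (2 * (|x - round x| * r)) ≤ (r : ℝ) / (2 * ((r : ℝ) - t - 2)) :=
      div_le_div_of_nonneg_left hr'.le (by linarith) (by linarith)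
    linarith

/-- one block -/
private theorem w3_block {θ : ℝ} {a : ℤ} {r : ℕ} {H : ℝ} (hr : 0 < r) (ha : IsCoprime a (r : ℤ))
    (hθ : |θ - a / r| ≤ 1 / (r : ℝ) ^ 2) (hH : 0 ≤ H) (v0 : ℕ) :
    ∑ s ∈ range r, mn H (((v0 + s : ℕ) : ℝ) * θ) ≤ 4 * H + r * (1 + Real.log r) := by
  have hrz : (0 : ℤ) < (r : ℤ) := by exact_mod_cast hr
  set T : ℕ → ℕ := fun s => ((⌊(v0 : ℝ) * θ * r⌋ + s * a) % (r : ℤ)).toNat with hT
  have hinj : Set.InjOn T (range r : Set ℕ) := by
    intro s hs s' hs' h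
    rw [Finset.coe_range, Set.mem_Iio] at hs hs'
    have h1 : ((⌊(v0 : ℝ) * θ * r⌋ + s * a) % (r : ℤ)) = ((⌊(v0 : ℝ) * θ * r⌋ + s' * a) % (r : ℤ)) := by
      have e1 := Int.emod_nonneg (⌊(v0 : ℝ) * θ * r⌋ + s * a) hrz.ne'
      have e2 := Int.emod_nonneg (⌊(v0 : ℝ) * θ * r⌋ + s' * a) hrz.ne'
      have h : ((⌊(v0 : ℝ) * θ * r⌋ + s * a) % (r : ℤ)).toNat =
        ((⌊(v0 : ℝ) * θ * r⌋ + s' * a) % (r : ℤ)).toNat := h
      omega
    have h2 : (r : ℤ) ∣ ((s : ℤ) - s') * a := by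
      have h3 := Int.emod_emod_of_dvd
      have h4 : (r : ℤ) ∣ (⌊(v0 : ℝ) * θ * r⌋ + s * a) - (⌊(v0 : ℝ) * θ * r⌋ + s' * a) :=
        Int.dvd_of_emod_eq_zero (Int.emod_eq_emod_iff_emod_sub_eq_zero.1 h1)
      have h5 : (⌊(v0 : ℝ) * θ * r⌋ + s * a) - (⌊(v0 : ℝ) * θ * r⌋ + s' * a) =
        ((s : ℤ) - s') * a := by ring
      rwa [h5] at h4
    have h3 : (r : ℤ) ∣ (s : ℤ) - s' := ha.symm.dvd_of_dvd_mul_right h2
    have h4 : (s : ℤ) - s' = 0 := by
      apply Int.eq_zero_of_abs_lt_dvd h3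
      rw [abs_lt]
      constructor <;> omega
    omega
  have himg : (range r).image T ⊆ range r := by
    intro t ht
    obtain ⟨s, _, rfl⟩ := Finset.mem_image.1 ht
    rw [Finset.mem_range]
    have e1 := Int.emod_nonneg (⌊(v0 : ℝ) * θ * r⌋ + s * a) hrz.ne'
    have e2 := Int.emod_lt_of_pos (⌊(v0 : ℝ) * θ * r⌋ + s * a) hrz
    change ((⌊(v0 : ℝ) * θ * r⌋ + s * a) % (r : ℤ)).toNat < r
    omega
  calc ∑ s ∈ range r, mn H (((v0 + s : ℕ) : ℝ) * θ)
      ≤ ∑ s ∈ range r, (w3_A H r (T s) + w3_A H r (r - 1 - T s)) :=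
        Finset.sum_le_sum fun s hs => w3_term hr hθ hH v0 s (Finset.mem_range.1 hs)
    _ = ∑ t ∈ (range r).image T, (w3_A H r t + w3_A H r (r - 1 - t)) :=
        (Finset.sum_image (f := fun t => w3_A H r t + w3_A H r (r - 1 - t)) hinj).symm
    _ ≤ ∑ t ∈ range r, (w3_A H r t + w3_A H r (r - 1 - t)) :=
        Finset.sum_le_sum_of_subset_of_nonneg himg fun t _ _ =>
          add_nonneg (w3_A_nonneg hH r t) (w3_A_nonneg hH r _)
    _ = 2 * ∑ t ∈ range r, w3_A H r t := by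
        rw [Finset.sum_add_distrib, Finset.sum_range_reflect (fun t => w3_A H r t) r]
        ring
    _ ≤ 4 * H + r * (1 + Real.log r) := by
        have := w3_sumA_le hH r
        linarith

private theorem w3_blocks {θ : ℝ} {a : ℤ} {r : ℕ} {H : ℝ} (hr : 0 < r) (ha : IsCoprime a (r : ℤ))
    (hθ : |θ - a / r| ≤ 1 / (r : ℝ) ^ 2) (hH : 0 ≤ H) (K : ℕ) :
    ∑ v ∈ range (K * r), mn H (((1 + v : ℕ) : ℝ) * θ) ≤ K * (4 * H + r * (1 + Real.log r)) := by
  induction K with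
  | zero => simp
  | succ K ih =>
    rw [add_mul, one_mul, Finset.sum_range_add]
    have h := w3_block hr ha hθ hH (1 + K * r)
    have h2 : ∑ s ∈ range r, mn H (((1 + K * r + s : ℕ) : ℝ) * θ) =
        ∑ s ∈ range r, mn H (((1 + (K * r + s) : ℕ) : ℝ) * θ) := by
      refine Finset.sum_congr rfl fun s _ => ?_
      rw [add_assoc]
    rw [h2] at h
    push_cast at ih h ⊢
    linarith

theorem sw3 : SW3 := by
  intro θ a r V H hr ha hθ hH
  have hr' : (0 : ℝ) < r := by exact_mod_cast hr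
  have hr1 : (1 : ℝ) ≤ r := by exact_mod_cast hr
  have hlog : 0 ≤ Real.log r := Real.log_nonneg hr1
  set K : ℕ := V / r + 1 with hK
  have hV : V ≤ K * r := by
    have := Nat.lt_div_mul_add (a := V) hr
    rw [hK, add_mul, one_mul]
    exact this.le
  have h1 : ∑ v ∈ Icc 1 V, mn H ((v : ℝ) * θ) ≤
      ∑ v ∈ range (K * r), mn H (((1 + v : ℕ) : ℝ) * θ) := by
    have h2 : ∑ v ∈ Icc 1 V, mn H ((v : ℝ) * θ) =
        ∑ v ∈ range V, mn H (((1 + v : ℕ) : ℝ) * θ) := by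
      rw [← Finset.Ico_succ_right_eq_Icc, Finset.sum_Ico_eq_sum_range]
      simp
    rw [h2]
    exact Finset.sum_le_sum_of_subset_of_nonneg (Finset.range_mono hV)
      fun v _ _ => w3_mn_nonneg hH _
  refine (h1.trans (w3_blocks hr ha hθ hH K)).trans ?_
  have hKR : (K : ℝ) ≤ (V : ℝ) / r + 1 := by
    rw [hK]
    push_cast
    have : ((V / r : ℕ) : ℝ) ≤ (V : ℝ) / r := Nat.cast_div_le
    linarith
  have hB : 0 ≤ r * (1 + Real.log r) := by positivity
  have hVr : 0 ≤ (V : ℝ) / r + 1 := by positivity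
  calc (K : ℝ) * (4 * H + r * (1 + Real.log r))
      ≤ ((V : ℝ) / r + 1) * (4 * H + r * (1 + Real.log r)) :=
        mul_le_mul_of_nonneg_right hKR (by linarith)
    _ ≤ ((V : ℝ) / r + 1) * (6 * (H + r * (1 + Real.log r))) :=
        mul_le_mul_of_nonneg_left (by linarith) hVr
    _ = _ := by ring

end Pool.Agent.SP80
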