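import Mathlib
import Pool.Agent.Lib.MP_0da313_nt.BV.DefsL

/-!
Project SP (MP_1e1427_nt, StrongProbablePrime): definitions.

Setting.  `M = Mw w = 8 ∏_{3 ≤ p ≤ w} p`, `g = M/2`, `q = q0 + M i`, `c = c0 + M j`, `d = d0 + M k`, and
`q² + ((q+1)/2)² + c² + d² = F0 + 2 M (A i + P j + D k)` with `A = qd al ga`, `P = qd c0 g`,
`D = qd d0 g`, `al = (5 q0 + 1)/4`, `ga = 5 (M/8)`.
-/

namespace Pool.Agent.SP80

open Finset MeasureTheory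

/-- `exp(2πix)` -/
noncomputable def ex (x : ℝ) : ℂ := Complex.exp ((2 * Real.pi * x : ℝ) * Complex.I)

/-- the quadratic polynomial `b j + g j²` -/
def qd (b g j : ℕ) : ℕ := b * j + g * j ^ 2

/-- quadratic Weyl sum over `j0 ≤ j < j0 + H` -/
noncomputable def WS (b g j0 H : ℕ) (θ : ℝ) : ℂ :=
  ∑ j ∈ Finset.Ico j0 (j0 + H), ex ((qd b g j : ℝ) * θ)

/-- weighted exponential sum -/
noncomputable def SS (w : ℕ → ℝ) (I : ℕ) (P : ℕ → ℕ) (θ : ℝ) : ℂ :=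
  ∑ i ∈ Finset.range I, (w i : ℂ) * ex ((P i : ℝ) * θ)

/-- quadratic Gauss sum modulo `r` -/
noncomputable def GS (a : ℤ) (b g r : ℕ) : ℂ :=
  ∑ j ∈ Finset.range r, ex ((a : ℝ) * (qd b g j : ℝ) / r)

/-- `min (H, 1/(2 ‖x‖))`, `‖x‖` the distance to the nearest integer; `H` if `x` is an integer -/
noncomputable def mn (H x : ℝ) : ℝ := if x = round x then H else min H (1 / (2 * |x - round x|))

/-- the oscillatory integral -/
noncomputable def OI (b g j0 H : ℕ) (β : ℝ) : ℂ :=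
  ∫ x in (j0 : ℝ)..((j0 : ℝ) + H), ex (β * ((b : ℝ) * x + (g : ℝ) * x ^ 2))

/-- `min (H, 1/(π κ |β|))`, and `H` for `β = 0` -/
noncomputable def mb (H κ β : ℝ) : ℝ := if β = 0 then H else min H (1 / (Real.pi * κ * |β|))

/-- number of solutions of `A i + D k = A i' + D k'` below `N` -/
def QC (α γ d g N : ℕ) : ℕ :=
  (((range N ×ˢ range N) ×ˢ (range N ×ˢ range N)).filter
    (fun x => qd α γ x.1.1 + qd d g x.1.2 = qd α γ x.2.1 + qd d g x.2.2)).card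

/-- weighted number of representations of `t` -/
noncomputable def RR (w : ℕ → ℝ) (I α γ c d g j0 H : ℕ) (t : ℤ) : ℝ :=
  ∑ i ∈ range I, ∑ j ∈ Ico j0 (j0 + H), ∑ k ∈ Ico j0 (j0 + H),
    if ((qd α γ i + qd c g j + qd d g k : ℕ) : ℤ) = t then w i else 0

/-- its average over `[t - L, t + L]` -/
noncomputable def Rav (w : ℕ → ℝ) (I α γ c d g j0 H L : ℕ) (t : ℤ) : ℝ :=
  (∑ h ∈ Icc (-(L : ℤ)) L, RR w I α γ c d g j0 H (t + h)) / (2 * L + 1)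

/-- the kernel of the average -/
noncomputable def phi (L : ℕ) (θ : ℝ) : ℂ :=
  (∑ h ∈ Icc (-(L : ℤ)) L, ex (-(h : ℝ) * θ)) / (2 * L + 1)

/-- the integrand -/
noncomputable def Phi (w : ℕ → ℝ) (I α γ c d g j0 H L : ℕ) (θ : ℝ) : ℝ :=
  (‖SS w I (qd α γ) θ‖ * ‖WS c g j0 H θ‖ * ‖WS d g j0 H θ‖ * ‖1 - phi L θ‖) ^ 2

/-- the modulus -/
def Mw (w : ℕ) : ℕ := 8 * ∏ p ∈ (Icc 3 w).filter Nat.Prime, p

/-- length of the ranges of `j` and `k` -/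
noncomputable def Hz (M : ℕ) (Z : ℝ) : ℕ := ⌊Z / (10 * M)⌋₊

/-- centre of the window of the primes -/
noncomputable def yZ (Z : ℝ) : ℝ := Real.sqrt (7 / 5) * Z

/-- the weights -/
noncomputable def wt (M q0 : ℕ) (Z : ℝ) (i : ℕ) : ℝ :=
  if (q0 + M * i).Prime then
    Real.log ((q0 + M * i : ℕ) : ℝ) * BVall.OmL 2000 (yZ Z) (q0 + M * i) else 0

/-- total weight -/
noncomputable def Om (M q0 : ℕ) (Z : ℝ) : ℝ := ∑ i ∈ range (20 * Hz M Z), wt M q0 Z i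

/-- half-length of the averages -/
noncomputable def Lz (M : ℕ) (ε : ℝ) (Z : ℝ) : ℕ := ⌊ε * Z ^ 2 / (2 * M)⌋₊

/-- bound for the major denominators -/
noncomputable def Kz (Z : ℝ) : ℕ := ⌊(Real.log Z) ^ 10⌋₊

/-- `q0² + ((q0+1)/2)² + c0² + d0²` -/
def F0 (q0 c0 d0 : ℕ) : ℕ := q0 ^ 2 + ((q0 + 1) / 2) ^ 2 + c0 ^ 2 + d0 ^ 2

/-- the representation function at scale `Z` -/
noncomputable def RZ (M q0 c0 d0 : ℕ) (Z : ℝ) (t : ℤ) : ℝ :=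
  RR (wt M q0 Z) (20 * Hz M Z) ((5 * q0 + 1) / 4) (5 * (M / 8)) c0 d0 (M / 2) (3 * Hz M Z) (Hz M Z) t

/-- its average at scale `Z` -/
noncomputable def RavZ (M q0 c0 d0 : ℕ) (ε Z : ℝ) (t : ℤ) : ℝ :=
  Rav (wt M q0 Z) (20 * Hz M Z) ((5 * q0 + 1) / 4) (5 * (M / 8)) c0 d0 (M / 2) (3 * Hz M Z) (Hz M Z)
    (Lz M ε Z) t

/-- the set of the primes `q = 3 mod 8`, `3 q² ≥ 4 n`, for which
`2 n = q² + ((q+1)/2)² + c² + d²` has a solution with `c` odd, `d` even, `c ≤ q`, `2 d ≤ q + 1` -/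
noncomputable def Qs (n : ℕ) : Finset ℕ := by
  classical
  exact (range (2 * n + 1)).filter (fun q => q.Prime ∧ q % 8 = 3 ∧ 4 * n ≤ 3 * q ^ 2 ∧
    ∃ c d : ℕ, Odd c ∧ Even d ∧ c ≤ q ∧ 2 * d ≤ q + 1 ∧
      2 * n = q ^ 2 + ((q + 1) / 2) ^ 2 + c ^ 2 + d ^ 2)

end Pool.Agent.SP80
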