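import Mathlib
import Pool.Agent.Lib.MP_1e1427_nt.SP.Defs

/-!
Project SP (MP_1e1427_nt, StrongProbablePrime): statements of the pieces, with proofs in words.
-/

namespace Pool.Agent.SP80

open Finset MeasureTheory Filter Topology

/-- Geometric sum.  `|1 - ex x| = 2 |sin π x| ≥ 4 ‖x‖` (`‖x‖ = |x - round x|`, concavity of the sine:
`Real.mul_le_sin` or `two_div_pi_mul_le_sin`) and `∑_{j0 ≤ j < j0+N} ex (j x) = ex(j0 x)(1 - ex (N x))/(1 - ex x)`,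
so the norm is `≤ 2/(4‖x‖)`; trivially it is `≤ N`. -/
def SW1 : Prop := ∀ (j0 N : ℕ) (x : ℝ), ‖∑ j ∈ Ico j0 (j0 + N), ex ((j : ℝ) * x)‖ ≤ mn N x

/-- Weyl differencing.  `‖WS‖² = ∑_{j,j'} ex ((P j' - P j) θ)`; the diagonal gives `H`, the pairs
`j' = j + u` and `j = j' + u` (`1 ≤ u < H`) give conjugate sums
`ex((b u + g u²)θ) ∑_{j0 ≤ j < j0+H-u} ex (j · 2 g u θ)`, of norm `≤ mn (H-u) (2guθ) ≤ mn H (2guθ)` by `SW1`. -/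
def SW2 : Prop := ∀ (b g j0 H : ℕ) (θ : ℝ),
  ‖WS b g j0 H θ‖ ^ 2 ≤ H + 2 * ∑ u ∈ Ico 1 H, mn H (((2 * g * u : ℕ) : ℝ) * θ)

/-- Block counting.  Cut `[1,V]` into at most `V/r + 1` blocks of `≤ r` consecutive integers
`v = v0 + s`, `0 ≤ s < r`.  Write `v0 θ = (m + τ)/r`, `m ∈ ℤ`, `0 ≤ τ < 1`, `θ = a/r + δ`, `|s δ| ≤ 1/r`.
Then `v θ = (m + s a + τ + η_s)/r`, `|η_s| ≤ 1`, and `t = (m + s a) mod r` runs over each residue at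
most once.  So `‖v θ‖ ≥ min (t-1, r-t-2)/r` for `2 ≤ t ≤ r-3`; the four other residues `t` contribute
`≤ H` each, the rest `≤ ∑_{2≤t≤r-3} (r/(2(t-1)) + r/(2(r-t-2))) ≤ r (1 + log r)` (`harmonic_le_one_add_log`). -/
def SW3 : Prop := ∀ (θ : ℝ) (a : ℤ) (r V : ℕ) (H : ℝ), 0 < r → IsCoprime a (r : ℤ) →
  |θ - a / r| ≤ 1 / (r : ℝ) ^ 2 → 0 ≤ H →
  ∑ v ∈ Icc 1 V, mn H ((v : ℝ) * θ) ≤ 6 * ((V : ℝ) / r + 1) * (H + r * (1 + Real.log r))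

/-- Weyl's inequality from `SW2` and `SW3` with `V = 2 g H`: the integers `2 g u`, `1 ≤ u < H`, are
distinct elements of `[1, 2gH]` and `mn ≥ 0`. -/
def SW4 : Prop := ∀ (b g j0 H : ℕ) (θ : ℝ) (a : ℤ) (r : ℕ), 0 < r → IsCoprime a (r : ℤ) →
  |θ - a / r| ≤ 1 / (r : ℝ) ^ 2 → 1 ≤ g → 1 ≤ H →
  ‖WS b g j0 H θ‖ ^ 2 ≤ 50 * ((g : ℝ) * H / r + 1) * (H + r * (1 + Real.log r))

/-- A sum over a progression against the integral.  Let `F x = ex (β (b x + g x²))`,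
`‖F'‖ ≤ Δ = 2π|β|(b + 2 g (j0+H))` on `[j0, j0+H]`.  Let `j_1 < … < j_m` be the elements `≡ e mod r`.
For `l < m`: `‖F(j_l) - (1/r)∫_{j_l}^{j_l + r} F‖ ≤ r Δ`, in total `≤ (m-1) r Δ ≤ H Δ`.  The rest,
`F(j_m)`, `(1/r)∫_{j_m}^{j0+H} F` and `(1/r)∫_{j0}^{j_1} F`, is `≤ 3`.  (If `m = 0` then `H < r` and
the integral is at most `r`.) -/
def SM1 : Prop := ∀ (b g j0 H r e : ℕ) (β : ℝ), 0 < r → e < r →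
  ‖(∑ j ∈ (Ico j0 (j0 + H)).filter (fun j => j % r = e), ex (β * (qd b g j : ℝ))) -
      (1 / (r : ℂ)) * OI b g j0 H β‖ ≤
    3 + 4 * Real.pi * |β| * H * ((b : ℝ) + 2 * g * ((j0 : ℝ) + H))

/-- First derivative test.  With `φ(x) = 2πβ(b x + g x²)`, `φ' = 2πβ(b + 2 g x)` is monotone and does not
vanish on `[j0, j0+H]`; `∫ e^{iφ} = [e^{iφ}/(iφ')] + ∫ e^{iφ} φ''/(iφ'²)` (integration by parts), and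
`∫ |φ''|/φ'^2 = |1/φ'(j0) - 1/φ'(j0+H)|`, so the norm is `≤ 2/|φ'(j0)| = 1/(π|β|(b + 2 g j0))`.
The bound `≤ H` is trivial. -/
def SM2 : Prop := ∀ (b g j0 H : ℕ) (β : ℝ), ‖OI b g j0 H β‖ ≤ H ∧
  (β ≠ 0 → 0 < b + 2 * g * j0 →
    ‖OI b g j0 H β‖ ≤ 1 / (Real.pi * |β| * ((b : ℝ) + 2 * g * j0)))

/-- `WS` near `a/r`: split `WS` into the classes `j ≡ e mod r`, on which
`ex (qd j (a/r + β)) = ex (a qd(e)/r) ex (β qd j)` (as `qd j ≡ qd e mod r`), and apply `SM1` to each. -/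
def SM3 : Prop := ∀ (b g j0 H r : ℕ) (a : ℤ) (β : ℝ), 0 < r →
  ‖WS b g j0 H ((a : ℝ) / r + β) - GS a b g r / r * OI b g j0 H β‖ ≤
    r * (3 + 4 * Real.pi * |β| * H * ((b : ℝ) + 2 * g * ((j0 : ℝ) + H)))

/-- Gauss sum with odd modulus coprime to `g` and `a`:
`‖GS‖² = ∑_{u mod r} ex (a (b u + g u²)/r) ∑_{j mod r} ex (2 g a u j/r) = r` (only `u = 0` survives). -/
def SG1 : Prop := ∀ (a : ℤ) (b g r : ℕ), 0 < r → Nat.Coprime (2 * g) r → IsCoprime a (r : ℤ) →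
  ‖GS a b g r‖ ^ 2 = r

/-- Vanishing Gauss sum.  `p ∣ r`, `p ∣ g`, `p ∤ a b`.  The summand is `r`-periodic in `j`; replacing
`j` by `j + (r/p) l` multiplies it by `ex (a b l/p)` [since `2 g j (r/p) l a / r = 2 (g/p) j l a ∈ ℤ` and
`g (r/p)² l² a/r = (g/p) (r/p) l² a ∈ ℤ`].  So `GS = GS · ex (a b/p)` with `ex (a b/p) ≠ 1`. -/
def SG2 : Prop := ∀ (a : ℤ) (b g r p : ℕ), 0 < r → p.Prime → p ∣ r → p ∣ g → IsCoprime a (r : ℤ) →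
  ¬ p ∣ b → GS a b g r = 0

/-- Major arcs, good denominators, from `SM2`, `SM3`, `SG1` (`j0 = 3 H`, `b + 2 g · 3 H ≥ 6 g H`;
`‖GS‖/r = 1/√r`; if `β = 0` use `‖OI‖ ≤ H`). -/
def SM4 : Prop := ∀ (b g H r : ℕ) (a : ℤ) (β : ℝ), 0 < r → 1 ≤ g → 1 ≤ H → Nat.Coprime (2 * g) r →
  IsCoprime a (r : ℤ) →
  ‖WS b g (3 * H) H ((a : ℝ) / r + β)‖ ≤ mb H (6 * g * H) β / Real.sqrt r +
    r * (3 + 4 * Real.pi * |β| * H * ((b : ℝ) + 8 * g * H))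

/-- Major arcs, denominators with a prime factor `p` of `g`, `p ∤ b`, from `SM3`, `SG2`. -/
def SM5 : Prop := ∀ (b g H r p : ℕ) (a : ℤ) (β : ℝ), 0 < r → p.Prime → p ∣ r → p ∣ g →
  ¬ p ∣ b → IsCoprime a (r : ℤ) →
  ‖WS b g (3 * H) H ((a : ℝ) / r + β)‖ ≤
    r * (3 + 4 * Real.pi * |β| * H * ((b : ℝ) + 8 * g * H))

/-- Orthogonality over `a mod r`: expand the square, `∑_{a<r} ex (a (P i - P i')/r) = r` if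
`r ∣ P i - P i'` and `0` otherwise. -/
def SA1 : Prop := ∀ (w : ℕ → ℝ) (I : ℕ) (P : ℕ → ℕ) (r : ℕ) (β : ℝ), 0 < r → (∀ i, 0 ≤ w i) →
  ∑ a ∈ range r, ‖SS w I P ((a : ℝ) / r + β)‖ ^ 2 ≤
    r * ∑ i ∈ range I, ∑ i' ∈ range I, if P i % r = P i' % r then w i * w i' else 0

/-- Pairs with `A i ≡ A i' mod r`, `A = qd α γ`, `gcd(2γ, r) = 1`.  Whether `A i ≡ A i'` depends on the
classes `e = i mod r`, `e' = i' mod r` only, so the sum is `≤ D² #{(e,e') ∈ [0,r)² : A e ≡ A e' mod r}`.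
As `A e - A e' = (e - e')(α + γ(e+e'))` and `(e,e') ↦ (u,v) = (e - e', α + γ(e+e'))` is a bijection of
`(ZMod r)²`, the number is `#{(u,v) : u v = 0 in ZMod r} = ∑_{u mod r} gcd(u,r) ≤ τ(r) r`
(`∑_{u<r} gcd(u,r) = ∑_{d∣r} d φ(r/d) ≤ ∑_{d ∣ r} d (r/d)`). -/
def SA2 : Prop := ∀ (w : ℕ → ℝ) (I α γ r : ℕ) (D : ℝ), 0 < r → Nat.Coprime (2 * γ) r →
  (∀ i, 0 ≤ w i) → (∀ e < r, ∑ i ∈ (range I).filter (fun i => i % r = e), w i ≤ D) →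
  (∑ i ∈ range I, ∑ i' ∈ range I, if qd α γ i % r = qd α γ i' % r then w i * w i' else 0) ≤
    (r.divisors.card : ℝ) * r * D ^ 2

/-- Parseval for a finite family of integer frequencies (expand the square,
`∫_0^1 ex (m θ) dθ = [m = 0]`). -/
def SPP : Prop := ∀ (ι : Type) (S : Finset ι) (c : ι → ℝ) (P : ι → ℤ),
  ∫ θ in (0 : ℝ)..1, ‖∑ x ∈ S, (c x : ℂ) * ex ((P x : ℝ) * θ)‖ ^ 2 =
    ∑ x ∈ S, ∑ y ∈ S, if P x = P y then c x * c y else 0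

/-- The additive energy type count.  `A = qd α γ`, `D = qd d g`.  If `i = i'` then `D k = D k'`, so
`k = k'` (strict monotonicity, `g > 0`): `N²` solutions; similarly if `k = k'`.  Otherwise, for given
`k ≠ k'`, `m = |D k - D k'| ≠ 0` and `i, i'` satisfy `|i - i'| · (α + γ(i+i')) = m`, so `|i-i'|` is a
divisor of `m` and it determines `i + i'` (`γ > 0`): at most `2 τ(m)` pairs.  Moreover
`m = u v`, `u = |k - k'|`, `v = d + g(k+k')`, `τ(m) ≤ τ(u) τ(v) ≤ τ(u)² + τ(v)²`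
(`Pool.Agent.MP89da58...card_divisors_mul_le` in `Pool.Agent.Lib.MP_89da58_nt.LargeArith`), and
`∑_{n ≤ X} τ(n)² ≤ X (1 + log X)³` (`sum_tau_sq`, same file) with `X = N` (each `u` occurs for `≤ 2 N`
pairs) and `X = d + 2 g N` (each `v` occurs for `≤ N` pairs); `1 + log (d + 2 g N) ≤ C (1 + log N)`. -/
def SF : Prop := ∀ (α γ d g : ℕ), 0 < γ → 0 < g → ∃ C : ℝ, 0 < C ∧ ∀ N : ℕ, 2 ≤ N →
  (QC α γ d g N : ℝ) ≤ C * (N : ℝ) ^ 2 * (1 + Real.log N) ^ 3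

/-- Moment: from `SPP` with `ι = ℕ × ℕ`, `S = range I ×ˢ Ico j0 (j0+H)`, `c (i,k) = w i`,
`P (i,k) = A i + D k`: the integral is `∑ over the solutions w i w i' ≤ W² QC`. -/
def SMom : Prop := ∀ (w : ℕ → ℝ) (I α γ d g j0 H N : ℕ) (W : ℝ), (∀ i, 0 ≤ w i) →
  (∀ i, w i ≤ W) → I ≤ N → j0 + H ≤ N →
  ∫ θ in (0 : ℝ)..1, (‖SS w I (qd α γ) θ‖ * ‖WS d g j0 H θ‖) ^ 2 ≤ W ^ 2 * QC α γ d g N

/-- Variance: `SS · WS_c · WS_d = ∑_t RR(t) ex (t θ)` and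
`∑_t (RR t - Rav t) ex (t θ) = SS · WS_c · WS_d · (1 - phi L θ)` (sums over all `t` in a large interval of
`ℤ`, outside of which `RR` and `Rav` vanish; `∑_t RR (t+h) ex (t θ) = ex (-h θ) ∑_t RR t ex (t θ)`).
Then `SPP` with `ι = ℤ`, `P = id`, and drop the `t ∉ T`. -/
def SV1 : Prop := ∀ (w : ℕ → ℝ) (I α γ c d g j0 H L : ℕ) (T : Finset ℤ),
  ∑ t ∈ T, (RR w I α γ c d g j0 H t - Rav w I α γ c d g j0 H L t) ^ 2 ≤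
    ∫ θ in (0 : ℝ)..1, Phi w I α γ c d g j0 H L θ

/-- The kernel: `‖phi‖ ≤ 1`; `‖1 - ex x‖ ≤ 2π|x|`, so `‖1 - phi L β‖ ≤ 2π L |β|`; and `phi` has period 1. -/
def SFL : Prop := ∀ (L : ℕ) (θ : ℝ), ‖1 - phi L θ‖ ≤ 2 ∧ ‖1 - phi L θ‖ ≤ 2 * Real.pi * L * |θ| ∧
  phi L (θ + 1) = phi L θ

/-- Integrals of `mb⁴`.  Full: on `|β| ≤ b0 = 1/(πκH)` the integrand is `H⁴`, beyond it `(πκ|β|)^(-4)`:
total `≤ (8/(3π)) H³/κ`.  Tail: `∫_{b1}^∞ (πκβ)^(-4) = 1/(3 (πκ)⁴ b1³)`. -/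
def SOI : Prop := ∀ (H κ X : ℝ), 0 < H → 0 < κ → 0 ≤ X →
  (∫ β in (-X)..X, (mb H κ β) ^ 4 ≤ H ^ 3 / κ) ∧
  (∀ b1 : ℝ, 0 < b1 → b1 ≤ X → ∫ β in b1..X, (mb H κ β) ^ 4 ≤ 1 / (κ ^ 4 * b1 ^ 3))

/-- Dissection.  By Dirichlet (`Real.exists_rat_abs_sub_le_and_den_le`), every `θ ∈ [0,1]` has
`a/r`, `1 ≤ r ≤ Q`, `gcd (a,r) = 1`, `|θ - a/r| ≤ 1/(r (Q+1))`, and then `0 ≤ a ≤ r`.  If `r ∉ R` then
`f θ ≤ Bs G θ`; if `r ∈ R` then `θ` is in the interval of radius `1/(r Q)` around `a/r`.  So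
`f θ ≤ Bs G θ + ∑_{r ∈ R} ∑_a f θ · 1[|θ - a/r| ≤ 1/(rQ)]` on `[0,1]`; integrate, and shift
(`intervalIntegral.integral_comp_add_left` …); `f` is nonnegative and continuous. -/
def SD1 : Prop := ∀ (f G : ℝ → ℝ) (R : Finset ℕ) (Q : ℕ) (Bs : ℝ), Continuous f → Continuous G →
  (∀ x, 0 ≤ f x) → (∀ x, 0 ≤ G x) → (∀ r ∈ R, 0 < r) → 0 < Q → 0 ≤ Bs →
  (∀ θ ∈ Set.Icc (0 : ℝ) 1, ∀ (a : ℤ) (r : ℕ), 0 < r → r ≤ Q → r ∉ R → IsCoprime a (r : ℤ) →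
    |θ - a / r| ≤ 1 / ((r : ℝ) * (Q + 1)) → f θ ≤ Bs * G θ) →
  ∫ θ in (0 : ℝ)..1, f θ ≤ Bs * (∫ θ in (0 : ℝ)..1, G θ) +
    ∑ r ∈ R, ∑ a ∈ (range (r + 1)).filter (fun a => Nat.Coprime a r),
      ∫ β in (-(1 / ((r : ℝ) * Q)))..(1 / ((r : ℝ) * Q)), f ((a : ℝ) / r + β)

/-- Assembly of the circle method.  Apply `SD1` to `f = Phi`, `G = (‖SS‖ ‖WS_d‖)²`, with `Bs` replaced by
`4 Bs` and `R` the set of the `r ∈ [1,K]` coprime to `g`; `f θ = G θ ‖WS_c‖² ‖1-φ‖² ≤ 4 Bs G θ` when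
`‖WS_c θ‖² ≤ Bs`.  Minor denominators: `r > K`: `SW4`; `r ≤ K`, `gcd (r,g) > 1`: `SM5` with
`|β| ≤ 1/(rQ)` gives `‖WS_c‖ ≤ E`.  `∫G`: `SMom`.
`r ∈ R`, `r ≥ 2` (then `a < r`): by `SM4` (for `c` and for `d`) and `(x+y)⁴ ≤ 8(x⁴+y⁴)`,
`∑_a ∫ f(a/r+β) ≤ ∫ 4 (8 mb⁴/r² + 8 E⁴) ∑_{a<r} ‖SS(a/r+β)‖² dβ`, and by `SA1`, `SA2`
`∑_{a<r} ‖SS‖² ≤ r · τ(r) r D_r²`, `D_r = 2Ω/φ(r)`; `∫ mb⁴ ≤ H³/(6gH)` by `SOI`.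
`r = 1` (`a = 0` and `a = 1`, equal by periodicity): `‖SS‖ ≤ Ω`, and `‖1-φ‖ ≤ 2πL b1` for `|β| ≤ b1`,
`‖1-φ‖ ≤ 2` for `b1 ≤ |β| ≤ 1/Q` where `∫ mb⁴ ≤ 2/((6gH)⁴ b1³)`. -/
def SV2 : Prop := ∀ (w : ℕ → ℝ) (I α γ c d g H L K Q : ℕ) (W Ω E Bs b1 : ℝ) (T : Finset ℤ),
  (∀ i, 0 ≤ w i) → (∀ i, w i ≤ W) → I = 20 * H → 1 ≤ H → 1 ≤ g → 2 ∣ g → 1 ≤ K → 1 ≤ Q →
  (∀ p : ℕ, p.Prime → p ∣ g → ¬ p ∣ c) →
  (∀ r : ℕ, Nat.Coprime r g → Nat.Coprime (2 * γ) r) →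
  Ω = ∑ i ∈ range I, w i →
  (∀ r : ℕ, 0 < r → r ≤ K → Nat.Coprime r g → ∀ e < r,
    ∑ i ∈ (range I).filter (fun i => i % r = e), w i ≤ 2 * Ω / (Nat.totient r : ℝ)) →
  3 * (K : ℝ) + 13 * H * ((c : ℝ) + d + 8 * g * H) / Q ≤ E → E ^ 2 ≤ Bs →
  (∀ r : ℕ, K < r → r ≤ Q → 50 * ((g : ℝ) * H / r + 1) * (H + r * (1 + Real.log r)) ≤ Bs) →
  0 < b1 → b1 * Q ≤ 1 →
  ∑ t ∈ T, (RR w I α γ c d g (3 * H) H t - Rav w I α γ c d g (3 * H) H L t) ^ 2 ≤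
    4 * Bs * W ^ 2 * QC α γ d g (20 * H) +
    Ω ^ 2 * (22 * ((H : ℝ) ^ 2 / g) *
        (∑ r ∈ (Icc 2 K).filter (fun r => Nat.Coprime r g),
          (r.divisors.card : ℝ) / (Nat.totient r : ℝ) ^ 2) +
      256 * E ^ 4 / Q * (∑ r ∈ (Icc 2 K).filter (fun r => Nat.Coprime r g),
          (r : ℝ) * (r.divisors.card : ℝ) / (Nat.totient r : ℝ) ^ 2) +
      8 / 3 * (2 * Real.pi * L * b1) ^ 2 * ((H : ℝ) ^ 2 / g) +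
      128 / ((6 * (g : ℝ) * H) ^ 4 * b1 ^ 3) + 256 * E ^ 4 / Q)

/-- Siegel–Walfisz for the weights: `BVall.ap_leL` (modulus `q`, at most `φ(q)` characters), each
non-principal character has primitive character of conductor in `[2, q]` (for `q = 1` there is none), so
`BVall.small_all (A+1) (B+1)` at `X = yZ Z` bounds it by `y/(log y)^(A+1)`; `DD y q` is `O((log y)^(B+3))`
(`log Z ≤ log y ≤ 2 log Z`, `y ≤ 1.2 Z`). -/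
def SJA : Prop := ∀ A B : ℕ, ∀ᶠ Z : ℝ in atTop, ∀ q : ℕ, 0 < q → (q : ℝ) ≤ (Real.log Z) ^ B →
  ∀ a : ℕ, Nat.Coprime a q →
  |BVall.psiAPL 2000 (yZ Z) q a - BVall.psiXL 2000 (yZ Z) / (Nat.totient q : ℝ)| ≤ Z / (Real.log Z) ^ A

/-- From `SJA` (`A = 1`, `q = M` fixed) to primes in the class `q0 mod M`.  For `Z` large the integers
`1 ≤ n ≤ 3y` with `n ≡ q0 mod M` and `OmL 2000 y n ≠ 0` (`y = yZ Z`) are the `n = q0 + M i` with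
`i < 20 Hz M Z` in the window (`BVall.OmL_support`).  So `Om = psiAPL 2000 y M q0 -` (the part of the
prime powers `p^k`, `k ≥ 2`, below `3y`, at most `8 · √(3y) · log₂(3y) · log (3y)`), and
`psiXL ≥ y/48000` (`BVall.psiXL_lower`) absorbs all errors. -/
def SJ0 : Prop := ∀ (M q0 : ℕ), 0 < M → Nat.Coprime q0 M → q0 < M → ∀ᶠ Z : ℝ in atTop,
  9 / 10 * (BVall.psiXL 2000 (yZ Z) / (Nat.totient M : ℝ)) ≤ Om M q0 Z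

/-- Lower bound for the total weight, from `SJ0` and `BVall.psiXL_lower` at `X = yZ Z`. -/
def SJ1 : Prop := ∀ (M q0 : ℕ), 0 < M → Nat.Coprime q0 M → q0 < M → ∃ c : ℝ, 0 < c ∧
  ∀ᶠ Z : ℝ in atTop, c * Z ≤ Om M q0 Z

/-- Class sums, from `SJA` and `SJ0`.  `i ≡ e mod r` iff `q0 + M i ≡ q0 + M e mod (M r)`.  If
`q0 + M e` is not coprime to `r` then `q0 + M i` and `r` have a common prime factor `≤ r ≤ (log Z)^B`, so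
`q0 + M i` prime implies `q0 + M i ≤ (log Z)^B < y/3` and the weight is `0`.  Otherwise the sum is
`≤ psiAPL 2000 y (M r) (q0 + M e) ≤ psiXL/φ(M r) + Z/(log Z)^(B+2)` (`SJA` with exponent `B + 1`,
`M r ≤ (log Z)^(B+1)`), and `Om ≥ (9/10) psiXL/φ(M)`, `φ(M r) = φ(M) φ(r)`, `psiXL ≥ y/48000`
(`BVall.psiXL_lower`), `φ(r) ≤ (log Z)^B`. -/
def SJ2 : Prop := ∀ (M q0 B : ℕ), 0 < M → Nat.Coprime q0 M → q0 < M →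
  ∀ᶠ Z : ℝ in atTop, ∀ r : ℕ, 0 < r → (r : ℝ) ≤ (Real.log Z) ^ B → Nat.Coprime r M → ∀ e < r,
    ∑ i ∈ (range (20 * Hz M Z)).filter (fun i => i % r = e), wt M q0 Z i ≤
      2 * Om M q0 Z / (Nat.totient r : ℝ)

/-- Size and support of the weights: `OmL ≤ 8` (`BVall.OmL_le`, `BVall.OmL_nonneg`), and by
`BVall.OmL_support` a nonzero weight has `|q - y| ≤ y/1000`, `y² = 7/5 Z²`. -/
def SJ3 : Prop := ∀ (M q0 : ℕ), 0 < M → ∀ᶠ Z : ℝ in atTop, ∀ i : ℕ,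
  0 ≤ wt M q0 Z i ∧ wt M q0 Z i ≤ 20 * Real.log Z ∧
  (wt M q0 Z i ≠ 0 → (q0 + M * i).Prime ∧
    1397 / 1000 * Z ^ 2 ≤ ((q0 + M * i : ℕ) : ℝ) ^ 2 ∧
    ((q0 + M * i : ℕ) : ℝ) ^ 2 ≤ 1403 / 1000 * Z ^ 2)

/-- Convergence: `τ(r) ≤ C r^(1/4)` (`Pool.Agent.Lib.MP1e1427.exists_card_divisors_le` with `k = 4`) and
`1/φ(r) ≤ (log r/log 2 + 1)/r` (`inv_totient_le` in `Pool.Agent.Lib.MP_89da58_nt.Bv`/`LargeArith`), so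
`∑ τ(r)/φ(r)²` converges; an `r ≥ 2` coprime to `Mw w` is `> w`. -/
def ST : Prop := ∀ ε : ℝ, 0 < ε → ∃ w : ℕ, 5 ≤ w ∧ ∀ K : ℕ,
  ∑ r ∈ (Icc 2 K).filter (fun r => Nat.Coprime r (Mw w / 2)),
    (r.divisors.card : ℝ) / (Nat.totient r : ℝ) ^ 2 ≤ ε

/-- Minor arc bound at scale `Z`.  `g = M/2`, `H = Hz M Z`, `ℓ = log Z`.  `r > Kz Z` gives `r ≥ ℓ^10`;
`r ≤ H²/Kz Z`, `log r ≤ 2 log H ≤ 2ℓ`; `Kz Z ≥ ℓ^10/2`.  Expand the product: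
`gH²/r ≤ gH²/ℓ^10`, `gH(1 + log r) ≤ gH(1+2ℓ)`, `H`, `r(1+log r) ≤ (2H²/ℓ^10)(1+2ℓ)`; all are
`≤ (g+1) 10 H²/ℓ^9` for `Z` large. -/
def SVa : Prop := ∀ M : ℕ, 0 < M → ∃ C : ℝ, 0 < C ∧ ∀ᶠ Z : ℝ in atTop, ∀ r : ℕ, Kz Z < r →
  r ≤ ⌊((Hz M Z : ℝ) ^ 2) / (Kz Z : ℝ)⌋₊ →
  50 * (((M / 2 : ℕ) : ℝ) * (Hz M Z : ℝ) / r + 1) * ((Hz M Z : ℝ) + r * (1 + Real.log r)) ≤
    C * (Hz M Z : ℝ) ^ 2 / (Real.log Z) ^ 9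

/-- Error term at scale `Z`: `Q = ⌊H²/Kz Z⌋₊ ≥ H²/(2 Kz Z)`, so
`3K + 13 H (c + d + 8 g H)/Q ≤ 3K + 26 K (c + d + 8g)`. -/
def SVb : Prop := ∀ M c d : ℕ, 0 < M → ∃ C : ℝ, 0 < C ∧ ∀ᶠ Z : ℝ in atTop,
  3 * (Kz Z : ℝ) + 13 * (Hz M Z : ℝ) * ((c : ℝ) + d + 8 * ((M / 2 : ℕ) : ℝ) * (Hz M Z : ℝ)) /
    (⌊((Hz M Z : ℝ) ^ 2) / (Kz Z : ℝ)⌋₊ : ℝ) ≤ C * (Real.log Z) ^ 10

/-- Asymptotic evaluation of `SV2` (with `SVa`, `SVb`, `SF`, `SJ1`, `SJ2`, `SJ3`), `g = M/2`, `K = Kz Z`,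
`Q = ⌊H²/K⌋₊`, `W = 20 log Z`, `E = C₁ (log Z)^10`, `Bs = C₂ H²/(log Z)^9`, `b1 = B/(M H²)`, `ε' = B^(-2)` and a large
constant `B`.  After division by `H² Ω²/M` (`Ω ≥ c Z`, `QC ≤ C (20H)² (1+log(20H))³`): the first term is
`O(1/(log Z)²)`, the main term is `≤ 44 ∑ τ/φ² ≤ 44 δ/100`, the third is `O(K⁸/H⁴)` (use
`r τ(r)/φ(r)² ≤ r²`), the fourth is `(16/3)(2πL b1)² ≤ (16/3)(120π/B)²` as
`L b1 ≤ 50 ε' B (1 + 1/H)² ≤ 60/B`, the fifth is `128 M · M³ H⁶/(81 M⁴ H⁴ B³)/H² ≤ 2/B³`, the last `→ 0`. -/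
def SV3 : Prop := ∀ (M q0 c0 d0 : ℕ), 0 < M → 8 ∣ M → 5 ∣ M → q0 % 8 = 3 → Nat.Coprime q0 M → q0 < M →
  Nat.Coprime c0 M → ∀ δ : ℝ, 0 < δ →
  (∀ K : ℕ, ∑ r ∈ (Icc 2 K).filter (fun r => Nat.Coprime r (M / 2)),
    (r.divisors.card : ℝ) / (Nat.totient r : ℝ) ^ 2 ≤ δ / 100) →
  ∃ ε : ℝ, 0 < ε ∧ ε ≤ 1 / 100 ∧ ∀ᶠ Z : ℝ in atTop, ∀ T : Finset ℤ,
    ∑ t ∈ T, (RZ M q0 c0 d0 Z t - RavZ M q0 c0 d0 ε Z t) ^ 2 ≤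
      δ * (Hz M Z : ℝ) ^ 2 * (Om M q0 Z) ^ 2 / M

/-- The polynomial identity (`8 ∣ M`, `q0 ≡ 3 mod 8`; all quotients are exact). -/
def SID : Prop := ∀ (M q0 c0 d0 i j k : ℕ), 8 ∣ M → q0 % 8 = 3 →
  (q0 + M * i) ^ 2 + ((q0 + M * i + 1) / 2) ^ 2 + (c0 + M * j) ^ 2 + (d0 + M * k) ^ 2 =
    F0 q0 c0 d0 + 2 * M * (qd ((5 * q0 + 1) / 4) (5 * (M / 8)) i + qd c0 (M / 2) j + qd d0 (M / 2) k)

/-- Lower bound for the average (uses `SID`, `SJ3`).  `(2L+1) RavZ t = ∑_i w_i #{(j,k) ∈ [3H,4H)² :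
|A i + P j + D k - t| ≤ L}`, and `|A + P + D - t| ≤ L` follows from `|c² + d² - T| ≤ (9/10) ε Z²` where
`T = 2n - q² - ((q+1)/2)²`, `c = c0 + M j`, `d = d0 + M k`.  If `w_i ≠ 0` then `T ∈ [0.24 Z², 0.26 Z²]`.
Take `j` with `c ∈ [0.33 Z, 0.36 Z]`; `s = √(T - c²) ∈ [0.332 Z, 0.389 Z]`, and `k` with
`|d - s| ≤ ε Z`: then `|d² - s²| ≤ 0.8 ε Z²` and `j, k ∈ [3H, 4H)`.  There are at least
`(0.03 Z/M - 1)(2 ε Z/M - 1) ≥ 0.05 ε Z²/M²` such pairs and `2 L + 1 ≤ 2 ε Z²/M`. -/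
def SH : Prop := ∀ (M q0 c0 d0 : ℕ), 0 < M → 8 ∣ M → q0 % 8 = 3 → ∀ ε : ℝ, 0 < ε → ε ≤ 1 / 100 →
  ∀ᶠ Z : ℝ in atTop, ∀ n : ℕ, Z ^ 2 < n → (n : ℝ) ≤ 1001 / 1000 * Z ^ 2 → ∀ t : ℤ,
    2 * (M : ℤ) * t = 2 * n - F0 q0 c0 d0 →
    Om M q0 Z / (100 * M) ≤ RavZ M q0 c0 d0 ε Z t

/-- Local solvability modulo an odd prime.  Modulo `3`: the values of `4q² + (q+1)²` for `q = 1, 2` are
`2, 1`, those of `4c² + 4d²` (`c ≠ 0`) are `1, 2`: all sums occur.  Modulo `p ≥ 5`: the nonzero squares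
`(2c)²` and the squares `(2d)²` have a sumset of at least `p - 1` classes by Cauchy–Davenport
(`ZMod.cauchy_davenport`), and the quadratic `4q² + (q+1)²` takes at least two values on `q ≠ 0`
(`p = 5`: it is affine; `p ≥ 7`: each value is taken at most twice), so for some `q ≠ 0` the class
`8ν - 4q² - (q+1)²` is in the sumset. -/
def SKp : Prop := ∀ p : ℕ, p.Prime → 3 ≤ p → ∀ ν : ℤ, ∃ q0 c0 d0 : ℕ, ¬ p ∣ q0 ∧ ¬ p ∣ c0 ∧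
  (p : ℤ) ∣ 4 * (q0 : ℤ) ^ 2 + ((q0 : ℤ) + 1) ^ 2 + 4 * (c0 : ℤ) ^ 2 + 4 * (d0 : ℤ) ^ 2 - 8 * ν

/-- Local solvability.  Modulo `16`: `q0 ≡ 3 mod 8` gives `q0² + ((q0+1)/2)² ≡ 13`, and
`c0² + d0² ≡ 2ν - 13 mod 16` with `c0` odd, `d0` even is solvable as `2ν - 13 ∈ {1,5,9,13} mod 16`
(`c0 ∈ {1,3}`, `d0 ∈ {0,2}`).  Modulo the odd primes `p ≤ w`: `SKp`, and for odd `q0`
`4 F0 = 4 q0² + (q0+1)² + 4 c0² + 4 d0²`.  Combine by the Chinese remainder theorem (induction over a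
finite set of odd primes, or `Nat.chineseRemainderOfFinset`) to the modulus `16 ∏ p = 2M`; then reduce `q0`
mod `M` (this changes `F0` by a multiple of `2M`, cf. `SID`). -/
def SK : Prop := ∀ w : ℕ, 5 ≤ w → ∀ ν : ℕ, Odd ν → ∃ q0 c0 d0 : ℕ, q0 < Mw w ∧ q0 % 8 = 3 ∧
  Nat.Coprime q0 (Mw w) ∧ Nat.Coprime c0 (Mw w) ∧ Even d0 ∧
  (2 * (Mw w : ℤ)) ∣ (F0 q0 c0 d0 : ℤ) - 2 * ν

/-- Chebyshev's inequality in one residue class (from `SV3`, `SH`).  For `n ≡ ν mod M` there is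
`t` with `2 M t = 2n - F0`, injectively in `n`; if `RZ t < Om/(200M)` then
`|RZ t - RavZ t| ≥ Om/(200 M)`, so the number of such `n` is
`≤ (δ' H² Om²/M) (200M)²/Om² = 40000 δ' H² M ≤ 400 δ' Z²/M` (`H ≤ Z/(10M)`; `Om > 0` by `SJ1`). Take
`δ' = δ/400`. -/
def SC : Prop := ∀ (M q0 c0 d0 ν : ℕ), 0 < M → 8 ∣ M → 5 ∣ M → q0 % 8 = 3 → Nat.Coprime q0 M →
  q0 < M → Nat.Coprime c0 M → (2 * (M : ℤ)) ∣ (F0 q0 c0 d0 : ℤ) - 2 * ν → ∀ δ : ℝ, 0 < δ →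
  (∀ K : ℕ, ∑ r ∈ (Icc 2 K).filter (fun r => Nat.Coprime r (M / 2)),
    (r.divisors.card : ℝ) / (Nat.totient r : ℝ) ^ 2 ≤ δ / 40000) →
  ∀ᶠ Z : ℝ in atTop, ∀ S : Finset ℕ, (∀ n ∈ S, Z ^ 2 < n ∧ (n : ℝ) ≤ 1001 / 1000 * Z ^ 2 ∧
    n % M = ν % M ∧ ∀ t : ℤ, 2 * (M : ℤ) * t = 2 * n - F0 q0 c0 d0 →
      RZ M q0 c0 d0 Z t < Om M q0 Z / (200 * M)) →
    (S.card : ℝ) ≤ δ * Z ^ 2 / M

/-- Many representations give many primes (uses `SID`, `SJ1`, `SJ3`).  `RZ t` is at most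
`20 log Z` times the number of `(i,j,k)` with `q = q0 + M i` prime in the window, `c = c0 + M j`,
`d = d0 + M k`, and then `2n = q² + ((q+1)/2)² + c² + d²`, `q ≡ 3 mod 8`, `c` odd, `d` even,
`c, d ≤ 0.41 Z ≤ (q+1)/2`, `3 q² ≥ 4 n`: `q ∈ Qs n`.  For each `q` there are at most
`#twoSq (T) ≤ C n^(ε/4)` pairs (`Pool.Agent.Lib.MP1e1427.exists_card_twoSq_le`), so
`#Qs n ≥ c Z/(log Z · n^(ε/4)) ≥ n^(1/2-ε)`. -/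
def SDC : Prop := ∀ (M q0 c0 d0 : ℕ), 0 < M → 8 ∣ M → q0 % 8 = 3 → Nat.Coprime q0 M → q0 < M →
  Nat.Coprime c0 M → Even d0 → ∀ ε : ℝ, 0 < ε → ∀ᶠ Z : ℝ in atTop, ∀ n : ℕ, Z ^ 2 < n →
  (n : ℝ) ≤ 1001 / 1000 * Z ^ 2 → ∀ t : ℤ, 2 * (M : ℤ) * t = 2 * n - F0 q0 c0 d0 →
    Om M q0 Z / (200 * M) ≤ RZ M q0 c0 d0 Z t → (n : ℝ) ^ (1 / 2 - ε) ≤ ((Qs n).card : ℝ)

/-- All odd classes together (from `SC`, `SDC`, `SK`, `ST`): for each `δ` choose `w` by `ST`, `M = Mw w`,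
for each odd `ν < M` the data of `SK`; there are finitely many `ν`. -/
def SL1 : Prop := ∀ ε : ℝ, 0 < ε → ∀ δ : ℝ, 0 < δ → ∀ᶠ Z : ℝ in atTop, ∀ S : Finset ℕ,
  (∀ n ∈ S, Odd n ∧ Z ^ 2 < n ∧ (n : ℝ) ≤ 1001 / 1000 * Z ^ 2 ∧
    ¬ (n : ℝ) ^ (1 / 2 - ε) ≤ ((Qs n).card : ℝ)) → (S.card : ℝ) ≤ δ * Z ^ 2

/-- Density (from `SL1`): with `B(X)` the number of bad odd `n ≤ X`,
`B(X) ≤ B(1000X/1001) + δX` for real `X ≥ X0`, so `B(X) ≤ 1001 δ X + B(X0)` (induction). -/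
def SL2 : Prop := ∀ ε : ℝ, 0 < ε → Tendsto (fun X : ℕ =>
  ((((Icc 1 X).filter (fun n : ℕ => Odd n ∧
    ¬ (n : ℝ) ^ (1 / 2 - ε) ≤ ((Qs n).card : ℝ))).card : ℕ) : ℝ) / X) atTop (𝓝 0)

/-- Elementary number theory.  `N = 2^q + 2^((q+1)/2) + 1` divides `4^q + 1`
(`4^q + 1 = N (2^q - 2^((q+1)/2) + 1)`); `q ≡ 3 mod 8` gives `N ≡ 3 mod 5`.  A prime `p ∣ N` is odd, the
order of `2` mod `p` divides `4q` but not `2q`, so it is `4` or `4q`; `4` means `p ∣ 15`, `p ∣ 5`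
(`p = 3` has order 2), excluded.  So `4 q ∣ p - 1`. -/
def SN1 : Prop := ∀ q : ℕ, q.Prime → q % 8 = 3 → ∀ p : ℕ, p.Prime →
  p ∣ 2 ^ q + 2 ^ ((q + 1) / 2) + 1 → 4 * q < p

/-- `N - 1 = 2^s t`, `s = (q+1)/2 ≥ 2`, `t = 2^((q-1)/2) + 1` odd; `q ∣ t` because `2` is a
non-residue mod `q ≡ 3 mod 8` (Euler's criterion), so `t = q m`, `m` odd, and
`2^(2t) = (4^q)^m ≡ (-1)^m = -1 mod N`; take `i = 1`. -/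
def SN2 : Prop := ∀ q : ℕ, q.Prime → q % 8 = 3 →
  ∃ s t : ℕ, 2 ^ q + 2 ^ ((q + 1) / 2) + 1 - 1 = 2 ^ s * t ∧ Odd t ∧
    ∃ i < s, (2 ^ q + 2 ^ ((q + 1) / 2) + 1) ∣ 2 ^ (2 ^ i * t) + 1

/-- From `Qs n` to the numbers `N` (uses `SN1`, `SN2`): `x = (q+c)/2`, `y = (q-c)/2`,
`z = ((q+1)/2 + d)/2`, `w = ((q+1)/2 - d)/2`; `x² + y² = (q² + c²)/2` etc.; `q ↦ N` is injective on `Qs n`;
`p > 4q` gives `3 p² > 48 q² ≥ 64 n`; the set is finite (`x, y, z, w ≤ n`). -/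
def SN3 : Prop := ∀ n : ℕ, (Qs n).card ≤
  ({N : ℕ | ∃ x y z w : ℕ, x ^ 2 + y ^ 2 + z ^ 2 + w ^ 2 = n ∧
      N = 2 ^ (x + y) + 2 ^ (z + w) + 1 ∧
      (∃ s t : ℕ, N - 1 = 2 ^ s * t ∧ Odd t ∧ ∃ i < s, N ∣ 2 ^ (2 ^ i * t) + 1) ∧
      ∀ p : ℕ, p.Prime → p ∣ N → 64 * n < 3 * p ^ 2} : Set ℕ).ncard

end Pool.Agent.SP80
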