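import Mathlib
import Pool.Agent.Lib.MP_1e1427_nt.SP.Stm

/-!
Project SP (MP_1e1427_nt): Parseval for finitely many integer frequencies, and the moment.
-/

namespace Pool.Agent.SP80

open Finset MeasureTheory

private theorem pp_ex_add (x y : ℝ) : ex (x + y) = ex x * ex y := by
  unfold ex
  rw [← Complex.exp_add]
  congr 1
  push_cast
  ring

private theorem pp_ex_conj (x : ℝ) : (starRingEnd ℂ) (ex x) = ex (-x) := by
  unfold ex
  rw [← Complex.exp_conj, map_mul, Complex.conj_ofReal, Complex.conj_I]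
  congr 1
  push_cast
  ring

private theorem pp_ex_cont : Continuous ex := by
  unfold ex
  fun_prop

private theorem pp_int (m : ℤ) :
    ∫ θ in (0 : ℝ)..1, ex ((m : ℝ) * θ) = if m = 0 then 1 else 0 := by
  by_cases h : m = 0
  · subst h
    simp [ex]
  · rw [if_neg h]
    have hc : (2 * Real.pi * (m : ℂ) * Complex.I) ≠ 0 := by
      have h1 : (m : ℂ) ≠ 0 := by exact_mod_cast h
      have h2 : (Real.pi : ℂ) ≠ 0 := by exact_mod_cast Real.pi_ne_zero
      simp [h1, h2, Complex.I_ne_zero]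
    have h1 : ∀ θ : ℝ, ex ((m : ℝ) * θ) = Complex.exp ((2 * Real.pi * (m : ℂ) * Complex.I) * θ) := by
      intro θ
      unfold ex
      congr 1
      push_cast
      ring
    simp_rw [h1]
    rw [integral_exp_mul_complex hc]
    have h2 : Complex.exp ((2 * Real.pi * (m : ℂ) * Complex.I) * ((1 : ℝ) : ℂ)) = 1 := by
      rw [← Complex.exp_int_mul_two_pi_mul_I m]
      congr 1
      push_cast
      ring
    rw [h2]
    simp

theorem spp : SPP := by
  intro ι S c P
  have key : ∀ θ : ℝ, ((‖∑ x ∈ S, (c x : ℂ) * ex ((P x : ℝ) * θ)‖ ^ 2 : ℝ) : ℂ) =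
      ∑ x ∈ S, ∑ y ∈ S, ((c x * c y : ℝ) : ℂ) * ex (((P x - P y : ℤ) : ℝ) * θ) := by
    intro θ
    rw [Complex.ofReal_pow, ← Complex.mul_conj', map_sum, Finset.sum_mul_sum]
    refine Finset.sum_congr rfl fun x _ => Finset.sum_congr rfl fun y _ => ?_
    rw [map_mul, Complex.conj_ofReal, pp_ex_conj]
    have e : (((P x - P y : ℤ) : ℝ) * θ) = (P x : ℝ) * θ + -((P y : ℝ) * θ) := by
      push_cast
      ring
    rw [e, pp_ex_add]
    push_cast
    ring
  have h1 : ((∫ θ in (0 : ℝ)..1, ‖∑ x ∈ S, (c x : ℂ) * ex ((P x : ℝ) * θ)‖ ^ 2 : ℝ) : ℂ) =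
      ((∑ x ∈ S, ∑ y ∈ S, if P x = P y then c x * c y else 0 : ℝ) : ℂ) := by
    rw [← intervalIntegral.integral_ofReal]
    simp_rw [key]
    have hint : ∀ x ∈ S, ∀ y ∈ S, IntervalIntegrable
        (fun θ : ℝ => ((c x * c y : ℝ) : ℂ) * ex (((P x - P y : ℤ) : ℝ) * θ)) volume 0 1 := by
      intro x _ y _
      have : Continuous fun θ : ℝ => ((c x * c y : ℝ) : ℂ) * ex (((P x - P y : ℤ) : ℝ) * θ) :=
        continuous_const.mul (pp_ex_cont.comp (continuous_const.mul continuous_id))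
      exact this.intervalIntegrable _ _
    have hfun : ∀ x ∈ S, (fun θ : ℝ => ∑ y ∈ S, ((c x * c y : ℝ) : ℂ) *
        ex (((P x - P y : ℤ) : ℝ) * θ)) = ∑ y ∈ S, fun θ : ℝ => ((c x * c y : ℝ) : ℂ) *
        ex (((P x - P y : ℤ) : ℝ) * θ) := by
      intro x _
      funext θ
      rw [Finset.sum_apply]
    rw [intervalIntegral.integral_finsetSum (fun x hx => by
      rw [hfun x hx]
      exact IntervalIntegrable.sum S (hint x hx)), Complex.ofReal_sum]
    refine Finset.sum_congr rfl fun x hx => ?_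
    rw [intervalIntegral.integral_finsetSum (fun y hy => hint x hx y hy), Complex.ofReal_sum]
    refine Finset.sum_congr rfl fun y hy => ?_
    rw [intervalIntegral.integral_const_mul, pp_int]
    by_cases h : P x = P y
    · rw [if_pos h, if_pos (sub_eq_zero.2 h), mul_one]
    · rw [if_neg h, if_neg (fun h' => h (sub_eq_zero.1 h')), mul_zero, Complex.ofReal_zero]
  exact_mod_cast h1

theorem smom (h : SPP) : SMom := by
  intro w I α γ d g j0 H N W hw0 hwW hI hH
  have hW : 0 ≤ W := (hw0 0).trans (hwW 0)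
  set S : Finset (ℕ × ℕ) := range I ×ˢ Ico j0 (j0 + H) with hS
  have e1 : ∀ θ : ℝ, (‖SS w I (qd α γ) θ‖ * ‖WS d g j0 H θ‖) ^ 2 =
      ‖∑ x ∈ S, (w x.1 : ℂ) *
        ex ((((qd α γ x.1 + qd d g x.2 : ℕ) : ℤ) : ℝ) * θ)‖ ^ 2 := by
    intro θ
    rw [← norm_mul]
    congr 2
    unfold SS WS
    rw [Finset.sum_mul_sum, hS, Finset.sum_product]
    refine Finset.sum_congr rfl fun i _ => Finset.sum_congr rfl fun k _ => ?_
    have e : ((((qd α γ i + qd d g k : ℕ) : ℤ) : ℝ) * θ) =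
        (qd α γ i : ℝ) * θ + (qd d g k : ℝ) * θ := by
      push_cast
      ring
    rw [e, pp_ex_add]
    ring
  simp_rw [e1]
  rw [h (ℕ × ℕ) S (fun x => w x.1) (fun x => ((qd α γ x.1 + qd d g x.2 : ℕ) : ℤ))]
  have hsub : S ⊆ range N ×ˢ range N := by
    intro x hx
    rw [hS, Finset.mem_product, Finset.mem_range, Finset.mem_Ico] at hx
    rw [Finset.mem_product, Finset.mem_range, Finset.mem_range]
    omega
  rw [← Finset.sum_product']
  calc ∑ x ∈ S ×ˢ S, (if ((qd α γ x.1.1 + qd d g x.1.2 : ℕ) : ℤ) =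
          ((qd α γ x.2.1 + qd d g x.2.2 : ℕ) : ℤ) then w x.1.1 * w x.2.1 else 0)
      ≤ ∑ x ∈ S ×ˢ S, (if qd α γ x.1.1 + qd d g x.1.2 =
          qd α γ x.2.1 + qd d g x.2.2 then W ^ 2 else 0) := by
        refine Finset.sum_le_sum fun x _ => ?_
        by_cases hx : qd α γ x.1.1 + qd d g x.1.2 = qd α γ x.2.1 + qd d g x.2.2
        · rw [if_pos hx, if_pos (by exact_mod_cast hx), sq]
          exact mul_le_mul (hwW _) (hwW _) (hw0 _) hW
        · rw [if_neg hx, if_neg (by exact_mod_cast hx)]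
    _ ≤ ∑ x ∈ (range N ×ˢ range N) ×ˢ (range N ×ˢ range N), (if qd α γ x.1.1 + qd d g x.1.2 =
          qd α γ x.2.1 + qd d g x.2.2 then W ^ 2 else 0) := by
        refine Finset.sum_le_sum_of_subset_of_nonneg (Finset.product_subset_product hsub hsub)
          fun x _ _ => ?_
        split_ifs
        · positivity
        · exact le_rfl
    _ = W ^ 2 * QC α γ d g N := by
        rw [← Finset.sum_filter, Finset.sum_const, nsmul_eq_mul, mul_comm]
        rfl

end Pool.Agent.SP80
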