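import Pool.Agent.Lib.MP_1e1427_nt.SP.Stm

namespace Pool.Agent.SP80

open Finset

private lemma a1_norm_ex (x : ℝ) : ‖ex x‖ = 1 := by
  unfold ex
  exact Complex.norm_exp_ofReal_mul_I _

private lemma a1_ex_add (x y : ℝ) : ex (x + y) = ex x * ex y := by
  unfold ex
  rw [← Complex.exp_add]
  congr 1
  push_cast
  ring

private lemma a1_conj (x : ℝ) : (starRingEnd ℂ) (ex x) = ex (-x) := by
  unfold ex
  rw [← Complex.exp_conj, map_mul, Complex.conj_ofReal, Complex.conj_I]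
  congr 1
  push_cast
  ring

private lemma a1_ex_pow (x : ℝ) (n : ℕ) : ex x ^ n = ex ((n : ℝ) * x) := by
  unfold ex
  rw [← Complex.exp_nat_mul]
  congr 1
  push_cast
  ring

private lemma a1_ex_int (m : ℤ) : ex (m : ℝ) = 1 := by
  unfold ex
  rw [Complex.exp_eq_one_iff]
  exact ⟨m, by push_cast; ring⟩

private lemma a1_ex_eq_one {x : ℝ} (h : ex x = 1) : ∃ m : ℤ, x = m := by
  unfold ex at h
  rw [Complex.exp_eq_one_iff] at h
  obtain ⟨n, hn⟩ := h
  refine ⟨n, ?_⟩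
  have h2 : ((2 * Real.pi * x : ℝ) : ℂ) = ((n : ℝ) * (2 * Real.pi) : ℝ) := by
    have hI : Complex.I ≠ 0 := Complex.I_ne_zero
    apply mul_right_cancel₀ hI
    rw [hn]
    push_cast
    ring
  have h3 := Complex.ofReal_injective h2
  have hpi := Real.pi_pos
  have : x * (2 * Real.pi) = n * (2 * Real.pi) := by linarith
  exact mul_right_cancel₀ (by positivity) this

private lemma a1_orth (m : ℤ) (r : ℕ) (hr : 0 < r) :
    ∑ a ∈ range r, ex ((m : ℝ) * ((a : ℝ) / r)) = if (r : ℤ) ∣ m then (r : ℂ) else 0 := by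
  have hr' : (r : ℝ) ≠ 0 := by positivity
  have e : ∀ a ∈ range r, ex ((m : ℝ) * ((a : ℝ) / r)) = ex ((m : ℝ) / r) ^ a := by
    intro a _
    rw [a1_ex_pow]
    congr 1
    ring
  rw [sum_congr rfl e]
  split_ifs with h
  · obtain ⟨k, hk⟩ := h
    have : (m : ℝ) / r = ((k : ℤ) : ℝ) := by
      rw [hk]; push_cast; field_simp
    rw [this, a1_ex_int]
    simp
  · have hne : ex ((m : ℝ) / r) ≠ 1 := by
      intro h1
      obtain ⟨k, hk⟩ := a1_ex_eq_one h1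
      apply h
      refine ⟨k, ?_⟩
      rw [div_eq_iff hr'] at hk
      have : m = k * (r : ℤ) := by exact_mod_cast hk
      rw [this, mul_comm]
    rw [geom_sum_eq hne, a1_ex_pow]
    have : (r : ℝ) * ((m : ℝ) / r) = ((m : ℤ) : ℝ) := by field_simp
    rw [this, a1_ex_int]
    simp

theorem sa1 : SA1 := by
  intro w I P r β hr hw
  have e1 : ∀ a : ℕ, ((‖SS w I P ((a : ℝ) / r + β)‖ ^ 2 : ℝ) : ℂ) =
      ∑ i ∈ range I, ∑ i' ∈ range I, ((w i * w i' : ℝ) : ℂ) *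
        (ex ((((P i : ℤ) - (P i' : ℤ) : ℤ) : ℝ) * β) *
          ex ((((P i : ℤ) - (P i' : ℤ) : ℤ) : ℝ) * ((a : ℝ) / r))) := by
    intro a
    rw [← Complex.normSq_eq_norm_sq, ← Complex.mul_conj]
    unfold SS
    rw [map_sum, sum_mul_sum]
    refine sum_congr rfl fun i _ => sum_congr rfl fun i' _ => ?_
    rw [map_mul, a1_conj, Complex.conj_ofReal, ← a1_ex_add]
    rw [show ((w i : ℂ) * ex ((P i : ℝ) * ((a : ℝ) / r + β))) *
      ((w i' : ℂ) * ex (-((P i' : ℝ) * ((a : ℝ) / r + β)))) =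
      ((w i : ℂ) * (w i' : ℂ)) * (ex ((P i : ℝ) * ((a : ℝ) / r + β)) *
        ex (-((P i' : ℝ) * ((a : ℝ) / r + β)))) by ring, ← a1_ex_add]
    push_cast
    congr 2
    ring
  have e2 : ((∑ a ∈ range r, ‖SS w I P ((a : ℝ) / r + β)‖ ^ 2 : ℝ) : ℂ) =
      ∑ i ∈ range I, ∑ i' ∈ range I, ((w i * w i' : ℝ) : ℂ) *
        (ex ((((P i : ℤ) - (P i' : ℤ) : ℤ) : ℝ) * β) *
          (if (r : ℤ) ∣ ((P i : ℤ) - (P i' : ℤ)) then (r : ℂ) else 0)) := by
    rw [Complex.ofReal_sum]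
    rw [sum_congr rfl fun a _ => e1 a]
    rw [sum_comm]
    refine sum_congr rfl fun i _ => ?_
    rw [sum_comm]
    refine sum_congr rfl fun i' _ => ?_
    rw [← mul_sum, ← mul_sum, a1_orth _ r hr]
  have hnn : 0 ≤ ∑ a ∈ range r, ‖SS w I P ((a : ℝ) / r + β)‖ ^ 2 :=
    sum_nonneg fun _ _ => by positivity
  have e3 : ∑ a ∈ range r, ‖SS w I P ((a : ℝ) / r + β)‖ ^ 2 =
      ‖((∑ a ∈ range r, ‖SS w I P ((a : ℝ) / r + β)‖ ^ 2 : ℝ) : ℂ)‖ := by
    rw [Complex.norm_real, Real.norm_of_nonneg hnn]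
  rw [e3, e2, mul_sum]
  refine (norm_sum_le _ _).trans (sum_le_sum fun i _ => ?_)
  rw [mul_sum]
  refine (norm_sum_le _ _).trans (sum_le_sum fun i' _ => ?_)
  rw [norm_mul, norm_mul, a1_norm_ex, one_mul, Complex.norm_real,
    Real.norm_of_nonneg (mul_nonneg (hw i) (hw i'))]
  have key : (r : ℤ) ∣ ((P i : ℤ) - (P i' : ℤ)) ↔ P i % r = P i' % r := by
    rw [← Nat.modEq_iff_dvd]
    exact ⟨fun h => h.symm, fun h => Nat.ModEq.symm h⟩
  by_cases h : P i % r = P i' % r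
  · rw [if_pos (key.2 h), if_pos h]
    simp [mul_comm]
  · rw [if_neg (fun h' => h (key.1 h')), if_neg h]
    simp

end Pool.Agent.SP80
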