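import Pool.Agent.Lib.MP_1e1427_nt.SP.Stm

/-!
Piece SA2: pairs with `A i = A i' mod r`.
-/

namespace Pool.Agent.SP80

open Finset

private lemma a2_mult (r d : ℕ) (hd : 0 < d) : ((range r).filter (fun u => d ∣ u)).card ≤ (r + d - 1) / d := by
  have h : (range r).filter (fun u => d ∣ u) ⊆ (range ((r + d - 1) / d)).image (fun k => k * d) := by
    intro u hu
    rw [Finset.mem_filter, Finset.mem_range] at hu
    obtain ⟨hu, k, rfl⟩ := hu
    rw [Finset.mem_image]
    refine ⟨k, ?_, by ring⟩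
    rw [Finset.mem_range, Nat.lt_iff_add_one_le, Nat.le_div_iff_mul_le hd]
    nlinarith [Nat.sub_add_cancel (show 1 ≤ r + d by omega)]
  calc _ ≤ _ := Finset.card_le_card h
    _ ≤ _ := Finset.card_image_le
    _ = _ := Finset.card_range _

private lemma a2_mult' (r d : ℕ) (hr : 0 < r) (hd : d ∣ r) :
    ((range r).filter (fun u => d ∣ u)).card ≤ r / d := by
  have hd0 : 0 < d := Nat.pos_of_dvd_of_pos hd hr
  refine (a2_mult r d hd0).trans ?_
  obtain ⟨k, rfl⟩ := hd
  rw [Nat.mul_div_cancel_left _ hd0]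
  apply Nat.le_of_lt_succ
  rw [Nat.div_lt_iff_lt_mul hd0]
  have : (k + 1) * d = d * k + d := by ring
  rw [Nat.succ_eq_add_one, this]
  omega

private lemma a2_prod (r : ℕ) (hr : 0 < r) :
    ((range r ×ˢ range r).filter (fun x => r ∣ x.1 * x.2)).card ≤ r.divisors.card * r := by
  have h : (range r ×ˢ range r).filter (fun x => r ∣ x.1 * x.2) ⊆
      r.divisors.biUnion (fun d => ((range r).filter (fun u => d ∣ u)) ×ˢ
        ((range r).filter (fun v => (r / d) ∣ v))) := by
    rintro ⟨u, v⟩ hx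
    rw [Finset.mem_filter, Finset.mem_product, Finset.mem_range, Finset.mem_range] at hx
    obtain ⟨⟨hu, hv⟩, hdv⟩ := hx
    rw [Finset.mem_biUnion]
    refine ⟨Nat.gcd u r, Nat.mem_divisors.2 ⟨Nat.gcd_dvd_right _ _, hr.ne'⟩, ?_⟩
    rw [Finset.mem_product, Finset.mem_filter, Finset.mem_filter, Finset.mem_range, Finset.mem_range]
    refine ⟨⟨hu, Nat.gcd_dvd_left _ _⟩, hv, ?_⟩
    have hg : 0 < Nat.gcd u r := Nat.gcd_pos_of_pos_right _ hr
    have hco : Nat.Coprime (r / Nat.gcd u r) (u / Nat.gcd u r) :=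
      (Nat.coprime_div_gcd_div_gcd hg).symm
    apply hco.dvd_of_dvd_mul_left
    have h1 : u = Nat.gcd u r * (u / Nat.gcd u r) := (Nat.mul_div_cancel' (Nat.gcd_dvd_left _ _)).symm
    have h2 : r = Nat.gcd u r * (r / Nat.gcd u r) := (Nat.mul_div_cancel' (Nat.gcd_dvd_right _ _)).symm
    obtain ⟨k, hk⟩ := hdv
    simp only at hk
    refine ⟨k, ?_⟩
    apply Nat.eq_of_mul_eq_mul_left hg
    calc Nat.gcd u r * (u / Nat.gcd u r * v) = u * v := by
          rw [← mul_assoc, ← h1]
      _ = r * k := hk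
      _ = Nat.gcd u r * (r / Nat.gcd u r * k) := by rw [← mul_assoc, ← h2]
  refine (Finset.card_le_card h).trans (Finset.card_biUnion_le.trans ?_)
  rw [← smul_eq_mul, ← Finset.sum_const]
  apply Finset.sum_le_sum
  intro d hd
  have hd' := Nat.dvd_of_mem_divisors hd
  rw [Finset.card_product]
  calc _ ≤ (r / d) * (r / (r / d)) :=
        Nat.mul_le_mul (a2_mult' r d hr hd') (a2_mult' r (r / d) hr (Nat.div_dvd_of_dvd hd'))
    _ = r := Nat.mul_div_cancel' (Nat.div_dvd_of_dvd hd')

private lemma a2_count (α γ r : ℕ) (hr : 0 < r) (hc : Nat.Coprime (2 * γ) r) :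
    ((range r ×ˢ range r).filter (fun x => qd α γ x.1 % r = qd α γ x.2 % r)).card ≤
      r.divisors.card * r := by
  have : NeZero r := ⟨hr.ne'⟩
  refine le_trans ?_ (a2_prod r hr)
  apply Finset.card_le_card_of_injOn
    (fun x => (((x.1 : ZMod r) - (x.2 : ZMod r)).val,
      ((α : ZMod r) + γ * ((x.1 : ZMod r) + (x.2 : ZMod r))).val))
  · rintro ⟨e, e'⟩ hx
    rw [Finset.mem_coe, Finset.mem_filter, Finset.mem_product, Finset.mem_range,
      Finset.mem_range] at hx
    obtain ⟨⟨he, he'⟩, hq⟩ := hx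
    rw [Finset.mem_coe, Finset.mem_filter, Finset.mem_product, Finset.mem_range,
      Finset.mem_range]
    refine ⟨⟨ZMod.val_lt _, ZMod.val_lt _⟩, ?_⟩
    rw [← ZMod.natCast_eq_zero_iff]
    push_cast
    rw [ZMod.natCast_zmod_val, ZMod.natCast_zmod_val]
    have h1 : ((qd α γ e : ℕ) : ZMod r) = ((qd α γ e' : ℕ) : ZMod r) :=
      (ZMod.natCast_eq_natCast_iff _ _ _).2 hq
    unfold qd at h1
    push_cast at h1
    linear_combination h1
  · rintro ⟨e, e'⟩ hx ⟨f, f'⟩ hy hxy
    rw [Finset.mem_coe, Finset.mem_filter, Finset.mem_product, Finset.mem_range,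
      Finset.mem_range] at hx hy
    simp only [Prod.mk.injEq] at hxy
    obtain ⟨h1, h2⟩ := hxy
    have h1' := ZMod.val_injective r h1
    have h2' := ZMod.val_injective r h2
    have hu : IsUnit ((2 * γ : ℕ) : ZMod r) := (ZMod.isUnit_iff_coprime _ _).2 hc
    obtain ⟨hx, -⟩ := hx
    obtain ⟨hy, -⟩ := hy
    simp only at hx hy
    have hef : (e : ZMod r) = f := by
      apply hu.mul_left_cancel
      push_cast
      linear_combination (γ : ZMod r) * h1' + h2'
    have hef' : (e' : ZMod r) = f' := by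
      linear_combination hef - h1'
    rw [ZMod.natCast_eq_natCast_iff, Nat.ModEq, Nat.mod_eq_of_lt hx.1, Nat.mod_eq_of_lt hy.1] at hef
    rw [ZMod.natCast_eq_natCast_iff, Nat.ModEq, Nat.mod_eq_of_lt hx.2, Nat.mod_eq_of_lt hy.2] at hef'
    rw [hef, hef']

private lemma a2_qd_mod (α γ r i : ℕ) : qd α γ i % r = qd α γ (i % r) % r := by
  have h : i ≡ i % r [MOD r] := (Nat.mod_modEq i r).symm
  unfold qd
  exact ((h.mul_left α).add ((h.pow 2).mul_left γ))

theorem sa2 : SA2 := by
  intro w I α γ r D hr hc hw hD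
  set W : ℕ → ℝ := fun e => ∑ i ∈ (range I).filter (fun i => i % r = e), w i with hW
  have hW0 : ∀ e, 0 ≤ W e := fun e => Finset.sum_nonneg fun i _ => hw i
  have hD0 : 0 ≤ D := (hW0 0).trans (hD 0 hr)
  have key : (∑ i ∈ range I, ∑ i' ∈ range I,
      if qd α γ i % r = qd α γ i' % r then w i * w i' else 0) =
      ∑ e ∈ range r, ∑ e' ∈ range r, if qd α γ e % r = qd α γ e' % r then W e * W e' else 0 := by
    have h1 : ∀ (f : ℕ → ℕ → ℝ), (∑ i ∈ range I, w i * f (i % r) 0) =
        ∑ e ∈ range r, W e * f e 0 := by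
      intro f
      rw [← Finset.sum_fiberwise_of_maps_to (s := range I) (t := range r) (g := fun i => i % r)
        (fun i _ => Finset.mem_range.2 (Nat.mod_lt _ hr))]
      apply Finset.sum_congr rfl
      intro e _
      rw [hW, Finset.sum_mul]
      apply Finset.sum_congr rfl
      intro i hi
      rw [(Finset.mem_filter.1 hi).2]
    have h2 : ∀ i, (∑ i' ∈ range I, if qd α γ i % r = qd α γ i' % r then w i * w i' else 0) =
        w i * ∑ e' ∈ range r, if qd α γ (i % r) % r = qd α γ e' % r then W e' else 0 := by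
      intro i
      have := h1 (fun e _ => if qd α γ (i % r) % r = qd α γ e % r then 1 else 0)
      simp only [mul_ite, mul_one, mul_zero] at this
      rw [← this, Finset.mul_sum]
      apply Finset.sum_congr rfl
      intro i' _
      rw [a2_qd_mod α γ r i, a2_qd_mod α γ r i']
      split_ifs <;> simp
    rw [Finset.sum_congr rfl fun i _ => h2 i]
    have h3 := h1 (fun e _ => ∑ e' ∈ range r, if qd α γ e % r = qd α γ e' % r then W e' else 0)
    rw [h3]
    apply Finset.sum_congr rfl
    intro e _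
    rw [Finset.mul_sum]
    apply Finset.sum_congr rfl
    intro e' _
    split_ifs <;> simp
  rw [key, ← Finset.sum_product']
  calc (∑ x ∈ range r ×ˢ range r, if qd α γ x.1 % r = qd α γ x.2 % r then W x.1 * W x.2 else 0)
      ≤ ∑ x ∈ range r ×ˢ range r, if qd α γ x.1 % r = qd α γ x.2 % r then D ^ 2 else 0 := by
        apply Finset.sum_le_sum
        rintro ⟨e, e'⟩ hx
        rw [Finset.mem_product, Finset.mem_range, Finset.mem_range] at hx
        split_ifs
        · rw [sq]
          exact mul_le_mul (hD e hx.1) (hD e' hx.2) (hW0 _) hD0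
        · exact le_refl _
    _ = (((range r ×ˢ range r).filter (fun x => qd α γ x.1 % r = qd α γ x.2 % r)).card : ℝ) * D ^ 2 := by
        rw [← Finset.sum_filter, Finset.sum_const, nsmul_eq_mul]
    _ ≤ ((r.divisors.card * r : ℕ) : ℝ) * D ^ 2 := by
        apply mul_le_mul_of_nonneg_right _ (sq_nonneg D)
        exact_mod_cast a2_count α γ r hr hc
    _ = (r.divisors.card : ℝ) * r * D ^ 2 := by push_cast; ring

end Pool.Agent.SP80
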