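import Pool.Agent.Lib.MP_1e1427_nt.SP.Stm

/-!
Project SP (MP_1e1427_nt): Chebyshev's inequality in one residue class.
-/

namespace Pool.Agent.SP80

open Finset MeasureTheory Filter Topology

private theorem c_exists_t (M F : ℕ) (ν n : ℕ) (hd : (2 * (M : ℤ)) ∣ (F : ℤ) - 2 * ν)
    (hn : n % M = ν % M) : ∃ t : ℤ, 2 * (M : ℤ) * t = 2 * n - F := by
  have h1 : (M : ℤ) ∣ (n : ℤ) - ν := by
    have h2 : (n : ℤ) ≡ (ν : ℤ) [ZMOD (M : ℤ)] := by
      have := (Int.natCast_modEq_iff (a := n) (b := ν) (n := M)).2 hn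
      exact this
    exact h2.symm.dvd
  obtain ⟨a, ha⟩ := h1
  obtain ⟨b, hb⟩ := hd
  exact ⟨a - b, by linear_combination (-2) * ha + hb⟩

theorem sc (v3 : SV3) (h : SH) (j1 : SJ1) : SC := by
  intro M q0 c0 d0 ν hM h8 h5 hq8 hqM hqlt hcM hd δ hδ hsum
  have hM' : (0 : ℝ) < M := by exact_mod_cast hM
  obtain ⟨ε, hε0, hε1, hV⟩ := v3 M q0 c0 d0 hM h8 h5 hq8 hqM hqlt hcM (δ / 400) (by positivity)
    (fun K => (hsum K).trans (by linarith))
  obtain ⟨c, hc, hO⟩ := j1 M q0 hM hqM hqlt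
  filter_upwards [hV, h M q0 c0 d0 hM h8 hq8 ε hε0 hε1, hO, eventually_gt_atTop 0] with Z hV hH hO hZ
    S hS
  have hOm : 0 < Om M q0 Z := lt_of_lt_of_le (by positivity) hO
  choose! t ht using fun n (hn : n ∈ S) => c_exists_t M (F0 q0 c0 d0) ν n hd (hS n hn).2.2.1
  have hinj : Set.InjOn t S := by
    intro n hn m hm hnm
    have h1 := ht n hn
    have h2 := ht m hm
    rw [hnm] at h1
    have h3 : (2 : ℤ) * n = 2 * m := by linarith
    have h4 : (n : ℤ) = m := by linarith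
    exact_mod_cast h4
  have h1 := hV (S.image t)
  rw [Finset.sum_image hinj] at h1
  have h2 : ∀ n ∈ S, (Om M q0 Z / (200 * M)) ^ 2 ≤
      (RZ M q0 c0 d0 Z (t n) - RavZ M q0 c0 d0 ε Z (t n)) ^ 2 := by
    intro n hn
    obtain ⟨h3, h4, h5, h6⟩ := hS n hn
    have h7 := h6 (t n) (ht n hn)
    have h8 := hH n h3 h4 (t n) (ht n hn)
    have h9 : Om M q0 Z / (100 * M) = Om M q0 Z / (200 * M) + Om M q0 Z / (200 * M) := by
      field_simp
      norm_num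
    have h10 : 0 < Om M q0 Z / (200 * M) := by positivity
    have h11 : (RZ M q0 c0 d0 Z (t n) - RavZ M q0 c0 d0 ε Z (t n)) ^ 2 =
      (RavZ M q0 c0 d0 ε Z (t n) - RZ M q0 c0 d0 Z (t n)) ^ 2 := by ring
    rw [h11]
    exact pow_le_pow_left₀ h10.le (by linarith) 2
  have h3 : (S.card : ℝ) * (Om M q0 Z / (200 * M)) ^ 2 ≤
      δ / 400 * (Hz M Z : ℝ) ^ 2 * (Om M q0 Z) ^ 2 / M := by
    refine le_trans ?_ h1
    rw [← nsmul_eq_mul]
    exact Finset.card_nsmul_le_sum S _ _ h2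
  have h4 : (Hz M Z : ℝ) ≤ Z / (10 * M) := Nat.floor_le (by positivity)
  have h5 : (Hz M Z : ℝ) ^ 2 ≤ (Z / (10 * M)) ^ 2 := pow_le_pow_left₀ (Nat.cast_nonneg _) h4 2
  have h6 : (S.card : ℝ) * (Om M q0 Z / (200 * M)) ^ 2 ≤
      (δ * Z ^ 2 / M) * (Om M q0 Z / (200 * M)) ^ 2 := by
    refine h3.trans ?_
    have h7 : δ / 400 * (Hz M Z : ℝ) ^ 2 * (Om M q0 Z) ^ 2 / M ≤
        δ / 400 * (Z / (10 * M)) ^ 2 * (Om M q0 Z) ^ 2 / M := by gcongr
    refine h7.trans (le_of_eq ?_)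
    field_simp
    norm_num
  exact le_of_mul_le_mul_right h6 (by positivity)

end Pool.Agent.SP80
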