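import Pool.Agent.Lib.MP_1e1427_nt.SP.Stm

namespace Pool.Agent.SP80

open Finset MeasureTheory

/-- indicator of the interval of radius `1/(rQ)` around `a/r`, times `f` -/
private noncomputable def d1_J (f : ℝ → ℝ) (Q r a : ℕ) : ℝ → ℝ :=
  Set.indicator (Set.Icc ((a : ℝ) / r - 1 / ((r : ℝ) * Q)) ((a : ℝ) / r + 1 / ((r : ℝ) * Q))) f

private lemma d1_J_nonneg {f : ℝ → ℝ} (hf : ∀ x, 0 ≤ f x) (Q r a : ℕ) (x : ℝ) :
    0 ≤ d1_J f Q r a x := Set.indicator_nonneg (fun _ _ => hf _) _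

private lemma d1_J_int {f : ℝ → ℝ} (hf : Continuous f) (Q r a : ℕ) :
    Integrable (d1_J f Q r a) := by
  unfold d1_J
  rw [integrable_indicator_iff measurableSet_Icc]
  exact hf.integrableOn_Icc

private lemma d1_J_le {f : ℝ → ℝ} (hf : Continuous f) (h0 : ∀ x, 0 ≤ f x) (Q r a : ℕ) :
    ∫ θ in (0 : ℝ)..1, d1_J f Q r a θ ≤
      ∫ β in (-(1 / ((r : ℝ) * Q)))..(1 / ((r : ℝ) * Q)), f ((a : ℝ) / r + β) := by
  rw [intervalIntegral.integral_comp_add_left (fun x => f x) ((a : ℝ) / r)]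
  have hle : (a : ℝ) / r + -(1 / ((r : ℝ) * Q)) ≤ (a : ℝ) / r + 1 / ((r : ℝ) * Q) := by
    have : 0 ≤ 1 / ((r : ℝ) * Q) := by positivity
    linarith
  rw [intervalIntegral.integral_of_le zero_le_one, intervalIntegral.integral_of_le hle,
    ← integral_Icc_eq_integral_Ioc (x := (a : ℝ) / r + -(1 / ((r : ℝ) * Q)))]
  refine (setIntegral_le_integral (d1_J_int hf Q r a)
    (Filter.Eventually.of_forall (d1_J_nonneg h0 Q r a))).trans ?_
  unfold d1_J
  rw [integral_indicator measurableSet_Icc, ← sub_eq_add_neg]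

private lemma d1_key (f G : ℝ → ℝ) (R : Finset ℕ) (Q : ℕ) (Bs : ℝ)
    (hf0 : ∀ x, 0 ≤ f x) (hG0 : ∀ x, 0 ≤ G x) (hQ : 0 < Q) (hB : 0 ≤ Bs)
    (h : ∀ θ ∈ Set.Icc (0 : ℝ) 1, ∀ (a : ℤ) (r : ℕ), 0 < r → r ≤ Q → r ∉ R → IsCoprime a (r : ℤ) →
      |θ - a / r| ≤ 1 / ((r : ℝ) * (Q + 1)) → f θ ≤ Bs * G θ) (θ : ℝ) (hθ : θ ∈ Set.Icc (0 : ℝ) 1) :
    f θ ≤ Bs * G θ + ∑ r ∈ R, ∑ a ∈ (range (r + 1)).filter (fun a => Nat.Coprime a r),
      d1_J f Q r a θ := by
  obtain ⟨q, hq1, hq2⟩ := Real.exists_rat_abs_sub_le_and_den_le θ hQ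
  have hr : 0 < q.den := q.den_pos
  have hr' : (0 : ℝ) < (q.den : ℝ) := by exact_mod_cast hr
  have hQ' : (0 : ℝ) < (Q : ℝ) := by exact_mod_cast hQ
  have hqe : (q : ℝ) = (q.num : ℝ) / (q.den : ℝ) := by
    exact_mod_cast (Rat.num_div_den q).symm
  rw [hqe, mul_comm ((Q : ℝ) + 1)] at hq1
  have hnn : ∀ r ∈ R, 0 ≤ ∑ a ∈ (range (r + 1)).filter (fun a => Nat.Coprime a r),
      d1_J f Q r a θ := fun r _ => sum_nonneg fun a _ => d1_J_nonneg hf0 Q r a θ
  have hcop : IsCoprime q.num (q.den : ℤ) := by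
    rw [Int.isCoprime_iff_gcd_eq_one]
    exact_mod_cast q.reduced
  by_cases hR : q.den ∈ R
  · have hlt : 1 / ((q.den : ℝ) * (Q + 1)) < 1 / (q.den : ℝ) := by
      apply one_div_lt_one_div_of_lt hr'
      nlinarith
    have habs := abs_le.1 hq1
    have hn0 : 0 ≤ q.num := by
      have h1 : (-1 : ℝ) / (q.den : ℝ) < (q.num : ℝ) / (q.den : ℝ) := by
        rw [neg_div]
        linarith [habs.2, hθ.1]
      have h2 : (-1 : ℝ) < (q.num : ℝ) := by
        rwa [div_lt_div_iff_of_pos_right hr'] at h1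
      have h3 : (-1 : ℤ) < q.num := by exact_mod_cast h2
      omega
    have hn1 : q.num ≤ q.den := by
      have h1 : (q.num : ℝ) / (q.den : ℝ) < ((q.den : ℝ) + 1) / (q.den : ℝ) := by
        rw [add_div, div_self hr'.ne']
        linarith [habs.1, hθ.2]
      have h2 : (q.num : ℝ) < (q.den : ℝ) + 1 := by
        rwa [div_lt_div_iff_of_pos_right hr'] at h1
      have h3 : q.num < (q.den : ℤ) + 1 := by exact_mod_cast h2
      omega
    obtain ⟨a, ha⟩ := Int.eq_ofNat_of_zero_le hn0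
    have hmem : a ∈ (range (q.den + 1)).filter (fun a => Nat.Coprime a q.den) := by
      rw [mem_filter, mem_range]
      constructor
      · omega
      · have := q.reduced
        rw [ha] at this
        exact this
    have hJ : d1_J f Q q.den a θ = f θ := by
      unfold d1_J
      apply Set.indicator_of_mem
      have hle : 1 / ((q.den : ℝ) * (Q + 1)) ≤ 1 / ((q.den : ℝ) * Q) := by
        apply one_div_le_one_div_of_le (by positivity)
        nlinarith
      rw [ha] at habs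
      push_cast at habs
      constructor
      · linarith [habs.1]
      · linarith [habs.2]
    have h1 : f θ ≤ ∑ a ∈ (range (q.den + 1)).filter (fun a => Nat.Coprime a q.den),
        d1_J f Q q.den a θ := by
      rw [← hJ]
      exact single_le_sum (f := fun a => d1_J f Q q.den a θ)
        (fun a _ => d1_J_nonneg hf0 Q q.den a θ) hmem
    have h2 := single_le_sum (f := fun r => ∑ a ∈ (range (r + 1)).filter
      (fun a => Nat.Coprime a r), d1_J f Q r a θ) hnn hR
    have h3 : 0 ≤ Bs * G θ := mul_nonneg hB (hG0 θ)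
    linarith
  · have h1 := h θ hθ q.num q.den hr hq2 hR hcop hq1
    have := sum_nonneg hnn
    linarith

private lemma d1_int_sum {ι : Type*} (s : Finset ι) (F : ι → ℝ → ℝ)
    (h : ∀ i ∈ s, IntervalIntegrable (F i) volume 0 1) :
    IntervalIntegrable (fun x => ∑ i ∈ s, F i x) volume 0 1 := by
  have := IntervalIntegrable.sum s h
  rwa [show (∑ i ∈ s, F i) = fun x => ∑ i ∈ s, F i x from by
    funext x; simp] at this

theorem sd1 : SD1 := by
  intro f G R Q Bs hf hG hf0 hG0 _ hQ hB h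
  have hI : ∀ r a, IntervalIntegrable (d1_J f Q r a) volume 0 1 := fun r a =>
    (d1_J_int hf Q r a).intervalIntegrable
  have hI2 : ∀ r, IntervalIntegrable (fun θ => ∑ a ∈ (range (r + 1)).filter
      (fun a => Nat.Coprime a r), d1_J f Q r a θ) volume 0 1 := fun r =>
    d1_int_sum _ _ fun a _ => hI r a
  have hI3 : IntervalIntegrable (fun θ => ∑ r ∈ R, ∑ a ∈ (range (r + 1)).filter
      (fun a => Nat.Coprime a r), d1_J f Q r a θ) volume 0 1 :=
    d1_int_sum _ _ fun r _ => hI2 r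
  have hG1 : IntervalIntegrable (fun θ => Bs * G θ) volume 0 1 :=
    (continuous_const.mul hG).intervalIntegrable _ _
  have h1 : ∫ θ in (0 : ℝ)..1, f θ ≤ ∫ θ in (0 : ℝ)..1, (Bs * G θ + ∑ r ∈ R,
      ∑ a ∈ (range (r + 1)).filter (fun a => Nat.Coprime a r), d1_J f Q r a θ) :=
    intervalIntegral.integral_mono_on zero_le_one (hf.intervalIntegrable _ _) (hG1.add hI3)
      (d1_key f G R Q Bs hf0 hG0 hQ hB h)
  refine h1.trans ?_
  rw [intervalIntegral.integral_add hG1 hI3,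
    intervalIntegral.integral_const_mul, intervalIntegral.integral_finsetSum (fun r _ => hI2 r)]
  refine add_le_add le_rfl (sum_le_sum fun r _ => ?_)
  rw [intervalIntegral.integral_finsetSum (fun a _ => hI r a)]
  exact sum_le_sum fun a _ => d1_J_le hf hf0 Q r a

end Pool.Agent.SP80
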