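import Pool.Agent.Lib.MP_1e1427_nt.SP.Stm
import Pool.Agent.Lib.MP_1e1427_nt.TwoSq

/-!
Project SP (MP_1e1427_nt): many representations give many primes.
-/

set_option autoImplicit false

namespace Pool.Agent.SP80

open Finset Filter Topology Asymptotics
open Pool.Agent.Lib.MP1e1427 (twoSq mem_twoSq exists_card_twoSq_le)

private theorem dc_eq (hid : SID) {M q0 c0 d0 n i j k : ℕ} {t : ℤ} (hM8 : 8 ∣ M)
    (hq : q0 % 8 = 3) (ht : 2 * (M : ℤ) * t = 2 * n - F0 q0 c0 d0)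
    (h : ((qd ((5 * q0 + 1) / 4) (5 * (M / 8)) i + qd c0 (M / 2) j + qd d0 (M / 2) k : ℕ) : ℤ)
      = t) :
    2 * n = (q0 + M * i) ^ 2 + ((q0 + M * i + 1) / 2) ^ 2 + (c0 + M * j) ^ 2 +
      (d0 + M * k) ^ 2 := by
  have h1 := hid M q0 c0 d0 i j k hM8 hq
  rw [h1]
  have h2 : (2 * (n : ℤ)) = F0 q0 c0 d0 + 2 * M *
      ((qd ((5 * q0 + 1) / 4) (5 * (M / 8)) i + qd c0 (M / 2) j + qd d0 (M / 2) k : ℕ) : ℤ) := by
    rw [h]; linarith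
  exact_mod_cast h2

private theorem dc_mem {n q c d : ℕ} (hp : q.Prime) (h8 : q % 8 = 3) (h4 : 4 * n ≤ 3 * q ^ 2)
    (hc : Odd c) (hd : Even d) (hcq : c ≤ q) (hdq : 2 * d ≤ q + 1)
    (h : 2 * n = q ^ 2 + ((q + 1) / 2) ^ 2 + c ^ 2 + d ^ 2) : q ∈ Qs n := by
  classical
  unfold Qs
  rw [mem_filter, mem_range]
  refine ⟨?_, hp, h8, h4, c, d, hc, hd, hcq, hdq, h⟩
  have h1 : q ≤ q ^ 2 := Nat.le_self_pow two_ne_zero q
  have h2 : 0 ≤ ((q + 1) / 2) ^ 2 + c ^ 2 + d ^ 2 := Nat.zero_le _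
  omega

private theorem dc_term (hid : SID) {M q0 c0 d0 n i : ℕ} {J : Finset ℕ} {t : ℤ} {w L B : ℝ}
    (hM : 0 < M) (hM8 : 8 ∣ M) (hq : q0 % 8 = 3) (hc0 : Odd c0) (hd0 : Even d0)
    (ht : 2 * (M : ℤ) * t = 2 * n - F0 q0 c0 d0) (hw0 : 0 ≤ w) (hwL : w ≤ L)
    (hgood : w ≠ 0 → (q0 + M * i).Prime ∧ 4 * n ≤ 3 * (q0 + M * i) ^ 2 ∧
      ∀ j ∈ J, c0 + M * j ≤ q0 + M * i ∧ 2 * (d0 + M * j) ≤ q0 + M * i + 1)
    (hB : ∀ m ≤ 2 * n, ((twoSq m).card : ℝ) ≤ B) :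
    (∑ j ∈ J, ∑ k ∈ J, if ((qd ((5 * q0 + 1) / 4) (5 * (M / 8)) i + qd c0 (M / 2) j +
      qd d0 (M / 2) k : ℕ) : ℤ) = t then w else 0) ≤
      if q0 + M * i ∈ Qs n then L * B else 0 := by
  classical
  have hB0 : 0 ≤ B := le_trans (Nat.cast_nonneg _) (hB 0 (Nat.zero_le _))
  have hL0 : 0 ≤ L := hw0.trans hwL
  have hR : 0 ≤ (if q0 + M * i ∈ Qs n then L * B else 0) := by
    split_ifs
    · exact mul_nonneg hL0 hB0
    · exact le_rfl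
  set F := (J ×ˢ J).filter (fun x : ℕ × ℕ => ((qd ((5 * q0 + 1) / 4) (5 * (M / 8)) i +
    qd c0 (M / 2) x.1 + qd d0 (M / 2) x.2 : ℕ) : ℤ) = t) with hF
  have hsum : (∑ j ∈ J, ∑ k ∈ J, if ((qd ((5 * q0 + 1) / 4) (5 * (M / 8)) i + qd c0 (M / 2) j +
      qd d0 (M / 2) k : ℕ) : ℤ) = t then w else 0) = F.card * w := by
    rw [← Finset.sum_product' (f := fun j k => if ((qd ((5 * q0 + 1) / 4) (5 * (M / 8)) i +
      qd c0 (M / 2) j + qd d0 (M / 2) k : ℕ) : ℤ) = t then w else 0), ← Finset.sum_filter,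
      Finset.sum_const, nsmul_eq_mul]
  rw [hsum]
  by_cases hw : w = 0
  · rw [hw, mul_zero]; exact hR
  obtain ⟨g1, g2, g3⟩ := hgood hw
  rcases F.eq_empty_or_nonempty with he | ⟨x0, hx0⟩
  · rw [he, card_empty, Nat.cast_zero, zero_mul]; exact hR
  have hrep : ∀ x ∈ F, 2 * n = (q0 + M * i) ^ 2 + ((q0 + M * i + 1) / 2) ^ 2 +
      (c0 + M * x.1) ^ 2 + (d0 + M * x.2) ^ 2 := by
    intro x hx
    exact dc_eq hid hM8 hq ht (mem_filter.1 hx).2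
  have hmemF : ∀ x ∈ F, x.1 ∈ J ∧ x.2 ∈ J := fun x hx => mem_product.1 (mem_filter.1 hx).1
  have h8 : (q0 + M * i) % 8 = 3 := by
    obtain ⟨M', rfl⟩ := hM8
    rw [mul_assoc, Nat.add_mul_mod_self_left]; exact hq
  have hodd : ∀ j, Odd (c0 + M * j) := by
    intro j
    obtain ⟨M', rfl⟩ := hM8
    refine hc0.add_even ?_
    exact ⟨4 * M' * j, by ring⟩
  have heven : ∀ j, Even (d0 + M * j) := by
    intro j
    obtain ⟨M', rfl⟩ := hM8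
    refine hd0.add ?_
    exact ⟨4 * M' * j, by ring⟩
  have hQ : q0 + M * i ∈ Qs n := by
    have h1 := hmemF x0 hx0
    exact dc_mem g1 h8 g2 (hodd x0.1) (heven x0.2) (g3 _ h1.1).1 (g3 _ h1.2).2 (hrep x0 hx0)
  rw [if_pos hQ]
  have hcard : F.card ≤ (twoSq (2 * n - (q0 + M * i) ^ 2 - ((q0 + M * i + 1) / 2) ^ 2)).card := by
    refine Finset.card_le_card_of_injOn (fun x => (c0 + M * x.1, d0 + M * x.2)) ?_ ?_
    · intro x hx
      have h2 := hrep x (mem_coe.1 hx)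
      rw [mem_coe, mem_twoSq]
      show (c0 + M * x.1) ^ 2 + (d0 + M * x.2) ^ 2 = _
      omega
    · rintro x - y - hxy
      have h3 := Prod.mk.inj hxy
      have h4 : M * x.1 = M * y.1 := Nat.add_left_cancel h3.1
      have h5 : M * x.2 = M * y.2 := Nat.add_left_cancel h3.2
      exact Prod.ext (Nat.eq_of_mul_eq_mul_left hM h4) (Nat.eq_of_mul_eq_mul_left hM h5)
  have h6 : (F.card : ℝ) ≤ B := by
    refine le_trans (Nat.cast_le.2 hcard) (hB _ ?_)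
    omega
  calc (F.card : ℝ) * w ≤ B * L := mul_le_mul h6 hwL hw0 hB0
    _ = L * B := mul_comm _ _

private theorem dc_sum (hid : SID) {M q0 c0 d0 n : ℕ} {t : ℤ} {Z L B : ℝ}
    (hM : 0 < M) (hM8 : 8 ∣ M) (hq : q0 % 8 = 3) (hc0 : Odd c0) (hd0 : Even d0)
    (ht : 2 * (M : ℤ) * t = 2 * n - F0 q0 c0 d0) (hw0 : ∀ i, 0 ≤ wt M q0 Z i)
    (hwL : ∀ i, wt M q0 Z i ≤ L)
    (hgood : ∀ i, wt M q0 Z i ≠ 0 → (q0 + M * i).Prime ∧ 4 * n ≤ 3 * (q0 + M * i) ^ 2 ∧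
      ∀ j ∈ Ico (3 * Hz M Z) (3 * Hz M Z + Hz M Z), c0 + M * j ≤ q0 + M * i ∧
        2 * (d0 + M * j) ≤ q0 + M * i + 1)
    (hB : ∀ m ≤ 2 * n, ((twoSq m).card : ℝ) ≤ B) :
    RZ M q0 c0 d0 Z t ≤ (Qs n).card * (L * B) := by
  classical
  have hB0 : 0 ≤ B := le_trans (Nat.cast_nonneg _) (hB 0 (Nat.zero_le _))
  have hL0 : 0 ≤ L := (hw0 0).trans (hwL 0)
  unfold RZ RR
  refine (Finset.sum_le_sum fun i _ => dc_term hid hM hM8 hq hc0 hd0 ht (hw0 i) (hwL i)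
    (hgood i) hB).trans ?_
  rw [← Finset.sum_filter, Finset.sum_const, nsmul_eq_mul]
  refine mul_le_mul_of_nonneg_right ?_ (mul_nonneg hL0 hB0)
  refine Nat.cast_le.2 ?_
  refine Finset.card_le_card_of_injOn (fun i => q0 + M * i) ?_ ?_
  · intro i hi
    exact (mem_filter.1 (mem_coe.1 hi)).2
  · rintro i - i' - h
    exact Nat.eq_of_mul_eq_mul_left hM (Nat.add_left_cancel h)

private theorem dc_win {M q0 c0 d0 n i : ℕ} {Z : ℝ} (hM : 0 < M) (hZ : 0 < Z)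
    (hc : (c0 : ℝ) ≤ Z / 10) (hd : (d0 : ℝ) ≤ Z / 10) (hn : (n : ℝ) ≤ 1001 / 1000 * Z ^ 2)
    (hw : 1397 / 1000 * Z ^ 2 ≤ ((q0 + M * i : ℕ) : ℝ) ^ 2) :
    4 * n ≤ 3 * (q0 + M * i) ^ 2 ∧
      ∀ j ∈ Ico (3 * Hz M Z) (3 * Hz M Z + Hz M Z), c0 + M * j ≤ q0 + M * i ∧
        2 * (d0 + M * j) ≤ q0 + M * i + 1 := by
  have hM' : (0 : ℝ) < M := Nat.cast_pos.2 hM
  have hq : 118 / 100 * Z ≤ ((q0 + M * i : ℕ) : ℝ) := by
    have h0 : (0 : ℝ) ≤ ((q0 + M * i : ℕ) : ℝ) := Nat.cast_nonneg _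
    by_contra hlt
    push_neg at hlt
    have : ((q0 + M * i : ℕ) : ℝ) ^ 2 < (118 / 100 * Z) ^ 2 := by
      exact pow_lt_pow_left₀ hlt h0 two_ne_zero
    nlinarith [sq_nonneg Z, mul_pos hZ hZ]
  have hH : (M : ℝ) * (Hz M Z : ℝ) ≤ Z / 10 := by
    have h1 : (Hz M Z : ℝ) ≤ Z / (10 * M) := by
      unfold Hz
      exact Nat.floor_le (by positivity)
    calc (M : ℝ) * (Hz M Z : ℝ) ≤ M * (Z / (10 * M)) := mul_le_mul_of_nonneg_left h1 hM'.le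
      _ = Z / 10 := by field_simp
  refine ⟨?_, fun j hj => ?_⟩
  · have h1 : (4 : ℝ) * n ≤ 3 * ((q0 + M * i : ℕ) : ℝ) ^ 2 := by nlinarith [mul_pos hZ hZ]
    exact_mod_cast h1
  · have hj2 : (j : ℝ) ≤ 4 * (Hz M Z : ℝ) := by
      have h1 := (mem_Ico.1 hj).2
      have h2 : j ≤ 4 * Hz M Z := by omega
      exact_mod_cast h2
    have h3 : (M : ℝ) * j ≤ 4 * (Z / 10) := by
      calc (M : ℝ) * j ≤ M * (4 * (Hz M Z : ℝ)) := mul_le_mul_of_nonneg_left hj2 hM'.le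
        _ = 4 * (M * (Hz M Z : ℝ)) := by ring
        _ ≤ 4 * (Z / 10) := by linarith
    constructor
    · have h1 : ((c0 + M * j : ℕ) : ℝ) ≤ ((q0 + M * i : ℕ) : ℝ) := by
        push_cast at hq ⊢
        linarith
      exact_mod_cast h1
    · have h1 : ((2 * (d0 + M * j) : ℕ) : ℝ) ≤ ((q0 + M * i + 1 : ℕ) : ℝ) := by
        push_cast at hq ⊢
        linarith
      exact_mod_cast h1

private theorem dc_pow {ε Z : ℝ} {n : ℕ} (hε : 0 < ε) (hZ : 1 ≤ Z) (h1 : Z ^ 2 < n)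
    (h2 : (n : ℝ) ≤ 1001 / 1000 * Z ^ 2) :
    (n : ℝ) ^ (1 / 2 - ε) * (Z ^ ε) ^ 2 ≤ 1001 / 1000 * Z := by
  have hZ0 : 0 < Z := by linarith
  have hn : (0 : ℝ) < n := lt_trans (by positivity) h1
  have e1 : (n : ℝ) ^ (1 / 2 - ε) = Real.sqrt n * (n : ℝ) ^ (-ε) := by
    rw [Real.sqrt_eq_rpow, ← Real.rpow_add hn, sub_eq_add_neg]
  have e2 : Real.sqrt n ≤ 1001 / 1000 * Z := by
    rw [Real.sqrt_le_iff]
    refine ⟨by positivity, ?_⟩
    nlinarith [mul_pos hZ0 hZ0]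
  have e3 : (n : ℝ) ^ (-ε) ≤ (Z ^ 2) ^ (-ε) :=
    Real.rpow_le_rpow_of_nonpos (by positivity) h1.le (by linarith)
  have e4 : (Z ^ 2) ^ (-ε) * (Z ^ ε) ^ 2 = 1 := by
    rw [← Real.rpow_natCast Z 2, ← Real.rpow_natCast (Z ^ ε) 2, ← Real.rpow_mul hZ0.le,
      ← Real.rpow_mul hZ0.le, ← Real.rpow_add hZ0]
    have : (((2 : ℕ) : ℝ) * -ε + ε * ((2 : ℕ) : ℝ)) = 0 := by ring
    rw [this, Real.rpow_zero]
  have e5 : 0 ≤ (n : ℝ) ^ (-ε) := Real.rpow_nonneg hn.le _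
  have e6 : 0 ≤ (Z ^ ε) ^ 2 := by positivity
  calc (n : ℝ) ^ (1 / 2 - ε) * (Z ^ ε) ^ 2 = Real.sqrt n * ((n : ℝ) ^ (-ε) * (Z ^ ε) ^ 2) := by
        rw [e1]; ring
    _ ≤ (1001 / 1000 * Z) * ((Z ^ 2) ^ (-ε) * (Z ^ ε) ^ 2) := by
        refine mul_le_mul e2 (mul_le_mul_of_nonneg_right e3 e6) (mul_nonneg e5 e6) (by positivity)
    _ = 1001 / 1000 * Z := by rw [e4, mul_one]

theorem sdc (hid : SID) (j1 : SJ1) (j3 : SJ3) : SDC := by
  intro M q0 c0 d0 hM hM8 hq hqM hlt hcM hd0 ε hε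
  have hM' : (0 : ℝ) < M := Nat.cast_pos.2 hM
  have hc0 : Odd c0 := by
    have h2 : 2 ∣ M := dvd_trans (by norm_num) hM8
    have h3 : Nat.Coprime c0 2 := Nat.Coprime.coprime_dvd_right h2 hcM
    exact Nat.coprime_two_right.1 h3
  obtain ⟨c, hc, hj1⟩ := j1 M q0 hM hqM hlt
  obtain ⟨k, hk⟩ := exists_nat_gt (4 / ε)
  have hk0 : 0 < (k : ℝ) := lt_trans (by positivity) hk
  have hkn : k ≠ 0 := by
    rintro rfl
    simp at hk0
  obtain ⟨C, hC1, hC⟩ := exists_card_twoSq_le k hkn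
  have hk2 : 2 / (k : ℝ) ≤ ε / 2 := by
    rw [div_le_iff₀ hk0]
    rw [div_lt_iff₀ hε] at hk
    nlinarith
  have hC0 : 0 < C := by linarith
  set a : ℝ := (3 : ℝ) ^ (ε / 2) with ha
  have ha0 : 0 < a := Real.rpow_pos_of_pos (by norm_num) _
  set δ : ℝ := c / (200 * M * (1001 / 1000 * (20 * (C * a)))) with hδ
  have hδ0 : 0 < δ := by positivity
  have hlog := (isLittleO_log_rpow_atTop hε).bound hδ0
  filter_upwards [hj1, j3 M q0 hM, hlog, eventually_ge_atTop (3 : ℝ),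
    eventually_ge_atTop (10 * (c0 : ℝ)), eventually_ge_atTop (10 * (d0 : ℝ))]
    with Z h1 h3 h4 hZ3 hZc hZd
  intro n hn1 hn2 t ht hR
  have hZ0 : 0 < Z := by linarith
  have hZ1 : 1 ≤ Z := by linarith
  have hlZ : 0 < Real.log Z := Real.log_pos (by linarith)
  set y : ℝ := (3 * Z ^ 2) ^ ((k : ℝ)⁻¹) with hy
  have hb : 1 ≤ 3 * Z ^ 2 := by nlinarith
  have hb0 : 0 ≤ 3 * Z ^ 2 := by linarith
  have hy1 : 1 ≤ y := Real.one_le_rpow hb (by positivity)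
  have hyk : y ^ k = 3 * Z ^ 2 := by
    rw [hy]
    exact Real.rpow_inv_natCast_pow hb0 hkn
  have hB : ∀ m ≤ 2 * n, ((twoSq m).card : ℝ) ≤ C * y ^ 2 := by
    intro m hm
    refine hC y hy1 m ?_
    rw [hyk]
    have h5 : (m : ℝ) ≤ 2 * n := by exact_mod_cast hm
    nlinarith [mul_pos hZ0 hZ0]
  have hmain := dc_sum (Z := Z) (L := 20 * Real.log Z) hid hM hM8 hq hc0 hd0 ht
    (fun i => (h3 i).1) (fun i => (h3 i).2.1) (fun i hi => by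
      obtain ⟨g1, g2, g3⟩ := (h3 i).2.2 hi
      exact ⟨g1, dc_win hM hZ0 (by linarith) (by linarith) hn2 g2⟩) hB
  have hy2 : y ^ 2 ≤ a * Z ^ ε := by
    have e1 : y ^ 2 = (3 * Z ^ 2) ^ (2 / (k : ℝ)) := by
      rw [hy, ← Real.rpow_natCast, ← Real.rpow_mul hb0]
      congr 1
      push_cast
      field_simp
    rw [e1]
    refine (Real.rpow_le_rpow_of_exponent_le hb hk2).trans (le_of_eq ?_)
    rw [Real.mul_rpow (by norm_num) (by positivity), ha, ← Real.rpow_natCast Z 2,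
      ← Real.rpow_mul hZ0.le]
    congr 2
    push_cast
    ring
  have hlog2 : Real.log Z ≤ δ * Z ^ ε := by
    have h5 : ‖Real.log Z‖ = Real.log Z := by
      rw [Real.norm_eq_abs, abs_of_pos hlZ]
    have h6 : ‖Z ^ ε‖ = Z ^ ε := by
      rw [Real.norm_eq_abs, abs_of_pos (Real.rpow_pos_of_pos hZ0 _)]
    rw [h5, h6] at h4
    exact h4
  have hpow := dc_pow hε hZ1 hn1 hn2
  set u : ℝ := Z ^ ε with hu
  have hu0 : 0 < u := Real.rpow_pos_of_pos hZ0 _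
  set N : ℝ := (n : ℝ) ^ (1 / 2 - ε) with hN
  have hN0 : 0 ≤ N := Real.rpow_nonneg (Nat.cast_nonneg _) _
  set Q : ℝ := ((Qs n).card : ℝ) with hQ
  have hK0 : 0 < 20 * Real.log Z * (C * y ^ 2) := by positivity
  -- `N * K ≤ c Z / (200 M)`
  have hK : 20 * Real.log Z * (C * y ^ 2) ≤ (20 * (C * a)) * δ * u ^ 2 := by
    calc 20 * Real.log Z * (C * y ^ 2) ≤ 20 * (δ * u) * (C * (a * u)) := by
          refine mul_le_mul (by linarith) (mul_le_mul_of_nonneg_left hy2 hC0.le) (by positivity)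
            (by positivity)
      _ = (20 * (C * a)) * δ * u ^ 2 := by ring
  have h7 : N * (20 * Real.log Z * (C * y ^ 2)) ≤ c * Z / (200 * M) := by
    calc N * (20 * Real.log Z * (C * y ^ 2)) ≤ N * ((20 * (C * a)) * δ * u ^ 2) :=
          mul_le_mul_of_nonneg_left hK hN0
      _ = ((20 * (C * a)) * δ) * (N * u ^ 2) := by ring
      _ ≤ ((20 * (C * a)) * δ) * (1001 / 1000 * Z) :=
          mul_le_mul_of_nonneg_left hpow (by positivity)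
      _ = c * Z / (200 * M) := by
          rw [hδ]
          field_simp
  have h8 : c * Z / (200 * M) ≤ Q * (20 * Real.log Z * (C * y ^ 2)) := by
    calc c * Z / (200 * M) ≤ Om M q0 Z / (200 * M) :=
          div_le_div_of_nonneg_right h1 (by positivity)
      _ ≤ RZ M q0 c0 d0 Z t := hR
      _ ≤ Q * (20 * Real.log Z * (C * y ^ 2)) := hmain
  exact le_of_mul_le_mul_right (h7.trans h8) hK0

end Pool.Agent.SP80
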