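import Mathlib
import Pool.Agent.Lib.MP_1e1427_nt.SP.Stm
import Pool.Agent.Lib.MP_89da58_nt.LargeArith

/-!
Energy count.
-/

namespace Pool.Agent.SP80

open Finset

private theorem f_qd_mono (b g : ℕ) {x y : ℕ} (h : x ≤ y) : qd b g x ≤ qd b g y := by
  unfold qd
  gcongr

private theorem f_qd_lt (b g : ℕ) (hg : 0 < g) {x y : ℕ} (h : x < y) : qd b g x < qd b g y := by
  unfold qd
  have h1 : b * x ≤ b * y := Nat.mul_le_mul_left b h.le
  have h2 : x ^ 2 < y ^ 2 := Nat.pow_lt_pow_left h (by norm_num)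
  have h3 : g * x ^ 2 < g * y ^ 2 := Nat.mul_lt_mul_of_pos_left h2 hg
  omega

private theorem f_qd_inj (b g : ℕ) (hg : 0 < g) {x y : ℕ} (h : qd b g x = qd b g y) : x = y := by
  rcases lt_trichotomy x y with h1 | h1 | h1
  · have := f_qd_lt b g hg h1; omega
  · exact h1
  · have := f_qd_lt b g hg h1; omega

private theorem f_key (α γ d g i i' k k' : ℕ) (hi : i' ≤ i) (hk : k ≤ k')
    (h : qd α γ i + qd d g k = qd α γ i' + qd d g k') :
    (i - i') * (α + γ * (i + i')) = (k' - k) * (d + g * (k + k')) := by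
  obtain ⟨u, rfl⟩ := Nat.exists_eq_add_of_le hi
  obtain ⟨w, rfl⟩ := Nat.exists_eq_add_of_le hk
  rw [Nat.add_sub_cancel_left, Nat.add_sub_cancel_left]
  unfold qd at h
  zify at h ⊢
  linear_combination h

/-- the solutions with `k < k'` -/
private def f_T (α γ d g N : ℕ) : Finset ((ℕ × ℕ) × (ℕ × ℕ)) :=
  ((range N ×ˢ range N) ×ˢ (range N ×ˢ range N)).filter
    (fun x => qd α γ x.1.1 + qd d g x.1.2 = qd α γ x.2.1 + qd d g x.2.2 ∧ x.1.2 < x.2.2)

private theorem f_T_card (α γ d g N : ℕ) (hγ : 0 < γ) (hg : 0 < g) :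
    (f_T α γ d g N).card ≤ ∑ p ∈ (range N ×ˢ range N).filter (fun p => p.1 < p.2),
      ((p.2 - p.1) * (d + g * (p.1 + p.2))).divisors.card := by
  classical
  have hmem : ∀ x ∈ f_T α γ d g N, (x.1.2, x.2.2) ∈
      (range N ×ˢ range N).filter (fun p => p.1 < p.2) := by
    intro x hx
    simp only [f_T, mem_filter, mem_product, mem_range] at hx ⊢
    exact ⟨⟨hx.1.1.2, hx.1.2.2⟩, hx.2.2⟩
  rw [Finset.card_eq_sum_card_fiberwise (f := fun x : (ℕ × ℕ) × (ℕ × ℕ) => (x.1.2, x.2.2)) hmem]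
  refine Finset.sum_le_sum ?_
  rintro ⟨k, k'⟩ hp
  simp only [mem_filter, mem_product, mem_range] at hp
  obtain ⟨-, hkk⟩ := hp
  have hm0 : (k' - k) * (d + g * (k + k')) ≠ 0 := by
    have h1 : 0 < k' - k := by omega
    have h2 : 0 < g * (k + k') := Nat.mul_pos hg (by omega)
    exact (Nat.mul_pos h1 (by omega)).ne'
  have hlt : ∀ x ∈ f_T α γ d g N, x.2.1 < x.1.1 := by
    intro x hx
    simp only [f_T, mem_filter, mem_product, mem_range] at hx
    by_contra hcon
    have h1 := f_qd_mono α γ (not_lt.1 hcon)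
    have h2 := f_qd_lt d g hg hx.2.2
    have h3 := hx.2.1
    omega
  refine Finset.card_le_card_of_injOn (fun x : (ℕ × ℕ) × (ℕ × ℕ) => x.1.1 - x.2.1) ?_ ?_
  · intro x hx
    rw [Finset.mem_coe, mem_filter] at hx
    obtain ⟨hx1, hx2⟩ := hx
    have h1 := hlt x hx1
    simp only [f_T, mem_filter, mem_product, mem_range] at hx1
    have h2 := f_key α γ d g x.1.1 x.2.1 x.1.2 x.2.2 h1.le hx1.2.2.le hx1.2.1
    have h3 : x.1.2 = k := congrArg Prod.fst hx2
    have h4 : x.2.2 = k' := congrArg Prod.snd hx2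
    rw [h3, h4] at h2
    rw [Finset.mem_coe, Nat.mem_divisors]
    exact ⟨⟨_, h2.symm⟩, hm0⟩
  · intro x hx y hy hxy
    rw [Finset.mem_coe, mem_filter] at hx hy
    obtain ⟨hx1, hx2⟩ := hx
    obtain ⟨hy1, hy2⟩ := hy
    have hx0 := hlt x hx1
    have hy0 := hlt y hy1
    simp only [f_T, mem_filter, mem_product, mem_range] at hx1 hy1
    have h2 := f_key α γ d g x.1.1 x.2.1 x.1.2 x.2.2 hx0.le hx1.2.2.le hx1.2.1
    have h2' := f_key α γ d g y.1.1 y.2.1 y.1.2 y.2.2 hy0.le hy1.2.2.le hy1.2.1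
    have h3 : x.1.2 = k := congrArg Prod.fst hx2
    have h4 : x.2.2 = k' := congrArg Prod.snd hx2
    have h3' : y.1.2 = k := congrArg Prod.fst hy2
    have h4' : y.2.2 = k' := congrArg Prod.snd hy2
    rw [h3, h4] at h2
    rw [h3', h4'] at h2'
    have hxy' : x.1.1 - x.2.1 = y.1.1 - y.2.1 := hxy
    rw [← h2', ← hxy'] at h2
    have h5 := Nat.eq_of_mul_eq_mul_left (by omega) h2
    have h6 : γ * (x.1.1 + x.2.1) = γ * (y.1.1 + y.2.1) := by omega
    have h7 := Nat.eq_of_mul_eq_mul_left hγ h6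
    refine Prod.ext (Prod.ext ?_ ?_) (Prod.ext ?_ ?_)
    · omega
    · omega
    · omega
    · omega

private theorem f_inj (s : Finset ℕ) (φ : ℕ → ℕ) (X : ℕ) (F : ℕ → ℝ) (hF : ∀ n, 0 ≤ F n)
    (hφ : Set.InjOn φ s) (hX : ∀ k ∈ s, 1 ≤ φ k ∧ φ k ≤ X) :
    ∑ k ∈ s, F (φ k) ≤ ∑ n ∈ Icc 1 X, F n := by
  classical
  rw [← Finset.sum_image (f := F) hφ]
  refine Finset.sum_le_sum_of_subset_of_nonneg ?_ (fun n _ _ => hF n)
  intro n hn
  rw [mem_image] at hn
  obtain ⟨k, hk, rfl⟩ := hn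
  exact mem_Icc.2 (hX k hk)

private theorem f_sum (d g N : ℕ) (hg : 0 < g) (hN : 2 ≤ N) :
    ∑ p ∈ (range N ×ˢ range N).filter (fun p => p.1 < p.2),
      ((((p.2 - p.1) * (d + g * (p.1 + p.2))).divisors.card : ℕ) : ℝ) ≤
    (1 + ((d : ℝ) + 2 * g) * (1 + Real.log (d + 2 * g)) ^ 3) * (N : ℝ) ^ 2 *
      (1 + Real.log N) ^ 3 := by
  classical
  set τ : ℕ → ℝ := fun n => ((n.divisors.card : ℝ)) ^ 2 with hτ
  have hτ0 : ∀ n, 0 ≤ τ n := fun n => sq_nonneg _
  have h1 : ∀ p ∈ (range N ×ˢ range N).filter (fun p => p.1 < p.2),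
      ((((p.2 - p.1) * (d + g * (p.1 + p.2))).divisors.card : ℕ) : ℝ) ≤
        τ (p.2 - p.1) + τ (d + g * (p.1 + p.2)) := by
    intro p _
    have h2 := MP89da58.card_divisors_mul_le (p.2 - p.1) (d + g * (p.1 + p.2))
    have h3 : ((((p.2 - p.1) * (d + g * (p.1 + p.2))).divisors.card : ℕ) : ℝ) ≤
        ((p.2 - p.1).divisors.card : ℝ) * ((d + g * (p.1 + p.2)).divisors.card : ℝ) := by
      exact_mod_cast h2
    refine h3.trans ?_
    simp only [hτ]
    nlinarith [sq_nonneg (((p.2 - p.1).divisors.card : ℝ) -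
      ((d + g * (p.1 + p.2)).divisors.card : ℝ)),
      sq_nonneg (((p.2 - p.1).divisors.card : ℝ)),
      sq_nonneg (((d + g * (p.1 + p.2)).divisors.card : ℝ))]
  refine (Finset.sum_le_sum h1).trans ?_
  rw [Finset.sum_add_distrib]
  have hNr : (0 : ℝ) < N := by positivity
  have hlogN : 0 ≤ Real.log N := Real.log_natCast_nonneg N
  -- first sum
  have h4 : ∑ p ∈ (range N ×ˢ range N).filter (fun p => p.1 < p.2), τ (p.2 - p.1) ≤
      (N : ℝ) * (N * (1 + Real.log N) ^ 3) := by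
    rw [Finset.sum_filter, Finset.sum_product]
    have h5 : ∀ k ∈ range N, ∑ k' ∈ range N, (if k < k' then τ (k' - k) else 0) ≤
        N * (1 + Real.log N) ^ 3 := by
      intro k _
      rw [← Finset.sum_filter]
      refine (f_inj _ (fun k' => k' - k) N τ hτ0 ?_ ?_).trans (MP89da58.sum_tau_sq N)
      · intro x hx y hy hxy
        rw [Finset.mem_coe, mem_filter] at hx hy
        have hxy' : x - k = y - k := hxy
        omega
      · intro x hx
        rw [mem_filter, mem_range] at hx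
        constructor <;> omega
    calc _ ≤ ∑ k ∈ range N, N * (1 + Real.log N) ^ 3 := Finset.sum_le_sum h5
      _ = (N : ℝ) * (N * (1 + Real.log N) ^ 3) := by
        rw [Finset.sum_const, card_range, nsmul_eq_mul]
  -- second sum
  set X : ℕ := (d + 2 * g) * N with hX
  have h6 : ∑ p ∈ (range N ×ˢ range N).filter (fun p => p.1 < p.2), τ (d + g * (p.1 + p.2)) ≤
      (N : ℝ) * (X * (1 + Real.log X) ^ 3) := by
    rw [Finset.sum_filter, Finset.sum_product]
    have h5 : ∀ k ∈ range N, ∑ k' ∈ range N, (if k < k' then τ (d + g * (k + k')) else 0) ≤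
        X * (1 + Real.log X) ^ 3 := by
      intro k hk
      rw [mem_range] at hk
      rw [← Finset.sum_filter]
      refine (f_inj _ (fun k' => d + g * (k + k')) X τ hτ0 ?_ ?_).trans (MP89da58.sum_tau_sq X)
      · intro x hx y hy hxy
        have hxy' : d + g * (k + x) = d + g * (k + y) := hxy
        have h7 : g * (k + x) = g * (k + y) := by omega
        have h8 := Nat.eq_of_mul_eq_mul_left hg h7
        omega
      · intro x hx
        rw [mem_filter, mem_range] at hx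
        constructor
        · have : 0 < g * (k + x) := Nat.mul_pos hg (by omega)
          omega
        · have h9 : g * (k + x) ≤ g * (2 * N) := Nat.mul_le_mul_left g (by omega)
          have h10 : d * 1 ≤ d * N := Nat.mul_le_mul_left d (by omega)
          rw [hX]
          calc d + g * (k + x) ≤ d * N + g * (2 * N) := by omega
            _ = (d + 2 * g) * N := by ring
    calc _ ≤ ∑ k ∈ range N, X * (1 + Real.log X) ^ 3 := Finset.sum_le_sum h5
      _ = (N : ℝ) * (X * (1 + Real.log X) ^ 3) := by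
        rw [Finset.sum_const, card_range, nsmul_eq_mul]
  have hXr : (X : ℝ) = ((d : ℝ) + 2 * g) * N := by rw [hX]; push_cast; ring
  have hdg : (1 : ℝ) ≤ (d : ℝ) + 2 * g := by
    have h1 : (1 : ℝ) ≤ g := by exact_mod_cast hg
    have h2 : (0 : ℝ) ≤ d := Nat.cast_nonneg d
    linarith
  have hlog1 : 0 ≤ Real.log ((d : ℝ) + 2 * g) := Real.log_nonneg hdg
  have h7 : 1 + Real.log X ≤ (1 + Real.log (d + 2 * g)) * (1 + Real.log N) := by
    rw [hXr, Real.log_mul (by positivity) hNr.ne']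
    nlinarith [mul_nonneg hlog1 hlogN]
  have h8 : 0 ≤ 1 + Real.log X := by
    have : 0 ≤ Real.log (X : ℝ) := Real.log_natCast_nonneg X
    linarith
  have h9 : (1 + Real.log X) ^ 3 ≤ ((1 + Real.log (d + 2 * g)) * (1 + Real.log N)) ^ 3 :=
    pow_le_pow_left₀ h8 h7 3
  calc _ ≤ (N : ℝ) * (N * (1 + Real.log N) ^ 3) + (N : ℝ) * (X * (1 + Real.log X) ^ 3) :=
        add_le_add h4 h6
    _ ≤ (N : ℝ) * (N * (1 + Real.log N) ^ 3) +
        (N : ℝ) * (X * ((1 + Real.log (d + 2 * g)) * (1 + Real.log N)) ^ 3) := by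
        gcongr
    _ = _ := by
        rw [hXr]; ring

theorem sf : SF := by
  classical
  intro α γ d g hγ hg
  set C0 : ℝ := 1 + ((d : ℝ) + 2 * g) * (1 + Real.log (d + 2 * g)) ^ 3 with hC0
  have hdg : (1 : ℝ) ≤ (d : ℝ) + 2 * g := by
    have h1 : (1 : ℝ) ≤ g := by exact_mod_cast hg
    have h2 : (0 : ℝ) ≤ d := Nat.cast_nonneg d
    linarith
  have hlog1 : 0 ≤ Real.log ((d : ℝ) + 2 * g) := Real.log_nonneg hdg
  have hC0p : 0 < C0 := by rw [hC0]; positivity
  refine ⟨1 + 2 * C0, by positivity, ?_⟩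
  intro N hN
  have hlogN : 0 ≤ Real.log N := Real.log_natCast_nonneg N
  have hT : ((f_T α γ d g N).card : ℝ) ≤ C0 * (N : ℝ) ^ 2 * (1 + Real.log N) ^ 3 := by
    have h1 := f_T_card α γ d g N hγ hg
    have h2 : ((f_T α γ d g N).card : ℝ) ≤
        ∑ p ∈ (range N ×ˢ range N).filter (fun p => p.1 < p.2),
          ((((p.2 - p.1) * (d + g * (p.1 + p.2))).divisors.card : ℕ) : ℝ) := by
      exact_mod_cast h1
    exact h2.trans (f_sum d g N hg hN)
  have hQ : QC α γ d g N ≤ N ^ 2 + ((f_T α γ d g N).card + (f_T α γ d g N).card) := by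
    unfold QC
    set S := ((range N ×ˢ range N) ×ˢ (range N ×ˢ range N)).filter
      (fun x => qd α γ x.1.1 + qd d g x.1.2 = qd α γ x.2.1 + qd d g x.2.2) with hS
    have hsub : S ⊆ S.filter (fun x => x.1.2 = x.2.2) ∪
        (f_T α γ d g N ∪ (f_T α γ d g N).image Prod.swap) := by
      intro x hx
      have hx' := hx
      rw [hS, mem_filter, mem_product, mem_product, mem_product] at hx'
      rw [mem_union, mem_union, mem_filter, mem_image]
      rcases lt_trichotomy x.1.2 x.2.2 with h | h | h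
      · right; left
        rw [f_T, mem_filter, mem_product, mem_product, mem_product]
        exact ⟨hx'.1, hx'.2, h⟩
      · left; exact ⟨hx, h⟩
      · right; right
        refine ⟨Prod.swap x, ?_, Prod.swap_swap x⟩
        rw [f_T, mem_filter, mem_product, mem_product, mem_product]
        exact ⟨⟨hx'.1.2, hx'.1.1⟩, hx'.2.symm, h⟩
    refine (Finset.card_le_card hsub).trans ?_
    refine (Finset.card_union_le _ _).trans ?_
    refine add_le_add ?_ ((Finset.card_union_le _ _).trans (add_le_add le_rfl card_image_le))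
    have h3 : (range N ×ˢ range N).card = N ^ 2 := by
      rw [card_product, card_range, sq]
    rw [← h3]
    refine Finset.card_le_card_of_injOn (fun x : (ℕ × ℕ) × (ℕ × ℕ) => x.1) ?_ ?_
    · intro x hx
      rw [Finset.mem_coe, mem_filter, hS, mem_filter, mem_product] at hx
      exact hx.1.1.1
    · intro x hx y hy hxy
      rw [Finset.mem_coe, mem_filter, hS, mem_filter, mem_product] at hx hy
      have hxy' : x.1 = y.1 := hxy
      have h4 : x.1.1 = x.2.1 := by
        have h5 := hx.1.2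
        rw [hx.2] at h5
        exact f_qd_inj α γ hγ (by omega)
      have h4' : y.1.1 = y.2.1 := by
        have h5 := hy.1.2
        rw [hy.2] at h5
        exact f_qd_inj α γ hγ (by omega)
      refine Prod.ext hxy' (Prod.ext ?_ ?_)
      · rw [← h4, ← h4', hxy']
      · rw [← hx.2, ← hy.2, hxy']
  have hQr : (QC α γ d g N : ℝ) ≤ (N : ℝ) ^ 2 + ((f_T α γ d g N).card + (f_T α γ d g N).card) := by
    exact_mod_cast hQ
  have h10 : (1 : ℝ) ≤ (1 + Real.log N) ^ 3 := one_le_pow₀ (by linarith)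
  have h11 : (N : ℝ) ^ 2 ≤ (N : ℝ) ^ 2 * (1 + Real.log N) ^ 3 :=
    le_mul_of_one_le_right (sq_nonneg _) h10
  calc (QC α γ d g N : ℝ) ≤ (N : ℝ) ^ 2 + ((f_T α γ d g N).card + (f_T α γ d g N).card) := hQr
    _ ≤ (N : ℝ) ^ 2 * (1 + Real.log N) ^ 3 + (C0 * (N : ℝ) ^ 2 * (1 + Real.log N) ^ 3 +
        C0 * (N : ℝ) ^ 2 * (1 + Real.log N) ^ 3) := by linarith
    _ = (1 + 2 * C0) * (N : ℝ) ^ 2 * (1 + Real.log N) ^ 3 := by ring

end Pool.Agent.SP80
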