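import Pool.Agent.Lib.MP_1e1427_nt.SP.Stm

set_option autoImplicit false

/-!
Project SP (MP_1e1427_nt): the kernel of the averages.
-/

namespace Pool.Agent.SP80

open Finset

private theorem fl_norm (x : ℝ) : ‖ex x‖ = 1 := by
  unfold ex
  exact Complex.norm_exp_ofReal_mul_I _

private theorem fl_sub (x : ℝ) : ‖1 - ex x‖ ≤ 2 * Real.pi * |x| := by
  unfold ex
  have h := Real.norm_exp_I_mul_ofReal_sub_one_le (x := 2 * Real.pi * x)
  rw [norm_sub_rev, mul_comm ((2 * Real.pi * x : ℝ) : ℂ) Complex.I]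
  refine h.trans (le_of_eq ?_)
  rw [Real.norm_eq_abs, abs_mul, abs_of_pos (by positivity : (0 : ℝ) < 2 * Real.pi)]

private theorem fl_card (L : ℕ) : ((Icc (-(L : ℤ)) L).card : ℝ) = 2 * L + 1 := by
  rw [Int.card_Icc]
  have : ((L : ℤ) + 1 - -(L : ℤ)).toNat = 2 * L + 1 := by omega
  rw [this]
  push_cast
  ring

private theorem fl_one (L : ℕ) (θ : ℝ) :
    1 - phi L θ = (∑ h ∈ Icc (-(L : ℤ)) L, (1 - ex (-(h : ℝ) * θ))) / (2 * L + 1) := by
  have h0 : ((2 : ℂ) * L + 1) ≠ 0 := by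
    have : ((2 : ℂ) * L + 1) = ((2 * L + 1 : ℕ) : ℂ) := by push_cast; ring
    rw [this]
    exact Nat.cast_ne_zero.2 (Nat.succ_ne_zero _)
  unfold phi
  rw [Finset.sum_sub_distrib, Finset.sum_const, sub_div, nsmul_eq_mul, mul_one]
  have h1 : ((Icc (-(L : ℤ)) L).card : ℂ) = 2 * L + 1 := by
    have := fl_card L
    exact_mod_cast this
  rw [h1, div_self h0]

private theorem fl_bound (L : ℕ) (θ B : ℝ)
    (hB : ∀ h ∈ Icc (-(L : ℤ)) L, ‖1 - ex (-(h : ℝ) * θ)‖ ≤ B) : ‖1 - phi L θ‖ ≤ B := by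
  have h0 : (0 : ℝ) < 2 * L + 1 := by positivity
  rw [fl_one, norm_div]
  have h1 : ‖((2 : ℂ) * L + 1)‖ = 2 * L + 1 := by
    have : ((2 : ℂ) * L + 1) = ((2 * L + 1 : ℝ) : ℂ) := by push_cast; ring
    rw [this, Complex.norm_real, Real.norm_eq_abs, abs_of_pos h0]
  rw [h1, div_le_iff₀ h0]
  refine (norm_sum_le _ _).trans ((Finset.sum_le_sum hB).trans (le_of_eq ?_))
  rw [Finset.sum_const, nsmul_eq_mul, fl_card]
  ring

theorem sfl : SFL := by
  intro L θ
  refine ⟨fl_bound L θ 2 fun h _ => ?_, fl_bound L θ _ fun h hh => ?_, ?_⟩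
  · refine (norm_sub_le _ _).trans ?_
    rw [fl_norm, norm_one]
    norm_num
  · refine (fl_sub _).trans ?_
    rw [abs_mul, abs_neg]
    have h1 : |(h : ℝ)| ≤ L := by
      rw [Finset.mem_Icc] at hh
      rw [abs_le]
      constructor
      · exact_mod_cast hh.1
      · exact_mod_cast hh.2
    have h2 : |(h : ℝ)| * |θ| ≤ L * |θ| := mul_le_mul_of_nonneg_right h1 (abs_nonneg _)
    have h3 : (0 : ℝ) < 2 * Real.pi := by positivity
    calc 2 * Real.pi * (|(h : ℝ)| * |θ|) ≤ 2 * Real.pi * (L * |θ|) :=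
          mul_le_mul_of_nonneg_left h2 h3.le
      _ = 2 * Real.pi * L * |θ| := by ring
  · unfold phi
    congr 1
    refine Finset.sum_congr rfl fun h _ => ?_
    unfold ex
    have h1 : ((2 * Real.pi * (-(h : ℝ) * (θ + 1)) : ℝ) : ℂ) * Complex.I =
        ((2 * Real.pi * (-(h : ℝ) * θ) : ℝ) : ℂ) * Complex.I +
          ((-h : ℤ) : ℂ) * (2 * Real.pi * Complex.I) := by
      push_cast
      ring
    rw [h1, Complex.exp_add, Complex.exp_int_mul_two_pi_mul_I, mul_one]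

end Pool.Agent.SP80
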