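import Pool.Agent.Lib.MP_1e1427_nt.SP.Stm

/-!
Project SP: the quadratic Gauss sums (`SG1`, `SG2`).
-/

namespace Pool.Agent.SP80

open Finset ZMod

/-- a sum over `range r` of a function of the residue class -/
private lemma g1_sum_range (r : ℕ) [NeZero r] (F : ZMod r → ℂ) :
    ∑ j ∈ Finset.range r, F (j : ZMod r) = ∑ x : ZMod r, F x := by
  refine Finset.sum_bij' (fun j _ => (j : ZMod r)) (fun x _ => x.val) ?_ ?_ ?_ ?_ ?_
  · intro j _; exact Finset.mem_univ _
  · intro x _; exact Finset.mem_range.2 (ZMod.val_lt x)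
  · intro j hj; exact ZMod.val_cast_of_lt (Finset.mem_range.1 hj)
  · intro x _; exact ZMod.natCast_zmod_val x
  · intro j _; rfl

private lemma g1_ex (r : ℕ) [NeZero r] (a : ℤ) (m : ℕ) :
    ex ((a : ℝ) * (m : ℝ) / r) = stdAddChar ((a : ZMod r) * (m : ZMod r)) := by
  have h := ZMod.stdAddChar_coe (N := r) (a * m)
  push_cast at h
  rw [h, ex]
  congr 1
  push_cast
  ring

private lemma g1_GS (r : ℕ) [NeZero r] (a : ℤ) (b g : ℕ) :
    GS a b g r = ∑ x : ZMod r, stdAddChar ((a : ZMod r) * ((b : ZMod r) * x + (g : ZMod r) * x ^ 2)) := by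
  rw [← g1_sum_range r (fun x => stdAddChar ((a : ZMod r) * ((b : ZMod r) * x + (g : ZMod r) * x ^ 2)))]
  unfold GS
  refine Finset.sum_congr rfl fun j _ => ?_
  rw [g1_ex]
  congr 2
  simp [qd]

theorem sg1 : SG1 := by
  intro a b g r hr hg ha
  have : NeZero r := ⟨hr.ne'⟩
  have hua : IsUnit (a : ZMod r) := by
    have := ha
    obtain ⟨u, v, huv⟩ := this
    refine IsUnit.of_mul_eq_one (u : ZMod r) ?_
    have h2 : ((u * a + v * (r : ℤ) : ℤ) : ZMod r) = ((1 : ℤ) : ZMod r) := by rw [huv]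
    push_cast at h2
    rw [ZMod.natCast_self, mul_zero, add_zero] at h2
    rw [mul_comm]; exact h2
  have hug : IsUnit ((2 : ZMod r) * (g : ZMod r)) := by
    have := (ZMod.isUnit_iff_coprime (2 * g) r).2 hg
    push_cast at this
    exact this
  have key : (GS a b g r) * (starRingEnd ℂ) (GS a b g r) = (r : ℂ) := by
    rw [g1_GS, map_sum, Finset.sum_mul_sum, Finset.sum_comm]
    have h1 : ∀ y : ZMod r, ∑ x : ZMod r,
        stdAddChar ((a : ZMod r) * ((b : ZMod r) * x + (g : ZMod r) * x ^ 2)) *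
          (starRingEnd ℂ) (stdAddChar ((a : ZMod r) * ((b : ZMod r) * y + (g : ZMod r) * y ^ 2))) =
        ∑ u : ZMod r, stdAddChar ((a : ZMod r) * ((b : ZMod r) * u + (g : ZMod r) * u ^ 2)) *
          stdAddChar (y * ((a : ZMod r) * ((2 * (g : ZMod r)) * u))) := by
      intro y
      rw [← Equiv.sum_comp (Equiv.addLeft y)]
      refine Finset.sum_congr rfl fun u _ => ?_
      rw [← AddChar.map_neg_eq_conj, ← AddChar.map_add_eq_mul, ← AddChar.map_add_eq_mul]
      congr 1
      simp only [Equiv.coe_addLeft]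
      ring
    rw [Finset.sum_congr rfl fun y _ => h1 y, Finset.sum_comm]
    have h2 : ∀ u : ZMod r, ∑ y : ZMod r,
        stdAddChar ((a : ZMod r) * ((b : ZMod r) * u + (g : ZMod r) * u ^ 2)) *
          stdAddChar (y * ((a : ZMod r) * ((2 * (g : ZMod r)) * u))) =
        if u = 0 then (r : ℂ) else 0 := by
      intro u
      rw [← Finset.mul_sum, AddChar.sum_mulShift _ (ZMod.isPrimitive_stdAddChar r)]
      by_cases hu : u = 0
      · subst hu; simp [ZMod.card]
      · have : (a : ZMod r) * ((2 * (g : ZMod r)) * u) ≠ 0 := by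
          rw [Ne, hua.mul_right_eq_zero, hug.mul_right_eq_zero]
          exact hu
        simp [this, hu]
    rw [Finset.sum_congr rfl fun u _ => h2 u]
    simp
  rw [Complex.mul_conj, Complex.normSq_eq_norm_sq] at key
  exact_mod_cast key

theorem sg2 : SG2 := by
  intro a b g r p hr hp hpr hpg ha hpb
  have : NeZero r := ⟨hr.ne'⟩
  obtain ⟨s, hs⟩ := hpr
  have hpa : ¬ (p : ℤ) ∣ a := by
    intro h
    obtain ⟨u, v, huv⟩ := ha
    have hpr' : (p : ℤ) ∣ (r : ℤ) := ⟨(s : ℤ), by exact_mod_cast hs⟩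
    have h1 : (p : ℤ) ∣ 1 := by
      rw [← huv]
      exact dvd_add (h.mul_left _) (hpr'.mul_left _)
    exact hp.one_lt.ne' (Nat.dvd_one.1 (by exact_mod_cast h1))
  have hgs : (g : ZMod r) * (s : ZMod r) = 0 := by
    obtain ⟨g', rfl⟩ := hpg
    have : (((p * g') * s : ℕ) : ZMod r) = 0 := by
      rw [ZMod.natCast_eq_zero_iff]
      exact ⟨g', by rw [hs]; ring⟩
    push_cast at this ⊢
    exact this
  have hne : (a : ZMod r) * ((b : ZMod r) * (s : ZMod r)) ≠ 0 := by
    intro h
    have h3 : ((a * (b * s) : ℤ) : ZMod r) = 0 := by push_cast; exact h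
    rw [ZMod.intCast_zmod_eq_zero_iff_dvd] at h3
    have hs0 : (s : ℤ) ≠ 0 := by
      rintro h0
      have : s = 0 := by exact_mod_cast h0
      rw [this, mul_zero] at hs
      omega
    have h4 : (p : ℤ) ∣ a * b := by
      rw [hs] at h3
      push_cast at h3
      have : (p : ℤ) * s ∣ (a * b) * s := by rw [mul_assoc]; exact h3
      exact Int.dvd_of_mul_dvd_mul_right hs0 this
    rcases (Nat.prime_iff_prime_int.1 hp).dvd_or_dvd h4 with h5 | h5
    · exact hpa h5
    · exact hpb (by exact_mod_cast h5)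
  have hψ : stdAddChar ((a : ZMod r) * ((b : ZMod r) * (s : ZMod r))) ≠ 1 := by
    intro h
    apply hne
    apply ZMod.injective_stdAddChar
    rw [h, AddChar.map_zero_eq_one]
  have h1 : GS a b g r = stdAddChar ((a : ZMod r) * ((b : ZMod r) * (s : ZMod r))) * GS a b g r := by
    rw [g1_GS]
    conv_lhs => rw [← Equiv.sum_comp (Equiv.addRight (s : ZMod r))]
    rw [Finset.mul_sum]
    refine Finset.sum_congr rfl fun x _ => ?_
    rw [← AddChar.map_add_eq_mul]
    congr 1
    simp only [Equiv.coe_addRight]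
    linear_combination ((a : ZMod r) * (2 * x + s)) * hgs
  by_contra h0
  apply hψ
  have h6 : (stdAddChar ((a : ZMod r) * ((b : ZMod r) * (s : ZMod r))) - 1) * GS a b g r = 0 := by
    rw [sub_mul, one_mul, ← h1, sub_self]
  rcases mul_eq_zero.1 h6 with h7 | h7
  · exact sub_eq_zero.1 h7
  · exact absurd h7 h0

end Pool.Agent.SP80
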