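import Mathlib
import Pool.Agent.Lib.MP_1e1427_nt.SP.Stm

/-!
Lower bound for the average.
-/

namespace Pool.Agent.SP80

open Finset Filter

private theorem hh_count (M d0 : ℕ) (hM : 0 < M) (lo hi : ℝ) (h1 : (d0 : ℝ) ≤ lo)
    (h2 : lo ≤ hi) : ∃ K : Finset ℕ, (hi - lo) / M - 1 ≤ (K.card : ℝ) ∧
      ∀ k ∈ K, lo ≤ (d0 : ℝ) + M * k ∧ (d0 : ℝ) + M * k ≤ hi := by
  have hM' : (0 : ℝ) < M := by exact_mod_cast hM
  refine ⟨Icc ⌈(lo - d0) / M⌉₊ ⌊(hi - d0) / M⌋₊, ?_, ?_⟩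
  · rw [Nat.card_Icc]
    have h3 : ((⌊(hi - d0) / M⌋₊ + 1 : ℕ) : ℝ) ≤
        ((⌊(hi - d0) / M⌋₊ + 1 - ⌈(lo - d0) / M⌉₊ : ℕ) : ℝ) + (⌈(lo - d0) / M⌉₊ : ℝ) := by
      have : ⌊(hi - d0) / M⌋₊ + 1 ≤ (⌊(hi - d0) / M⌋₊ + 1 - ⌈(lo - d0) / M⌉₊) +
        ⌈(lo - d0) / M⌉₊ := by omega
      exact_mod_cast this
    have h4 : (⌈(lo - d0) / M⌉₊ : ℝ) < (lo - d0) / M + 1 :=
      Nat.ceil_lt_add_one (div_nonneg (by linarith) hM'.le)
    have h5 : (hi - d0) / M < (⌊(hi - d0) / M⌋₊ : ℝ) + 1 := Nat.lt_floor_add_one _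
    push_cast at h3
    have h6 : (hi - lo) / M = (hi - d0) / M - (lo - d0) / M := by ring
    rw [h6]
    linarith
  · intro k hk
    rw [mem_Icc] at hk
    have h3 : (lo - d0) / M ≤ k := Nat.ceil_le.1 hk.1
    have h4 : (k : ℝ) ≤ (hi - d0) / M :=
      (Nat.le_floor_iff (div_nonneg (by linarith) hM'.le)).1 hk.2
    rw [div_le_iff₀ hM'] at h3
    rw [le_div_iff₀ hM'] at h4
    constructor <;> linarith

private theorem hh_mem (M : ℕ) (hM : 0 < M) (Z : ℝ) (hZ : 0 < Z)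
    (hMZ : 4 * (M : ℝ) ≤ Z / 1000) (j : ℕ) (h1 : 3 / 10 * Z ≤ M * (j : ℝ))
    (h2 : M * (j : ℝ) ≤ 399 / 1000 * Z) : j ∈ Ico (3 * Hz M Z) (3 * Hz M Z + Hz M Z) := by
  have hM' : (0 : ℝ) < M := by exact_mod_cast hM
  have h3 : (Hz M Z : ℝ) ≤ Z / (10 * M) := Nat.floor_le (by positivity)
  have h4 : Z / (10 * M) < (Hz M Z : ℝ) + 1 := Nat.lt_floor_add_one _
  rw [le_div_iff₀ (by positivity)] at h3
  rw [div_lt_iff₀ (by positivity)] at h4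
  rw [mem_Ico]
  constructor
  · have h5 : (M : ℝ) * ((3 * Hz M Z : ℕ) : ℝ) ≤ M * (j : ℝ) := by push_cast; nlinarith
    exact_mod_cast le_of_mul_le_mul_left h5 hM'
  · have h5 : (M : ℝ) * (j : ℝ) < M * ((3 * Hz M Z + Hz M Z : ℕ) : ℝ) := by push_cast; nlinarith
    exact_mod_cast lt_of_mul_lt_mul_left h5 hM'.le

private theorem hh_inner (M c0 d0 : ℕ) (hM : 0 < M) (Z ε T W : ℝ) (hε : 0 < ε)
    (hε1 : ε ≤ 1 / 100) (hZ : 0 < Z) (hMZ : 4 * (M : ℝ) ≤ Z / 1000)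
    (hMe : (M : ℝ) ≤ ε * Z / 10) (hc0 : (c0 : ℝ) ≤ Z / 100) (hd0 : (d0 : ℝ) ≤ Z / 100)
    (hT1 : 24 / 100 * Z ^ 2 ≤ T) (hT2 : T ≤ 26 / 100 * Z ^ 2) (hW : 0 ≤ W)
    (p : ℕ → ℕ → Prop) [∀ j k, Decidable (p j k)]
    (hp : ∀ j k : ℕ, |((c0 : ℝ) + M * j) ^ 2 + ((d0 : ℝ) + M * k) ^ 2 - T| ≤
      8 / 10 * (ε * Z ^ 2) → p j k) :
    W * (5 / 100 * (ε * Z ^ 2) / (M : ℝ) ^ 2) ≤
      ∑ j ∈ Ico (3 * Hz M Z) (3 * Hz M Z + Hz M Z),
        ∑ k ∈ Ico (3 * Hz M Z) (3 * Hz M Z + Hz M Z), if p j k then W else 0 := by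
  have hM' : (0 : ℝ) < M := by exact_mod_cast hM
  obtain ⟨J, hJ1, hJ2⟩ := hh_count M c0 hM (33 / 100 * Z) (36 / 100 * Z) (by linarith)
    (by linarith)
  have hJsub : J ⊆ Ico (3 * Hz M Z) (3 * Hz M Z + Hz M Z) := by
    intro j hj
    have h := hJ2 j hj
    have hc0' : (0 : ℝ) ≤ c0 := Nat.cast_nonneg _
    exact hh_mem M hM Z hZ hMZ j (by linarith) (by linarith)
  have hJcard : 29 / 1000 * Z / M ≤ (J.card : ℝ) := by
    refine le_trans ?_ hJ1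
    rw [div_le_iff₀ hM', sub_mul, div_mul_cancel₀ _ hM'.ne', one_mul]
    linarith
  have hinner : ∀ j ∈ J, W * (19 / 10 * (ε * Z) / M) ≤
      ∑ k ∈ Ico (3 * Hz M Z) (3 * Hz M Z + Hz M Z), if p j k then W else 0 := by
    intro j hj
    obtain ⟨hc1, hc2⟩ := hJ2 j hj
    set c : ℝ := (c0 : ℝ) + M * j with hc
    have hcsq1 : (33 / 100 * Z) ^ 2 ≤ c ^ 2 := pow_le_pow_left₀ (by positivity) hc1 2
    have hcsq2 : c ^ 2 ≤ (36 / 100 * Z) ^ 2 := pow_le_pow_left₀ (by linarith) hc2 2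
    set s : ℝ := Real.sqrt (T - c ^ 2) with hs
    have hnn : 0 ≤ T - c ^ 2 := by nlinarith [sq_nonneg Z]
    have hssq : s ^ 2 = T - c ^ 2 := Real.sq_sqrt hnn
    have hs0 : 0 ≤ s := Real.sqrt_nonneg _
    have hs1 : 332 / 1000 * Z ≤ s := by
      apply Real.le_sqrt_of_sq_le
      nlinarith [sq_nonneg Z]
    have hs2 : s ≤ 389 / 1000 * Z := by
      refine Real.sqrt_le_iff.2 ⟨by positivity, ?_⟩
      nlinarith [sq_nonneg Z]
    have hεZ : ε * Z ≤ Z / 100 := by nlinarith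
    have hεZ0 : 0 < ε * Z := mul_pos hε hZ
    obtain ⟨K, hK1, hK2⟩ := hh_count M d0 hM (s - ε * Z) (s + ε * Z) (by linarith)
      (by linarith)
    have hKsub : K ⊆ Ico (3 * Hz M Z) (3 * Hz M Z + Hz M Z) := by
      intro k hk
      have h := hK2 k hk
      have hd0' : (0 : ℝ) ≤ d0 := Nat.cast_nonneg _
      exact hh_mem M hM Z hZ hMZ k (by linarith) (by linarith)
    have hKcard : 19 / 10 * (ε * Z) / M ≤ (K.card : ℝ) := by
      refine le_trans ?_ hK1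
      rw [div_le_iff₀ hM', sub_mul, div_mul_cancel₀ _ hM'.ne', one_mul]
      linarith
    have hKp : ∀ k ∈ K, p j k := by
      intro k hk
      obtain ⟨hk1, hk2⟩ := hK2 k hk
      apply hp
      set d : ℝ := (d0 : ℝ) + M * k with hd
      have h1 : ((c0 : ℝ) + M * j) ^ 2 + d ^ 2 - T = (d - s) * (d + s) := by
        have : (d - s) * (d + s) = d ^ 2 - s ^ 2 := by ring
        rw [this, hssq, ← hc]
        ring
      rw [h1, abs_mul]
      have h2 : |d - s| ≤ ε * Z := abs_le.2 ⟨by linarith, by linarith⟩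
      have h3 : |d + s| ≤ 8 / 10 * Z := abs_le.2 ⟨by linarith, by linarith⟩
      calc |d - s| * |d + s| ≤ (ε * Z) * (8 / 10 * Z) :=
            mul_le_mul h2 h3 (abs_nonneg _) hεZ0.le
        _ = 8 / 10 * (ε * Z ^ 2) := by ring
    calc W * (19 / 10 * (ε * Z) / M) ≤ W * (K.card : ℝ) :=
          mul_le_mul_of_nonneg_left hKcard hW
      _ = ∑ k ∈ K, W := by rw [Finset.sum_const, nsmul_eq_mul, mul_comm]
      _ = ∑ k ∈ K, (if p j k then W else 0) := by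
          refine Finset.sum_congr rfl fun k hk => ?_
          rw [if_pos (hKp k hk)]
      _ ≤ _ := by
          refine Finset.sum_le_sum_of_subset_of_nonneg hKsub fun k _ _ => ?_
          split_ifs
          · exact hW
          · exact le_rfl
  have hεZ0 : 0 < ε * Z := mul_pos hε hZ
  calc W * (5 / 100 * (ε * Z ^ 2) / (M : ℝ) ^ 2)
      ≤ (29 / 1000 * Z / M) * (W * (19 / 10 * (ε * Z) / M)) := by
        have h1 : (29 / 1000 * Z / M) * (W * (19 / 10 * (ε * Z) / M)) =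
          W * (551 / 10000 * (ε * Z ^ 2) / (M : ℝ) ^ 2) := by
          field_simp
          ring
        rw [h1]
        apply mul_le_mul_of_nonneg_left _ hW
        apply div_le_div_of_nonneg_right _ (by positivity)
        have : 0 ≤ ε * Z ^ 2 := by positivity
        linarith
    _ ≤ (J.card : ℝ) * (W * (19 / 10 * (ε * Z) / M)) := by
        apply mul_le_mul_of_nonneg_right hJcard
        positivity
    _ = ∑ j ∈ J, W * (19 / 10 * (ε * Z) / M) := by rw [Finset.sum_const, nsmul_eq_mul]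
    _ ≤ ∑ j ∈ J, ∑ k ∈ Ico (3 * Hz M Z) (3 * Hz M Z + Hz M Z), (if p j k then W else 0) :=
        Finset.sum_le_sum hinner
    _ ≤ _ := by
        refine Finset.sum_le_sum_of_subset_of_nonneg hJsub fun j _ _ => ?_
        refine Finset.sum_nonneg fun k _ => ?_
        split_ifs
        · exact hW
        · exact le_rfl

/-- the translation of the condition on `i, j, k` -/
private theorem hh_cond (M q q' c0 d0 j k N F n L : ℕ) (t : ℤ) (Z ε : ℝ) (hM : 0 < M)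
    (h1 : q ^ 2 + q' ^ 2 + (c0 + M * j) ^ 2 + (d0 + M * k) ^ 2 = F + 2 * M * N)
    (hqh : (q' : ℝ) = ((q : ℝ) + 1) / 2)
    (ht : 2 * (M : ℤ) * t = 2 * n - F)
    (hL : 8 / 10 * (ε * Z ^ 2) ≤ (L : ℝ) * (2 * M))
    (hjk : |((c0 : ℝ) + M * j) ^ 2 + ((d0 : ℝ) + M * k) ^ 2 -
      (2 * n - (q : ℝ) ^ 2 - (((q : ℝ) + 1) / 2) ^ 2)| ≤ 8 / 10 * (ε * Z ^ 2)) :
    |(N : ℤ) - t| ≤ (L : ℤ) := by
  have hM' : (0 : ℝ) < M := by exact_mod_cast hM
  have h2 : (q : ℝ) ^ 2 + (((q : ℝ) + 1) / 2) ^ 2 + ((c0 : ℝ) + M * j) ^ 2 +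
      ((d0 : ℝ) + M * k) ^ 2 = F + 2 * M * N := by
    rw [← hqh]
    exact_mod_cast h1
  have h3 : 2 * (M : ℝ) * t = 2 * n - F := by exact_mod_cast ht
  have h4 : 2 * (M : ℝ) * ((N : ℝ) - t) = ((c0 : ℝ) + M * j) ^ 2 + ((d0 : ℝ) + M * k) ^ 2 -
      (2 * n - (q : ℝ) ^ 2 - (((q : ℝ) + 1) / 2) ^ 2) := by
    linarith
  rw [← h4, abs_mul, abs_of_pos (by positivity : (0 : ℝ) < 2 * M)] at hjk
  have h5 : 2 * (M : ℝ) * |(N : ℝ) - t| ≤ 2 * (M : ℝ) * L := by linarith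
  have h6 : |(N : ℝ) - t| ≤ L := le_of_mul_le_mul_left h5 (by positivity)
  exact_mod_cast h6

/-- the size of `T` -/
private theorem hh_T (q Z n : ℝ) (hq0 : 0 ≤ q) (hZ : 1000 ≤ Z)
    (hq1 : 1397 / 1000 * Z ^ 2 ≤ q ^ 2) (hq2 : q ^ 2 ≤ 1403 / 1000 * Z ^ 2)
    (hn1 : Z ^ 2 < n) (hn2 : n ≤ 1001 / 1000 * Z ^ 2) :
    24 / 100 * Z ^ 2 ≤ 2 * n - q ^ 2 - ((q + 1) / 2) ^ 2 ∧
      2 * n - q ^ 2 - ((q + 1) / 2) ^ 2 ≤ 26 / 100 * Z ^ 2 := by
  have hZsq : Z * 1000 ≤ Z ^ 2 := by nlinarith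
  have hqle : q ≤ 12 / 10 * Z := by nlinarith
  have hhalf : ((q + 1) / 2) ^ 2 = q ^ 2 / 4 + (2 * q + 1) / 4 := by ring
  rw [hhalf]
  constructor <;> linarith

/-- the sum over the shifts -/
private theorem hh_shift (w : ℕ → ℝ) (I α γ c d g j0 H L : ℕ) (t : ℤ) :
    ∑ h ∈ Icc (-(L : ℤ)) L, RR w I α γ c d g j0 H (t + h) =
      ∑ i ∈ range I, ∑ j ∈ Ico j0 (j0 + H), ∑ k ∈ Ico j0 (j0 + H),
        if |((qd α γ i + qd c g j + qd d g k : ℕ) : ℤ) - t| ≤ (L : ℤ) then w i else 0 := by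
  unfold RR
  rw [Finset.sum_comm]
  refine Finset.sum_congr rfl fun i _ => ?_
  rw [Finset.sum_comm]
  refine Finset.sum_congr rfl fun j _ => ?_
  rw [Finset.sum_comm]
  refine Finset.sum_congr rfl fun k _ => ?_
  set N : ℤ := ((qd α γ i + qd c g j + qd d g k : ℕ) : ℤ) with hN
  have h1 : ∀ h ∈ Icc (-(L : ℤ)) L, (if N = t + h then w i else 0) =
      if N - t = h then w i else 0 := by
    intro h _
    by_cases h2 : N = t + h
    · rw [if_pos h2, if_pos (by omega)]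
    · rw [if_neg h2, if_neg (by omega)]
  rw [Finset.sum_congr rfl h1, Finset.sum_ite_eq]
  by_cases h3 : |N - t| ≤ (L : ℤ)
  · rw [if_pos h3, if_pos (mem_Icc.2 (abs_le.1 h3))]
  · rw [if_neg h3, if_neg]
    intro h4
    exact h3 (abs_le.2 (mem_Icc.1 h4))

theorem sh (hid : SID) (j3 : SJ3) : SH := by
  classical
  intro M q0 c0 d0 hM h8 hq0 ε hε hε1
  have hM' : (0 : ℝ) < M := by exact_mod_cast hM
  filter_upwards [j3 M q0 hM, eventually_ge_atTop (1000 : ℝ),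
    eventually_ge_atTop (4000 * (M : ℝ)), eventually_ge_atTop (20 * (M : ℝ) / ε),
    eventually_ge_atTop (100 * (c0 : ℝ)), eventually_ge_atTop (100 * (d0 : ℝ))]
    with Z hw hZ1 hZ2 hZ3 hZ4 hZ5
  intro n hn1 hn2 t ht
  have hZ0 : (0 : ℝ) < Z := by linarith
  rw [div_le_iff₀ hε] at hZ3
  have hZsq : Z * 1000 ≤ Z ^ 2 := by nlinarith
  have hεZ2 : 20 * (M : ℝ) ≤ ε * Z ^ 2 := by nlinarith
  have hεZpos : 0 < ε * Z ^ 2 := by positivity
  -- the length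
  set L : ℕ := Lz M ε Z with hL
  have hL1 : (L : ℝ) ≤ ε * Z ^ 2 / (2 * M) := Nat.floor_le (by positivity)
  have hL2 : ε * Z ^ 2 / (2 * M) < (L : ℝ) + 1 := Nat.lt_floor_add_one _
  have hL1' : (L : ℝ) * (2 * M) ≤ ε * Z ^ 2 := by rwa [le_div_iff₀ (by positivity)] at hL1
  have hL2' : ε * Z ^ 2 < ((L : ℝ) + 1) * (2 * M) := by rwa [div_lt_iff₀ (by positivity)] at hL2
  have hterm : ∀ i ∈ range (20 * Hz M Z),
      wt M q0 Z i * (5 / 100 * (ε * Z ^ 2) / (M : ℝ) ^ 2) ≤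
      ∑ j ∈ Ico (3 * Hz M Z) (3 * Hz M Z + Hz M Z),
        ∑ k ∈ Ico (3 * Hz M Z) (3 * Hz M Z + Hz M Z),
        if |((qd ((5 * q0 + 1) / 4) (5 * (M / 8)) i + qd c0 (M / 2) j + qd d0 (M / 2) k : ℕ) : ℤ)
          - t| ≤ (L : ℤ) then wt M q0 Z i else 0 := by
    intro i _
    obtain ⟨hw0, -, hw2⟩ := hw i
    by_cases hwi : wt M q0 Z i = 0
    · rw [hwi]
      simp
    · obtain ⟨-, hq1, hq2⟩ := hw2 hwi
      have hqmod : (q0 + M * i) % 8 = 3 := by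
        obtain ⟨m, rfl⟩ := h8
        rw [mul_assoc, Nat.add_mul_mod_self_left]
        exact hq0
      have hqh : (((q0 + M * i + 1) / 2 : ℕ) : ℝ) = (((q0 + M * i : ℕ) : ℝ) + 1) / 2 := by
        have h1 : 2 * ((q0 + M * i + 1) / 2) = q0 + M * i + 1 := by omega
        have h2 : (2 : ℝ) * (((q0 + M * i + 1) / 2 : ℕ) : ℝ) = ((q0 + M * i : ℕ) : ℝ) + 1 := by
          exact_mod_cast h1
        linarith
      obtain ⟨hT1, hT2⟩ := hh_T ((q0 + M * i : ℕ) : ℝ) Z n (Nat.cast_nonneg _) hZ1 hq1 hq2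
        hn1 hn2
      refine hh_inner M c0 d0 hM Z ε _ (wt M q0 Z i) hε hε1 hZ0 (by linarith) (by linarith)
        (by linarith) (by linarith) hT1 hT2 hw0 _ ?_
      intro j k hjk
      exact hh_cond M (q0 + M * i) ((q0 + M * i + 1) / 2) c0 d0 j k _ (F0 q0 c0 d0) n L t Z ε hM
        (hid M q0 c0 d0 i j k h8 hq0) hqh ht (by linarith) hjk
  have hsum : Om M q0 Z * (5 / 100 * (ε * Z ^ 2) / (M : ℝ) ^ 2) ≤
      ∑ h ∈ Icc (-(L : ℤ)) L, RR (wt M q0 Z) (20 * Hz M Z) ((5 * q0 + 1) / 4) (5 * (M / 8)) c0 d0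
        (M / 2) (3 * Hz M Z) (Hz M Z) (t + h) := by
    rw [hh_shift]
    unfold Om
    rw [Finset.sum_mul]
    exact Finset.sum_le_sum hterm
  have hOm : 0 ≤ Om M q0 Z := Finset.sum_nonneg fun i _ => (hw i).1
  unfold RavZ Rav
  rw [← hL, le_div_iff₀ (by positivity)]
  refine le_trans ?_ hsum
  have h7 : 2 * (L : ℝ) + 1 ≤ 2 * (ε * Z ^ 2) / M := by
    rw [le_div_iff₀ hM']
    nlinarith
  calc Om M q0 Z / (100 * M) * (2 * (L : ℝ) + 1)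
      ≤ Om M q0 Z / (100 * M) * (2 * (ε * Z ^ 2) / M) :=
        mul_le_mul_of_nonneg_left h7 (by positivity)
    _ = Om M q0 Z * (2 / 100 * (ε * Z ^ 2) / (M : ℝ) ^ 2) := by
        field_simp
    _ ≤ Om M q0 Z * (5 / 100 * (ε * Z ^ 2) / (M : ℝ) ^ 2) := by
        apply mul_le_mul_of_nonneg_left _ hOm
        apply div_le_div_of_nonneg_right _ (by positivity)
        linarith

end Pool.Agent.SP80
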