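import Mathlib
import Pool.Agent.Lib.MP_1e1427_nt.SP.Stm

/-!
Project SP (MP_1e1427_nt, StrongProbablePrime): the polynomial identity `SID`.
-/

namespace Pool.Agent.SP80

theorem sid : SID := by
  intro M q0 c0 d0 i j k hM hq
  obtain ⟨m, rfl⟩ := hM
  obtain ⟨s, hs⟩ : ∃ s, q0 = 8 * s + 3 := ⟨q0 / 8, by omega⟩
  subst hs
  have h1 : (8 * s + 3 + 8 * m * i + 1) / 2 = 4 * s + 2 + 4 * (m * i) := by
    have : 8 * s + 3 + 8 * m * i + 1 = 2 * (4 * s + 2 + 4 * (m * i)) := by ring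
    rw [this]; exact Nat.mul_div_cancel_left _ (by norm_num)
  have h2 : (8 * s + 3 + 1) / 2 = 4 * s + 2 := by omega
  have h3 : (5 * (8 * s + 3) + 1) / 4 = 10 * s + 4 := by omega
  have h4 : 8 * m / 8 = m := by omega
  have h5 : 8 * m / 2 = 4 * m := by omega
  unfold F0 qd
  rw [h1, h2, h3, h4, h5]
  ring

end Pool.Agent.SP80
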