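import Pool.Agent.Lib.MP_1e1427_nt.SP.Stm
import Pool.Agent.Lib.MP_0da313_nt.BV.BvL
import Pool.Agent.Lib.MP_0da313_nt.BV.T1a

/-!
Project SP (MP_1e1427_nt, StrongProbablePrime): the total weight.
-/

namespace Pool.Agent.SP80

open Finset Filter Topology
open Pool.Agent.BVall (OmL psiAPL psiXL OmL_support OmL_nonneg OmL_le psiXL_lower)

private theorem j0_yZ (Z : ℝ) (hZ : 0 < Z) : Z ≤ yZ Z ∧ yZ Z * (1 + 1 / 1000) ≤ 1185 / 1000 * Z := by
  have h1 : (1 : ℝ) ≤ Real.sqrt (7 / 5) := by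
    rw [Real.one_le_sqrt]
    norm_num
  have h2 : Real.sqrt (7 / 5) ≤ 11833 / 10000 := by
    rw [Real.sqrt_le_left (by norm_num)]
    norm_num
  unfold yZ
  constructor <;> nlinarith

/-- the prime part of `psiAPL` is at most `Om` -/
private theorem j0_prime (M q0 : ℕ) (hM : 0 < M) (hq : q0 < M) : ∀ᶠ Z : ℝ in atTop,
    (∑ n ∈ ((Icc 1 ⌊3 * yZ Z⌋₊).filter (fun n => n ≡ q0 [MOD M])).filter (fun n => n.Prime),
      ArithmeticFunction.vonMangoldt n * OmL 2000 (yZ Z) n) ≤ Om M q0 Z := by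
  have hM0 : (0 : ℝ) < M := by exact_mod_cast hM
  filter_upwards [eventually_gt_atTop (0 : ℝ), eventually_ge_atTop (100 * (M : ℝ))] with Z hZ hZM
  obtain ⟨hy1, hy2⟩ := j0_yZ Z hZ
  have hy0 : 0 < yZ Z := lt_of_lt_of_le hZ hy1
  have hlog : ∀ i : ℕ, 0 ≤ wt M q0 Z i := by
    intro i
    unfold wt
    split_ifs with h
    · refine mul_nonneg (Real.log_nonneg ?_) (OmL_nonneg _ hy0.le _)
      exact_mod_cast h.one_lt.le
    · exact le_rfl
  have key : ∀ n ∈ ((Icc 1 ⌊3 * yZ Z⌋₊).filter (fun n => n ≡ q0 [MOD M])).filter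
      (fun n => n.Prime), n = q0 + M * (n / M) ∧
      ArithmeticFunction.vonMangoldt n * OmL 2000 (yZ Z) n = wt M q0 Z (n / M) ∧
      (OmL 2000 (yZ Z) n ≠ 0 → n / M < 20 * Hz M Z) := by
    intro n hn
    rw [Finset.mem_filter, Finset.mem_filter, Finset.mem_Icc] at hn
    obtain ⟨⟨⟨hn1, _⟩, hn2⟩, hn3⟩ := hn
    have h1 : n % M = q0 := by
      have h2 : n % M = q0 % M := hn2
      rwa [Nat.mod_eq_of_lt hq] at h2
    have h2 : n = q0 + M * (n / M) := by
      conv_lhs => rw [← Nat.mod_add_div n M, h1]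
    refine ⟨h2, ?_, ?_⟩
    · unfold wt
      rw [← h2, if_pos hn3, ArithmeticFunction.vonMangoldt_apply_prime hn3]
    · intro h3
      have h4 := (OmL_support (by norm_num) hy0 hn1 h3).1
      have h5 : (n : ℝ) ≤ 1185 / 1000 * Z := by
        have h6 := (abs_le.1 h4).2
        linarith
      have h7 : (M : ℝ) * ((n / M : ℕ) : ℝ) ≤ n := by
        exact_mod_cast Nat.mul_div_le n M
      have h8 : Z / (10 * M) - 1 < Hz M Z := Nat.sub_one_lt_floor _
      have h9 : Z / (10 * M) * (10 * M) = Z := div_mul_cancel₀ _ (by positivity)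
      have h10 : ((n / M : ℕ) : ℝ) < ((20 * Hz M Z : ℕ) : ℝ) := by
        push_cast
        refine lt_of_mul_lt_mul_left ?_ hM0.le
        have h11 : (M : ℝ) * (20 * (Z / (10 * M) - 1)) ≤ M * (20 * Hz M Z) := by
          refine mul_le_mul_of_nonneg_left ?_ hM0.le
          linarith
        have h12 : (M : ℝ) * (20 * (Z / (10 * M) - 1)) = 2 * Z - 20 * M := by
          have : (M : ℝ) * (20 * (Z / (10 * M) - 1)) = 2 * (Z / (10 * M) * (10 * M)) - 20 * M := by
            ring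
          rw [this, h9]
        linarith
      exact_mod_cast h10
  unfold Om
  have hinj : Set.InjOn (fun n : ℕ => n / M)
      ((((Icc 1 ⌊3 * yZ Z⌋₊).filter (fun n => n ≡ q0 [MOD M])).filter (fun n => n.Prime)).filter
        (fun n => OmL 2000 (yZ Z) n ≠ 0) : Finset ℕ) := by
    intro a ha b hb hab
    rw [Finset.mem_coe, Finset.mem_filter] at ha hb
    have h1 := (key a ha.1).1
    have h2 := (key b hb.1).1
    rw [h1, h2]
    have hab' : a / M = b / M := hab
    rw [hab']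
  have hsum : (∑ n ∈ ((Icc 1 ⌊3 * yZ Z⌋₊).filter (fun n => n ≡ q0 [MOD M])).filter
      (fun n => n.Prime), ArithmeticFunction.vonMangoldt n * OmL 2000 (yZ Z) n) =
      ∑ n ∈ ((((Icc 1 ⌊3 * yZ Z⌋₊).filter (fun n => n ≡ q0 [MOD M])).filter
        (fun n => n.Prime)).filter (fun n => OmL 2000 (yZ Z) n ≠ 0)), wt M q0 Z (n / M) := by
    rw [Finset.sum_filter (fun n => OmL 2000 (yZ Z) n ≠ 0)]
    refine Finset.sum_congr rfl fun n hn => ?_
    split_ifs with h
    · exact (key n hn).2.1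
    · rw [not_not.1 h, mul_zero]
  rw [hsum, ← Finset.sum_image (f := fun i => wt M q0 Z i) hinj]
  refine Finset.sum_le_sum_of_subset_of_nonneg ?_ fun i _ _ => hlog i
  intro i hi
  obtain ⟨n, hn, rfl⟩ := Finset.mem_image.1 hi
  rw [Finset.mem_filter] at hn
  rw [Finset.mem_range]
  exact (key n hn.1).2.2 hn.2

/-- the non-prime part -/
private theorem j0_rest (M q0 : ℕ) : ∃ C : ℝ, 0 < C ∧ ∀ᶠ Z : ℝ in atTop,
    (∑ n ∈ ((Icc 1 ⌊3 * yZ Z⌋₊).filter (fun n => n ≡ q0 [MOD M])).filter (fun n => ¬ n.Prime),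
      ArithmeticFunction.vonMangoldt n * OmL 2000 (yZ Z) n) ≤ C * Real.sqrt Z := by
  obtain ⟨C, hC⟩ := Chebyshev.psi_sub_theta_le_mul_sqrt
  refine ⟨16 * (|C| + 1), by positivity, ?_⟩
  filter_upwards [eventually_ge_atTop (Real.exp 1)] with Z hZe
  have hZ : 0 < Z := lt_of_lt_of_le (Real.exp_pos 1) hZe
  obtain ⟨hy1, hy2⟩ := j0_yZ Z hZ
  have hy0 : 0 < yZ Z := lt_of_lt_of_le hZ hy1
  have hlog : 1 ≤ Real.log (yZ Z) := by
    rw [Real.le_log_iff_exp_le hy0]
    linarith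
  have h1 : ∀ n, ArithmeticFunction.vonMangoldt n * OmL 2000 (yZ Z) n ≤
      8 * ArithmeticFunction.vonMangoldt n := by
    intro n
    have h2 : OmL 2000 (yZ Z) n ≤ 8 := OmL_le (by norm_num) hy0.le hlog n
    have h3 : (0 : ℝ) ≤ ArithmeticFunction.vonMangoldt n :=
      ArithmeticFunction.vonMangoldt_nonneg
    nlinarith
  calc (∑ n ∈ ((Icc 1 ⌊3 * yZ Z⌋₊).filter (fun n => n ≡ q0 [MOD M])).filter
        (fun n => ¬ n.Prime), ArithmeticFunction.vonMangoldt n * OmL 2000 (yZ Z) n)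
      ≤ ∑ n ∈ ((Icc 1 ⌊3 * yZ Z⌋₊).filter (fun n => n ≡ q0 [MOD M])).filter
        (fun n => ¬ n.Prime), 8 * ArithmeticFunction.vonMangoldt n :=
        Finset.sum_le_sum fun n _ => h1 n
    _ ≤ ∑ n ∈ (Ioc 0 ⌊3 * yZ Z⌋₊).filter (fun n => ¬ n.Prime),
        8 * ArithmeticFunction.vonMangoldt n := by
        refine Finset.sum_le_sum_of_subset_of_nonneg ?_ fun n _ _ =>
          mul_nonneg (by norm_num) ArithmeticFunction.vonMangoldt_nonneg
        intro n hn
        rw [Finset.mem_filter, Finset.mem_filter, Finset.mem_Icc] at hn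
        rw [Finset.mem_filter, Finset.mem_Ioc]
        exact ⟨⟨hn.1.1.1, hn.1.1.2⟩, hn.2⟩
    _ = 8 * (Chebyshev.psi (3 * yZ Z) - Chebyshev.theta (3 * yZ Z)) := by
        rw [← Finset.mul_sum, Chebyshev.psi_sub_theta_eq_sum_not_prime]
    _ ≤ 8 * (C * Real.sqrt (3 * yZ Z)) := mul_le_mul_of_nonneg_left (hC _) (by norm_num)
    _ ≤ 8 * ((|C| + 1) * (2 * Real.sqrt Z)) := by
        refine mul_le_mul_of_nonneg_left ?_ (by norm_num)
        have h4 : Real.sqrt (3 * yZ Z) ≤ 2 * Real.sqrt Z := by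
          rw [Real.sqrt_le_left (by positivity), mul_pow, Real.sq_sqrt hZ.le]
          linarith
        have h5 : C ≤ |C| + 1 := by linarith [le_abs_self C]
        exact mul_le_mul h5 h4 (Real.sqrt_nonneg _) (by positivity)
    _ = 16 * (|C| + 1) * Real.sqrt Z := by ring

theorem sj0 (ha : SJA) : SJ0 := by
  intro M q0 hM hcop hq
  have hM0 : (0 : ℝ) < M := by exact_mod_cast hM
  have hφ : 0 < Nat.totient M := Nat.totient_pos.2 hM
  have hφ0 : (0 : ℝ) < Nat.totient M := by exact_mod_cast hφ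
  obtain ⟨C, hC, hrest⟩ := j0_rest M q0
  have hyt : Tendsto yZ atTop atTop := by
    unfold yZ
    exact Tendsto.const_mul_atTop (Real.sqrt_pos.2 (by norm_num)) tendsto_id
  have hlow := hyt.eventually (psiXL_lower (lam := 2000) (by norm_num))
  have hlogM := Real.tendsto_log_atTop.eventually_ge_atTop (M : ℝ)
  set K : ℝ := 1000000 * Nat.totient M with hK
  have hK0 : 0 < K := by positivity
  have hlogK := Real.tendsto_log_atTop.eventually_ge_atTop K
  have hsq : ∀ᶠ Z : ℝ in atTop, C * K ≤ Real.sqrt Z :=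
    Real.tendsto_sqrt_atTop.eventually_ge_atTop _
  filter_upwards [ha 1 1, hrest, j0_prime M q0 hM hq, hlow, hlogM, hlogK, hsq,
    eventually_gt_atTop (0 : ℝ)] with Z h1 h2 h3 h4 h5 h6 h7 hZ
  have h8 := h1 M hM (by rw [pow_one]; exact h5) q0 hcop
  rw [pow_one] at h8
  have h9 : psiAPL 2000 (yZ Z) M q0 ≤ Om M q0 Z + C * Real.sqrt Z := by
    unfold psiAPL
    rw [← Finset.sum_filter_add_sum_filter_not _ (fun n => n.Prime)]
    exact add_le_add h3 h2
  have hy := (j0_yZ Z hZ).1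
  have h10 : Z / 48000 ≤ psiXL 2000 (yZ Z) := by
    refine le_trans ?_ h4
    norm_num
    linarith
  have hlog0 : 0 < Real.log Z := lt_of_lt_of_le hK0 h6
  have h11 : Z / Real.log Z ≤ Z / K := div_le_div_of_nonneg_left hZ.le hK0 h6
  have h12 : C * Real.sqrt Z ≤ Z / K := by
    rw [le_div_iff₀ hK0]
    have h13 : Real.sqrt Z * Real.sqrt Z = Z := Real.mul_self_sqrt hZ.le
    have h14 := mul_le_mul_of_nonneg_right h7 (Real.sqrt_nonneg Z)
    nlinarith
  have h15 : Z / K = Z / 1000000 / Nat.totient M := by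
    rw [hK, div_div]
  have h16 : Z / 1000000 / Nat.totient M ≤
      1 / 20 * (psiXL 2000 (yZ Z) / Nat.totient M) := by
    rw [← mul_div_assoc]
    refine div_le_div_of_nonneg_right ?_ hφ0.le
    linarith
  have h17 := (abs_le.1 h8).1
  linarith

end Pool.Agent.SP80
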