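import Pool.Agent.Lib.MP_1e1427_nt.SP.Stm
import Pool.Agent.Lib.MP_0da313_nt.BV.T1a
import Pool.Agent.Lib.MP_0da313_nt.BV.BvL

/-!
Piece J3: size and support of the weights.
-/

namespace Pool.Agent.SP80

open Finset MeasureTheory Filter Topology

theorem sj3 : SJ3 := by
  intro M q0 _hM
  filter_upwards [eventually_ge_atTop (3 : ℝ)] with Z hZ i
  have hZ0 : (0 : ℝ) < Z := by linarith
  have hs1 : (1 : ℝ) ≤ Real.sqrt (7 / 5) := by
    rw [Real.one_le_sqrt]; norm_num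
  have hsq : Real.sqrt (7 / 5) ^ 2 = 7 / 5 := Real.sq_sqrt (by norm_num)
  have hy2 : (yZ Z) ^ 2 = 7 / 5 * Z ^ 2 := by
    unfold yZ
    rw [mul_pow, hsq]
  have hyZ : Z ≤ yZ Z := by
    unfold yZ
    nlinarith
  have hy0 : 0 < yZ Z := by linarith
  have hlogy : 1 ≤ Real.log (yZ Z) := by
    rw [Real.le_log_iff_exp_le hy0]
    have := Real.exp_one_lt_d9
    linarith
  have hlogZ : 0 ≤ Real.log Z := Real.log_nonneg (by linarith)
  by_cases hp : (q0 + M * i).Prime
  swap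
  · have hw : wt M q0 Z i = 0 := by
      unfold wt
      rw [if_neg hp]
    rw [hw]
    exact ⟨le_rfl, by positivity, fun h => absurd rfl h⟩
  · set N : ℕ := q0 + M * i with hN
    have hw : wt M q0 Z i = Real.log (N : ℝ) * Pool.Agent.BVall.OmL 2000 (yZ Z) N := by
      unfold wt
      rw [← hN, if_pos hp]
    have hO0 : 0 ≤ Pool.Agent.BVall.OmL 2000 (yZ Z) N :=
      Pool.Agent.BVall.OmL_nonneg 2000 hy0.le N
    have hO8 : Pool.Agent.BVall.OmL 2000 (yZ Z) N ≤ 8 :=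
      Pool.Agent.BVall.OmL_le (by norm_num) hy0.le hlogy N
    have hN1 : (1 : ℝ) ≤ N := by exact_mod_cast hp.one_lt.le
    have hlogN : 0 ≤ Real.log (N : ℝ) := Real.log_nonneg hN1
    rw [hw]
    by_cases hO : Pool.Agent.BVall.OmL 2000 (yZ Z) N = 0
    · rw [hO, mul_zero]
      exact ⟨le_rfl, by positivity, fun h => absurd rfl h⟩
    · have hsup := (Pool.Agent.BVall.OmL_support (by norm_num) hy0 hp.pos hO).1
      rw [abs_le] at hsup
      obtain ⟨hb1, hb2⟩ := hsup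
      have hu : (N : ℝ) ≤ 1001 / 1000 * yZ Z := by linarith
      have hl : 999 / 1000 * yZ Z ≤ (N : ℝ) := by linarith
      have hN2u : (N : ℝ) ^ 2 ≤ (1001 / 1000 * yZ Z) ^ 2 :=
        pow_le_pow_left₀ (by linarith) hu 2
      have hN2l : (999 / 1000 * yZ Z) ^ 2 ≤ (N : ℝ) ^ 2 :=
        pow_le_pow_left₀ (by positivity) hl 2
      have hZ2 : 0 ≤ Z ^ 2 := sq_nonneg Z
      rw [mul_pow, hy2] at hN2u hN2l
      have hNu : (N : ℝ) ^ 2 ≤ 1403 / 1000 * Z ^ 2 := by
        refine hN2u.trans ?_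
        nlinarith
      have hNl : 1397 / 1000 * Z ^ 2 ≤ (N : ℝ) ^ 2 := by
        refine le_trans ?_ hN2l
        nlinarith
      refine ⟨mul_nonneg hlogN hO0, ?_, fun _ => ⟨hp, hNl, hNu⟩⟩
      have hNZ : (N : ℝ) ^ 2 ≤ Z ^ 4 := by
        refine hNu.trans ?_
        nlinarith [mul_nonneg hZ2 (show (0 : ℝ) ≤ Z ^ 2 - 9 by nlinarith)]
      have hlogle : Real.log (N : ℝ) ≤ 2 * Real.log Z := by
        have h1 : Real.log ((N : ℝ) ^ 2) ≤ Real.log (Z ^ 4) :=
          Real.log_le_log (by positivity) hNZ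
        rw [Real.log_pow, Real.log_pow] at h1
        push_cast at h1
        linarith
      calc Real.log (N : ℝ) * Pool.Agent.BVall.OmL 2000 (yZ Z) N
          ≤ (2 * Real.log Z) * 8 := mul_le_mul hlogle hO8 hO0 (by positivity)
        _ ≤ 20 * Real.log Z := by linarith

end Pool.Agent.SP80
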