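import Pool.Agent.Lib.MP_1e1427_nt.SP.Stm
import Pool.Agent.Lib.MP_0da313_nt.BV.BvL
import Pool.Agent.Lib.MP_0da313_nt.BV.SmallCor

set_option autoImplicit false

/-!
Project SP (MP_1e1427_nt): the Siegel–Walfisz estimate for the weights.
-/

namespace Pool.Agent.SP80

open Finset Filter

private theorem ja_sqrt : (1 : ℝ) ≤ Real.sqrt (7 / 5) ∧ Real.sqrt (7 / 5) ≤ 6 / 5 := by
  constructor
  · rw [Real.one_le_sqrt]
    norm_num
  · rw [Real.sqrt_le_iff]
    norm_num

private theorem ja_tendsto : Tendsto (fun Z : ℝ => yZ Z) atTop atTop := by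
  unfold yZ
  refine Tendsto.const_mul_atTop ?_ tendsto_id
  have := ja_sqrt.1
  linarith

private theorem ja_small (N : ℕ) : ∀ᶠ Z : ℝ in atTop, 16 * (Real.log Z) ^ N ≤ Z := by
  have h := (Real.isLittleO_pow_log_id_atTop (n := N)).bound (show (0 : ℝ) < 1 / 16 by norm_num)
  filter_upwards [h, eventually_ge_atTop (1 : ℝ)] with Z hZ hZ1
  rw [Real.norm_eq_abs, Real.norm_eq_abs, id, abs_of_nonneg (by linarith : (0 : ℝ) ≤ Z)] at hZ
  have := le_abs_self ((Real.log Z) ^ N)
  linarith

theorem sja : SJA := by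
  classical
  intro A B
  have hs := ja_tendsto.eventually (BVall.small_all (A + 1) B (lam := 2000) (by norm_num))
  have hl : ∀ᶠ Z : ℝ in atTop, 4 ≤ Real.log Z := Real.tendsto_log_atTop.eventually_ge_atTop 4
  filter_upwards [hs, hl, ja_small (A + B + 2), eventually_ge_atTop (4 : ℝ)] with Z hs hl hsm hZ4
  intro q hq0 hqB a ha
  have : NeZero q := ⟨hq0.ne'⟩
  obtain ⟨hs1, hs2⟩ := ja_sqrt
  have hyZ : Z ≤ yZ Z := by
    unfold yZ
    nlinarith
  have hyZ' : yZ Z ≤ 6 / 5 * Z := by
    unfold yZ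
    nlinarith
  have hlog : Real.log Z ≤ Real.log (yZ Z) := Real.log_le_log (by linarith) hyZ
  have hL0 : 0 < Real.log Z := by linarith
  have hφ : (0 : ℝ) < Nat.totient q := by
    exact_mod_cast Nat.totient_pos.2 hq0
  have hmain := BVall.ap_leL (lam := 2000) (by norm_num) (X := yZ Z) (by linarith) (by linarith) a ha
  refine hmain.trans ?_
  -- each nonprincipal character
  have hchar : ∀ χ ∈ (Finset.univ : Finset (DirichletCharacter ℂ q)).erase 1,
      ‖BVall.psiChiL 2000 (yZ Z) χ.primitiveCharacter‖ ≤ 6 / 5 * Z / (Real.log Z) ^ (A + 1) := by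
    intro χ hχ
    have hne : χ ≠ 1 := (Finset.mem_erase.1 hχ).1
    have hdvd := χ.conductor_dvd_level
    have h0 : χ.conductor ≠ 0 := by
      intro h
      rw [h] at hdvd
      exact hq0.ne' (Nat.eq_zero_of_zero_dvd hdvd)
    have h1 : χ.conductor ≠ 1 := fun h =>
      hne (DirichletCharacter.eq_one_iff_conductor_eq_one.2 h)
    have h2 : 2 ≤ χ.conductor := by omega
    have h3 : χ.conductor ≤ q := Nat.le_of_dvd hq0 hdvd
    have h4 : (χ.conductor : ℝ) ≤ (Real.log (yZ Z)) ^ B := by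
      calc (χ.conductor : ℝ) ≤ q := by exact_mod_cast h3
        _ ≤ (Real.log Z) ^ B := hqB
        _ ≤ _ := pow_le_pow_left₀ hL0.le hlog _
    refine (hs _ h2 h4 _ χ.primitiveCharacter_isPrimitive).trans ?_
    exact div_le_div₀ (by linarith) hyZ' (pow_pos hL0 _) (pow_le_pow_left₀ hL0.le hlog _)
  have hcard : (((Finset.univ : Finset (DirichletCharacter ℂ q)).erase 1).card : ℝ) ≤
      Nat.totient q := by
    have h5 := DirichletCharacter.card_eq_totient_of_hasEnoughRootsOfUnity ℂ q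
    rw [Nat.card_eq_fintype_card] at h5
    have h6 := Finset.card_erase_add_one (Finset.mem_univ (1 : DirichletCharacter ℂ q))
    rw [Finset.card_univ] at h6
    rw [← h5]
    exact_mod_cast (by omega :
      ((Finset.univ : Finset (DirichletCharacter ℂ q)).erase 1).card ≤
        Fintype.card (DirichletCharacter ℂ q))
  have hE0 : 0 ≤ 6 / 5 * Z / (Real.log Z) ^ (A + 1) := by positivity
  have hsum : (1 / (Nat.totient q : ℝ)) *
      ∑ χ ∈ (Finset.univ : Finset (DirichletCharacter ℂ q)).erase 1,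
        ‖BVall.psiChiL 2000 (yZ Z) χ.primitiveCharacter‖ ≤
      6 / 5 * Z / (Real.log Z) ^ (A + 1) := by
    have h7 := Finset.sum_le_sum hchar
    rw [Finset.sum_const, nsmul_eq_mul] at h7
    have h8 := h7.trans (mul_le_mul_of_nonneg_right hcard hE0)
    rw [one_div, inv_mul_le_iff₀ hφ]
    exact h8
  -- the trivial term
  have hDD : MP89da58.DD (yZ Z) q ≤ Z / (Real.log Z) ^ (A + 1) := by
    unfold MP89da58.DD
    have h9 : Real.log (3 * yZ Z) ≤ 2 * Real.log Z := by
      have : Real.log (3 * yZ Z) ≤ Real.log (Z ^ 2) :=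
        Real.log_le_log (by linarith) (by nlinarith)
      rw [Real.log_pow] at this
      exact_mod_cast this
    have h10 : 0 ≤ Real.log (3 * yZ Z) := Real.log_nonneg (by linarith)
    rw [le_div_iff₀ (pow_pos hL0 _)]
    calc 8 * ((q : ℝ) * Real.log (3 * yZ Z)) * Real.log Z ^ (A + 1)
        ≤ 8 * ((Real.log Z) ^ B * (2 * Real.log Z)) * Real.log Z ^ (A + 1) := by
          refine mul_le_mul_of_nonneg_right ?_ (pow_nonneg hL0.le _)
          refine mul_le_mul_of_nonneg_left ?_ (by norm_num)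
          exact mul_le_mul hqB h9 h10 (pow_nonneg hL0.le _)
      _ = 16 * (Real.log Z) ^ (A + B + 2) := by ring
      _ ≤ Z := hsm
  have hfin : Z / (Real.log Z) ^ (A + 1) + 6 / 5 * Z / (Real.log Z) ^ (A + 1) ≤
      Z / (Real.log Z) ^ A := by
    rw [← add_div, div_le_div_iff₀ (pow_pos hL0 _) (pow_pos hL0 _), pow_succ]
    have h11 : 0 < (Real.log Z) ^ A := pow_pos hL0 _
    have h12 : (Z + 6 / 5 * Z) ≤ Z * Real.log Z := by nlinarith
    nlinarith
  linarith

end Pool.Agent.SP80
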