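import Pool.Agent.Lib.MP_1e1427_nt.SP.Stm

namespace Pool.Agent.SP80

open Finset MeasureTheory

private lemma kk_copP (P : Finset ℕ) (hP : ∀ p ∈ P, p.Prime ∧ 3 ≤ p) (e : ℕ) :
    Nat.Coprime (2 ^ e) (∏ p ∈ P, p) := by
  apply Nat.Coprime.prod_right
  intro p hp
  apply Nat.Coprime.pow_left
  rw [Nat.coprime_primes Nat.prime_two (hP p hp).1]
  have := (hP p hp).2
  omega

private lemma kk_crt (P : Finset ℕ) (hP : ∀ p ∈ P, p.Prime ∧ 3 ≤ p) (e a0 : ℕ) (a : ℕ → ℕ) :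
    ∃ x < 2 ^ e * ∏ p ∈ P, p, x ≡ a0 [MOD 2 ^ e] ∧ ∀ p ∈ P, x ≡ a p [MOD p] := by
  have hs : ∀ p ∈ P, (fun p : ℕ => p) p ≠ 0 := fun p hp => (hP p hp).1.ne_zero
  have hpw : Set.Pairwise (P : Set ℕ) (Function.onFun Nat.Coprime (fun p : ℕ => p)) := by
    intro p hp q hq hpq
    exact (Nat.coprime_primes (hP p hp).1 (hP q hq).1).mpr hpq
  obtain ⟨y, hy⟩ := Nat.chineseRemainderOfFinset a (fun p : ℕ => p) P hs hpw
  have hne : ∏ p ∈ P, p ≠ 0 := Finset.prod_ne_zero_iff.mpr hs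
  have hco := kk_copP P hP e
  refine ⟨(Nat.chineseRemainder hco a0 y : ℕ), Nat.chineseRemainder_lt_mul hco a0 y (by positivity) hne,
    (Nat.chineseRemainder hco a0 y).2.1, ?_⟩
  intro p hp
  have h1 := (Nat.chineseRemainder hco a0 y).2.2
  exact (h1.of_dvd (Finset.dvd_prod_of_mem (fun p : ℕ => p) hp)).trans (hy p hp)

private lemma kk_16 (ν : ℕ) (hν : Odd ν) : ∃ c1 d1 : ℕ, Odd c1 ∧ Even d1 ∧
    (16 : ℤ) ∣ 13 + (c1 : ℤ) ^ 2 + (d1 : ℤ) ^ 2 - 2 * ν := by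
  obtain ⟨m, hm⟩ := hν
  have h4 : m % 4 = 0 ∨ m % 4 = 1 ∨ m % 4 = 2 ∨ m % 4 = 3 := by omega
  rcases h4 with h | h | h | h
  · refine ⟨1, 2, by decide, by decide, ?_⟩
    push_cast
    omega
  · refine ⟨3, 0, by decide, by decide, ?_⟩
    push_cast
    omega
  · refine ⟨3, 2, by decide, by decide, ?_⟩
    push_cast
    omega
  · refine ⟨1, 0, by decide, by decide, ?_⟩
    push_cast
    omega

private lemma kk_cast (n x a : ℕ) (h : x ≡ a [MOD n]) : ∃ u : ℤ, (x : ℤ) = a + n * u := by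
  have h1 : (n : ℤ) ∣ (x : ℤ) - a := by
    have := (Nat.modEq_iff_dvd.mp h.symm)
    exact this
  obtain ⟨u, hu⟩ := h1
  exact ⟨u, by linarith⟩

theorem sk (hp : SKp) : SK := by
  intro w hw ν hν
  set P : Finset ℕ := (Icc 3 w).filter Nat.Prime with hPdef
  have hP : ∀ p ∈ P, p.Prime ∧ 3 ≤ p := by
    intro p hp
    rw [hPdef, mem_filter, mem_Icc] at hp
    exact ⟨hp.2, hp.1.1⟩
  have hM : Mw w = 2 ^ 3 * ∏ p ∈ P, p := rfl
  have hchoice : ∀ p : ℕ, ∃ x : ℕ × ℕ × ℕ, p ∈ P → (¬ p ∣ x.1 ∧ ¬ p ∣ x.2.1 ∧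
      (p : ℤ) ∣ 4 * (x.1 : ℤ) ^ 2 + ((x.1 : ℤ) + 1) ^ 2 + 4 * (x.2.1 : ℤ) ^ 2 + 4 * (x.2.2 : ℤ) ^ 2
        - 8 * ν) := by
    intro p
    by_cases h : p ∈ P
    · obtain ⟨a, b, c, h1, h2, h3⟩ := hp p (hP p h).1 (hP p h).2 ν
      exact ⟨(a, b, c), fun _ => ⟨h1, h2, h3⟩⟩
    · exact ⟨(0, 0, 0), fun h' => absurd h' h⟩
  choose X hX using hchoice
  obtain ⟨c1, d1, hc1, hd1, h16⟩ := kk_16 ν hν
  obtain ⟨q, hqlt, hq8, hqp⟩ := kk_crt P hP 3 3 (fun p => (X p).1)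
  obtain ⟨c, -, hc16, hcp⟩ := kk_crt P hP 4 c1 (fun p => (X p).2.1)
  obtain ⟨d, -, hd16, hdp⟩ := kk_crt P hP 4 d1 (fun p => (X p).2.2)
  have hq8' : q % 8 = 3 := by
    have : q % 8 = 3 % 8 := hq8
    omega
  have hc16' : c % 16 = c1 % 16 := hc16
  have hd16' : d % 16 = d1 % 16 := hd16
  have hndvd : ∀ (x a p : ℕ), x ≡ a [MOD p] → ¬ p ∣ a → ¬ p ∣ x := by
    intro x a p h h1 h2
    exact h1 ((h.dvd_iff dvd_rfl).mp h2)
  have hcopM : ∀ x : ℕ, Odd x → (∀ p ∈ P, ¬ p ∣ x) → Nat.Coprime x (Mw w) := by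
    intro x hx hxp
    rw [hM]
    apply Nat.Coprime.mul_right
    · apply Nat.Coprime.pow_right
      exact Nat.coprime_two_right.mpr hx
    · apply Nat.Coprime.prod_right
      intro p hp
      exact ((Nat.Prime.coprime_iff_not_dvd (hP p hp).1).mpr (hxp p hp)).symm
  have hqodd : Odd q := by
    rw [Nat.odd_iff]
    omega
  have hcodd : Odd c := by
    rw [Nat.odd_iff] at hc1 ⊢
    omega
  refine ⟨q, c, d, by rw [hM]; exact hqlt, hq8', ?_, ?_, ?_, ?_⟩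
  · exact hcopM q hqodd (fun p hp => hndvd _ _ _ (hqp p hp) (hX p hp).1)
  · exact hcopM c hcodd (fun p hp => hndvd _ _ _ (hcp p hp) (hX p hp).2.1)
  · rw [Nat.even_iff] at hd1 ⊢
    omega
  · -- the divisibility
    have h2M : 2 * (Mw w : ℤ) = ((16 * ∏ p ∈ P, p : ℕ) : ℤ) := by
      rw [hM]
      push_cast
      ring
    rw [h2M]
    obtain ⟨r, hr⟩ : ∃ r : ℕ, q + 1 = 2 * r := ⟨(q + 1) / 2, by omega⟩
    have hr' : (q + 1) / 2 = r := by omega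
    have hF : (F0 q c d : ℤ) = (q : ℤ) ^ 2 + (r : ℤ) ^ 2 + (c : ℤ) ^ 2 + (d : ℤ) ^ 2 := by
      unfold F0
      rw [hr']
      push_cast
      ring
    rw [hF]
    have hrz : (q : ℤ) + 1 = 2 * r := by exact_mod_cast hr
    rw [Int.natCast_dvd]
    apply Nat.Coprime.mul_dvd_of_dvd_of_dvd
    · have := kk_copP P hP 4
      norm_num at this
      exact this
    · rw [← Int.natCast_dvd]
      obtain ⟨k, hk⟩ : ∃ k : ℤ, (q : ℤ) = 8 * k + 3 := ⟨((q / 8 : ℕ) : ℤ), by omega⟩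
      have hrk : (r : ℤ) = 4 * k + 2 := by linarith
      obtain ⟨u, hu⟩ := kk_cast 16 c c1 hc16
      obtain ⟨v, hv⟩ := kk_cast 16 d d1 hd16
      obtain ⟨m, hm⟩ := h16
      rw [hk, hrk, hu, hv]
      refine ⟨m + 5 * k ^ 2 + 4 * k + 2 * u * c1 + 16 * u ^ 2 + 2 * v * d1 + 16 * v ^ 2, ?_⟩
      push_cast
      linear_combination hm
    · apply Finset.prod_primes_dvd
      · intro p hp
        exact (hP p hp).1.prime
      · intro p hp
        rw [← Int.natCast_dvd]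
        obtain ⟨-, -, m, hm⟩ := hX p hp
        obtain ⟨u, hu⟩ := kk_cast p q _ (hqp p hp)
        obtain ⟨v, hv⟩ := kk_cast p c _ (hcp p hp)
        obtain ⟨z, hz⟩ := kk_cast p d _ (hdp p hp)
        have h4 : (p : ℤ) ∣ 4 * ((q : ℤ) ^ 2 + (r : ℤ) ^ 2 + (c : ℤ) ^ 2 + (d : ℤ) ^ 2 - 2 * ν) := by
          have e1 : 4 * ((q : ℤ) ^ 2 + (r : ℤ) ^ 2 + (c : ℤ) ^ 2 + (d : ℤ) ^ 2 - 2 * ν)
              = 4 * (q : ℤ) ^ 2 + ((q : ℤ) + 1) ^ 2 + 4 * (c : ℤ) ^ 2 + 4 * (d : ℤ) ^ 2 - 8 * ν := by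
            rw [hrz]
            ring
          rw [e1, hu, hv, hz]
          refine ⟨m + 8 * u * (X p).1 + 4 * p * u ^ 2 + 2 * u * ((X p).1 + 1) + p * u ^ 2
            + 8 * v * (X p).2.1 + 4 * p * v ^ 2 + 8 * z * (X p).2.2 + 4 * p * z ^ 2, ?_⟩
          linear_combination hm
        have hcop : IsCoprime (p : ℤ) 4 := by
          have : Nat.Coprime p 4 := by
            have h2 : Nat.Coprime p 2 := by
              rw [Nat.coprime_primes (hP p hp).1 Nat.prime_two]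
              have := (hP p hp).2
              omega
            exact Nat.Coprime.pow_right 2 h2
          exact_mod_cast Nat.isCoprime_iff_coprime.mpr this
        exact hcop.dvd_of_dvd_mul_left h4

end Pool.Agent.SP80
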