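import Pool.Agent.Lib.MP_1e1427_nt.SP.Stm

/-!
Project SP (MP_1e1427_nt, StrongProbablePrime): local solvability modulo an odd prime.
-/

namespace Pool.Agent.SP80

theorem skp : SKp := by
  intro p hp h3 ν
  have : Fact p.Prime := ⟨hp⟩
  have h2 : (2 : ZMod p) ≠ 0 := by
    intro h
    have h' : ((2 : ℕ) : ZMod p) = 0 := by exact_mod_cast h
    rw [ZMod.natCast_eq_zero_iff] at h'
    have := Nat.le_of_dvd two_pos h'
    omega
  -- one of `q = 1`, `q = -1` is good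
  obtain ⟨q, hq0, hq⟩ : ∃ q : ZMod p, q ≠ 0 ∧
      8 * (ν : ZMod p) - (4 * q ^ 2 + (q + 1) ^ 2) ≠ 0 := by
    by_cases h : 8 * (ν : ZMod p) - (4 * (1 : ZMod p) ^ 2 + ((1 : ZMod p) + 1) ^ 2) = 0
    · refine ⟨-1, neg_ne_zero.2 one_ne_zero, fun h' => ?_⟩
      have h4 : (2 : ZMod p) * 2 = 0 := by linear_combination h' - h
      exact h2 (mul_self_eq_zero.1 h4)
    · exact ⟨1, one_ne_zero, h⟩
  obtain ⟨a, b, ha, hab⟩ : ∃ a b : ZMod p, a ≠ 0 ∧ a ^ 2 + b ^ 2 =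
      8 * (ν : ZMod p) - (4 * q ^ 2 + (q + 1) ^ 2) := by
    obtain ⟨a, b, hab⟩ := ZMod.sq_add_sq p (8 * (ν : ZMod p) - (4 * q ^ 2 + (q + 1) ^ 2))
    by_cases ha : a = 0
    · refine ⟨b, a, fun hb => ?_, by rw [add_comm]; exact hab⟩
      rw [ha, hb] at hab
      exact hq (by rw [← hab]; ring)
    · exact ⟨a, b, ha, hab⟩
  refine ⟨q.val, (a / 2).val, (b / 2).val, ?_, ?_, ?_⟩
  · rw [← ZMod.natCast_eq_zero_iff, ZMod.natCast_zmod_val]
    exact hq0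
  · rw [← ZMod.natCast_eq_zero_iff, ZMod.natCast_zmod_val]
    exact div_ne_zero ha h2
  · rw [← ZMod.intCast_zmod_eq_zero_iff_dvd]
    push_cast
    rw [ZMod.natCast_zmod_val, ZMod.natCast_zmod_val, ZMod.natCast_zmod_val]
    have e1 : 4 * (a / 2) ^ 2 = a ^ 2 := by field_simp; ring
    have e2 : 4 * (b / 2) ^ 2 = b ^ 2 := by field_simp; ring
    rw [e1, e2]
    linear_combination hab

end Pool.Agent.SP80
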