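import Pool.Agent.Lib.MP_1e1427_nt.SP.Stm

namespace Pool.Agent.SP80

open Finset MeasureTheory Filter Topology

private theorem l2_step (bad : ℕ → Prop) [DecidablePred bad] (δ Z₀ : ℝ) (hδ : 0 < δ)
    (hZ₀ : 1 ≤ Z₀)
    (h : ∀ Z : ℝ, Z₀ ≤ Z → ∀ S : Finset ℕ,
      (∀ n ∈ S, bad n ∧ Z ^ 2 < n ∧ (n : ℝ) ≤ 1001 / 1000 * Z ^ 2) → (S.card : ℝ) ≤ δ * Z ^ 2)
    (X : ℝ) (hX : 1001 / 1000 * Z₀ ^ 2 ≤ X) :
    (((Icc 1 ⌊X⌋₊).filter bad).card : ℝ) ≤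
      (((Icc 1 ⌊1000 / 1001 * X⌋₊).filter bad).card : ℝ) + δ * X := by
  have hX0 : 0 ≤ X := le_trans (by positivity) hX
  have hY0 : 0 ≤ 1000 / 1001 * X := by positivity
  have hsq : Real.sqrt (1000 / 1001 * X) ^ 2 = 1000 / 1001 * X := Real.sq_sqrt hY0
  have hZ : Z₀ ≤ Real.sqrt (1000 / 1001 * X) := by
    apply Real.le_sqrt_of_sq_le
    linarith
  have h1 := h _ hZ (((Icc 1 ⌊X⌋₊).filter bad) \ ((Icc 1 ⌊1000 / 1001 * X⌋₊).filter bad))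
    (by
      intro n hn
      rw [Finset.mem_sdiff, Finset.mem_filter, Finset.mem_filter, Finset.mem_Icc, Finset.mem_Icc] at hn
      obtain ⟨⟨⟨hn1, hn2⟩, hn3⟩, hn4⟩ := hn
      refine ⟨hn3, ?_, ?_⟩
      · rw [hsq]
        have h5 : ⌊1000 / 1001 * X⌋₊ < n := by
          by_contra hc
          exact hn4 ⟨⟨hn1, not_lt.1 hc⟩, hn3⟩
        exact (Nat.floor_lt hY0).1 h5
      · rw [hsq]
        have h6 : (n : ℝ) ≤ X := (Nat.le_floor_iff hX0).1 hn2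
        linarith)
  rw [hsq] at h1
  have h2 : ((Icc 1 ⌊X⌋₊).filter bad).card ≤
      (((Icc 1 ⌊X⌋₊).filter bad) \ ((Icc 1 ⌊1000 / 1001 * X⌋₊).filter bad)).card +
        ((Icc 1 ⌊1000 / 1001 * X⌋₊).filter bad).card := Finset.card_le_card_sdiff_add_card
  have h3 : (((Icc 1 ⌊X⌋₊).filter bad).card : ℝ) ≤
      ((((Icc 1 ⌊X⌋₊).filter bad) \ ((Icc 1 ⌊1000 / 1001 * X⌋₊).filter bad)).card : ℝ) +
        (((Icc 1 ⌊1000 / 1001 * X⌋₊).filter bad).card : ℝ) := by exact_mod_cast h2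
  have h4 : δ * (1000 / 1001 * X) ≤ δ * X := by
    apply mul_le_mul_of_nonneg_left _ hδ.le
    linarith
  linarith

private theorem l2_ind (bad : ℕ → Prop) [DecidablePred bad] (δ X₀ : ℝ) (hδ : 0 < δ)
    (_hX₀ : 0 < X₀)
    (h : ∀ X : ℝ, X₀ ≤ X → (((Icc 1 ⌊X⌋₊).filter bad).card : ℝ) ≤
      (((Icc 1 ⌊1000 / 1001 * X⌋₊).filter bad).card : ℝ) + δ * X) (k : ℕ) :
    ∀ X : ℝ, 0 ≤ X → X ≤ X₀ * (1001 / 1000) ^ k →
      (((Icc 1 ⌊X⌋₊).filter bad).card : ℝ) ≤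
        1001 * δ * X + (((Icc 1 ⌊X₀⌋₊).filter bad).card : ℝ) := by
  have hmono : ∀ X : ℝ, X ≤ X₀ → (((Icc 1 ⌊X⌋₊).filter bad).card : ℝ) ≤
      (((Icc 1 ⌊X₀⌋₊).filter bad).card : ℝ) := by
    intro X hX
    have h1 : ⌊X⌋₊ ≤ ⌊X₀⌋₊ := Nat.floor_le_floor hX
    have h2 : ((Icc 1 ⌊X⌋₊).filter bad).card ≤ ((Icc 1 ⌊X₀⌋₊).filter bad).card :=
      Finset.card_le_card (Finset.filter_subset_filter _ (Finset.Icc_subset_Icc_right h1))
    exact_mod_cast h2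
  induction k with
  | zero =>
    intro X hX0 hX
    rw [pow_zero, mul_one] at hX
    have h1 := hmono X hX
    have h2 : 0 ≤ 1001 * δ * X := by positivity
    linarith
  | succ k ih =>
    intro X hX0 hX
    by_cases hc : X ≤ X₀
    · have h1 := hmono X hc
      have h2 : 0 ≤ 1001 * δ * X := by positivity
      linarith
    · have h1 := h X (not_le.1 hc).le
      have h2 := ih (1000 / 1001 * X) (by positivity) (by
        rw [pow_succ] at hX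
        nlinarith)
      have h3 : 1001 * δ * (1000 / 1001 * X) = 1000 * (δ * X) := by ring
      have h4 : 1001 * δ * X = 1001 * (δ * X) := by ring
      linarith

private theorem l2_density (bad : ℕ → Prop) [DecidablePred bad]
    (h : ∀ δ : ℝ, 0 < δ → ∀ᶠ Z : ℝ in atTop, ∀ S : Finset ℕ,
      (∀ n ∈ S, bad n ∧ Z ^ 2 < n ∧ (n : ℝ) ≤ 1001 / 1000 * Z ^ 2) → (S.card : ℝ) ≤ δ * Z ^ 2) :
    Tendsto (fun X : ℕ => ((((Icc 1 X).filter bad).card : ℕ) : ℝ) / X) atTop (𝓝 0) := by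
  rw [Metric.tendsto_atTop]
  intro η hη
  have hδ : 0 < η / 2002 := by positivity
  obtain ⟨Z₁, hZ₁⟩ := Filter.eventually_atTop.1 (h (η / 2002) hδ)
  obtain ⟨Z₀, hZ₀def⟩ : ∃ Z₀, Z₀ = max Z₁ 1 := ⟨_, rfl⟩
  have hZ₀ : 1 ≤ Z₀ := by rw [hZ₀def]; exact le_max_right _ _
  have hZ₀' : Z₁ ≤ Z₀ := by rw [hZ₀def]; exact le_max_left _ _
  have hX₀ : 0 < 1001 / 1000 * Z₀ ^ 2 := by positivity
  have hind := l2_ind bad (η / 2002) (1001 / 1000 * Z₀ ^ 2) hδ hX₀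
    (l2_step bad (η / 2002) Z₀ hδ hZ₀ fun Z hZ => hZ₁ Z (hZ₀'.trans hZ))
  obtain ⟨B, hB⟩ : ∃ B : ℝ, B = (((Icc 1 ⌊1001 / 1000 * Z₀ ^ 2⌋₊).filter bad).card : ℝ) :=
    ⟨_, rfl⟩
  rw [← hB] at hind
  have hB0 : 0 ≤ B := by rw [hB]; positivity
  obtain ⟨N, hN⟩ := exists_nat_gt (2 * B / η)
  refine ⟨N + 1, fun X hX => ?_⟩
  have hXpos : (0 : ℝ) < X := by
    have : 0 < X := by omega
    exact_mod_cast this
  have hXN : (N : ℝ) < X := by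
    have : N < X := by omega
    exact_mod_cast this
  obtain ⟨k, hk⟩ := pow_unbounded_of_one_lt ((X : ℝ) / (1001 / 1000 * Z₀ ^ 2))
    (show (1 : ℝ) < 1001 / 1000 by norm_num)
  have hk' : (X : ℝ) ≤ 1001 / 1000 * Z₀ ^ 2 * (1001 / 1000) ^ k := by
    rw [div_lt_iff₀ hX₀] at hk
    linarith
  have h1 := hind k X hXpos.le hk'
  rw [Nat.floor_natCast] at h1
  rw [Real.dist_eq, sub_zero, abs_of_nonneg (by positivity), div_lt_iff₀ hXpos]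
  have h2 : 2 * B < η * X := by
    have h3 : 2 * B / η < X := hN.trans hXN
    rw [div_lt_iff₀ hη] at h3
    linarith
  have h4 : 1001 * (η / 2002) * (X : ℝ) = η * X / 2 := by ring
  rw [h4] at h1
  linarith

theorem sl2 (h : SL1) : SL2 := by
  intro ε hε
  refine l2_density _ fun δ hδ => ?_
  filter_upwards [h ε hε δ hδ] with Z hZ S hS
  refine hZ S fun n hn => ?_
  obtain ⟨⟨h1, h2⟩, h3, h4⟩ := hS n hn
  exact ⟨h1, h3, h4, h2⟩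

end Pool.Agent.SP80
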