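import Pool.Agent.Lib.MP_1e1427_nt.SP.Stm

/-!
# Sum over a progression against the integral
-/

namespace Pool.Agent.SP80

open Finset MeasureTheory

private theorem m1_norm_ex (x : ℝ) : ‖ex x‖ = 1 := by
  unfold ex
  exact Complex.norm_exp_ofReal_mul_I _

private theorem m1_ex_sub (x y : ℝ) : ‖ex x - ex y‖ ≤ 2 * Real.pi * |x - y| := by
  have h1 : ex x = ex y * ex (x - y) := by
    unfold ex
    rw [← Complex.exp_add]
    congr 1
    push_cast
    ring
  have h2 : ex x - ex y = ex y * (ex (x - y) - 1) := by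
    rw [h1]
    ring
  rw [h2, norm_mul, m1_norm_ex, one_mul]
  have h3 : ex (x - y) = Complex.exp (Complex.I * ((2 * Real.pi * (x - y) : ℝ) : ℂ)) := by
    unfold ex
    congr 1
    ring
  rw [h3]
  refine (Real.norm_exp_I_mul_ofReal_sub_one_le).trans ?_
  rw [Real.norm_eq_abs, abs_mul, abs_of_nonneg (by positivity : (0 : ℝ) ≤ 2 * Real.pi)]

/-- the integrand -/
private noncomputable def m1F (b g : ℕ) (β : ℝ) (x : ℝ) : ℂ :=
  ex (β * ((b : ℝ) * x + (g : ℝ) * x ^ 2))

private theorem m1_cont (b g : ℕ) (β : ℝ) : Continuous (m1F b g β) := by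
  unfold m1F ex
  fun_prop

private theorem m1_F_nat (b g : ℕ) (β : ℝ) (j : ℕ) :
    ex (β * (qd b g j : ℝ)) = m1F b g β (j : ℝ) := by
  unfold m1F qd
  congr 1
  push_cast
  ring

/-- the progression meets a block of length `r` in one point -/
private theorem m1_block (a r e : ℕ) (hr : 0 < r) (he : e < r) :
    ∃ t, a ≤ t ∧ t < a + r ∧ (Ico a (a + r)).filter (fun j => j % r = e) = {t} := by
  obtain ⟨t, h1, h2, h3⟩ : ∃ t, a ≤ t ∧ t < a + r ∧ t % r = e := by
    have hρ : a % r < r := Nat.mod_lt _ hr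
    by_cases h : a % r ≤ e
    · refine ⟨a + (e - a % r), by omega, by omega, ?_⟩
      have h4 : a + (e - a % r) = e + r * (a / r) := by
        have := Nat.mod_add_div a r
        omega
      rw [h4, Nat.add_mul_mod_self_left, Nat.mod_eq_of_lt he]
    · refine ⟨a + (e + r - a % r), by omega, by omega, ?_⟩
      have h4 : a + (e + r - a % r) = e + r * (a / r + 1) := by
        have := Nat.mod_add_div a r
        rw [Nat.mul_add, Nat.mul_one]
        omega
      rw [h4, Nat.add_mul_mod_self_left, Nat.mod_eq_of_lt he]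
  refine ⟨t, h1, h2, ?_⟩
  ext j
  rw [mem_filter, mem_Ico, mem_singleton]
  constructor
  · rintro ⟨⟨h4, h5⟩, h6⟩
    have key : ∀ x y : ℕ, x ≤ y → y < x + r → x % r = y % r → x = y := by
      intro x y hxy hlt hm
      have h7 : (y - x) % r = 0 := Nat.sub_mod_eq_zero_of_mod_eq hm.symm
      rw [Nat.mod_eq_of_lt (by omega)] at h7
      omega
    rcases le_total j t with h | h
    · exact key j t h (by omega) (by rw [h6, h3])
    · exact (key t j h (by omega) (by rw [h6, h3])).symm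
  · rintro rfl
    exact ⟨⟨h1, h2⟩, h3⟩

private theorem m1_diff (b g : ℕ) (β : ℝ) (a r : ℕ) (x t : ℝ) (hx1 : (a : ℝ) ≤ x)
    (hx2 : x ≤ a + r) (ht1 : (a : ℝ) ≤ t) (ht2 : t ≤ a + r) :
    ‖m1F b g β t - m1F b g β x‖ ≤
      2 * Real.pi * |β| * r * ((b : ℝ) + 2 * g * ((a : ℝ) + r)) := by
  unfold m1F
  refine (m1_ex_sub _ _).trans ?_
  have ha : (0 : ℝ) ≤ a := Nat.cast_nonneg a
  have hb : (0 : ℝ) ≤ b := Nat.cast_nonneg b
  have hg : (0 : ℝ) ≤ g := Nat.cast_nonneg g
  have h1 : β * ((b : ℝ) * t + (g : ℝ) * t ^ 2) - β * ((b : ℝ) * x + (g : ℝ) * x ^ 2) =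
      β * ((t - x) * ((b : ℝ) + g * (t + x))) := by ring
  rw [h1, abs_mul, abs_mul]
  have h2 : |t - x| ≤ r := by
    rw [abs_le]
    constructor <;> linarith
  have h3 : |(b : ℝ) + g * (t + x)| ≤ (b : ℝ) + 2 * g * ((a : ℝ) + r) := by
    rw [abs_of_nonneg (by nlinarith)]
    nlinarith
  have h4 : |t - x| * |(b : ℝ) + g * (t + x)| ≤ r * ((b : ℝ) + 2 * g * ((a : ℝ) + r)) :=
    mul_le_mul h2 h3 (abs_nonneg _) (Nat.cast_nonneg r)
  calc 2 * Real.pi * (|β| * (|t - x| * |(b : ℝ) + g * (t + x)|)) ≤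
      2 * Real.pi * (|β| * (r * ((b : ℝ) + 2 * g * ((a : ℝ) + r)))) := by
        gcongr
    _ = _ := by ring

/-- one block -/
private theorem m1_step (b g : ℕ) (β : ℝ) (a r t : ℕ) (hr : 0 < r) (h1 : a ≤ t)
    (h2 : t < a + r) :
    ‖m1F b g β (t : ℝ) - (1 / (r : ℂ)) * ∫ x in (a : ℝ)..((a : ℝ) + r), m1F b g β x‖ ≤
      2 * Real.pi * |β| * r * ((b : ℝ) + 2 * g * ((a : ℝ) + r)) := by
  have hr' : (0 : ℝ) < r := Nat.cast_pos.2 hr
  have hrc : (r : ℂ) ≠ 0 := Nat.cast_ne_zero.2 hr.ne'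
  have e1 : m1F b g β (t : ℝ) - (1 / (r : ℂ)) * ∫ x in (a : ℝ)..((a : ℝ) + r), m1F b g β x =
      (1 / (r : ℂ)) * ∫ x in (a : ℝ)..((a : ℝ) + r), (m1F b g β (t : ℝ) - m1F b g β x) := by
    rw [intervalIntegral.integral_sub (intervalIntegrable_const)
      ((m1_cont b g β).intervalIntegrable _ _), intervalIntegral.integral_const]
    have : ((a : ℝ) + r - a) • m1F b g β (t : ℝ) = (r : ℂ) * m1F b g β (t : ℝ) := by
      rw [Complex.real_smul]
      push_cast
      ring
    rw [this]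
    field_simp
  rw [e1, norm_mul]
  have e2 : ‖(1 / (r : ℂ))‖ = 1 / (r : ℝ) := by
    rw [norm_div, norm_one, Complex.norm_natCast]
  rw [e2]
  set C := 2 * Real.pi * |β| * r * ((b : ℝ) + 2 * g * ((a : ℝ) + r)) with hC
  have e3 : ‖∫ x in (a : ℝ)..((a : ℝ) + r), (m1F b g β (t : ℝ) - m1F b g β x)‖ ≤
      C * |(a : ℝ) + r - a| := by
    apply intervalIntegral.norm_integral_le_of_norm_le_const
    intro x hx
    rw [Set.uIoc_of_le (by linarith)] at hx
    apply m1_diff b g β a r x t hx.1.le hx.2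
    · exact_mod_cast h1
    · exact_mod_cast h2.le
  have e4 : |(a : ℝ) + r - a| = r := by
    rw [add_sub_cancel_left, abs_of_pos hr']
  rw [e4] at e3
  calc 1 / (r : ℝ) * ‖∫ x in (a : ℝ)..((a : ℝ) + r), (m1F b g β (t : ℝ) - m1F b g β x)‖ ≤
      1 / (r : ℝ) * (C * r) := by gcongr
    _ = C := by field_simp

private theorem m1_main (b g j0 r e : ℕ) (β : ℝ) (hr : 0 < r) (he : e < r) : ∀ H : ℕ,
    ‖(∑ j ∈ (Ico j0 (j0 + H)).filter (fun j => j % r = e), m1F b g β (j : ℝ)) -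
      (1 / (r : ℂ)) * ∫ x in (j0 : ℝ)..((j0 : ℝ) + H), m1F b g β x‖ ≤
    3 + 4 * Real.pi * |β| * H * ((b : ℝ) + 2 * g * ((j0 : ℝ) + H)) := by
  intro H
  have hr' : (0 : ℝ) < r := Nat.cast_pos.2 hr
  have hb : (0 : ℝ) ≤ b := Nat.cast_nonneg b
  have hg : (0 : ℝ) ≤ g := Nat.cast_nonneg g
  have hj : (0 : ℝ) ≤ j0 := Nat.cast_nonneg j0
  have hn : ∀ x, ‖m1F b g β x‖ = 1 := fun x => m1_norm_ex _
  induction H using Nat.strong_induction_on with
  | _ H ih =>
    by_cases hH : H < r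
    · have h1 : ‖∑ j ∈ (Ico j0 (j0 + H)).filter (fun j => j % r = e), m1F b g β (j : ℝ)‖ ≤ 1 := by
        obtain ⟨t, -, -, ht⟩ := m1_block j0 r e hr he
        have hsub : (Ico j0 (j0 + H)).filter (fun j => j % r = e) ⊆ {t} := by
          rw [← ht]
          apply filter_subset_filter
          apply Ico_subset_Ico_right
          omega
        calc ‖∑ j ∈ (Ico j0 (j0 + H)).filter (fun j => j % r = e), m1F b g β (j : ℝ)‖ ≤
            ∑ j ∈ (Ico j0 (j0 + H)).filter (fun j => j % r = e), ‖m1F b g β (j : ℝ)‖ :=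
              norm_sum_le _ _
          _ = (((Ico j0 (j0 + H)).filter (fun j => j % r = e)).card : ℝ) := by
              simp [hn]
          _ ≤ ((({t} : Finset ℕ)).card : ℝ) := by
              exact_mod_cast card_le_card hsub
          _ = 1 := by simp
      have h2 : ‖(1 / (r : ℂ)) * ∫ x in (j0 : ℝ)..((j0 : ℝ) + H), m1F b g β x‖ ≤ 1 := by
        rw [norm_mul, norm_div, norm_one, Complex.norm_natCast]
        have h3 : ‖∫ x in (j0 : ℝ)..((j0 : ℝ) + H), m1F b g β x‖ ≤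
            1 * |(j0 : ℝ) + H - j0| := by
          apply intervalIntegral.norm_integral_le_of_norm_le_const
          intro x _
          rw [hn]
        rw [add_sub_cancel_left, abs_of_nonneg (Nat.cast_nonneg H), one_mul] at h3
        have h4 : (H : ℝ) ≤ r := by exact_mod_cast hH.le
        rw [div_mul_eq_mul_div, one_mul, div_le_one hr']
        linarith
      have h5 : 0 ≤ 4 * Real.pi * |β| * H * ((b : ℝ) + 2 * g * ((j0 : ℝ) + H)) := by positivity
      calc ‖_ - _‖ ≤ 1 + 1 := (norm_sub_le _ _).trans (add_le_add h1 h2)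
        _ ≤ _ := by linarith
    · obtain ⟨H', rfl⟩ : ∃ H', H = H' + r := ⟨H - r, by omega⟩
      have hI := ih H' (by omega)
      obtain ⟨t, ht1, ht2, ht⟩ := m1_block (j0 + H') r e hr he
      have hS : ∑ j ∈ (Ico j0 (j0 + (H' + r))).filter (fun j => j % r = e), m1F b g β (j : ℝ) =
          (∑ j ∈ (Ico j0 (j0 + H')).filter (fun j => j % r = e), m1F b g β (j : ℝ)) +
            m1F b g β (t : ℝ) := by
        rw [sum_filter, sum_filter, ← sum_Ico_consecutive _ (Nat.le_add_right j0 H')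
          (by omega : j0 + H' ≤ j0 + (H' + r))]
        congr 1
        rw [← sum_filter, ← add_assoc, ht, sum_singleton]
      have hIn : ∫ x in (j0 : ℝ)..((j0 : ℝ) + ((H' + r : ℕ) : ℝ)), m1F b g β x =
          (∫ x in (j0 : ℝ)..((j0 : ℝ) + H'), m1F b g β x) +
            ∫ x in ((j0 + H' : ℕ) : ℝ)..(((j0 + H' : ℕ) : ℝ) + r), m1F b g β x := by
        push_cast
        rw [← add_assoc]
        exact (intervalIntegral.integral_add_adjacent_intervals
          ((m1_cont b g β).intervalIntegrable _ _) ((m1_cont b g β).intervalIntegrable _ _)).symm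
      have hst := m1_step b g β (j0 + H') r t hr ht1 ht2
      rw [hS, hIn]
      have e1 : (∑ j ∈ (Ico j0 (j0 + H')).filter (fun j => j % r = e), m1F b g β (j : ℝ)) +
            m1F b g β (t : ℝ) - (1 / (r : ℂ)) * ((∫ x in (j0 : ℝ)..((j0 : ℝ) + H'), m1F b g β x) +
            ∫ x in ((j0 + H' : ℕ) : ℝ)..(((j0 + H' : ℕ) : ℝ) + r), m1F b g β x) =
          ((∑ j ∈ (Ico j0 (j0 + H')).filter (fun j => j % r = e), m1F b g β (j : ℝ)) -
            (1 / (r : ℂ)) * (∫ x in (j0 : ℝ)..((j0 : ℝ) + H'), m1F b g β x)) +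
          (m1F b g β (t : ℝ) - (1 / (r : ℂ)) *
            ∫ x in ((j0 + H' : ℕ) : ℝ)..(((j0 + H' : ℕ) : ℝ) + r), m1F b g β x) := by ring
      rw [e1]
      refine (norm_add_le _ _).trans ((add_le_add hI hst).trans ?_)
      push_cast
      have hH' : (0 : ℝ) ≤ H' := Nat.cast_nonneg H'
      have hB : 0 ≤ Real.pi * |β| := by positivity
      have m1 : (b : ℝ) + 2 * g * ((j0 : ℝ) + H') ≤ (b : ℝ) + 2 * g * ((j0 : ℝ) + (H' + r)) := by
        nlinarith
      have m2 : Real.pi * |β| * H' * ((b : ℝ) + 2 * g * ((j0 : ℝ) + H')) ≤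
          Real.pi * |β| * H' * ((b : ℝ) + 2 * g * ((j0 : ℝ) + (H' + r))) :=
        mul_le_mul_of_nonneg_left m1 (by positivity)
      have m3 : 0 ≤ Real.pi * |β| * r * ((b : ℝ) + 2 * g * ((j0 : ℝ) + (H' + r))) := by
        positivity
      have m4 : (j0 : ℝ) + H' + r = (j0 : ℝ) + (H' + r) := by ring
      rw [m4]
      nlinarith

theorem sm1 : SM1 := by
  intro b g j0 H r e β hr he
  have h := m1_main b g j0 r e β hr he H
  have e1 : ∑ j ∈ (Ico j0 (j0 + H)).filter (fun j => j % r = e), ex (β * (qd b g j : ℝ)) =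
      ∑ j ∈ (Ico j0 (j0 + H)).filter (fun j => j % r = e), m1F b g β (j : ℝ) :=
    sum_congr rfl fun j _ => m1_F_nat b g β j
  rw [e1]
  exact h

end Pool.Agent.SP80
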