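import Pool.Agent.Lib.MP_1e1427_nt.SP.Stm

/-!
Project SP (MP_1e1427_nt), piece M2: the first derivative test.   (helper54)
-/

namespace Pool.Agent.SP80

open Finset MeasureTheory

private theorem m2_norm_ex (x : ℝ) : ‖ex x‖ = 1 := by
  unfold ex
  exact Complex.norm_exp_ofReal_mul_I _

private theorem m2_hasDeriv (β b g x : ℝ) :
    HasDerivAt (fun x : ℝ => ex (β * (b * x + g * x ^ 2)))
      (ex (β * (b * x + g * x ^ 2)) * ((2 * Real.pi * (β * (b + 2 * g * x)) : ℝ) * Complex.I)) x := by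
  unfold ex
  have h1 : HasDerivAt (fun x : ℝ => 2 * Real.pi * (β * (b * x + g * x ^ 2)))
      (2 * Real.pi * (β * (b + 2 * g * x))) x := by
    have h2 : HasDerivAt (fun x : ℝ => b * x) b x := by
      have := (hasDerivAt_id x).const_mul b
      simpa using this
    have h3 : HasDerivAt (fun x : ℝ => g * x ^ 2) (g * (2 * x)) x := by
      have := (hasDerivAt_pow 2 x).const_mul g
      simpa using this
    have h4 := ((h2.add h3).const_mul β).const_mul (2 * Real.pi)
    have h5 : 2 * Real.pi * (β * (b + g * (2 * x))) = 2 * Real.pi * (β * (b + 2 * g * x)) := by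
      ring
    rw [h5] at h4
    exact h4
  have h6 := (h1.ofReal_comp.mul_const Complex.I).cexp
  exact h6

private theorem m2_hasDeriv_inv (b g x : ℝ) (hx : b + 2 * g * x ≠ 0) :
    HasDerivAt (fun x : ℝ => (b + 2 * g * x)⁻¹) (-(2 * g) / (b + 2 * g * x) ^ 2) x := by
  have h1 : HasDerivAt (fun x : ℝ => b + 2 * g * x) (2 * g) x := by
    have := ((hasDerivAt_id x).const_mul (2 * g)).const_add b
    simpa using this
  exact h1.inv hx

theorem sm2 : SM2 := by
  intro b g j0 H β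
  have hab : (j0 : ℝ) ≤ (j0 : ℝ) + H := by
    have : (0 : ℝ) ≤ H := Nat.cast_nonneg H
    linarith
  constructor
  · unfold OI
    have h := intervalIntegral.norm_integral_le_of_norm_le_const
      (f := fun x : ℝ => ex (β * ((b : ℝ) * x + (g : ℝ) * x ^ 2))) (a := (j0 : ℝ))
      (b := (j0 : ℝ) + H) (C := 1) (fun x _ => (m2_norm_ex _).le)
    have h2 : (1 : ℝ) * |(j0 : ℝ) + H - j0| = H := by
      rw [add_sub_cancel_left, abs_of_nonneg (Nat.cast_nonneg H), one_mul]
    rw [h2] at h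
    exact h
  · intro hβ hpos
    have hpos' : (0 : ℝ) < (b : ℝ) + 2 * g * j0 := by exact_mod_cast hpos
    have hg0 : (0 : ℝ) ≤ g := Nat.cast_nonneg g
    have hDpos : ∀ x ∈ Set.uIcc (j0 : ℝ) ((j0 : ℝ) + H), 0 < (b : ℝ) + 2 * g * x := by
      intro x hx
      rw [Set.uIcc_of_le hab] at hx
      nlinarith [hx.1]
    have hπ : (0 : ℝ) < Real.pi := Real.pi_pos
    set c : ℂ := ((2 * Real.pi * β : ℝ) : ℂ) * Complex.I with hc
    have hc0 : c ≠ 0 := by
      rw [hc]
      apply mul_ne_zero _ Complex.I_ne_zero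
      rw [Complex.ofReal_ne_zero]
      positivity
    have hcn : ‖c‖ = 2 * Real.pi * |β| := by
      rw [hc, norm_mul, Complex.norm_I, mul_one, Complex.norm_real, Real.norm_eq_abs, abs_mul,
        abs_of_pos (by positivity : (0 : ℝ) < 2 * Real.pi)]
    have hbabs : 0 < |β| := abs_pos.mpr hβ
    let F : ℝ → ℂ := fun x => ex (β * ((b : ℝ) * x + (g : ℝ) * x ^ 2))
    let D : ℝ → ℝ := fun x => (b : ℝ) + 2 * g * x
    let G : ℝ → ℂ := fun x => c⁻¹ * (F x * (((D x)⁻¹ : ℝ) : ℂ))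
    let E : ℝ → ℂ := fun x => c⁻¹ * (F x * ((-(2 * (g : ℝ)) / (D x) ^ 2 : ℝ) : ℂ))
    have hFc : Continuous F := by
      apply continuous_iff_continuousAt.mpr
      intro x
      exact (m2_hasDeriv β b g x).continuousAt
    have hDc : Continuous D := by
      change Continuous fun x : ℝ => (b : ℝ) + 2 * g * x
      fun_prop
    have hderiv : ∀ x ∈ Set.uIcc (j0 : ℝ) ((j0 : ℝ) + H), HasDerivAt G (F x + E x) x := by
      intro x hx
      have hD : D x ≠ 0 := (hDpos x hx).ne'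
      have h1 := m2_hasDeriv β b g x
      have h2 := (m2_hasDeriv_inv b g x hD).ofReal_comp
      have h3 := (h1.mul h2).const_mul c⁻¹
      have h4 : c⁻¹ * (ex (β * ((b : ℝ) * x + (g : ℝ) * x ^ 2)) *
          ((2 * Real.pi * (β * ((b : ℝ) + 2 * g * x)) : ℝ) * Complex.I) *
          (((((b : ℝ) + 2 * g * x)⁻¹ : ℝ)) : ℂ) +
          ex (β * ((b : ℝ) * x + (g : ℝ) * x ^ 2)) *
          ((-(2 * (g : ℝ)) / ((b : ℝ) + 2 * g * x) ^ 2 : ℝ) : ℂ)) = F x + E x := by
        rw [mul_add]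
        congr 1
        have h5 : ((2 * Real.pi * (β * ((b : ℝ) + 2 * g * x)) : ℝ) : ℂ) * Complex.I =
            c * ((D x : ℝ) : ℂ) := by
          rw [hc]
          push_cast
          simp only [D]
          push_cast
          ring
        have h6 : ((D x : ℝ) : ℂ) ≠ 0 := Complex.ofReal_ne_zero.mpr hD
        have h7 : (((((b : ℝ) + 2 * g * x)⁻¹ : ℝ)) : ℂ) = ((D x : ℝ) : ℂ)⁻¹ := by
          rw [Complex.ofReal_inv]
        rw [h5, h7]
        change c⁻¹ * (F x * (c * ((D x : ℝ) : ℂ)) * ((D x : ℝ) : ℂ)⁻¹) = F x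
        field_simp
      rw [← h4]
      exact h3
    have hEc : ContinuousOn E (Set.uIcc (j0 : ℝ) ((j0 : ℝ) + H)) := by
      apply ContinuousOn.mul continuousOn_const
      apply ContinuousOn.mul hFc.continuousOn
      apply Complex.continuous_ofReal.comp_continuousOn
      apply ContinuousOn.div continuousOn_const (hDc.pow 2).continuousOn
      intro x hx
      exact pow_ne_zero 2 (hDpos x hx).ne'
    have hEi : IntervalIntegrable E volume (j0 : ℝ) ((j0 : ℝ) + H) := hEc.intervalIntegrable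
    have hFi : IntervalIntegrable F volume (j0 : ℝ) ((j0 : ℝ) + H) := hFc.intervalIntegrable _ _
    have hftc := intervalIntegral.integral_eq_sub_of_hasDerivAt hderiv (hFi.add hEi)
    rw [intervalIntegral.integral_add hFi hEi] at hftc
    have hOI : OI b g j0 H β = G ((j0 : ℝ) + H) - G j0 -
        ∫ x in (j0 : ℝ)..((j0 : ℝ) + H), E x := by
      rw [← hftc]
      change _ = (∫ x in (j0 : ℝ)..((j0 : ℝ) + H), F x) + (∫ x in (j0 : ℝ)..((j0 : ℝ) + H), E x) -
        ∫ x in (j0 : ℝ)..((j0 : ℝ) + H), E x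
      rw [add_sub_cancel_right]
      rfl
    have hGn : ∀ x, 0 < D x → ‖G x‖ = (2 * Real.pi * |β|)⁻¹ * (D x)⁻¹ := by
      intro x hx
      change ‖c⁻¹ * (F x * (((D x)⁻¹ : ℝ) : ℂ))‖ = _
      rw [norm_mul, norm_mul, norm_inv, hcn, Complex.norm_real, Real.norm_eq_abs,
        abs_of_pos (inv_pos.mpr hx)]
      change _ * (‖ex _‖ * _) = _
      rw [m2_norm_ex, one_mul]
    have hE : ‖∫ x in (j0 : ℝ)..((j0 : ℝ) + H), E x‖ ≤
        (2 * Real.pi * |β|)⁻¹ * ((D j0)⁻¹ - (D ((j0 : ℝ) + H))⁻¹) := by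
      have hbd : ∀ x ∈ Set.uIcc (j0 : ℝ) ((j0 : ℝ) + H), HasDerivAt
          (fun x : ℝ => -((2 * Real.pi * |β|)⁻¹ * (D x)⁻¹))
          (-((2 * Real.pi * |β|)⁻¹ * (-(2 * (g : ℝ)) / (D x) ^ 2))) x := by
        intro x hx
        exact ((m2_hasDeriv_inv b g x (hDpos x hx).ne').const_mul _).neg
      have hci : IntervalIntegrable (fun x : ℝ => -((2 * Real.pi * |β|)⁻¹ *
          (-(2 * (g : ℝ)) / (D x) ^ 2))) volume (j0 : ℝ) ((j0 : ℝ) + H) := by
        apply ContinuousOn.intervalIntegrable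
        apply ContinuousOn.neg
        apply ContinuousOn.mul continuousOn_const
        apply ContinuousOn.div continuousOn_const (hDc.pow 2).continuousOn
        intro x hx
        exact pow_ne_zero 2 (hDpos x hx).ne'
      have hint := intervalIntegral.integral_eq_sub_of_hasDerivAt hbd hci
      have hle := intervalIntegral.norm_integral_le_of_norm_le hab (f := E)
        (g := fun x : ℝ => -((2 * Real.pi * |β|)⁻¹ * (-(2 * (g : ℝ)) / (D x) ^ 2)))
        (Filter.Eventually.of_forall (fun x _ => by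
          change ‖c⁻¹ * (ex _ * ((-(2 * (g : ℝ)) / (D x) ^ 2 : ℝ) : ℂ))‖ ≤ _
          rw [norm_mul, norm_mul, norm_inv, hcn, Complex.norm_real, Real.norm_eq_abs, m2_norm_ex,
            one_mul, abs_div, abs_neg, abs_of_nonneg (by positivity : (0 : ℝ) ≤ 2 * (g : ℝ)),
            abs_of_nonneg (by positivity : (0 : ℝ) ≤ (D x) ^ 2)]
          have : -((2 * Real.pi * |β|)⁻¹ * (-(2 * (g : ℝ)) / (D x) ^ 2)) =
              (2 * Real.pi * |β|)⁻¹ * (2 * (g : ℝ) / (D x) ^ 2) := by ring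
          rw [this])) hci
      rw [hint] at hle
      refine hle.trans (le_of_eq ?_)
      ring
    have hDa : 0 < D j0 := hpos'
    have hDb : 0 < D ((j0 : ℝ) + H) := hDpos _ Set.right_mem_uIcc
    rw [hOI]
    have h1 := norm_sub_le (G ((j0 : ℝ) + H) - G j0) (∫ x in (j0 : ℝ)..((j0 : ℝ) + H), E x)
    have h2 := norm_sub_le (G ((j0 : ℝ) + H)) (G j0)
    rw [hGn _ hDa, hGn _ hDb] at h2
    have h3 : (2 * Real.pi * |β|)⁻¹ * (D ((j0 : ℝ) + H))⁻¹ + (2 * Real.pi * |β|)⁻¹ * (D j0)⁻¹ +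
        (2 * Real.pi * |β|)⁻¹ * ((D j0)⁻¹ - (D ((j0 : ℝ) + H))⁻¹) =
        1 / (Real.pi * |β| * ((b : ℝ) + 2 * g * j0)) := by
      have e1 : D j0 = (b : ℝ) + 2 * g * j0 := rfl
      rw [← e1]
      field_simp
      ring
    linarith

end Pool.Agent.SP80
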