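import Pool.Agent.Lib.MP_1e1427_nt.SP.Stm

/-!
Project SP (MP_1e1427_nt, StrongProbablePrime): the Weyl sum near a rational number.
-/

namespace Pool.Agent.SP80

open Finset

private theorem m3_ex_add (x y : ℝ) : ex (x + y) = ex x * ex y := by
  unfold ex
  rw [← Complex.exp_add]
  congr 1
  push_cast
  ring

private theorem m3_ex_int (m : ℤ) : ex (m : ℝ) = 1 := by
  unfold ex
  rw [Complex.exp_eq_one_iff]
  exact ⟨m, by push_cast; ring⟩

private theorem m3_norm_ex (x : ℝ) : ‖ex x‖ = 1 := by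
  unfold ex
  exact Complex.norm_exp_ofReal_mul_I _

private theorem m3_qd (b g j r : ℕ) : ∃ m : ℤ, (qd b g j : ℤ) = qd b g (j % r) + r * m := by
  have h1 : (qd b g j : ℤ) ≡ qd b g (j % r) [ZMOD r] := by
    unfold qd
    push_cast
    have h2 : (j : ℤ) ≡ (j : ℤ) % r [ZMOD r] := (Int.mod_modEq _ _).symm
    exact ((Int.ModEq.refl _).mul h2).add ((Int.ModEq.refl _).mul (h2.pow 2))
  obtain ⟨m, hm⟩ := h1.symm.dvd
  exact ⟨m, by linarith⟩

theorem sm3 (h1 : SM1) : SM3 := by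
  intro b g j0 H r a β hr
  have hr' : (r : ℝ) ≠ 0 := by exact_mod_cast hr.ne'
  have hrc : (r : ℂ) ≠ 0 := by exact_mod_cast hr.ne'
  have key : ∀ j : ℕ, ex ((qd b g j : ℝ) * ((a : ℝ) / r + β)) =
      ex ((a : ℝ) * (qd b g (j % r) : ℝ) / r) * ex (β * (qd b g j : ℝ)) := by
    intro j
    obtain ⟨m, hm⟩ := m3_qd b g j r
    have hm' : (qd b g j : ℝ) = qd b g (j % r) + r * m := by exact_mod_cast hm
    have e1 : (qd b g j : ℝ) * ((a : ℝ) / r + β) =
        ((a : ℝ) * (qd b g (j % r) : ℝ) / r + ((a * m : ℤ) : ℝ)) + β * (qd b g j : ℝ) := by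
      rw [mul_add, mul_comm (qd b g j : ℝ) β]
      congr 1
      rw [hm']
      push_cast
      field_simp
    rw [e1, m3_ex_add, m3_ex_add, m3_ex_int, mul_one]
  have split : WS b g j0 H ((a : ℝ) / r + β) = ∑ e ∈ range r, ex ((a : ℝ) * (qd b g e : ℝ) / r) *
      ∑ j ∈ (Ico j0 (j0 + H)).filter (fun j => j % r = e), ex (β * (qd b g j : ℝ)) := by
    unfold WS
    rw [← Finset.sum_fiberwise_of_maps_to (g := fun j => j % r) (t := range r)
      (fun j _ => mem_range.2 (Nat.mod_lt j hr))]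
    refine Finset.sum_congr rfl fun e _ => ?_
    rw [Finset.mul_sum]
    refine Finset.sum_congr rfl fun j hj => ?_
    rw [key j, (mem_filter.1 hj).2]
  have e2 : GS a b g r / r * OI b g j0 H β = ∑ e ∈ range r, ex ((a : ℝ) * (qd b g e : ℝ) / r) *
      ((1 / (r : ℂ)) * OI b g j0 H β) := by
    unfold GS
    rw [← Finset.sum_mul]
    ring
  rw [split, e2, ← Finset.sum_sub_distrib]
  refine (norm_sum_le _ _).trans ?_
  have hb : ∀ e ∈ range r, ‖ex ((a : ℝ) * (qd b g e : ℝ) / r) *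
      ∑ j ∈ (Ico j0 (j0 + H)).filter (fun j => j % r = e), ex (β * (qd b g j : ℝ)) -
      ex ((a : ℝ) * (qd b g e : ℝ) / r) * ((1 / (r : ℂ)) * OI b g j0 H β)‖ ≤
      3 + 4 * Real.pi * |β| * H * ((b : ℝ) + 2 * g * ((j0 : ℝ) + H)) := by
    intro e he
    rw [← mul_sub, norm_mul, m3_norm_ex, one_mul]
    exact h1 b g j0 H r e β hr (mem_range.1 he)
  refine (Finset.sum_le_sum hb).trans ?_
  rw [Finset.sum_const, card_range, nsmul_eq_mul]

end Pool.Agent.SP80
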