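import Pool.Agent.Lib.MP_1e1427_nt.SP.Stm

/-!
Project SP (MP_1e1427_nt, StrongProbablePrime): quadratic Weyl sums on the major arcs.
-/

namespace Pool.Agent.SP80

open Finset MeasureTheory

private theorem m4_OI (h2 : SM2) (b g H : ℕ) (β : ℝ) (hg : 1 ≤ g) (hH : 1 ≤ H) :
    ‖OI b g (3 * H) H β‖ ≤ mb H (6 * g * H) β := by
  obtain ⟨h3, h4⟩ := h2 b g (3 * H) H β
  unfold mb
  split_ifs with h
  · exact h3
  · refine le_min h3 ((h4 h (by positivity)).trans ?_)
    have hg1 : (1 : ℝ) ≤ g := by exact_mod_cast hg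
    have hH1 : (1 : ℝ) ≤ H := by exact_mod_cast hH
    have hb : (0 : ℝ) ≤ b := Nat.cast_nonneg b
    have hβ : 0 < |β| := abs_pos.2 h
    have hp := Real.pi_pos
    refine one_div_le_one_div_of_le (by positivity) ?_
    push_cast
    have h5 : 0 ≤ Real.pi * |β| * b := by positivity
    nlinarith

private theorem m4_main (h3 : SM3) (b g H r : ℕ) (a : ℤ) (β : ℝ) (hr : 0 < r) :
    ‖WS b g (3 * H) H ((a : ℝ) / r + β)‖ ≤ ‖GS a b g r‖ / r * ‖OI b g (3 * H) H β‖ +
      r * (3 + 4 * Real.pi * |β| * H * ((b : ℝ) + 8 * g * H)) := by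
  have h4 := h3 b g (3 * H) H r a β hr
  have h5 : (b : ℝ) + 2 * g * (((3 * H : ℕ) : ℝ) + H) = (b : ℝ) + 8 * g * H := by
    push_cast
    ring
  rw [h5] at h4
  have h6 : ‖GS a b g r / r * OI b g (3 * H) H β‖ = ‖GS a b g r‖ / r * ‖OI b g (3 * H) H β‖ := by
    rw [norm_mul, norm_div, Complex.norm_natCast]
  have h7 := norm_le_norm_add_norm_sub' (WS b g (3 * H) H ((a : ℝ) / r + β))
    (GS a b g r / r * OI b g (3 * H) H β)
  rw [h6] at h7
  linarith

theorem sm4 (h2 : SM2) (h3 : SM3) (g1 : SG1) : SM4 := by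
  intro b g H r a β hr hg hH hcop ha
  have h4 := m4_main h3 b g H r a β hr
  have h5 := m4_OI h2 b g H β hg hH
  have h6 := g1 a b g r hr hcop ha
  have h7 : ‖GS a b g r‖ = Real.sqrt r := by
    rw [← h6, Real.sqrt_sq (norm_nonneg _)]
  have hr0 : (0 : ℝ) < r := by exact_mod_cast hr
  have h8 : Real.sqrt r / r = 1 / Real.sqrt r := by
    rw [div_eq_div_iff hr0.ne' (Real.sqrt_pos.2 hr0).ne', Real.mul_self_sqrt hr0.le, one_mul]
  rw [h7, h8] at h4
  have h9 : 1 / Real.sqrt r * ‖OI b g (3 * H) H β‖ ≤ mb H (6 * g * H) β / Real.sqrt r := by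
    rw [div_mul_eq_mul_div, one_mul]
    exact div_le_div_of_nonneg_right h5 (Real.sqrt_nonneg _)
  linarith

theorem sm5 (h3 : SM3) (g2 : SG2) : SM5 := by
  intro b g H r p a β hr hp hpr hpg hpb ha
  have h4 := m4_main h3 b g H r a β hr
  rw [g2 a b g r p hr hp hpr hpg ha hpb, norm_zero, zero_div, zero_mul, zero_add] at h4
  exact h4

end Pool.Agent.SP80
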