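import Pool.Agent.Lib.MP_1e1427_nt.SP.Stm

set_option autoImplicit false

/-!
Project SP (MP_1e1427_nt): SN1 and SN2.
-/

namespace Pool.Agent.SP80

private theorem n1_fac (a : ℕ) : ∃ B : ℕ,
    4 ^ (8 * a + 3) + 1 = (2 ^ (8 * a + 3) + 2 ^ (4 * a + 2) + 1) * B := by
  refine ⟨2 ^ (8 * a + 3) + 1 - 2 ^ (4 * a + 2), ?_⟩
  have h1 : 2 ^ (4 * a + 2) ≤ 2 ^ (8 * a + 3) + 1 :=
    (Nat.pow_le_pow_right (by norm_num) (by omega)).trans (Nat.le_succ _)
  zify [h1]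
  have h3 : (2 : ℤ) ^ (4 * a + 2) * 2 ^ (4 * a + 2) = 2 ^ (8 * a + 3) * 2 := by ring
  have h4 : (4 : ℤ) ^ (8 * a + 3) = 2 ^ (8 * a + 3) * 2 ^ (8 * a + 3) := by
    rw [← mul_pow]
    norm_num
  rw [h4]
  linear_combination h3

theorem sn1 : SN1 := by
  intro q hq hq8 p hp hpN
  obtain ⟨a, rfl⟩ : ∃ a, q = 8 * a + 3 := ⟨q / 8, by omega⟩
  have hq2 : (8 * a + 3 + 1) / 2 = 4 * a + 2 := by omega
  rw [hq2] at hpN
  have hfact : Fact p.Prime := ⟨hp⟩
  obtain ⟨B, hB⟩ := n1_fac a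
  have hp4 : p ∣ 4 ^ (8 * a + 3) + 1 := hB ▸ Dvd.dvd.mul_right hpN B
  -- `p` is odd
  have hp2 : p ≠ 2 := by
    rintro rfl
    have e1 : (2 : ℕ) ^ (8 * a + 3) = 2 * 2 ^ (8 * a + 2) := by ring
    have e2 : (2 : ℕ) ^ (4 * a + 2) = 2 * 2 ^ (4 * a + 1) := by ring
    rw [e1, e2] at hpN
    omega
  have hp5 : p ≠ 5 := by
    rintro rfl
    have h1 : (2 ^ (8 * a + 3) + 2 ^ (4 * a + 2) + 1) % 5 = 3 := by
      have e1 : (2 : ℕ) ^ (8 * a + 3) = 256 ^ a * 8 := by rw [pow_add, pow_mul]; norm_num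
      have e2 : (2 : ℕ) ^ (4 * a + 2) = 16 ^ a * 4 := by rw [pow_add, pow_mul]; norm_num
      rw [e1, e2]
      have h256 : 256 ^ a % 5 = 1 := by
        rw [Nat.pow_mod]
        norm_num
      have h16 : 16 ^ a % 5 = 1 := by
        rw [Nat.pow_mod]
        norm_num
      omega
    omega
  have h4 : (4 : ZMod p) ^ (8 * a + 3) = -1 := by
    have h := (ZMod.natCast_eq_zero_iff (4 ^ (8 * a + 3) + 1) p).2 hp4
    push_cast at h
    exact eq_neg_of_add_eq_zero_left h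
  have hne : (-1 : ZMod p) ≠ 1 := by
    have : Fact (2 < p) := ⟨lt_of_le_of_ne hp.two_le (Ne.symm hp2)⟩
    exact ZMod.neg_one_ne_one
  have h2 : ((2 : ZMod p) ^ (8 * a + 3)) ^ 2 = -1 := by
    rw [← h4, ← pow_mul, mul_comm, pow_mul]
    norm_num
  -- the order of `2 ^ q` is four
  have ho : orderOf ((2 : ZMod p) ^ (8 * a + 3)) = 2 ^ (1 + 1) := by
    apply orderOf_eq_prime_pow
    · rw [pow_one, h2]
      exact hne
    · have e : ((2 : ZMod p) ^ (8 * a + 3)) ^ 2 ^ (1 + 1) = (((2 : ZMod p) ^ (8 * a + 3)) ^ 2) ^ 2 := by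
        rw [← pow_mul _ 2 2]
        norm_num
      rw [e, h2]
      norm_num
  have h4d : 4 ∣ orderOf (2 : ZMod p) := by
    have h := orderOf_pow_dvd (x := (2 : ZMod p)) (8 * a + 3)
    rw [ho] at h
    exact h
  have hdvd : orderOf (2 : ZMod p) ∣ 4 * (8 * a + 3) := by
    apply orderOf_dvd_of_pow_eq_one
    have : (2 : ZMod p) ^ (4 * (8 * a + 3)) = (((2 : ZMod p) ^ (8 * a + 3)) ^ 2) ^ 2 := by
      rw [← pow_mul, ← pow_mul]
      congr 1
      ring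
    rw [this, h2]
    norm_num
  have hqd : (8 * a + 3) ∣ orderOf (2 : ZMod p) := by
    by_contra hnd
    have hcop : Nat.Coprime (orderOf (2 : ZMod p)) (8 * a + 3) :=
      ((Nat.Prime.coprime_iff_not_dvd hq).2 hnd).symm
    have h1 : orderOf (2 : ZMod p) ∣ 4 := hcop.dvd_of_dvd_mul_right hdvd
    have h3 : (2 : ZMod p) ^ 4 = 1 := orderOf_dvd_iff_pow_eq_one.1 h1
    have h15 : ((15 : ℕ) : ZMod p) = 0 := by
      push_cast
      linear_combination h3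
    have h15' := (ZMod.natCast_eq_zero_iff 15 p).1 h15
    have h5 : p ∣ 3 * 5 := h15'
    rcases (Nat.Prime.dvd_mul hp).1 h5 with h | h
    · have hp3 : p = 3 := (Nat.prime_dvd_prime_iff_eq hp (by norm_num)).1 h
      subst hp3
      have h6 : orderOf (2 : ZMod 3) ∣ 2 := by
        apply orderOf_dvd_of_pow_eq_one
        have h3' : ((3 : ℕ) : ZMod 3) = 0 := ZMod.natCast_self 3
        push_cast at h3'
        linear_combination h3'
      have h7 := h4d.trans h6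
      omega
    · exact hp5 ((Nat.prime_dvd_prime_iff_eq hp (by norm_num)).1 h)
  have hcop4 : Nat.Coprime 4 (8 * a + 3) := by
    have : Nat.Coprime (2 ^ 2) (8 * a + 3) := by
      apply Nat.Coprime.pow_left
      rw [Nat.coprime_two_left]
      exact ⟨4 * a + 1, by ring⟩
    exact this
  have hd : 4 * (8 * a + 3) ∣ orderOf (2 : ZMod p) := hcop4.mul_dvd_of_dvd_of_dvd h4d hqd
  have h2ne : (2 : ZMod p) ≠ 0 := by
    intro h
    have h' : ((2 : ℕ) : ZMod p) = 0 := by exact_mod_cast h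
    exact hp2 ((Nat.prime_dvd_prime_iff_eq hp Nat.prime_two).1 ((ZMod.natCast_eq_zero_iff 2 p).1 h'))
  have hp1 : orderOf (2 : ZMod p) ∣ p - 1 :=
    orderOf_dvd_of_pow_eq_one (ZMod.pow_card_sub_one_eq_one h2ne)
  have h8 := Nat.le_of_dvd (by have := hp.two_le; omega) (hd.trans hp1)
  have := hp.two_le
  omega

theorem sn2 : SN2 := by
  intro q hq hq8
  have hfact : Fact q.Prime := ⟨hq⟩
  obtain ⟨a, ha⟩ : ∃ a, q = 8 * a + 3 := ⟨q / 8, by omega⟩
  have hq2 : (q + 1) / 2 = 4 * a + 2 := by omega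
  obtain ⟨B, hB⟩ := n1_fac a
  rw [hq2]
  have hqt : q ∣ 2 ^ (4 * a + 1) + 1 := by
    have h1 : ¬ IsSquare (2 : ZMod q) := by
      rw [ZMod.exists_sq_eq_two_iff (by omega)]
      omega
    have h2ne : (2 : ZMod q) ≠ 0 := by
      intro h
      have h' : ((2 : ℕ) : ZMod q) = 0 := by exact_mod_cast h
      have := (Nat.prime_dvd_prime_iff_eq hq Nat.prime_two).1 ((ZMod.natCast_eq_zero_iff 2 q).1 h')
      omega
    have h3 : (2 : ZMod q) ^ (q / 2) = -1 := by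
      rcases ZMod.pow_div_two_eq_neg_one_or_one q h2ne with h | h
      · exact absurd ((ZMod.euler_criterion q h2ne).2 h) h1
      · exact h
    have h4 : q / 2 = 4 * a + 1 := by omega
    rw [h4] at h3
    have h5 : ((2 ^ (4 * a + 1) + 1 : ℕ) : ZMod q) = 0 := by
      push_cast
      rw [h3]
      ring
    exact (ZMod.natCast_eq_zero_iff _ q).1 h5
  have hodd : Odd (2 ^ (4 * a + 1) + 1) := by
    refine ⟨2 ^ (4 * a), ?_⟩
    rw [pow_succ]
    ring
  refine ⟨4 * a + 2, 2 ^ (4 * a + 1) + 1, ?_, hodd, 1, by omega, ?_⟩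
  · rw [Nat.add_sub_cancel, ha, mul_add, mul_one, ← pow_add]
    congr 2
    omega
  · obtain ⟨m, hm⟩ := hqt
    have hmo : Odd m := by
      rw [hm] at hodd
      exact (Nat.odd_mul.1 hodd).2
    have h1 : 4 ^ q + 1 ∣ (4 ^ q) ^ m + 1 ^ m := Odd.nat_add_dvd_pow_add_pow (4 ^ q) 1 hmo
    have h2 : 2 ^ (2 ^ 1 * (2 ^ (4 * a + 1) + 1)) + 1 = (4 ^ q) ^ m + 1 ^ m := by
      rw [hm, one_pow, ← pow_mul, pow_mul]
      norm_num
    rw [h2]
    refine Dvd.dvd.trans ?_ h1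
    rw [ha, hB]
    exact Dvd.intro _ rfl

end Pool.Agent.SP80
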