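import Mathlib
import Pool.Agent.Lib.MP_1e1427_nt.SP.Stm

/-!
Project SP (MP_1e1427_nt): the prime factors of `2^q + 2^((q+1)/2) + 1` are `1 mod 4q`, and the passage
from `Qs n` to the numbers `N`, with all the information.
-/

namespace Pool.Agent.SP80

open Finset MeasureTheory Filter Topology

lemma n4_dvd (q : ℕ) (hq : q % 8 = 3) :
    2 ^ q + 2 ^ ((q + 1) / 2) + 1 ∣ 2 ^ (2 * q) + 1 := by
  obtain ⟨k, hk⟩ : ∃ k, q = 8 * k + 3 := ⟨q / 8, by omega⟩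
  have h1 : (q + 1) / 2 = 4 * k + 2 := by omega
  rw [h1, hk]
  have h2 : 2 ^ (4 * k + 2) ≤ 2 ^ (8 * k + 3) := Nat.pow_le_pow_right (by norm_num) (by omega)
  refine ⟨2 ^ (8 * k + 3) - 2 ^ (4 * k + 2) + 1, ?_⟩
  zify [h2]
  have e1 : ((2 : ℤ) ^ (8 * k + 3)) = 8 * (2 ^ k) ^ 8 := by rw [← pow_mul, pow_add]; ring_nf
  have e2 : ((2 : ℤ) ^ (4 * k + 2)) = 4 * (2 ^ k) ^ 4 := by rw [← pow_mul, pow_add]; ring_nf
  have e3 : ((2 : ℤ) ^ (2 * (8 * k + 3))) = 64 * (2 ^ k) ^ 16 := by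
    rw [← pow_mul, mul_add, pow_add]; ring_nf
  rw [e1, e2, e3]
  ring

lemma n4_two_sq : (2 : ZMod 3) ^ 2 = 1 := by decide

lemma n4_mod5 (k : ℕ) : (2 ^ (8 * k + 3) + 2 ^ (4 * k + 2) + 1) % 5 = 3 := by
  have a0 : 16 ^ k % 5 = 1 := by
    rw [Nat.pow_mod]; norm_num
  have a1 : 2 ^ (4 * k) % 5 = 1 := by
    rw [pow_mul]; exact a0
  have a2 : 2 ^ (8 * k) % 5 = 1 := by
    rw [show 8 * k = 4 * k + 4 * k by ring, pow_add, Nat.mul_mod, a1]
  rw [pow_add, pow_add]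
  omega

theorem n4_prime_factor (q : ℕ) (hq : q.Prime) (hq8 : q % 8 = 3) (p : ℕ) (hp : p.Prime)
    (hpN : p ∣ 2 ^ q + 2 ^ ((q + 1) / 2) + 1) : p % (4 * q) = 1 := by
  have : Fact p.Prime := ⟨hp⟩
  have hq3 : 3 ≤ q := by omega
  have hp2 : p ≠ 2 := by
    rintro rfl
    have h1 : 2 ∣ 2 ^ q := dvd_pow_self 2 (by omega)
    have h2 : 2 ∣ 2 ^ ((q + 1) / 2) := dvd_pow_self 2 (by omega)
    omega
  have hdvd : p ∣ 2 ^ (2 * q) + 1 := hpN.trans (n4_dvd q hq8)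
  have h20 : (2 : ZMod p) ^ (2 * q) = -1 := by
    have h := (ZMod.natCast_eq_zero_iff (2 ^ (2 * q) + 1) p).2 hdvd
    push_cast at h
    exact eq_neg_of_add_eq_zero_left h
  have hne : (-1 : ZMod p) ≠ 1 := by
    intro h
    have : ((2 : ℕ) : ZMod p) = 0 := by
      push_cast
      have : (1 : ZMod p) + 1 = 0 := by
        nth_rewrite 1 [← h]
        ring
      rw [← one_add_one_eq_two]; exact this
    rw [ZMod.natCast_eq_zero_iff] at this
    exact hp2 ((Nat.prime_dvd_prime_iff_eq hp Nat.prime_two).1 this)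
  set o := orderOf (2 : ZMod p) with ho
  have h4 : o ∣ 4 * q := by
    apply orderOf_dvd_of_pow_eq_one
    rw [show 4 * q = 2 * q * 2 by ring, pow_mul, h20]
    ring
  have hn2 : ¬ o ∣ 2 * q := by
    intro h
    have := orderOf_dvd_iff_pow_eq_one.1 h
    rw [h20] at this
    exact hne this
  -- `4 ∣ o`
  have h4o : 4 ∣ o := by
    by_contra hc
    apply hn2
    obtain ⟨m, hm⟩ := h4
    -- `o * m = 4 q`, `4 ∤ o`; then `2 ∣ m`
    have h2m : 2 ∣ m := by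
      by_contra h2m
      have hodd : Nat.Coprime 4 m := by
        have : Nat.Coprime 2 m := (Nat.Prime.coprime_iff_not_dvd Nat.prime_two).2 h2m
        exact Nat.Coprime.pow_left 2 this
      exact hc (hodd.dvd_of_dvd_mul_right (Dvd.intro _ hm))
    obtain ⟨m', rfl⟩ := h2m
    exact ⟨m', by linarith⟩
  -- `q ∣ o`
  have hqo : q ∣ o := by
    by_contra hc
    have hcop : Nat.Coprime q o := (Nat.Prime.coprime_iff_not_dvd hq).2 hc
    have h5 : o ∣ 4 := hcop.symm.dvd_of_dvd_mul_right h4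
    have h6 : (2 : ZMod p) ^ 4 = 1 := orderOf_dvd_iff_pow_eq_one.1 h5
    have h7 : p ∣ 15 := by
      have : ((15 : ℕ) : ZMod p) = 0 := by
        push_cast
        have : (15 : ZMod p) = 2 ^ 4 - 1 := by norm_num
        rw [this, h6, sub_self]
      exact (ZMod.natCast_eq_zero_iff 15 p).1 this
    have h8 : p = 3 ∨ p = 5 := by
      have h9 : p ∣ 3 * 5 := by norm_num; exact h7
      rcases (Nat.Prime.dvd_mul hp).1 h9 with h | h
      · left; exact (Nat.prime_dvd_prime_iff_eq hp Nat.prime_three).1 h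
      · right; exact (Nat.prime_dvd_prime_iff_eq hp Nat.prime_five).1 h
    obtain ⟨k, hk⟩ : ∃ k, q = 8 * k + 3 := ⟨q / 8, by omega⟩
    rcases h8 with rfl | rfl
    · rw [pow_mul, n4_two_sq, one_pow] at h20
      exact hne h20.symm
    · have h11 : (q + 1) / 2 = 4 * k + 2 := by omega
      rw [h11, hk] at hpN
      have h12 := n4_mod5 k
      omega
  have h4q : 4 * q ∣ o := by
    refine Nat.Coprime.mul_dvd_of_dvd_of_dvd ?_ h4o hqo
    have : Nat.Coprime 2 q := by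
      rw [Nat.Prime.coprime_iff_not_dvd Nat.prime_two]
      omega
    exact Nat.Coprime.pow_left 2 this
  have h20' : (2 : ZMod p) ≠ 0 := by
    intro h
    rw [h, zero_pow (by omega)] at h20
    have : (1 : ZMod p) = 0 := by
      have := congrArg (fun x => -x) h20
      simpa using this.symm
    exact one_ne_zero this
  have h13 : o ∣ p - 1 := orderOf_dvd_of_pow_eq_one (ZMod.pow_card_sub_one_eq_one h20')
  obtain ⟨m, hm⟩ := h4q.trans h13
  have hp1 : p = 4 * q * m + 1 := by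
    have := hp.one_lt
    omega
  rw [hp1, Nat.mul_add_mod]
  exact Nat.mod_eq_of_lt (by omega)

/-- The set of the numbers `N = 2^(x+y) + 2^(z+w) + 1`, `x² + y² + z² + w² = n`, such that `q = x + y` is
a prime with `3 q² ≥ 4 n`, every prime factor of `N` is `1 mod 4q`, and `N` passes the strong base-2
test. -/
def Ns (n : ℕ) : Set ℕ := {N : ℕ | ∃ x y z w : ℕ, x ^ 2 + y ^ 2 + z ^ 2 + w ^ 2 = n ∧
      N = 2 ^ (x + y) + 2 ^ (z + w) + 1 ∧ (x + y).Prime ∧ 4 * n ≤ 3 * (x + y) ^ 2 ∧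
      (∀ p : ℕ, p.Prime → p ∣ N → p % (4 * (x + y)) = 1) ∧
      ∃ s t : ℕ, N - 1 = 2 ^ s * t ∧ Odd t ∧ ∃ i < s, N ∣ 2 ^ (2 ^ i * t) + 1}

private def n4_f (q : ℕ) : ℕ := 2 ^ q + 2 ^ ((q + 1) / 2) + 1

private theorem n4_f_inj : Function.Injective n4_f := by
  apply StrictMono.injective
  intro a b hab
  unfold n4_f
  have h1 : 2 ^ a < 2 ^ b := Nat.pow_lt_pow_right (by norm_num) hab
  have h2 : 2 ^ ((a + 1) / 2) ≤ 2 ^ ((b + 1) / 2) :=
    Nat.pow_le_pow_right (by norm_num) (Nat.div_le_div_right (by omega))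
  omega

private theorem n4_le_of_sq {a n : ℕ} (h : a ^ 2 ≤ n) : a ≤ n := by
  calc a ≤ a ^ 2 := Nat.le_self_pow (by norm_num) a
    _ ≤ n := h

theorem n4_fin (n : ℕ) : (Ns n).Finite := by
  have h1 : Ns n ⊆ Set.Iic (2 ^ (n + n) + 2 ^ (n + n) + 1) := by
    rintro N ⟨x, y, z, w, h, hN, -⟩
    have hx : x ≤ n := n4_le_of_sq (by omega)
    have hy : y ≤ n := n4_le_of_sq (by omega)
    have hz : z ≤ n := n4_le_of_sq (by omega)
    have hw : w ≤ n := n4_le_of_sq (by omega)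
    have h2 : 2 ^ (x + y) ≤ 2 ^ (n + n) := Nat.pow_le_pow_right (by norm_num) (by omega)
    have h3 : 2 ^ (z + w) ≤ 2 ^ (n + n) := Nat.pow_le_pow_right (by norm_num) (by omega)
    change N ≤ _
    omega
  exact (Set.finite_Iic _).subset h1

private theorem n4_mem {n q : ℕ} (hq : q ∈ Qs n) : q.Prime ∧ q % 8 = 3 ∧ 4 * n ≤ 3 * q ^ 2 ∧
    ∃ c d : ℕ, Odd c ∧ Even d ∧ c ≤ q ∧ 2 * d ≤ q + 1 ∧
      2 * n = q ^ 2 + ((q + 1) / 2) ^ 2 + c ^ 2 + d ^ 2 := by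
  classical
  unfold Qs at hq
  exact (Finset.mem_filter.1 hq).2

/-- from `Qs n` to the numbers `N` -/
theorem n4_card (h2 : SN2) (n : ℕ) : (Qs n).card ≤ (Ns n).ncard := by
  rw [← Finset.card_image_of_injective (Qs n) n4_f_inj, ← Set.ncard_coe_finset]
  apply Set.ncard_le_ncard _ (n4_fin n)
  intro N hN
  rw [Finset.mem_coe, Finset.mem_image] at hN
  obtain ⟨q, hq, rfl⟩ := hN
  obtain ⟨hqp, hq8, hqn, c, d, hc, hd, hcq, hdq, hsum⟩ := n4_mem hq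
  obtain ⟨k, hk⟩ : ∃ k, q = 8 * k + 3 := ⟨q / 8, by omega⟩
  obtain ⟨c', hc'⟩ := hc
  obtain ⟨d', hd'⟩ := hd
  have hd2 : d = 2 * d' := by omega
  have hhalf : (q + 1) / 2 = 4 * k + 2 := by omega
  have hc4 : c' ≤ 4 * k + 1 := by omega
  have hd4 : d' ≤ 2 * k + 1 := by omega
  obtain ⟨y, hy⟩ := Nat.exists_eq_add_of_le hc4
  obtain ⟨w, hw⟩ := Nat.exists_eq_add_of_le hd4
  have hxy : 4 * k + 2 + c' + y = q := by omega
  have hzw : 2 * k + 1 + d' + w = (q + 1) / 2 := by omega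
  refine ⟨4 * k + 2 + c', y, 2 * k + 1 + d', w, ?_, ?_, ?_, ?_, ?_, ?_⟩
  · rw [hhalf, hk, hc', hd2] at hsum
    zify at hsum hy hw ⊢
    have e3 : (y : ℤ) = 4 * k + 1 - c' := by linarith
    have e4 : (w : ℤ) = 2 * k + 1 - d' := by linarith
    rw [e3, e4]
    nlinarith [hsum]
  · rw [hxy, hzw]; rfl
  · rw [hxy]; exact hqp
  · rw [hxy]; exact hqn
  · rw [hxy]
    intro p hp hpN
    exact n4_prime_factor q hqp hq8 p hp hpN
  · exact h2 q hqp hq8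

theorem n4_main (h2 : SL2) (hn : SN2) (ε : ℝ) (hε : 0 < ε) :
    Tendsto (fun X : ℕ => ((({n : ℕ | n ≤ X ∧ Odd n ∧
      ¬ ((n : ℝ) ^ (1 / 2 - ε) ≤ ((Ns n).ncard : ℝ))} : Set ℕ).ncard : ℕ) : ℝ) / X) atTop (𝓝 0) := by
  refine squeeze_zero (fun X => by positivity) (fun X => ?_) (h2 ε hε)
  have hsub : ({n : ℕ | n ≤ X ∧ Odd n ∧ ¬ ((n : ℝ) ^ (1 / 2 - ε) ≤ ((Ns n).ncard : ℝ))} : Set ℕ) ⊆
      (((Icc 1 X).filter (fun n : ℕ => Odd n ∧
        ¬ (n : ℝ) ^ (1 / 2 - ε) ≤ ((Qs n).card : ℝ)) : Finset ℕ) : Set ℕ) := by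
    rintro n ⟨h1, h4, h5⟩
    simp only [Finset.coe_filter, Finset.mem_Icc, Set.mem_ofPred_eq]
    refine ⟨⟨h4.pos, h1⟩, h4, fun h6 => h5 (h6.trans ?_)⟩
    exact_mod_cast n4_card hn n
  have hc := Set.ncard_le_ncard hsub (Finset.finite_toSet _)
  rw [Set.ncard_coe_finset] at hc
  gcongr

end Pool.Agent.SP80
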