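import Pool.Agent.Lib.MP_1e1427_nt.SP.Stm

/-!
Project SP (MP_1e1427_nt, StrongProbablePrime): integrals of `mb ^ 4`.
-/

namespace Pool.Agent.SP80

open Finset MeasureTheory

private theorem oi_mb {H κ : ℝ} (hH : 0 < H) (hκ : 0 < κ) (β : ℝ) :
    mb H κ β = (max H⁻¹ (Real.pi * κ * |β|))⁻¹ := by
  unfold mb
  split_ifs with h
  · subst h
    rw [abs_zero, mul_zero, max_eq_left (inv_pos.2 hH).le, inv_inv]
  · have hb : 0 < |β| := abs_pos.2 h
    have hp : 0 < Real.pi * κ * |β| := mul_pos (mul_pos Real.pi_pos hκ) hb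
    rw [one_div]
    rcases le_total H⁻¹ (Real.pi * κ * |β|) with h1 | h1
    · rw [max_eq_right h1, min_eq_right]
      exact inv_le_of_inv_le₀ hH h1
    · rw [max_eq_left h1, inv_inv, min_eq_left]
      exact (le_inv_comm₀ hp hH).1 h1

private theorem oi_cont {H κ : ℝ} (hH : 0 < H) (hκ : 0 < κ) :
    Continuous fun β => (mb H κ β) ^ 4 := by
  have h1 : (fun β => (mb H κ β) ^ 4) = fun β => ((max H⁻¹ (Real.pi * κ * |β|))⁻¹) ^ 4 := by
    funext β
    rw [oi_mb hH hκ]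
  rw [h1]
  refine (Continuous.inv₀ ?_ ?_).pow 4
  · exact continuous_const.max (continuous_const.mul continuous_abs)
  · intro β
    exact (lt_of_lt_of_le (inv_pos.2 hH) (le_max_left _ _)).ne'

private theorem oi_nonneg {H κ : ℝ} (hH : 0 < H) (hκ : 0 < κ) (β : ℝ) : 0 ≤ mb H κ β := by
  rw [oi_mb hH hκ]
  exact inv_nonneg.2 ((inv_pos.2 hH).le.trans (le_max_left _ _))

private theorem oi_le {H κ : ℝ} (hH : 0 < H) (hκ : 0 < κ) (β : ℝ) : mb H κ β ≤ H := by
  rw [oi_mb hH hκ]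
  exact inv_le_of_inv_le₀ hH (le_max_left _ _)

private theorem oi_tail {H κ : ℝ} (hH : 0 < H) (hκ : 0 < κ) {b X : ℝ} (hb : 0 < b) (hX : b ≤ X) :
    ∫ β in b..X, (mb H κ β) ^ 4 ≤ 1 / (3 * (Real.pi * κ) ^ 4 * b ^ 3) := by
  have hpk : 0 < Real.pi * κ := mul_pos Real.pi_pos hκ
  have h0 : (0 : ℝ) ∉ Set.uIcc b X := by
    rw [Set.uIcc_of_le hX]
    exact fun h => absurd h.1 (not_le.2 hb)
  have hint : IntervalIntegrable (fun β : ℝ => ((Real.pi * κ) ^ 4)⁻¹ * β ^ (-4 : ℤ)) volume b X :=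
    (intervalIntegral.intervalIntegrable_zpow (Or.inr h0)).const_mul _
  have h1 : ∫ β in b..X, (mb H κ β) ^ 4 ≤
      ∫ β in b..X, ((Real.pi * κ) ^ 4)⁻¹ * β ^ (-4 : ℤ) := by
    refine intervalIntegral.integral_mono_on hX ((oi_cont hH hκ).intervalIntegrable _ _) hint ?_
    intro β hβ
    have hβ0 : 0 < β := lt_of_lt_of_le hb hβ.1
    have h2 : mb H κ β ≤ (Real.pi * κ * β)⁻¹ := by
      rw [oi_mb hH hκ, abs_of_pos hβ0]
      exact inv_anti₀ (mul_pos hpk hβ0) (le_max_right _ _)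
    calc (mb H κ β) ^ 4 ≤ ((Real.pi * κ * β)⁻¹) ^ 4 :=
          pow_le_pow_left₀ (oi_nonneg hH hκ β) h2 4
      _ = ((Real.pi * κ) ^ 4)⁻¹ * β ^ (-4 : ℤ) := by
          rw [zpow_neg, inv_pow, mul_pow, mul_inv]
          norm_cast
  refine h1.trans ?_
  rw [intervalIntegral.integral_const_mul, integral_zpow (Or.inr ⟨by norm_num, h0⟩)]
  have hX0 : 0 < X := lt_of_lt_of_le hb hX
  have h3 : (X ^ ((-4 : ℤ) + 1) - b ^ ((-4 : ℤ) + 1)) / ((-4 : ℤ) + 1 : ℝ) ≤ 1 / (3 * b ^ 3) := by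
    have e1 : ((-4 : ℤ) + 1) = -3 := by norm_num
    rw [e1, zpow_neg, zpow_neg]
    have e2 : X ^ (3 : ℤ) = X ^ 3 := by norm_cast
    have e3 : b ^ (3 : ℤ) = b ^ 3 := by norm_cast
    rw [e2, e3]
    have h4 : 0 < (X ^ 3)⁻¹ := by positivity
    have h5 : (((-4 : ℤ) : ℝ) + 1) = -3 := by norm_num
    rw [h5, one_div, mul_inv]
    linarith
  calc ((Real.pi * κ) ^ 4)⁻¹ * ((X ^ ((-4 : ℤ) + 1) - b ^ ((-4 : ℤ) + 1)) / ((-4 : ℤ) + 1 : ℝ))
      ≤ ((Real.pi * κ) ^ 4)⁻¹ * (1 / (3 * b ^ 3)) :=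
        mul_le_mul_of_nonneg_left h3 (by positivity)
    _ = 1 / (3 * (Real.pi * κ) ^ 4 * b ^ 3) := by
        field_simp

private theorem oi_half {H κ : ℝ} (hH : 0 < H) (hκ : 0 < κ) {X : ℝ} (hX : 0 ≤ X) :
    ∫ β in (0 : ℝ)..X, (mb H κ β) ^ 4 ≤ 4 / (3 * Real.pi) * (H ^ 3 / κ) := by
  have hpk : 0 < Real.pi * κ := mul_pos Real.pi_pos hκ
  have hp := Real.pi_pos
  set b0 : ℝ := 1 / (Real.pi * κ * H) with hb0
  have hb0pos : 0 < b0 := by positivity
  have hfirst : ∀ Y : ℝ, 0 ≤ Y → Y ≤ b0 →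
      ∫ β in (0 : ℝ)..Y, (mb H κ β) ^ 4 ≤ 1 / Real.pi * (H ^ 3 / κ) := by
    intro Y hY hYb
    have h1 : ∫ β in (0 : ℝ)..Y, (mb H κ β) ^ 4 ≤ ∫ _ in (0 : ℝ)..Y, H ^ 4 := by
      refine intervalIntegral.integral_mono_on hY ((oi_cont hH hκ).intervalIntegrable _ _)
        intervalIntegrable_const ?_
      intro β _
      exact pow_le_pow_left₀ (oi_nonneg hH hκ β) (oi_le hH hκ β) 4
    refine h1.trans ?_
    rw [intervalIntegral.integral_const, smul_eq_mul, sub_zero]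
    calc Y * H ^ 4 ≤ b0 * H ^ 4 := mul_le_mul_of_nonneg_right hYb (by positivity)
      _ = 1 / Real.pi * (H ^ 3 / κ) := by
          rw [hb0]
          field_simp
  rcases le_total X b0 with h | h
  · refine (hfirst X hX h).trans ?_
    refine mul_le_mul_of_nonneg_right ?_ (by positivity)
    rw [div_le_div_iff₀ hp (by positivity)]
    nlinarith
  · rw [← intervalIntegral.integral_add_adjacent_intervals
      ((oi_cont hH hκ).intervalIntegrable 0 b0) ((oi_cont hH hκ).intervalIntegrable b0 X)]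
    have h1 := hfirst b0 hb0pos.le le_rfl
    have h2 := oi_tail hH hκ hb0pos h
    have h3 : 1 / (3 * (Real.pi * κ) ^ 4 * b0 ^ 3) = 1 / (3 * Real.pi) * (H ^ 3 / κ) := by
      rw [hb0]
      field_simp
    rw [h3] at h2
    have h4 : 4 / (3 * Real.pi) * (H ^ 3 / κ) = 1 / Real.pi * (H ^ 3 / κ) +
        1 / (3 * Real.pi) * (H ^ 3 / κ) := by
      field_simp
      norm_num
    rw [h4]
    linarith

theorem soi : SOI := by
  intro H κ X hH hκ hX
  have hp := Real.pi_gt_three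
  constructor
  · rw [← intervalIntegral.integral_add_adjacent_intervals
      ((oi_cont hH hκ).intervalIntegrable (-X) 0) ((oi_cont hH hκ).intervalIntegrable 0 X)]
    have h1 : ∫ β in (-X)..0, (mb H κ β) ^ 4 = ∫ β in (0 : ℝ)..X, (mb H κ β) ^ 4 := by
      have h2 := intervalIntegral.integral_comp_neg (a := 0) (b := X) (fun β => (mb H κ β) ^ 4)
      rw [neg_zero] at h2
      rw [← h2]
      refine intervalIntegral.integral_congr fun β _ => ?_
      rw [oi_mb hH hκ, oi_mb hH hκ, abs_neg]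
    rw [h1]
    have h3 := oi_half hH hκ hX
    have h4 : 0 < H ^ 3 / κ := by positivity
    have h5 : 4 / (3 * Real.pi) ≤ 1 / 2 := by
      rw [div_le_div_iff₀ (by positivity) (by norm_num)]
      linarith
    nlinarith
  · intro b1 hb1 hb1X
    refine (oi_tail hH hκ hb1 hb1X).trans ?_
    have h1 : κ ^ 4 ≤ (Real.pi * κ) ^ 4 := by
      refine pow_le_pow_left₀ hκ.le ?_ 4
      nlinarith
    have h2 : 0 < κ ^ 4 := by positivity
    have h3 : 0 < b1 ^ 3 := by positivity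
    refine one_div_le_one_div_of_le (by positivity) ?_
    refine mul_le_mul_of_nonneg_right ?_ h3.le
    linarith

end Pool.Agent.SP80
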