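import Pool.Agent.Lib.MP_1e1427_nt.SP.Stm
import Pool.Agent.Lib.MP_1e1427_nt.DivBound
import Pool.Agent.Lib.MP_89da58_nt.Bv

/-!
Project SP (MP_1e1427_nt): the convergent series `ST`.
-/

namespace Pool.Agent.SP80

open Finset MeasureTheory Filter Topology

private theorem t_gt_of_coprime (w r : ℕ) (hr : 2 ≤ r) (h : Nat.Coprime r (Mw w / 2)) :
    w < r := by
  by_contra hle
  have h2 : Mw w / 2 = 4 * ∏ p ∈ (Icc 3 w).filter Nat.Prime, p := by
    unfold Mw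
    omega
  have hp : r.minFac.Prime := Nat.minFac_prime (by omega)
  have hpr : r.minFac ∣ r := Nat.minFac_dvd r
  have hple : r.minFac ≤ r := Nat.minFac_le (by omega)
  have hdvd : r.minFac ∣ Mw w / 2 := by
    rw [h2]
    by_cases h3 : r.minFac = 2
    · rw [h3]
      exact Dvd.dvd.mul_right (by norm_num) _
    · apply Dvd.dvd.mul_left
      apply Finset.dvd_prod_of_mem
      rw [mem_filter, mem_Icc]
      have := hp.two_le
      exact ⟨⟨by omega, by omega⟩, hp⟩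
  exact Nat.not_coprime_of_dvd_of_dvd hp.one_lt hpr hdvd h

private theorem t_term : ∃ C : ℝ, ∀ r : ℕ, 1 ≤ r →
    (r.divisors.card : ℝ) / (Nat.totient r : ℝ) ^ 2 ≤ C * (r : ℝ) ^ (-(3 / 2 : ℝ)) := by
  obtain ⟨C, hC1, hC⟩ := Pool.Agent.Lib.MP1e1427.exists_card_divisors_le 4 (by norm_num)
  have hlog2 : 0 < Real.log 2 := Real.log_pos (by norm_num)
  refine ⟨C * (8 / Real.log 2 + 1) ^ 2, fun r hr => ?_⟩
  have hr1 : (1 : ℝ) ≤ r := by exact_mod_cast hr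
  have hr0 : (0 : ℝ) < r := by linarith
  have h1 : (r.divisors.card : ℝ) ≤ C * (r : ℝ) ^ (1 / 4 : ℝ) := by
    refine hC _ (Real.one_le_rpow hr1 (by norm_num)) r ?_
    rw [← Real.rpow_natCast, ← Real.rpow_mul hr0.le]
    norm_num
  have h2 : 1 / (Nat.totient r : ℝ) ≤ (8 / Real.log 2 + 1) * (r : ℝ) ^ (-(7 / 8 : ℝ)) := by
    refine (Pool.Agent.MP89da58.inv_totient_le r (by omega)).trans ?_
    have h3 : Real.log r ≤ (r : ℝ) ^ (1 / 8 : ℝ) / (1 / 8) :=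
      Real.log_le_rpow_div hr0.le (by norm_num)
    have h4 : (1 : ℝ) ≤ (r : ℝ) ^ (1 / 8 : ℝ) := Real.one_le_rpow hr1 (by norm_num)
    have h5 : Real.log r / Real.log 2 + 1 ≤ (8 / Real.log 2 + 1) * (r : ℝ) ^ (1 / 8 : ℝ) := by
      have h6 : Real.log r / Real.log 2 ≤ 8 / Real.log 2 * (r : ℝ) ^ (1 / 8 : ℝ) := by
        rw [div_mul_eq_mul_div]
        apply div_le_div_of_nonneg_right _ hlog2.le
        linarith
      linarith
    have h7 : (r : ℝ) ^ (-(7 / 8 : ℝ)) = (r : ℝ) ^ (1 / 8 : ℝ) / r := by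
      rw [← Real.rpow_sub_one hr0.ne']
      norm_num
    rw [h7, ← mul_div_assoc]
    exact div_le_div_of_nonneg_right h5 hr0.le
  have h0 : (0 : ℝ) ≤ 1 / (Nat.totient r : ℝ) := by positivity
  have h8 : (1 / (Nat.totient r : ℝ)) ^ 2 ≤
      ((8 / Real.log 2 + 1) * (r : ℝ) ^ (-(7 / 8 : ℝ))) ^ 2 := pow_le_pow_left₀ h0 h2 2
  have h9 : ((r : ℝ) ^ (-(7 / 8 : ℝ))) ^ 2 = (r : ℝ) ^ (-(7 / 4 : ℝ)) := by
    rw [← Real.rpow_natCast, ← Real.rpow_mul hr0.le]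
    norm_num
  have h10 : (r : ℝ) ^ (1 / 4 : ℝ) * (r : ℝ) ^ (-(7 / 4 : ℝ)) = (r : ℝ) ^ (-(3 / 2 : ℝ)) := by
    rw [← Real.rpow_add hr0]
    norm_num
  calc (r.divisors.card : ℝ) / (Nat.totient r : ℝ) ^ 2
      = (r.divisors.card : ℝ) * (1 / (Nat.totient r : ℝ)) ^ 2 := by
        rw [one_div, inv_pow, div_eq_mul_inv]
    _ ≤ (C * (r : ℝ) ^ (1 / 4 : ℝ)) *
        ((8 / Real.log 2 + 1) * (r : ℝ) ^ (-(7 / 8 : ℝ))) ^ 2 := by
        apply mul_le_mul h1 h8 (by positivity) (by positivity)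
    _ = C * (8 / Real.log 2 + 1) ^ 2 *
        ((r : ℝ) ^ (1 / 4 : ℝ) * ((r : ℝ) ^ (-(7 / 8 : ℝ))) ^ 2) := by ring
    _ = _ := by rw [h9, h10]

theorem st : ST := by
  intro ε hε
  obtain ⟨C, hC⟩ := t_term
  have hsum : Summable fun r : ℕ => C * (r : ℝ) ^ (-(3 / 2 : ℝ)) :=
    (Real.summable_nat_rpow.2 (by norm_num)).mul_left C
  obtain ⟨s, hs⟩ := summable_iff_vanishing_norm.1 hsum ε hε
  refine ⟨max 5 (s.sup id), le_max_left _ _, fun K => ?_⟩
  have hdis : Disjoint ((Icc 2 K).filter (fun r => Nat.Coprime r (Mw (max 5 (s.sup id)) / 2)))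
      s := by
    rw [Finset.disjoint_left]
    intro r hr hrs
    rw [mem_filter, mem_Icc] at hr
    have h1 := t_gt_of_coprime _ r hr.1.1 hr.2
    have h2 : r ≤ s.sup id := Finset.le_sup (f := id) hrs
    have h3 := le_max_right 5 (s.sup id)
    omega
  have h4 := hs _ hdis
  have h5 := (le_abs_self _).trans (h4.le)
  refine le_trans (Finset.sum_le_sum fun r hr => ?_) h5
  rw [mem_filter, mem_Icc] at hr
  exact hC r (by omega)

end Pool.Agent.SP80
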