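import Pool.Agent.Lib.MP_1e1427_nt.SP.Stm

/-!
Project SP (MP_1e1427_nt), piece V1: the variance of the representation function.   (helper54)
-/

namespace Pool.Agent.SP80

open Finset MeasureTheory

private theorem v1_ex_add (x y : ℝ) : ex (x + y) = ex x * ex y := by
  unfold ex
  rw [← Complex.exp_add]
  congr 1
  push_cast
  ring

private theorem v1_prod (w : ℕ → ℝ) (I α γ c d g j0 H : ℕ) (θ : ℝ) :
    ∑ i ∈ range I, ∑ j ∈ Ico j0 (j0 + H), ∑ k ∈ Ico j0 (j0 + H),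
      (w i : ℂ) * ex (((qd α γ i + qd c g j + qd d g k : ℕ) : ℝ) * θ) =
    SS w I (qd α γ) θ * WS c g j0 H θ * WS d g j0 H θ := by
  unfold SS WS
  rw [Finset.sum_mul_sum, Finset.sum_mul]
  apply Finset.sum_congr rfl
  intro i _
  rw [Finset.sum_mul]
  apply Finset.sum_congr rfl
  intro j _
  rw [Finset.mul_sum]
  apply Finset.sum_congr rfl
  intro k _
  have h : (((qd α γ i + qd c g j + qd d g k : ℕ) : ℝ) * θ) =
      ((qd α γ i : ℕ) : ℝ) * θ + ((qd c g j : ℕ) : ℝ) * θ + ((qd d g k : ℕ) : ℝ) * θ := by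
    push_cast
    ring
  rw [h, v1_ex_add, v1_ex_add]
  ring

private theorem v1_single (U : Finset ℤ) (P h : ℤ) (a θ : ℝ) (hU : P - h ∈ U) :
    ∑ t ∈ U, (((if P = t + h then a else 0 : ℝ)) : ℂ) * ex ((t : ℝ) * θ) =
      ex (-(h : ℝ) * θ) * ((a : ℂ) * ex ((P : ℝ) * θ)) := by
  rw [Finset.sum_eq_single (P - h)]
  · rw [if_pos (by ring)]
    have e : ((P - h : ℤ) : ℝ) * θ = -(h : ℝ) * θ + (P : ℝ) * θ := by
      push_cast
      ring
    rw [e, v1_ex_add]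
    ring
  · intro t _ ht
    rw [if_neg (by intro e; apply ht; rw [e]; ring)]
    simp
  · intro h'
    exact absurd hU h'

private theorem v1_shift (w : ℕ → ℝ) (I α γ c d g j0 H : ℕ) (U : Finset ℤ) (h : ℤ) (θ : ℝ)
    (hU : ∀ i ∈ range I, ∀ j ∈ Ico j0 (j0 + H), ∀ k ∈ Ico j0 (j0 + H),
      ((qd α γ i + qd c g j + qd d g k : ℕ) : ℤ) - h ∈ U) :
    ∑ t ∈ U, ((RR w I α γ c d g j0 H (t + h) : ℝ) : ℂ) * ex ((t : ℝ) * θ) =
      ex (-(h : ℝ) * θ) * (SS w I (qd α γ) θ * WS c g j0 H θ * WS d g j0 H θ) := by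
  rw [← v1_prod]
  calc ∑ t ∈ U, ((RR w I α γ c d g j0 H (t + h) : ℝ) : ℂ) * ex ((t : ℝ) * θ)
      = ∑ t ∈ U, ∑ i ∈ range I, ∑ j ∈ Ico j0 (j0 + H), ∑ k ∈ Ico j0 (j0 + H),
          (((if ((qd α γ i + qd c g j + qd d g k : ℕ) : ℤ) = t + h then w i else 0 : ℝ)) : ℂ) *
            ex ((t : ℝ) * θ) := by
        simp only [RR, Complex.ofReal_sum, Finset.sum_mul]
    _ = ∑ i ∈ range I, ∑ j ∈ Ico j0 (j0 + H), ∑ k ∈ Ico j0 (j0 + H), ∑ t ∈ U,
          (((if ((qd α γ i + qd c g j + qd d g k : ℕ) : ℤ) = t + h then w i else 0 : ℝ)) : ℂ) *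
            ex ((t : ℝ) * θ) := by
        rw [Finset.sum_comm]
        apply Finset.sum_congr rfl
        intro i _
        rw [Finset.sum_comm]
        apply Finset.sum_congr rfl
        intro j _
        rw [Finset.sum_comm]
    _ = ∑ i ∈ range I, ∑ j ∈ Ico j0 (j0 + H), ∑ k ∈ Ico j0 (j0 + H),
          ex (-(h : ℝ) * θ) * ((w i : ℂ) *
            ex (((qd α γ i + qd c g j + qd d g k : ℕ) : ℝ) * θ)) := by
        apply Finset.sum_congr rfl
        intro i hi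
        apply Finset.sum_congr rfl
        intro j hj
        apply Finset.sum_congr rfl
        intro k hk
        rw [v1_single U _ h (w i) θ (hU i hi j hj k hk), Int.cast_natCast]
    _ = _ := by
        simp only [Finset.mul_sum]

theorem sv1 (h : SPP) : SV1 := by
  classical
  intro w I α γ c d g j0 H L T
  -- a large finite set
  let Pf : ℕ × ℕ × ℕ → ℤ := fun x => ((qd α γ x.1 + qd c g x.2.1 + qd d g x.2.2 : ℕ) : ℤ)
  let S3 : Finset (ℕ × ℕ × ℕ) := range I ×ˢ (Ico j0 (j0 + H) ×ˢ Ico j0 (j0 + H))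
  let U : Finset ℤ := T ∪ (S3 ×ˢ Icc (-(L : ℤ)) L).image (fun y => Pf y.1 - y.2)
  have hTU : T ⊆ U := Finset.subset_union_left
  have hPU : ∀ h' ∈ Icc (-(L : ℤ)) L, ∀ i ∈ range I, ∀ j ∈ Ico j0 (j0 + H),
      ∀ k ∈ Ico j0 (j0 + H), ((qd α γ i + qd c g j + qd d g k : ℕ) : ℤ) - h' ∈ U := by
    intro h' hh i hi j hj k hk
    apply Finset.mem_union_right
    rw [Finset.mem_image]
    exact ⟨((i, j, k), h'), Finset.mem_product.2 ⟨Finset.mem_product.2 ⟨hi,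
      Finset.mem_product.2 ⟨hj, hk⟩⟩, hh⟩, rfl⟩
  have h0 : (0 : ℤ) ∈ Icc (-(L : ℤ)) L := by
    rw [Finset.mem_Icc]
    omega
  set f : ℤ → ℝ := fun t => RR w I α γ c d g j0 H t - Rav w I α γ c d g j0 H L t with hf
  have hkey : ∀ θ : ℝ, ∑ t ∈ U, ((f t : ℝ) : ℂ) * ex ((t : ℝ) * θ) =
      SS w I (qd α γ) θ * WS c g j0 H θ * WS d g j0 H θ * (1 - phi L θ) := by
    intro θ
    have e1 : ∑ t ∈ U, ((RR w I α γ c d g j0 H t : ℝ) : ℂ) * ex ((t : ℝ) * θ) =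
        SS w I (qd α γ) θ * WS c g j0 H θ * WS d g j0 H θ := by
      have e := v1_shift w I α γ c d g j0 H U 0 θ (hPU 0 h0)
      simp only [add_zero] at e
      rw [e]
      have e2 : ex (-((0 : ℤ) : ℝ) * θ) = 1 := by
        unfold ex
        simp
      rw [e2, one_mul]
    have e2 : ∑ t ∈ U, ((Rav w I α γ c d g j0 H L t : ℝ) : ℂ) * ex ((t : ℝ) * θ) =
        SS w I (qd α γ) θ * WS c g j0 H θ * WS d g j0 H θ * phi L θ := by
      have e3 : ∀ t ∈ U, ((Rav w I α γ c d g j0 H L t : ℝ) : ℂ) * ex ((t : ℝ) * θ) =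
          ∑ h' ∈ Icc (-(L : ℤ)) L,
            (((RR w I α γ c d g j0 H (t + h') : ℝ) : ℂ) * ex ((t : ℝ) * θ)) / (2 * L + 1) := by
        intro t _
        unfold Rav
        push_cast
        rw [← Finset.sum_div, ← Finset.sum_mul]
        ring
      rw [Finset.sum_congr rfl e3, Finset.sum_comm]
      have e4 : ∀ h' ∈ Icc (-(L : ℤ)) L, ∑ t ∈ U,
          (((RR w I α γ c d g j0 H (t + h') : ℝ) : ℂ) * ex ((t : ℝ) * θ)) / (2 * L + 1) =
          ex (-(h' : ℝ) * θ) * (SS w I (qd α γ) θ * WS c g j0 H θ * WS d g j0 H θ) /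
            (2 * L + 1) := by
        intro h' hh
        rw [← Finset.sum_div, v1_shift w I α γ c d g j0 H U h' θ (hPU h' hh)]
      rw [Finset.sum_congr rfl e4, ← Finset.sum_div, ← Finset.sum_mul]
      unfold phi
      ring
    have e3 : ∀ t ∈ U, ((f t : ℝ) : ℂ) * ex ((t : ℝ) * θ) =
        ((RR w I α γ c d g j0 H t : ℝ) : ℂ) * ex ((t : ℝ) * θ) -
        ((Rav w I α γ c d g j0 H L t : ℝ) : ℂ) * ex ((t : ℝ) * θ) := by
      intro t _
      rw [hf]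
      push_cast
      ring
    rw [Finset.sum_congr rfl e3, Finset.sum_sub_distrib, e1, e2]
    ring
  have hint : ∫ θ in (0 : ℝ)..1, Phi w I α γ c d g j0 H L θ =
      ∫ θ in (0 : ℝ)..1, ‖∑ t ∈ U, ((f t : ℝ) : ℂ) * ex ((t : ℝ) * θ)‖ ^ 2 := by
    apply intervalIntegral.integral_congr
    intro θ _
    change Phi w I α γ c d g j0 H L θ = ‖∑ t ∈ U, ((f t : ℝ) : ℂ) * ex ((t : ℝ) * θ)‖ ^ 2
    rw [hkey θ, norm_mul, norm_mul, norm_mul]
    rfl
  rw [hint]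
  have hs := h ℤ U f id
  have hs2 : ∫ θ in (0 : ℝ)..1, ‖∑ t ∈ U, ((f t : ℝ) : ℂ) * ex ((t : ℝ) * θ)‖ ^ 2 =
      ∑ x ∈ U, ∑ y ∈ U, if x = y then f x * f y else 0 := hs
  rw [hs2]
  have hdiag : ∑ x ∈ U, ∑ y ∈ U, (if x = y then f x * f y else 0) = ∑ x ∈ U, f x ^ 2 := by
    apply Finset.sum_congr rfl
    intro x hx
    rw [Finset.sum_ite_eq U x (fun y => f x * f y), if_pos hx]
    ring
  rw [hdiag]
  exact Finset.sum_le_sum_of_subset_of_nonneg hTU (fun t _ _ => sq_nonneg _)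

end Pool.Agent.SP80
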