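import Mathlib
import Pool.Agent.Lib.MP_1e1427_nt.SP.Stm

/-!
Project SP: assembly of the circle method (`SV2`).
-/

namespace Pool.Agent.SP80

open Finset MeasureTheory

lemma v2_cont_ex : Continuous ex := by
  unfold ex
  fun_prop

lemma v2_cont_WS (b g j0 H : ℕ) : Continuous (WS b g j0 H) := by
  unfold WS
  refine continuous_finsetSum _ fun j _ => ?_
  exact v2_cont_ex.comp (by fun_prop)

lemma v2_cont_SS (w : ℕ → ℝ) (I : ℕ) (P : ℕ → ℕ) : Continuous (SS w I P) := by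
  unfold SS
  refine continuous_finsetSum _ fun j _ => ?_
  exact continuous_const.mul (v2_cont_ex.comp (by fun_prop))

lemma v2_cont_phi (L : ℕ) : Continuous (phi L) := by
  unfold phi
  refine Continuous.div_const ?_ _
  refine continuous_finsetSum _ fun j _ => ?_
  exact v2_cont_ex.comp (by fun_prop)

lemma v2_cont_Phi (w : ℕ → ℝ) (I α γ c d g j0 H L : ℕ) :
    Continuous (Phi w I α γ c d g j0 H L) := by
  unfold Phi
  have h1 := v2_cont_SS w I (qd α γ)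
  have h2 := v2_cont_WS c g j0 H
  have h3 := v2_cont_WS d g j0 H
  have h4 := v2_cont_phi L
  fun_prop

lemma v2_norm_ex (x : ℝ) : ‖ex x‖ = 1 := by
  unfold ex
  exact Complex.norm_exp_ofReal_mul_I _

lemma v2_SS_le (w : ℕ → ℝ) (hw : ∀ i, 0 ≤ w i) (I : ℕ) (P : ℕ → ℕ) (θ : ℝ) :
    ‖SS w I P θ‖ ≤ ∑ i ∈ range I, w i := by
  unfold SS
  refine (norm_sum_le _ _).trans (Finset.sum_le_sum fun i _ => ?_)
  rw [norm_mul, v2_norm_ex, mul_one, Complex.norm_real, Real.norm_of_nonneg (hw i)]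

lemma v2_mb_nonneg {H κ : ℝ} (hH : 0 ≤ H) (hκ : 0 ≤ κ) (β : ℝ) : 0 ≤ mb H κ β := by
  unfold mb
  split_ifs
  · exact hH
  · exact le_min hH (by positivity)

lemma v2_mb_le {H κ : ℝ} (β : ℝ) : mb H κ β ≤ H := by
  unfold mb
  split_ifs
  · exact le_rfl
  · exact min_le_left _ _

lemma v2_mb_neg (H κ β : ℝ) : mb H κ (-β) = mb H κ β := by
  unfold mb
  simp [abs_neg]

lemma v2_mb_meas (H κ : ℝ) : Measurable (mb H κ) := by
  unfold mb
  refine Measurable.ite (measurableSet_singleton 0) measurable_const ?_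
  exact measurable_const.min (by fun_prop)

lemma v2_mb_int {H κ : ℝ} (hH : 0 ≤ H) (hκ : 0 ≤ κ) (a b : ℝ) :
    IntervalIntegrable (fun β => mb H κ β ^ 4) volume a b := by
  refine (intervalIntegrable_const (c := H ^ 4)).mono_fun
    ((v2_mb_meas H κ).pow_const 4).aestronglyMeasurable ?_
  refine Filter.Eventually.of_forall fun β => ?_
  show ‖mb H κ β ^ 4‖ ≤ ‖H ^ 4‖
  rw [Real.norm_of_nonneg (by have := v2_mb_nonneg hH hκ β; positivity),
    Real.norm_of_nonneg (by positivity)]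
  exact pow_le_pow_left₀ (v2_mb_nonneg hH hκ β) (v2_mb_le β) 4

lemma v2_prod {x y m E r : ℝ} (hx : 0 ≤ x) (hy : 0 ≤ y) (hm : 0 ≤ m) (_hE : 0 ≤ E) (hr : 0 < r)
    (h1 : x ≤ m / Real.sqrt r + E) (h2 : y ≤ m / Real.sqrt r + E) :
    x ^ 2 * y ^ 2 ≤ 8 * (m ^ 4 / r ^ 2 + E ^ 4) := by
  set s := m / Real.sqrt r with hs
  have hs0 : 0 ≤ s := by positivity
  have hs4 : s ^ 4 = m ^ 4 / r ^ 2 := by
    rw [hs, div_pow]
    congr 1
    have : Real.sqrt r ^ 4 = (Real.sqrt r ^ 2) ^ 2 := by ring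
    rw [this, Real.sq_sqrt hr.le]
  rw [← hs4]
  have h3 : x ^ 2 ≤ (s + E) ^ 2 := pow_le_pow_left₀ hx h1 2
  have h4 : y ^ 2 ≤ (s + E) ^ 2 := pow_le_pow_left₀ hy h2 2
  calc x ^ 2 * y ^ 2 ≤ (s + E) ^ 2 * (s + E) ^ 2 := by gcongr
    _ ≤ 8 * (s ^ 4 + E ^ 4) := by
      nlinarith [sq_nonneg (s - E), sq_nonneg (s ^ 2 - E ^ 2), mul_nonneg hs0 _hE,
        sq_nonneg (s * (s - E)), sq_nonneg (E * (s - E)), sq_nonneg (s + E),
        mul_nonneg (mul_nonneg hs0 _hE) (sq_nonneg (s - E))]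

/-- the error term -/
lemma v2_err {c d g H K Q r b : ℕ} {E β : ℝ} (hr : 0 < r) (hrK : r ≤ K) (hQ : 0 < Q)
    (hb : b ≤ c + d) (hβ : |β| ≤ 1 / ((r : ℝ) * Q))
    (hE : 3 * (K : ℝ) + 13 * H * ((c : ℝ) + d + 8 * g * H) / Q ≤ E) :
    r * (3 + 4 * Real.pi * |β| * H * ((b : ℝ) + 8 * g * H)) ≤ E := by
  refine le_trans ?_ hE
  have hr0 : (0 : ℝ) < r := by exact_mod_cast hr
  have hQ0 : (0 : ℝ) < Q := by exact_mod_cast hQ
  have hrK' : (r : ℝ) ≤ K := by exact_mod_cast hrK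
  have hb' : (b : ℝ) ≤ c + d := by exact_mod_cast hb
  have h1 : (r : ℝ) * |β| ≤ 1 / Q := by
    calc (r : ℝ) * |β| ≤ r * (1 / ((r : ℝ) * Q)) := by gcongr
      _ = 1 / Q := by field_simp
  have hpi : 4 * Real.pi ≤ 13 := by
    have := Real.pi_lt_d2
    linarith
  have h2 : 4 * Real.pi * (H * ((b : ℝ) + 8 * g * H)) * ((r : ℝ) * |β|) ≤
      13 * (H * ((c : ℝ) + d + 8 * g * H)) * (1 / Q) := by
    gcongr
  calc (r : ℝ) * (3 + 4 * Real.pi * |β| * H * ((b : ℝ) + 8 * g * H))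
      = 3 * r + 4 * Real.pi * (H * ((b : ℝ) + 8 * g * H)) * ((r : ℝ) * |β|) := by ring
    _ ≤ 3 * K + 13 * (H * ((c : ℝ) + d + 8 * g * H)) * (1 / Q) := by gcongr
    _ = 3 * (K : ℝ) + 13 * H * ((c : ℝ) + d + 8 * g * H) / Q := by ring

/-- pointwise bound on a major arc, up to the factor of `‖1 - phi‖` -/
lemma v2_point (m4 : SM4) (w : ℕ → ℝ) {α γ c d g H L K Q r : ℕ} {a : ℤ} {E β : ℝ}
    (hr : 0 < r) (hrK : r ≤ K) (hQ : 0 < Q) (hβ : |β| ≤ 1 / ((r : ℝ) * Q))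
    (hg : 1 ≤ g) (hH : 1 ≤ H) (hcop : Nat.Coprime (2 * g) r) (ha : IsCoprime a (r : ℤ))
    (hE0 : 0 ≤ E) (hE : 3 * (K : ℝ) + 13 * H * ((c : ℝ) + d + 8 * g * H) / Q ≤ E) :
    Phi w (20 * H) α γ c d g (3 * H) H L ((a : ℝ) / r + β) ≤
      ‖SS w (20 * H) (qd α γ) ((a : ℝ) / r + β)‖ ^ 2 *
        (8 * (mb H (6 * g * H) β ^ 4 / (r : ℝ) ^ 2 + E ^ 4)) *
        ‖1 - phi L ((a : ℝ) / r + β)‖ ^ 2 := by
  have hc := (m4 c g H r a β hr hg hH hcop ha).trans
    (add_le_add le_rfl (v2_err (b := c) hr hrK hQ (by omega) hβ hE))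
  have hd := (m4 d g H r a β hr hg hH hcop ha).trans
    (add_le_add le_rfl (v2_err (b := d) hr hrK hQ (by omega) hβ hE))
  have hmb : 0 ≤ mb (H : ℝ) (6 * g * H) β := v2_mb_nonneg (by positivity) (by positivity) β
  have hp := v2_prod (norm_nonneg _) (norm_nonneg _) hmb hE0 (by exact_mod_cast hr) hc hd
  unfold Phi
  calc (‖SS w (20 * H) (qd α γ) ((a : ℝ) / r + β)‖ * ‖WS c g (3 * H) H ((a : ℝ) / r + β)‖ *
        ‖WS d g (3 * H) H ((a : ℝ) / r + β)‖ * ‖1 - phi L ((a : ℝ) / r + β)‖) ^ 2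
      = ‖SS w (20 * H) (qd α γ) ((a : ℝ) / r + β)‖ ^ 2 *
          (‖WS c g (3 * H) H ((a : ℝ) / r + β)‖ ^ 2 * ‖WS d g (3 * H) H ((a : ℝ) / r + β)‖ ^ 2) *
          ‖1 - phi L ((a : ℝ) / r + β)‖ ^ 2 := by ring
    _ ≤ _ := by gcongr

lemma v2_phi_sq (fl : SFL) (L : ℕ) (θ : ℝ) : ‖1 - phi L θ‖ ^ 2 ≤ 4 := by
  have h := (fl L θ).1
  have h0 := norm_nonneg (1 - phi L θ)
  nlinarith

/-- major arcs with `r ≥ 2` -/
lemma v2_major (m4 : SM4) (a1 : SA1) (a2 : SA2) (fl : SFL) (oi : SOI)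
    (w : ℕ → ℝ) {α γ c d g H L K Q r : ℕ} {E D : ℝ} (hw : ∀ i, 0 ≤ w i)
    (hr : 2 ≤ r) (hrK : r ≤ K) (hQ : 0 < Q) (hg : 1 ≤ g) (hH : 1 ≤ H)
    (hcop : Nat.Coprime (2 * g) r) (hγ : Nat.Coprime (2 * γ) r)
    (hD : ∀ e < r, ∑ i ∈ (range (20 * H)).filter (fun i => i % r = e), w i ≤ D)
    (hE0 : 0 ≤ E) (hE : 3 * (K : ℝ) + 13 * H * ((c : ℝ) + d + 8 * g * H) / Q ≤ E) :
    ∑ a ∈ (range (r + 1)).filter (fun a => Nat.Coprime a r),
      ∫ β in (-(1 / ((r : ℝ) * Q)))..(1 / ((r : ℝ) * Q)),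
        Phi w (20 * H) α γ c d g (3 * H) H L ((a : ℝ) / r + β) ≤
      32 * ((r.divisors.card : ℝ) * D ^ 2) * ((H : ℝ) ^ 2 / (6 * g)) +
        64 * E ^ 4 * ((r : ℝ) * r.divisors.card * D ^ 2) / Q := by
  have hr0 : 0 < r := by omega
  have hr0' : (0 : ℝ) < r := by exact_mod_cast hr0
  have hQ0' : (0 : ℝ) < Q := by exact_mod_cast hQ
  have hH0' : (0 : ℝ) < H := by exact_mod_cast hH
  have hg0' : (0 : ℝ) < g := by exact_mod_cast hg
  set X : ℝ := 1 / ((r : ℝ) * Q) with hX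
  have hX0 : 0 < X := by positivity
  have hcf := v2_cont_Phi w (20 * H) α γ c d g (3 * H) H L
  rw [← intervalIntegral.integral_finsetSum (fun a _ => by
    apply Continuous.intervalIntegrable
    exact hcf.comp (by fun_prop))]
  set τ : ℝ := (r.divisors.card : ℝ) with hτ
  have hτ0 : 0 ≤ τ := by positivity
  -- pointwise bound
  have hpt : ∀ β ∈ Set.Icc (-X) X,
      ∑ a ∈ (range (r + 1)).filter (fun a => Nat.Coprime a r),
        Phi w (20 * H) α γ c d g (3 * H) H L ((a : ℝ) / r + β) ≤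
      (32 * (τ * D ^ 2)) * mb H (6 * g * H) β ^ 4 + 32 * E ^ 4 * ((r : ℝ) ^ 2 * τ * D ^ 2) := by
    intro β hβ
    have hβ' : |β| ≤ X := abs_le.2 hβ
    have hmb : 0 ≤ mb (H : ℝ) (6 * g * H) β := v2_mb_nonneg (by positivity) (by positivity) β
    have h1 : ∀ a ∈ (range (r + 1)).filter (fun a => Nat.Coprime a r),
        Phi w (20 * H) α γ c d g (3 * H) H L ((a : ℝ) / r + β) ≤
        ‖SS w (20 * H) (qd α γ) ((a : ℝ) / r + β)‖ ^ 2 *
          (32 * (mb H (6 * g * H) β ^ 4 / (r : ℝ) ^ 2 + E ^ 4)) := by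
      intro a ha
      rw [mem_filter, mem_range] at ha
      have hp := v2_point (α := α) (γ := γ) (L := L) (a := (a : ℤ)) m4 w hr0 hrK hQ hβ' hg hH hcop
        (by rw [Nat.isCoprime_iff_coprime]; exact ha.2) hE0 hE
      rw [Int.cast_natCast] at hp
      refine hp.trans ?_
      have h4 := v2_phi_sq fl L ((a : ℝ) / r + β)
      calc ‖SS w (20 * H) (qd α γ) ((a : ℝ) / r + β)‖ ^ 2 *
            (8 * (mb H (6 * g * H) β ^ 4 / (r : ℝ) ^ 2 + E ^ 4)) * ‖1 - phi L ((a : ℝ) / r + β)‖ ^ 2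
          ≤ ‖SS w (20 * H) (qd α γ) ((a : ℝ) / r + β)‖ ^ 2 *
            (8 * (mb H (6 * g * H) β ^ 4 / (r : ℝ) ^ 2 + E ^ 4)) * 4 := by gcongr
        _ = _ := by ring
    refine (Finset.sum_le_sum h1).trans ?_
    rw [← Finset.sum_mul]
    have hsub : (range (r + 1)).filter (fun a => Nat.Coprime a r) ⊆ range r := by
      intro a ha
      rw [mem_filter, mem_range] at ha
      rw [mem_range]
      rcases Nat.lt_or_ge a r with h | h
      · exact h
      · have : a = r := by omega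
        subst this
        have := ha.2
        rw [Nat.coprime_self] at this
        omega
    have h2 : ∑ a ∈ (range (r + 1)).filter (fun a => Nat.Coprime a r),
        ‖SS w (20 * H) (qd α γ) ((a : ℝ) / r + β)‖ ^ 2 ≤ r * (τ * r * D ^ 2) := by
      refine (Finset.sum_le_sum_of_subset_of_nonneg hsub (fun _ _ _ => by positivity)).trans ?_
      refine (a1 w (20 * H) (qd α γ) r β hr0 hw).trans ?_
      exact mul_le_mul_of_nonneg_left (a2 w (20 * H) α γ r D hr0 hγ hw hD) hr0'.le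
    refine (mul_le_mul_of_nonneg_right h2 (by positivity)).trans (le_of_eq ?_)
    field_simp
  have hint : IntervalIntegrable (fun β => (32 * (τ * D ^ 2)) * mb H (6 * g * H) β ^ 4 +
      32 * E ^ 4 * ((r : ℝ) ^ 2 * τ * D ^ 2)) volume (-X) X :=
    ((v2_mb_int (by positivity) (by positivity) _ _).const_mul _).add intervalIntegrable_const
  have hcont : Continuous (fun β => ∑ a ∈ (range (r + 1)).filter (fun a => Nat.Coprime a r),
        Phi w (20 * H) α γ c d g (3 * H) H L ((a : ℝ) / r + β)) :=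
    continuous_finsetSum _ fun a _ => hcf.comp (by fun_prop)
  refine (intervalIntegral.integral_mono_on (by linarith) (hcont.intervalIntegrable _ _) hint
    hpt).trans ?_
  rw [intervalIntegral.integral_add ((v2_mb_int (by positivity) (by positivity) _ _).const_mul _)
    intervalIntegrable_const, intervalIntegral.integral_const_mul, intervalIntegral.integral_const,
    smul_eq_mul]
  have hoi := (oi H (6 * g * H) X hH0' (by positivity) hX0.le).1
  have e1 : (H : ℝ) ^ 3 / (6 * g * H) = (H : ℝ) ^ 2 / (6 * g) := by field_simp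
  rw [e1] at hoi
  have e2 : (X - -X) * (32 * E ^ 4 * ((r : ℝ) ^ 2 * τ * D ^ 2)) =
      64 * E ^ 4 * ((r : ℝ) * τ * D ^ 2) / Q := by
    rw [hX]; field_simp; ring
  rw [e2]
  gcongr

/-- the two arcs with `r = 1` -/
lemma v2_one (m4 : SM4) (fl : SFL) (oi : SOI)
    (w : ℕ → ℝ) {α γ c d g H L K Q : ℕ} {E Ω b1 : ℝ} (hw : ∀ i, 0 ≤ w i)
    (hK : 1 ≤ K) (hQ : 0 < Q) (hg : 1 ≤ g) (hH : 1 ≤ H)
    (hΩ : Ω = ∑ i ∈ range (20 * H), w i) (hb1 : 0 < b1) (hb1Q : b1 * Q ≤ 1)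
    (hE0 : 0 ≤ E) (hE : 3 * (K : ℝ) + 13 * H * ((c : ℝ) + d + 8 * g * H) / Q ≤ E) (a : ℕ)
    (ha : a = 0 ∨ a = 1) :
    ∫ β in (-(1 / (((1 : ℕ) : ℝ) * Q)))..(1 / (((1 : ℕ) : ℝ) * Q)),
        Phi w (20 * H) α γ c d g (3 * H) H L ((a : ℝ) / ((1 : ℕ) : ℝ) + β) ≤
      Ω ^ 2 * (4 / 3 * (2 * Real.pi * L * b1) ^ 2 * ((H : ℝ) ^ 2 / g) +
        64 / ((6 * (g : ℝ) * H) ^ 4 * b1 ^ 3) + 64 * E ^ 4 / Q) := by
  have hQ0' : (0 : ℝ) < Q := by exact_mod_cast hQ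
  have hH0' : (0 : ℝ) < H := by exact_mod_cast hH
  have hg0' : (0 : ℝ) < g := by exact_mod_cast hg
  set X : ℝ := 1 / (((1 : ℕ) : ℝ) * Q) with hX
  have hX0 : 0 < X := by positivity
  have hXQ : X = 1 / Q := by rw [hX]; simp
  have hb1X : b1 ≤ X := by
    rw [hXQ, le_div_iff₀ hQ0']; exact hb1Q
  have hΩ0 : 0 ≤ Ω := by rw [hΩ]; exact Finset.sum_nonneg fun i _ => hw i
  have hcf := v2_cont_Phi w (20 * H) α γ c d g (3 * H) H L
  set f : ℝ → ℝ := fun β => Phi w (20 * H) α γ c d g (3 * H) H L ((a : ℝ) / ((1 : ℕ) : ℝ) + β) with hf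
  have hfc : Continuous f := hcf.comp (by fun_prop)
  have hphi : ∀ β : ℝ, phi L ((a : ℝ) / ((1 : ℕ) : ℝ) + β) = phi L β := by
    intro β
    rcases ha with rfl | rfl
    · simp
    · have := (fl L β).2.2
      rw [← this]
      congr 1
      push_cast
      ring
  set m : ℝ → ℝ := mb (H : ℝ) (6 * g * H) with hm
  have hm0 : ∀ β, 0 ≤ m β := fun β => v2_mb_nonneg (by positivity) (by positivity) β
  -- basic pointwise bound
  have hpt : ∀ β, |β| ≤ X → f β ≤ Ω ^ 2 * (8 * (m β ^ 4 + E ^ 4)) * ‖1 - phi L β‖ ^ 2 := by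
    intro β hβ
    have hp := v2_point (α := α) (γ := γ) (L := L) (a := (a : ℤ)) (r := 1) m4 w one_pos hK hQ hβ hg hH
      (Nat.coprime_one_right _) (by
        rw [Nat.cast_one]; exact isCoprime_one_right) hE0 hE
    rw [Int.cast_natCast, hphi] at hp
    refine hp.trans ?_
    have hS := v2_SS_le w hw (20 * H) (qd α γ) ((a : ℝ) / ((1 : ℕ) : ℝ) + β)
    rw [← hΩ] at hS
    have hmm := hm0 β
    have e1 : (((1 : ℕ) : ℝ)) ^ 2 = 1 := by norm_num
    rw [e1, div_one]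
    gcongr
  have hinner : ∀ β ∈ Set.Icc (-b1) b1, f β ≤
      (8 * Ω ^ 2 * (2 * Real.pi * L * b1) ^ 2) * m β ^ 4 + 32 * Ω ^ 2 * E ^ 4 := by
    intro β hβ
    have hβ' : |β| ≤ b1 := abs_le.2 hβ
    have hmm := hm0 β
    have h1 : ‖1 - phi L β‖ ^ 2 ≤ (2 * Real.pi * L * b1) ^ 2 := by
      refine pow_le_pow_left₀ (norm_nonneg _) ((fl L β).2.1.trans ?_) 2
      gcongr
    have h4 := v2_phi_sq fl L β
    calc f β ≤ Ω ^ 2 * (8 * (m β ^ 4 + E ^ 4)) * ‖1 - phi L β‖ ^ 2 := hpt β (hβ'.trans hb1X)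
      _ = 8 * Ω ^ 2 * m β ^ 4 * ‖1 - phi L β‖ ^ 2 + 8 * Ω ^ 2 * E ^ 4 * ‖1 - phi L β‖ ^ 2 := by ring
      _ ≤ 8 * Ω ^ 2 * m β ^ 4 * (2 * Real.pi * L * b1) ^ 2 + 8 * Ω ^ 2 * E ^ 4 * 4 := by gcongr
      _ = _ := by ring
  have houter : ∀ β, |β| ≤ X → f β ≤ (32 * Ω ^ 2) * m β ^ 4 + 32 * Ω ^ 2 * E ^ 4 := by
    intro β hβ'
    have hmm := hm0 β
    have h4 := v2_phi_sq fl L β
    calc f β ≤ Ω ^ 2 * (8 * (m β ^ 4 + E ^ 4)) * ‖1 - phi L β‖ ^ 2 := hpt β hβ'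
      _ ≤ Ω ^ 2 * (8 * (m β ^ 4 + E ^ 4)) * 4 := by gcongr
      _ = _ := by ring
  have hmi : ∀ a b : ℝ, IntervalIntegrable (fun β => m β ^ 4) volume a b :=
    fun a b => v2_mb_int (by positivity) (by positivity) a b
  have hfi : ∀ a b : ℝ, IntervalIntegrable f volume a b := fun a b => hfc.intervalIntegrable _ _
  have hoi1 := (oi H (6 * g * H) b1 hH0' (by positivity) hb1.le).1
  have hoi2 := (oi H (6 * g * H) X hH0' (by positivity) hX0.le).2 b1 hb1 hb1X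
  have e1 : (H : ℝ) ^ 3 / (6 * g * H) = (H : ℝ) ^ 2 / (6 * g) := by field_simp
  rw [e1] at hoi1
  -- three intervals
  have I1 : ∫ β in (-b1)..b1, f β ≤
      (8 * Ω ^ 2 * (2 * Real.pi * L * b1) ^ 2) * ((H : ℝ) ^ 2 / (6 * g)) +
        (b1 - -b1) * (32 * Ω ^ 2 * E ^ 4) := by
    refine (intervalIntegral.integral_mono_on (by linarith) (hfi _ _)
      (((hmi _ _).const_mul _).add intervalIntegrable_const) hinner).trans ?_
    rw [intervalIntegral.integral_add ((hmi _ _).const_mul _) intervalIntegrable_const,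
      intervalIntegral.integral_const_mul, intervalIntegral.integral_const, smul_eq_mul]
    gcongr
  have I2 : ∫ β in b1..X, f β ≤ (32 * Ω ^ 2) * (1 / ((6 * g * H) ^ 4 * b1 ^ 3)) +
        (X - b1) * (32 * Ω ^ 2 * E ^ 4) := by
    refine (intervalIntegral.integral_mono_on hb1X (hfi _ _)
      (((hmi _ _).const_mul _).add intervalIntegrable_const) (fun β hβ => houter β (by
        rw [abs_of_nonneg (by linarith [hβ.1])]; exact hβ.2))).trans ?_
    rw [intervalIntegral.integral_add ((hmi _ _).const_mul _) intervalIntegrable_const,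
      intervalIntegral.integral_const_mul, intervalIntegral.integral_const, smul_eq_mul]
    gcongr
  have I3 : ∫ β in (-X)..(-b1), f β ≤ (32 * Ω ^ 2) * (1 / ((6 * g * H) ^ 4 * b1 ^ 3)) +
        (X - b1) * (32 * Ω ^ 2 * E ^ 4) := by
    have h := intervalIntegral.integral_mono_on (a := -X) (b := -b1) (by linarith) (hfi _ _)
      (((hmi _ _).const_mul (32 * Ω ^ 2)).add (intervalIntegrable_const (c := 32 * Ω ^ 2 * E ^ 4)))
      (fun β hβ => houter β (by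
        rw [abs_of_nonpos (by linarith [hβ.2])]; linarith [hβ.1]))
    refine h.trans ?_
    rw [intervalIntegral.integral_add ((hmi _ _).const_mul _) intervalIntegrable_const,
      intervalIntegral.integral_const_mul, intervalIntegral.integral_const, smul_eq_mul]
    have e3 : ∫ β in (-X)..(-b1), m β ^ 4 = ∫ β in b1..X, m β ^ 4 := by
      rw [← intervalIntegral.integral_comp_neg]
      refine intervalIntegral.integral_congr fun β _ => ?_
      show m (-β) ^ 4 = m β ^ 4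
      rw [hm, v2_mb_neg]
    rw [e3]
    have e4 : (-b1 - -X) = X - b1 := by ring
    rw [e4]
    gcongr
  have hsplit : ∫ β in (-X)..X, f β = (∫ β in (-X)..(-b1), f β) + (∫ β in (-b1)..b1, f β) +
      ∫ β in b1..X, f β := by
    rw [intervalIntegral.integral_add_adjacent_intervals (hfi _ _) (hfi _ _),
      intervalIntegral.integral_add_adjacent_intervals (hfi _ _) (hfi _ _)]
  rw [hsplit]
  refine (add_le_add (add_le_add I3 I1) I2).trans (le_of_eq ?_)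
  rw [hXQ]
  field_simp
  ring

theorem sv2 (w4 : SW4) (m4 : SM4) (m5 : SM5) (a1 : SA1) (a2 : SA2) (mo : SMom) (v1 : SV1)
    (fl : SFL) (oi : SOI) (d1 : SD1) : SV2 := by
  intro w I α γ c d g H L K Q W Ω E Bs b1 T hw hW hI hH hg h2g hK hQ hc hγ hΩ hcl hE hEB hB hb1 hb1Q
  subst hI
  have hQ0' : (0 : ℝ) < Q := by exact_mod_cast hQ
  have hH0' : (0 : ℝ) < H := by exact_mod_cast hH
  have hg0' : (0 : ℝ) < g := by exact_mod_cast hg
  have hE0 : 0 ≤ E := le_trans (by positivity) hE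
  have hBs : 0 ≤ Bs := (sq_nonneg E).trans hEB
  have hΩ0 : 0 ≤ Ω := by rw [hΩ]; exact Finset.sum_nonneg fun i _ => hw i
  set f : ℝ → ℝ := Phi w (20 * H) α γ c d g (3 * H) H L with hf
  set G : ℝ → ℝ := fun θ => (‖SS w (20 * H) (qd α γ) θ‖ * ‖WS d g (3 * H) H θ‖) ^ 2 with hG
  set R2 : Finset ℕ := (Icc 2 K).filter (fun r => Nat.Coprime r g) with hR2
  have h1R2 : 1 ∉ R2 := by rw [hR2, mem_filter, mem_Icc]; omega
  have hfc : Continuous f := v2_cont_Phi _ _ _ _ _ _ _ _ _ _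
  have hGc : Continuous G := by
    have h1 := v2_cont_SS w (20 * H) (qd α γ)
    have h3 := v2_cont_WS d g (3 * H) H
    rw [hG]
    fun_prop
  have hodd : ∀ r, Nat.Coprime r g → Nat.Coprime (2 * g) r := by
    intro r hr
    refine Nat.Coprime.mul_left ?_ hr.symm
    exact (Nat.Coprime.coprime_dvd_right h2g hr).symm
  have key := d1 f G (insert 1 R2) Q (4 * Bs) hfc hGc (fun x => by rw [hf]; unfold Phi; positivity)
    (fun x => by rw [hG]; positivity) (by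
      intro r hr
      rw [mem_insert] at hr
      rcases hr with rfl | hr
      · exact one_pos
      · rw [hR2, mem_filter, mem_Icc] at hr; omega) hQ (by positivity) (by
    -- minor arcs
    intro θ _ a r hr0 hrQ hrR hcop hθ
    have hr0' : (0 : ℝ) < r := by exact_mod_cast hr0
    have hWc : ‖WS c g (3 * H) H θ‖ ^ 2 ≤ Bs := by
      rcases Nat.lt_or_ge K r with hKr | hrK
      · refine (w4 c g (3 * H) H θ a r hr0 hcop (hθ.trans ?_) hg hH).trans (hB r hKr hrQ)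
        have h1 : (r : ℝ) ≤ Q := by exact_mod_cast hrQ
        apply one_div_le_one_div_of_le (by positivity)
        nlinarith
      · have hng : ¬ Nat.Coprime r g := by
          intro hh
          apply hrR
          rw [mem_insert, hR2, mem_filter, mem_Icc]
          rcases Nat.lt_or_ge 1 r with h | h
          · exact Or.inr ⟨⟨h, hrK⟩, hh⟩
          · left; omega
        obtain ⟨p, hp, hpr, hpg⟩ := Nat.Prime.not_coprime_iff_dvd.1 hng
        have h5 := m5 c g H r p a (θ - a / r) hr0 hp hpr hpg (hc p hp hpg) hcop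
        rw [show (a : ℝ) / r + (θ - a / r) = θ by ring] at h5
        have hβ : |θ - a / r| ≤ 1 / ((r : ℝ) * Q) := by
          refine hθ.trans (one_div_le_one_div_of_le (by positivity) ?_)
          nlinarith
        have h6 := h5.trans (v2_err (b := c) hr0 hrK hQ (by omega) hβ hE)
        exact (pow_le_pow_left₀ (norm_nonneg _) h6 2).trans hEB
    have h4 := v2_phi_sq fl L θ
    show Phi w (20 * H) α γ c d g (3 * H) H L θ ≤
      4 * Bs * (‖SS w (20 * H) (qd α γ) θ‖ * ‖WS d g (3 * H) H θ‖) ^ 2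
    unfold Phi
    calc (‖SS w (20 * H) (qd α γ) θ‖ * ‖WS c g (3 * H) H θ‖ * ‖WS d g (3 * H) H θ‖ *
          ‖1 - phi L θ‖) ^ 2
        = (‖SS w (20 * H) (qd α γ) θ‖ * ‖WS d g (3 * H) H θ‖) ^ 2 * ‖WS c g (3 * H) H θ‖ ^ 2 *
            ‖1 - phi L θ‖ ^ 2 := by ring
      _ ≤ (‖SS w (20 * H) (qd α γ) θ‖ * ‖WS d g (3 * H) H θ‖) ^ 2 * Bs * 4 := by gcongr
      _ = _ := by ring)
  have hv := v1 w (20 * H) α γ c d g (3 * H) H L T
  have hGi := mo w (20 * H) α γ d g (3 * H) H (20 * H) W hw hW le_rfl (by omega)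
  rw [Finset.sum_insert h1R2] at key
  -- r = 1
  have hone : ∑ a ∈ (range (1 + 1)).filter (fun a => Nat.Coprime a 1),
      ∫ β in (-(1 / (((1 : ℕ) : ℝ) * Q)))..(1 / (((1 : ℕ) : ℝ) * Q)),
        f ((a : ℝ) / ((1 : ℕ) : ℝ) + β) ≤
      Ω ^ 2 * (8 / 3 * (2 * Real.pi * L * b1) ^ 2 * ((H : ℝ) ^ 2 / g) +
        128 / ((6 * (g : ℝ) * H) ^ 4 * b1 ^ 3) + 128 * E ^ 4 / Q) := by
    have hs : (range (1 + 1)).filter (fun a => Nat.Coprime a 1) = {0, 1} := by decide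
    rw [hs, Finset.sum_pair (by norm_num)]
    have h0 := v2_one (α := α) (γ := γ) (L := L) m4 fl oi w hw hK hQ hg hH hΩ hb1 hb1Q hE0 hE 0
      (Or.inl rfl)
    have h1 := v2_one (α := α) (γ := γ) (L := L) m4 fl oi w hw hK hQ hg hH hΩ hb1 hb1Q hE0 hE 1
      (Or.inr rfl)
    refine (add_le_add h0 h1).trans (le_of_eq ?_)
    ring
  have hmaj : ∀ r ∈ R2, ∑ a ∈ (range (r + 1)).filter (fun a => Nat.Coprime a r),
      ∫ β in (-(1 / ((r : ℝ) * Q)))..(1 / ((r : ℝ) * Q)), f ((a : ℝ) / r + β) ≤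
      Ω ^ 2 * (22 * ((H : ℝ) ^ 2 / g) * ((r.divisors.card : ℝ) / (Nat.totient r : ℝ) ^ 2) +
        256 * E ^ 4 / Q * ((r : ℝ) * (r.divisors.card : ℝ) / (Nat.totient r : ℝ) ^ 2)) := by
    intro r hr
    rw [hR2, mem_filter, mem_Icc] at hr
    obtain ⟨⟨hr2, hrK⟩, hrg⟩ := hr
    have hφ : (0 : ℝ) < Nat.totient r := by
      exact_mod_cast Nat.totient_pos.2 (by omega)
    have h := v2_major (α := α) (γ := γ) (L := L) (D := 2 * Ω / (Nat.totient r : ℝ)) m4 a1 a2 fl oi w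
      hw hr2 hrK hQ hg hH (hodd r hrg) (hγ r hrg) (hcl r (by omega) hrK hrg) hE0 hE
    refine h.trans ?_
    have e1 : 32 * ((r.divisors.card : ℝ) * (2 * Ω / (Nat.totient r : ℝ)) ^ 2) *
        ((H : ℝ) ^ 2 / (6 * g)) =
        Ω ^ 2 * (64 / 3 * ((H : ℝ) ^ 2 / g) * ((r.divisors.card : ℝ) / (Nat.totient r : ℝ) ^ 2)) := by
      field_simp; ring
    have e2 : 64 * E ^ 4 * ((r : ℝ) * r.divisors.card * (2 * Ω / (Nat.totient r : ℝ)) ^ 2) / Q =
        Ω ^ 2 * (256 * E ^ 4 / Q *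
          ((r : ℝ) * (r.divisors.card : ℝ) / (Nat.totient r : ℝ) ^ 2)) := by
      field_simp; ring
    rw [e1, e2, ← mul_add]
    have h5 : (64 : ℝ) / 3 ≤ 22 := by norm_num
    gcongr
  have hmajs := Finset.sum_le_sum hmaj
  rw [← Finset.mul_sum, Finset.sum_add_distrib, ← Finset.mul_sum, ← Finset.mul_sum] at hmajs
  calc ∑ t ∈ T, (RR w (20 * H) α γ c d g (3 * H) H t - Rav w (20 * H) α γ c d g (3 * H) H L t) ^ 2
      ≤ ∫ θ in (0 : ℝ)..1, f θ := hv
    _ ≤ _ := key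
    _ ≤ 4 * Bs * (W ^ 2 * QC α γ d g (20 * H)) +
        (Ω ^ 2 * (8 / 3 * (2 * Real.pi * L * b1) ^ 2 * ((H : ℝ) ^ 2 / g) +
          128 / ((6 * (g : ℝ) * H) ^ 4 * b1 ^ 3) + 128 * E ^ 4 / Q) +
        Ω ^ 2 * (22 * ((H : ℝ) ^ 2 / g) *
            (∑ r ∈ R2, (r.divisors.card : ℝ) / (Nat.totient r : ℝ) ^ 2) +
          256 * E ^ 4 / Q * (∑ r ∈ R2,
            (r : ℝ) * (r.divisors.card : ℝ) / (Nat.totient r : ℝ) ^ 2))) := by
        refine add_le_add ?_ (add_le_add hone hmajs)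
        exact mul_le_mul_of_nonneg_left hGi (by positivity)
    _ ≤ _ := by
        have h6 : 128 * E ^ 4 / Q ≤ 256 * E ^ 4 / (Q : ℝ) := by
          gcongr
          norm_num
        have h7 : Ω ^ 2 * (128 * E ^ 4 / Q) ≤ Ω ^ 2 * (256 * E ^ 4 / (Q : ℝ)) := by gcongr
        nlinarith [h7]

end Pool.Agent.SP80
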