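import Mathlib
import Pool.Agent.Lib.MP_1e1427_nt.SP.Stm

/-!
Project SP (MP_1e1427_nt): asymptotic evaluation `sv3`.
-/

namespace Pool.Agent.SP80

open Finset MeasureTheory Filter Topology

private lemma v3_log (k : ℕ) (c : ℝ) (hc : 0 < c) :
    ∀ᶠ Z : ℝ in atTop, (Real.log Z) ^ k ≤ c * Z := by
  have h := (Real.isLittleO_pow_log_id_atTop (n := k)).bound hc
  filter_upwards [h, eventually_ge_atTop (1 : ℝ)] with Z hZ h1
  have h0 : 0 ≤ Real.log Z ^ k := pow_nonneg (Real.log_nonneg h1) k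
  simp only [id, Real.norm_eq_abs] at hZ
  rw [abs_of_nonneg h0, abs_of_nonneg (by linarith)] at hZ
  exact hZ

private lemma v3_sum (K : ℕ) (P : ℕ → Prop) [DecidablePred P] :
    ∑ r ∈ (Icc 2 K).filter P, (r : ℝ) * (r.divisors.card : ℝ) / (Nat.totient r : ℝ) ^ 2 ≤
      (K : ℝ) ^ 3 := by
  have h1 : ∀ r ∈ (Icc 2 K).filter P,
      (r : ℝ) * (r.divisors.card : ℝ) / (Nat.totient r : ℝ) ^ 2 ≤ (K : ℝ) ^ 2 := by
    intro r hr
    simp only [Finset.mem_filter, Finset.mem_Icc] at hr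
    obtain ⟨⟨h2, hK⟩, _⟩ := hr
    have hφ : 1 ≤ (Nat.totient r : ℝ) := by
      have : 0 < Nat.totient r := Nat.totient_pos.2 (by omega)
      exact_mod_cast this
    have hτ : (r.divisors.card : ℝ) ≤ r := by exact_mod_cast Nat.card_divisors_le_self r
    have hrK : (r : ℝ) ≤ K := by exact_mod_cast hK
    have hr0 : (0 : ℝ) ≤ r := Nat.cast_nonneg r
    have hφ2 : (1 : ℝ) ≤ (Nat.totient r : ℝ) ^ 2 := one_le_pow₀ hφ
    have h3 : (r : ℝ) * (r.divisors.card : ℝ) ≤ (K : ℝ) ^ 2 := by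
      have h0 : (0 : ℝ) ≤ (r.divisors.card : ℝ) := Nat.cast_nonneg _
      nlinarith
    calc (r : ℝ) * (r.divisors.card : ℝ) / (Nat.totient r : ℝ) ^ 2
        ≤ (r : ℝ) * (r.divisors.card : ℝ) / 1 := by
          apply div_le_div_of_nonneg_left _ one_pos hφ2
          positivity
      _ ≤ (K : ℝ) ^ 2 := by rw [div_one]; exact h3
  calc ∑ r ∈ (Icc 2 K).filter P, (r : ℝ) * (r.divisors.card : ℝ) / (Nat.totient r : ℝ) ^ 2
      ≤ ∑ r ∈ (Icc 2 K).filter P, (K : ℝ) ^ 2 := Finset.sum_le_sum h1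
    _ = (((Icc 2 K).filter P).card : ℝ) * (K : ℝ) ^ 2 := by rw [Finset.sum_const, nsmul_eq_mul]
    _ ≤ (K : ℝ) * (K : ℝ) ^ 2 := by
        have h4 : ((Icc 2 K).filter P).card ≤ K := by
          refine (Finset.card_filter_le _ _).trans ?_
          rw [Nat.card_Icc]; omega
        have h5 : (((Icc 2 K).filter P).card : ℝ) ≤ K := by exact_mod_cast h4
        exact mul_le_mul_of_nonneg_right h5 (by positivity)
    _ = (K : ℝ) ^ 3 := by ring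

private lemma v3_floor {x : ℝ} (hx : 1 ≤ x) : x / 2 ≤ (⌊x⌋₊ : ℝ) := by
  have h1 : 1 ≤ ⌊x⌋₊ := (Nat.one_le_floor_iff x).2 hx
  have h2 : x < ⌊x⌋₊ + 1 := Nat.lt_floor_add_one x
  have h3 : (1 : ℝ) ≤ (⌊x⌋₊ : ℝ) := by exact_mod_cast h1
  linarith

private lemma v3_T1 {C2 C3 c m h l δ Ω z QCv : ℝ} (hC2 : 0 < C2) (hC3 : 0 < C3) (hc : 0 < c)
    (hm : 0 < m) (hh : 0 < h) (hl : 1 ≤ l) (hδ : 0 < δ) (hz : h ≤ z / (10 * m)) (hΩ : c * z ≤ Ω)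
    (hQC : QCv ≤ C3 * (20 * h) ^ 2 * (2 * l) ^ 3)
    (hbig : 512000 * C2 * C3 / (δ * c ^ 2 * m) ≤ l ^ 4) :
    4 * (C2 * h ^ 2 / l ^ 9) * (20 * l) ^ 2 * QCv ≤ δ / 10 * (h ^ 2 * Ω ^ 2 / m) := by
  have hl0 : 0 < l := by linarith
  have h1 : 4 * (C2 * h ^ 2 / l ^ 9) * (20 * l) ^ 2 * QCv ≤
      4 * (C2 * h ^ 2 / l ^ 9) * (20 * l) ^ 2 * (C3 * (20 * h) ^ 2 * (2 * l) ^ 3) :=
    mul_le_mul_of_nonneg_left hQC (by positivity)
  have h2 : 4 * (C2 * h ^ 2 / l ^ 9) * (20 * l) ^ 2 * (C3 * (20 * h) ^ 2 * (2 * l) ^ 3) =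
      5120000 * C2 * C3 * h ^ 4 / l ^ 4 := by
    field_simp
    ring
  have h3 : 5120000 * C2 * C3 * h ^ 4 / l ^ 4 ≤ 10 * δ * c ^ 2 * m * h ^ 4 := by
    rw [div_le_iff₀ (by positivity)] at hbig ⊢
    have h4 : 5120000 * C2 * C3 * h ^ 4 ≤ 10 * (l ^ 4 * (δ * c ^ 2 * m)) * h ^ 4 := by
      have : 5120000 * C2 * C3 ≤ 10 * (l ^ 4 * (δ * c ^ 2 * m)) := by linarith
      exact mul_le_mul_of_nonneg_right this (by positivity)
    calc 5120000 * C2 * C3 * h ^ 4 ≤ 10 * (l ^ 4 * (δ * c ^ 2 * m)) * h ^ 4 := h4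
      _ = 10 * δ * c ^ 2 * m * h ^ 4 * l ^ 4 := by ring
  have h5 : c * (10 * m * h) ≤ Ω := by
    have : 10 * m * h ≤ z := by
      rw [le_div_iff₀ (by positivity)] at hz
      linarith
    exact (mul_le_mul_of_nonneg_left this hc.le).trans hΩ
  have h6 : (c * (10 * m * h)) ^ 2 ≤ Ω ^ 2 := pow_le_pow_left₀ (by positivity) h5 2
  have h7 : 10 * δ * c ^ 2 * m * h ^ 4 = δ / 10 * (h ^ 2 * (c * (10 * m * h)) ^ 2 / m) := by
    field_simp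
  have h8 : δ / 10 * (h ^ 2 * (c * (10 * m * h)) ^ 2 / m) ≤ δ / 10 * (h ^ 2 * Ω ^ 2 / m) := by
    gcongr
  linarith

private lemma v3_T4 {m h δ η B z L ε : ℝ} (hm : 0 < m) (hh : 0 < h) (hη : 0 < η)
    (hη1 : η ≤ 1) (hηδ : η ≤ δ) (hB : 0 < B) (hz : 0 < z) (hzh : z / (20 * m) ≤ h)
    (hε : ε = η / (10 ^ 8 * B)) (hL0 : 0 ≤ L) (hL : L ≤ ε * z ^ 2 / (2 * m)) :
    8 / 3 * (2 * Real.pi * L * (B / (m * h ^ 2))) ^ 2 * (h ^ 2 / (m / 2)) ≤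
      δ / 10 * (h ^ 2 / m) := by
  have hz1 : z ≤ 20 * m * h := by
    rw [div_le_iff₀ (by positivity)] at hzh
    linarith
  have hε0 : 0 < ε := by rw [hε]; positivity
  have h1 : L * (B / (m * h ^ 2)) ≤ 2 * η / 10 ^ 6 := by
    calc L * (B / (m * h ^ 2)) ≤ ε * z ^ 2 / (2 * m) * (B / (m * h ^ 2)) := by
          apply mul_le_mul_of_nonneg_right hL; positivity
      _ ≤ ε * (20 * m * h) ^ 2 / (2 * m) * (B / (m * h ^ 2)) := by gcongr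
      _ = 2 * η / 10 ^ 6 := by
          rw [hε]; field_simp; ring
  have hπ : Real.pi < 4 := Real.pi_lt_four
  have hπ0 : 0 < Real.pi := Real.pi_pos
  have hL1 : 0 ≤ L * (B / (m * h ^ 2)) := by positivity
  have h2 : 2 * Real.pi * L * (B / (m * h ^ 2)) ≤ 16 * η / 10 ^ 6 := by
    calc 2 * Real.pi * L * (B / (m * h ^ 2)) = 2 * Real.pi * (L * (B / (m * h ^ 2))) := by ring
      _ ≤ 2 * 4 * (2 * η / 10 ^ 6) := by gcongr
      _ = 16 * η / 10 ^ 6 := by ring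
  have h3 : (2 * Real.pi * L * (B / (m * h ^ 2))) ^ 2 ≤ (16 * η / 10 ^ 6) ^ 2 :=
    pow_le_pow_left₀ (by positivity) h2 2
  have h4 : (16 * η / 10 ^ 6) ^ 2 ≤ 3 * δ / 160 := by
    have : η ^ 2 ≤ δ := by nlinarith
    nlinarith
  calc 8 / 3 * (2 * Real.pi * L * (B / (m * h ^ 2))) ^ 2 * (h ^ 2 / (m / 2))
      ≤ 8 / 3 * (3 * δ / 160) * (h ^ 2 / (m / 2)) := by
        gcongr
        exact h3.trans h4
    _ = δ / 10 * (h ^ 2 / m) := by field_simp; ring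

private lemma v3_T5 {m h δ B : ℝ} (hm : 0 < m) (hh : 0 < h) (hδ : 0 < δ) (hB : B = 1 + 20 / δ) :
    128 / ((6 * (m / 2) * h) ^ 4 * (B / (m * h ^ 2)) ^ 3) ≤ δ / 10 * (h ^ 2 / m) := by
  have hB0 : 0 < B := by rw [hB]; positivity
  have hB1 : 1 ≤ B := by
    rw [hB]; have : 0 < 20 / δ := by positivity
    linarith
  have h1 : 128 / ((6 * (m / 2) * h) ^ 4 * (B / (m * h ^ 2)) ^ 3) =
      128 / (81 * B ^ 3) * (h ^ 2 / m) := by
    field_simp; ring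
  rw [h1]
  have h2 : 20 / δ ≤ B ^ 3 := by
    calc 20 / δ ≤ B := by rw [hB]; linarith
      _ ≤ B ^ 3 := by nlinarith [mul_pos hB0 hB0]
  have h3 : 128 / (81 * B ^ 3) ≤ δ / 10 := by
    rw [div_le_iff₀ (by positivity)] at h2
    rw [div_le_iff₀ (by positivity)]
    nlinarith
  exact mul_le_mul_of_nonneg_right h3 (by positivity)

private lemma v3_T6 {C1 m h l k q δ S z : ℝ} (hC1 : 0 < C1) (hm : 0 < m) (hh : 0 < h)
    (hl : 1 ≤ l) (hk1 : 1 ≤ k) (hk : k ≤ l ^ 10) (hq : h ^ 2 / (2 * k) ≤ q) (hS0 : 0 ≤ S)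
    (hS : S ≤ k ^ 3) (hδ : 0 < δ) (hz : 1 ≤ z) (hzh : z / (20 * m) ≤ h)
    (hbig : l ^ 80 ≤ δ / (5120 * C1 ^ 4 * m * (20 * m) ^ 4) * z) :
    256 * (C1 * l ^ 10) ^ 4 / q * S + 256 * (C1 * l ^ 10) ^ 4 / q ≤ δ / 5 * (h ^ 2 / m) := by
  have hl0 : 0 < l := by linarith
  have hk0 : 0 < k := by linarith
  have h1 : 256 * (C1 * l ^ 10) ^ 4 / q ≤ 512 * C1 ^ 4 * l ^ 50 / h ^ 2 := by
    calc 256 * (C1 * l ^ 10) ^ 4 / q ≤ 256 * (C1 * l ^ 10) ^ 4 / (h ^ 2 / (2 * k)) := by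
          apply div_le_div_of_nonneg_left _ (by positivity) hq
          positivity
      _ = 512 * C1 ^ 4 * l ^ 40 * k / h ^ 2 := by field_simp; ring
      _ ≤ 512 * C1 ^ 4 * l ^ 40 * l ^ 10 / h ^ 2 := by gcongr
      _ = 512 * C1 ^ 4 * l ^ 50 / h ^ 2 := by ring
  have hk3 : k ^ 3 ≤ l ^ 30 := by
    calc k ^ 3 ≤ (l ^ 10) ^ 3 := pow_le_pow_left₀ hk0.le hk 3
      _ = l ^ 30 := by ring
  have hS1 : S + 1 ≤ 2 * l ^ 30 := by
    have : 1 ≤ l ^ 30 := one_le_pow₀ hl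
    linarith
  have h2 : 256 * (C1 * l ^ 10) ^ 4 / q * S + 256 * (C1 * l ^ 10) ^ 4 / q ≤
      1024 * C1 ^ 4 * l ^ 80 / h ^ 2 := by
    calc 256 * (C1 * l ^ 10) ^ 4 / q * S + 256 * (C1 * l ^ 10) ^ 4 / q
        = 256 * (C1 * l ^ 10) ^ 4 / q * (S + 1) := by ring
      _ ≤ 512 * C1 ^ 4 * l ^ 50 / h ^ 2 * (2 * l ^ 30) := by
          apply mul_le_mul h1 hS1 (by linarith) (by positivity)
      _ = 1024 * C1 ^ 4 * l ^ 80 / h ^ 2 := by ring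
  have h3 : z / (20 * m) ^ 4 ≤ h ^ 4 := by
    calc z / (20 * m) ^ 4 ≤ z ^ 4 / (20 * m) ^ 4 := by
          gcongr
          nlinarith [one_le_pow₀ hz (n := 3), pow_succ z 3]
      _ = (z / (20 * m)) ^ 4 := by rw [div_pow]
      _ ≤ h ^ 4 := pow_le_pow_left₀ (by positivity) hzh 4
  have h4 : l ^ 80 ≤ δ / (5120 * C1 ^ 4 * m) * h ^ 4 := by
    calc l ^ 80 ≤ δ / (5120 * C1 ^ 4 * m * (20 * m) ^ 4) * z := hbig
      _ = δ / (5120 * C1 ^ 4 * m) * (z / (20 * m) ^ 4) := by field_simp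
      _ ≤ δ / (5120 * C1 ^ 4 * m) * h ^ 4 := by gcongr
  refine h2.trans ?_
  calc 1024 * C1 ^ 4 * l ^ 80 / h ^ 2 ≤ 1024 * C1 ^ 4 * (δ / (5120 * C1 ^ 4 * m) * h ^ 4) / h ^ 2 := by
        gcongr
    _ = δ / 5 * (h ^ 2 / m) := by field_simp; ring

theorem sv3 (v2 : SV2) (va : SVa) (vb : SVb) (f : SF) (j1 : SJ1) (j2 : SJ2) (j3 : SJ3) : SV3 := by
  intro M q0 c0 d0 hM h8 h5 hq8 hcop hlt hc0 δ hδ hS
  have hM8 : 8 ≤ M := Nat.le_of_dvd hM h8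
  have hg2 : M = 2 * (M / 2) := by omega
  have hg4 : 2 ∣ M / 2 := by omega
  have hgM : ∀ r : ℕ, Nat.Coprime r (M / 2) → Nat.Coprime r M := by
    intro r hr
    have h2 : Nat.Coprime r 2 := Nat.Coprime.coprime_dvd_right hg4 hr
    rw [hg2]
    exact Nat.Coprime.mul_right h2 hr
  have hγ : ∀ r : ℕ, Nat.Coprime r (M / 2) → Nat.Coprime (2 * (5 * (M / 8))) r := by
    intro r hr
    have hr' := hgM r hr
    have h2 : Nat.Coprime r 2 := Nat.Coprime.coprime_dvd_right hg4 hr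
    have h5' : Nat.Coprime r 5 := Nat.Coprime.coprime_dvd_right h5 hr'
    have h88 : Nat.Coprime r (M / 8) :=
      Nat.Coprime.coprime_dvd_right (Nat.div_dvd_of_dvd h8) hr'
    exact (Nat.Coprime.mul_right h2 (Nat.Coprime.mul_right h5' h88)).symm
  obtain ⟨C1, hC1, vb'⟩ := vb M c0 d0 hM
  obtain ⟨C2, hC2, va'⟩ := va M hM
  obtain ⟨C3, hC3, f'⟩ := f ((5 * q0 + 1) / 4) (5 * (M / 8)) d0 (M / 2) (by omega) (by omega)
  obtain ⟨c, hc, j1'⟩ := j1 M q0 hM hcop hlt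
  have j2' := j2 M q0 10 hM hcop hlt
  have j3' := j3 M q0 hM
  obtain ⟨B, hB⟩ : ∃ B : ℝ, B = 1 + 20 / δ := ⟨_, rfl⟩
  have hB0 : 0 < B := by rw [hB]; positivity
  have hB1 : 1 ≤ B := by
    rw [hB]; have : 0 < 20 / δ := by positivity
    linarith
  obtain ⟨η, hη⟩ : ∃ η : ℝ, η = min 1 δ := ⟨_, rfl⟩
  have hη0 : 0 < η := by rw [hη]; exact lt_min one_pos hδ
  have hη1 : η ≤ 1 := by rw [hη]; exact min_le_left _ _
  have hηδ : η ≤ δ := by rw [hη]; exact min_le_right _ _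
  obtain ⟨ε, hε⟩ : ∃ ε : ℝ, ε = η / (10 ^ 8 * B) := ⟨_, rfl⟩
  have hε0 : 0 < ε := by rw [hε]; positivity
  have hε1 : ε ≤ 1 / 100 := by
    rw [hε, div_le_iff₀ (by positivity)]
    nlinarith
  refine ⟨ε, hε0, hε1, ?_⟩
  have hm : (0 : ℝ) < (M : ℝ) := by exact_mod_cast hM
  have hm8 : (8 : ℝ) ≤ (M : ℝ) := by exact_mod_cast hM8
  have hgr : ((M / 2 : ℕ) : ℝ) = (M : ℝ) / 2 := by
    have : ((M : ℕ) : ℝ) = 2 * ((M / 2 : ℕ) : ℝ) := by exact_mod_cast hg2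
    linarith
  have hlog : Tendsto Real.log atTop atTop := Real.tendsto_log_atTop
  filter_upwards [vb', va', j1', j2', j3', eventually_ge_atTop (1 : ℝ),
    eventually_ge_atTop (20 * (M : ℝ)),
    hlog.eventually_ge_atTop (2 * B + 2),
    hlog.eventually_ge_atTop (512000 * C2 * C3 / (δ * c ^ 2 * M)),
    v3_log 80 (δ / (5120 * C1 ^ 4 * M * (20 * M) ^ 4)) (by positivity),
    v3_log 29 (C2 / (C1 ^ 2 * (20 * M) ^ 2)) (by positivity),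
    v3_log 10 (1 / (20 * M) ^ 2) (by positivity)]
    with Z hvb hva hj1 hj2 hj3 hZ1 hZM hlB hlC hl80 hl29 hl10 T
  have hZ0 : 0 < Z := by linarith
  obtain ⟨l, hl⟩ : ∃ l : ℝ, l = Real.log Z := ⟨_, rfl⟩
  rw [← hl] at hvb hva hj2 hj3 hlB hlC hl80 hl29 hl10
  have hl1 : 1 ≤ l := by linarith
  have hl0 : 0 < l := by linarith
  have hlB' : B ≤ l := by linarith
  -- H
  have hx1 : 1 ≤ Z / (10 * M) := by
    rw [le_div_iff₀ (by positivity)]; linarith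
  have hHle : ((Hz M Z : ℕ) : ℝ) ≤ Z / (10 * M) := Nat.floor_le (by positivity)
  have hHge : Z / (20 * M) ≤ ((Hz M Z : ℕ) : ℝ) := by
    have := v3_floor hx1
    calc Z / (20 * M) = Z / (10 * M) / 2 := by field_simp; norm_num
      _ ≤ _ := this
  have hH1 : 1 ≤ Hz M Z := (Nat.one_le_floor_iff _).2 hx1
  have hh : (0 : ℝ) < ((Hz M Z : ℕ) : ℝ) := by exact_mod_cast hH1
  obtain ⟨h, hhdef⟩ : ∃ h : ℝ, h = ((Hz M Z : ℕ) : ℝ) := ⟨_, rfl⟩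
  have hh2 : Z / (20 * M) ^ 2 ≤ h ^ 2 := by
    calc Z / (20 * M) ^ 2 ≤ Z ^ 2 / (20 * M) ^ 2 := by
          gcongr
          nlinarith
      _ = (Z / (20 * M)) ^ 2 := by rw [div_pow]
      _ ≤ h ^ 2 := by rw [hhdef]; exact pow_le_pow_left₀ (by positivity) hHge 2
  have hh0 : 0 < h := by rw [hhdef]; exact hh
  -- K
  have hl10' : (1 : ℝ) ≤ l ^ 10 := one_le_pow₀ hl1
  have hKle : ((Kz Z : ℕ) : ℝ) ≤ l ^ 10 := by
    rw [hl]; exact Nat.floor_le (by rw [← hl]; positivity)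
  have hKge : l ^ 10 / 2 ≤ ((Kz Z : ℕ) : ℝ) := by
    have := v3_floor hl10'
    rw [hl] at this ⊢
    exact this
  have hK1 : 1 ≤ Kz Z := by
    have : 1 ≤ ⌊l ^ 10⌋₊ := (Nat.one_le_floor_iff _).2 hl10'
    rw [hl] at this
    exact this
  have hk1 : (1 : ℝ) ≤ ((Kz Z : ℕ) : ℝ) := by exact_mod_cast hK1
  have hk0 : (0 : ℝ) < ((Kz Z : ℕ) : ℝ) := by linarith
  obtain ⟨k, hkdef⟩ : ∃ k : ℝ, k = ((Kz Z : ℕ) : ℝ) := ⟨_, rfl⟩
  have hBk : B ≤ k := by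
    have h1 : l ≤ l ^ 10 / 2 := by
      have h2 : l * 2 ≤ l * l := by nlinarith
      have h3 : l * l ≤ l ^ 10 := by
        calc l * l = l ^ 2 := by ring
          _ ≤ l ^ 10 := pow_le_pow_right₀ hl1 (by norm_num)
      linarith
    rw [hkdef]; linarith
  -- Q
  obtain ⟨Q, hQdef⟩ : ∃ Q : ℕ, Q = ⌊((Hz M Z : ℝ) ^ 2) / (Kz Z : ℝ)⌋₊ := ⟨_, rfl⟩
  have hq1 : 1 ≤ ((Hz M Z : ℝ) ^ 2) / (Kz Z : ℝ) := by
    rw [le_div_iff₀ hk0, one_mul]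
    calc ((Kz Z : ℕ) : ℝ) ≤ l ^ 10 := hKle
      _ ≤ 1 / (20 * M) ^ 2 * Z := hl10
      _ = Z / (20 * M) ^ 2 := by ring
      _ ≤ h ^ 2 := hh2
      _ = (Hz M Z : ℝ) ^ 2 := by rw [hhdef]
  have hQ1 : 1 ≤ Q := by rw [hQdef]; exact (Nat.one_le_floor_iff _).2 hq1
  have hQle : (Q : ℝ) ≤ h ^ 2 / k := by
    rw [hQdef, hhdef, hkdef]; exact Nat.floor_le (by positivity)
  have hQge : h ^ 2 / (2 * k) ≤ (Q : ℝ) := by
    have := v3_floor hq1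
    rw [← hQdef] at this
    rw [hhdef, hkdef]
    calc (Hz M Z : ℝ) ^ 2 / (2 * (Kz Z : ℝ)) = (Hz M Z : ℝ) ^ 2 / (Kz Z : ℝ) / 2 := by
          field_simp
      _ ≤ _ := this
  rw [← hQdef] at hvb hva
  -- L
  have hL0 : (0 : ℝ) ≤ ((Lz M ε Z : ℕ) : ℝ) := Nat.cast_nonneg _
  have hLle : ((Lz M ε Z : ℕ) : ℝ) ≤ ε * Z ^ 2 / (2 * M) := Nat.floor_le (by positivity)
  have key := v2 (wt M q0 Z) (20 * Hz M Z) ((5 * q0 + 1) / 4) (5 * (M / 8)) c0 d0 (M / 2) (Hz M Z)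
    (Lz M ε Z) (Kz Z) Q (20 * l) (Om M q0 Z) (C1 * l ^ 10) (C2 * h ^ 2 / l ^ 9)
    (B / (M * h ^ 2)) T (fun i => (hj3 i).1) (fun i => (hj3 i).2.1) rfl hH1 (by omega) hg4 hK1 hQ1
    (fun p hp hpg hpc => by
      have h1 : p ∣ M := hpg.trans ⟨2, by omega⟩
      exact hp.one_lt.ne' (Nat.eq_one_of_dvd_coprimes hc0 hpc h1))
    hγ rfl
    (fun r hr0 hrK hrg e he => hj2 r hr0 (by
      have : (r : ℝ) ≤ ((Kz Z : ℕ) : ℝ) := by exact_mod_cast hrK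
      linarith) (hgM r hrg) e he)
    hvb
    (by
      have h1 : C1 ^ 2 * l ^ 29 ≤ C2 * h ^ 2 := by
        calc C1 ^ 2 * l ^ 29 ≤ C1 ^ 2 * (C2 / (C1 ^ 2 * (20 * M) ^ 2) * Z) := by gcongr
          _ = C2 * (Z / (20 * M) ^ 2) := by field_simp
          _ ≤ C2 * h ^ 2 := by gcongr
      rw [le_div_iff₀ (by positivity)]
      calc (C1 * l ^ 10) ^ 2 * l ^ 9 = C1 ^ 2 * l ^ 29 := by ring
        _ ≤ C2 * h ^ 2 := h1)
    (fun r hr1 hr2 => by rw [hhdef]; exact hva r hr1 hr2)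
    (by positivity)
    (by
      have h0 : 0 < h := by rw [hhdef]; exact hh
      have hk0' : 0 < k := by rw [hkdef]; exact hk0
      calc B / (M * h ^ 2) * (Q : ℝ) ≤ B / (M * h ^ 2) * (h ^ 2 / k) := by gcongr
        _ = B / (M * k) := by field_simp
        _ ≤ 1 := by
            rw [div_le_one (by positivity)]
            nlinarith)
  -- the final comparison
  have hRR : ∀ t : ℤ, RZ M q0 c0 d0 Z t - RavZ M q0 c0 d0 ε Z t =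
      RR (wt M q0 Z) (20 * Hz M Z) ((5 * q0 + 1) / 4) (5 * (M / 8)) c0 d0 (M / 2) (3 * Hz M Z)
        (Hz M Z) t -
      Rav (wt M q0 Z) (20 * Hz M Z) ((5 * q0 + 1) / 4) (5 * (M / 8)) c0 d0 (M / 2) (3 * Hz M Z)
        (Hz M Z) (Lz M ε Z) t := fun t => rfl
  simp only [hRR]
  refine key.trans ?_
  rw [hgr, ← hhdef]
  have hQC : (QC ((5 * q0 + 1) / 4) (5 * (M / 8)) d0 (M / 2) (20 * Hz M Z) : ℝ) ≤
      C3 * (20 * h) ^ 2 * (2 * l) ^ 3 := by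
    have h1 := f' (20 * Hz M Z) (by omega)
    refine h1.trans ?_
    have h2 : ((20 * Hz M Z : ℕ) : ℝ) = 20 * h := by rw [hhdef]; push_cast; ring
    rw [h2]
    have h3 : Real.log (20 * h) ≤ l := by
      rw [hl]
      apply Real.log_le_log (by positivity)
      have : h ≤ Z / (10 * M) := by rw [hhdef]; exact hHle
      calc 20 * h ≤ 20 * (Z / (10 * M)) := by gcongr
        _ = 2 * Z / M := by field_simp; norm_num
        _ ≤ Z := by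
            rw [div_le_iff₀ hm]; nlinarith
    have h4 : 0 ≤ Real.log (20 * h) := by
      apply Real.log_nonneg
      have : (1 : ℝ) ≤ h := by rw [hhdef]; exact_mod_cast hH1
      linarith
    have h5 : 1 + Real.log (20 * h) ≤ 2 * l := by linarith
    gcongr
  have T1 := v3_T1 (z := Z) (Ω := Om M q0 Z) hC2 hC3 hc hm hh0 hl1 hδ (by rw [hhdef]; exact hHle)
    hj1 hQC (hlC.trans (by
      calc l = l ^ 1 := (pow_one l).symm
        _ ≤ l ^ 4 := pow_le_pow_right₀ hl1 (by norm_num)))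
  have T4 := v3_T4 (m := (M : ℝ)) (h := h) (L := ((Lz M ε Z : ℕ) : ℝ)) hm hh0 hη0 hη1 hηδ hB0 hZ0
    (by rw [hhdef]; exact hHge) hε hL0 hLle
  have T5 := v3_T5 (m := (M : ℝ)) (h := h) hm hh0 hδ hB
  have T6 := v3_T6 (m := (M : ℝ)) (h := h) (l := l) (k := k) (q := (Q : ℝ)) (δ := δ)
    (S := ∑ r ∈ (Icc 2 (Kz Z)).filter (fun r => Nat.Coprime r (M / 2)),
          (r : ℝ) * (r.divisors.card : ℝ) / (Nat.totient r : ℝ) ^ 2) (z := Z) hC1 hm hh0 hl1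
    (by rw [hkdef]; exact hk1) (by rw [hkdef]; exact hKle) hQge
    (Finset.sum_nonneg (fun r _ => div_nonneg (mul_nonneg (Nat.cast_nonneg _) (Nat.cast_nonneg _))
      (sq_nonneg _)))
    (by rw [hkdef]; exact v3_sum _ _) hδ hZ1 (by rw [hhdef]; exact hHge) hl80
  have T2 : 22 * (h ^ 2 / ((M : ℝ) / 2)) *
      (∑ r ∈ (Icc 2 (Kz Z)).filter (fun r => Nat.Coprime r (M / 2)),
          (r.divisors.card : ℝ) / (Nat.totient r : ℝ) ^ 2) ≤ 44 / 100 * δ * (h ^ 2 / M) := by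
    calc 22 * (h ^ 2 / ((M : ℝ) / 2)) *
      (∑ r ∈ (Icc 2 (Kz Z)).filter (fun r => Nat.Coprime r (M / 2)),
          (r.divisors.card : ℝ) / (Nat.totient r : ℝ) ^ 2) ≤
          22 * (h ^ 2 / ((M : ℝ) / 2)) * (δ / 100) := by
            gcongr
            exact hS (Kz Z)
      _ = 44 / 100 * δ * (h ^ 2 / M) := by field_simp; ring
  have hΩ0 : 0 ≤ (Om M q0 Z) ^ 2 := sq_nonneg _
  have hsum : 22 * (h ^ 2 / ((M : ℝ) / 2)) *
      (∑ r ∈ (Icc 2 (Kz Z)).filter (fun r => Nat.Coprime r (M / 2)),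
          (r.divisors.card : ℝ) / (Nat.totient r : ℝ) ^ 2) +
      256 * (C1 * l ^ 10) ^ 4 / (Q : ℝ) *
      (∑ r ∈ (Icc 2 (Kz Z)).filter (fun r => Nat.Coprime r (M / 2)),
          (r : ℝ) * (r.divisors.card : ℝ) / (Nat.totient r : ℝ) ^ 2) +
      8 / 3 * (2 * Real.pi * ((Lz M ε Z : ℕ) : ℝ) * (B / (M * h ^ 2))) ^ 2 *
        (h ^ 2 / ((M : ℝ) / 2)) +
      128 / ((6 * ((M : ℝ) / 2) * h) ^ 4 * (B / (M * h ^ 2)) ^ 3) +
      256 * (C1 * l ^ 10) ^ 4 / (Q : ℝ) ≤ 84 / 100 * δ * (h ^ 2 / M) := by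
    linarith
  have hfin := mul_le_mul_of_nonneg_left hsum hΩ0
  have hpos : 0 ≤ δ * (h ^ 2 * (Om M q0 Z) ^ 2 / M) := by positivity
  calc _ ≤ δ / 10 * (h ^ 2 * (Om M q0 Z) ^ 2 / M) +
        (Om M q0 Z) ^ 2 * (84 / 100 * δ * (h ^ 2 / M)) := add_le_add T1 hfin
    _ = 94 / 100 * (δ * (h ^ 2 * (Om M q0 Z) ^ 2 / M)) := by ring
    _ ≤ δ * (h ^ 2 * (Om M q0 Z) ^ 2 / M) := by linarith
    _ = δ * h ^ 2 * (Om M q0 Z) ^ 2 / M := by ring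

end Pool.Agent.SP80
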