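import Pool.Agent.Lib.MP_1e1427_nt.SP.Stm

/-!
Pieces Va and Vb: asymptotics of the minor arc bound and of the error term.
-/

namespace Pool.Agent.SP80

open Finset MeasureTheory Filter Topology

/-- For large `Z`: `1 ≤ log Z` and `3 (log Z)^10 ≤ Hz M Z ≤ Z`. -/
private theorem va_ev (M : ℕ) (hM : 0 < M) : ∀ᶠ Z : ℝ in atTop,
    1 ≤ Real.log Z ∧ 1 ≤ Z ∧ 3 * (Real.log Z) ^ 10 ≤ (Hz M Z : ℝ) ∧ (Hz M Z : ℝ) ≤ Z := by
  have hM' : (0 : ℝ) < M := by exact_mod_cast hM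
  have hM1 : (1 : ℝ) ≤ M := by exact_mod_cast hM
  have h1 : ∀ᶠ Z : ℝ in atTop, 1 ≤ Real.log Z := Real.tendsto_log_atTop.eventually_ge_atTop 1
  have h2 : ∀ᶠ Z : ℝ in atTop, ‖Real.log Z ^ 10‖ ≤ (1 / (80 * (M : ℝ))) * ‖Z‖ :=
    (Real.isLittleO_pow_log_id_atTop (n := 10)).bound (by positivity)
  filter_upwards [h1, h2, eventually_ge_atTop (1 : ℝ)] with Z hl hb hZ
  have hZ0 : (0 : ℝ) ≤ Z := by linarith
  have hl10 : (1 : ℝ) ≤ (Real.log Z) ^ 10 := one_le_pow₀ hl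
  rw [Real.norm_of_nonneg (by positivity), Real.norm_of_nonneg hZ0] at hb
  refine ⟨hl, hZ, ?_, ?_⟩
  · have h3 : Z / (10 * (M : ℝ)) - 1 < (Hz M Z : ℝ) := by
      unfold Hz
      have := Nat.lt_floor_add_one (Z / (10 * (M : ℝ)))
      linarith
    have h4 : 8 * (Real.log Z) ^ 10 ≤ Z / (10 * (M : ℝ)) := by
      have h5 : (1 / (80 * (M : ℝ))) * Z * 8 = Z / (10 * (M : ℝ)) := by
        field_simp
        ring
      linarith
    linarith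
  · unfold Hz
    have h3 : (⌊Z / (10 * (M : ℝ))⌋₊ : ℝ) ≤ Z / (10 * (M : ℝ)) :=
      Nat.floor_le (by positivity)
    refine h3.trans ?_
    apply div_le_self hZ0
    linarith

/-- The final inequality in real numbers. -/
private theorem va_real (g H r ℓ L : ℝ) (hg : 0 ≤ g) (hℓ : 1 ≤ ℓ) (hH : 3 * ℓ ^ 10 ≤ H)
    (hr : ℓ ^ 10 ≤ r) (hr2 : r * ℓ ^ 10 ≤ 2 * H ^ 2) (hL : L ≤ 2 * ℓ) (_hL0 : 0 ≤ L) :
    50 * (g * H / r + 1) * (H + r * (1 + L)) ≤ 50 * (2 * g + 7) * H ^ 2 / ℓ ^ 9 := by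
  have hℓ0 : 0 < ℓ := by linarith
  have h9 : 0 < ℓ ^ 9 := by positivity
  have h10 : 0 < ℓ ^ 10 := by positivity
  have hr0 : 0 < r := by linarith
  have h910 : ℓ ^ 9 ≤ ℓ ^ 10 := pow_le_pow_right₀ hℓ (by norm_num)
  have hH0 : 0 < H := by linarith
  have e : 50 * (g * H / r + 1) * (H + r * (1 + L)) =
      50 * (g * H ^ 2 / r + g * H * (1 + L) + H + r * (1 + L)) := by
    field_simp
    ring
  have e3 : 50 * (2 * g + 7) * H ^ 2 / ℓ ^ 9 = 50 * ((2 * g + 7) * H ^ 2 / ℓ ^ 9) := by ring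
  rw [e, e3]
  apply mul_le_mul_of_nonneg_left _ (by norm_num)
  rw [le_div_iff₀ h9]
  have a1 : g * H ^ 2 / r * ℓ ^ 9 ≤ g * H ^ 2 := by
    rw [div_mul_eq_mul_div, div_le_iff₀ hr0]
    exact mul_le_mul_of_nonneg_left (h910.trans hr) (by positivity)
  have a2 : g * H * (1 + L) * ℓ ^ 9 ≤ g * H ^ 2 := by
    have b1 : (1 + L) * ℓ ^ 9 ≤ H := by
      calc (1 + L) * ℓ ^ 9 ≤ (3 * ℓ) * ℓ ^ 9 :=
            mul_le_mul_of_nonneg_right (by linarith) h9.le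
        _ = 3 * ℓ ^ 10 := by ring
        _ ≤ H := hH
    calc g * H * (1 + L) * ℓ ^ 9 = g * H * ((1 + L) * ℓ ^ 9) := by ring
      _ ≤ g * H * H := mul_le_mul_of_nonneg_left b1 (by positivity)
      _ = g * H ^ 2 := by ring
  have a3 : H * ℓ ^ 9 ≤ H ^ 2 := by
    have b1 : ℓ ^ 9 ≤ H := by linarith
    calc H * ℓ ^ 9 ≤ H * H := mul_le_mul_of_nonneg_left b1 hH0.le
      _ = H ^ 2 := by ring
  have a4 : r * (1 + L) * ℓ ^ 9 ≤ 6 * H ^ 2 := by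
    have b1 : (1 + L) * ℓ ^ 9 ≤ 3 * ℓ ^ 10 := by
      calc (1 + L) * ℓ ^ 9 ≤ (3 * ℓ) * ℓ ^ 9 :=
            mul_le_mul_of_nonneg_right (by linarith) h9.le
        _ = 3 * ℓ ^ 10 := by ring
    calc r * (1 + L) * ℓ ^ 9 = r * ((1 + L) * ℓ ^ 9) := by ring
      _ ≤ r * (3 * ℓ ^ 10) := mul_le_mul_of_nonneg_left b1 hr0.le
      _ = 3 * (r * ℓ ^ 10) := by ring
      _ ≤ 6 * H ^ 2 := by linarith
  have e2 : (g * H ^ 2 / r + g * H * (1 + L) + H + r * (1 + L)) * ℓ ^ 9 =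
      g * H ^ 2 / r * ℓ ^ 9 + g * H * (1 + L) * ℓ ^ 9 + H * ℓ ^ 9 + r * (1 + L) * ℓ ^ 9 := by
    ring
  rw [e2]
  linarith

theorem sva : SVa := by
  intro M hM
  refine ⟨50 * (2 * ((M / 2 : ℕ) : ℝ) + 7), by positivity, ?_⟩
  filter_upwards [va_ev M hM] with Z hZ r hr hr2
  obtain ⟨hl, hZ1, hH, hHZ⟩ := hZ
  have hK : (0 : ℝ) < Kz Z := by
    unfold Kz
    have : 1 ≤ ⌊(Real.log Z) ^ 10⌋₊ := by
      rw [Nat.one_le_floor_iff]
      exact one_le_pow₀ hl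
    exact_mod_cast this
  have hKl : (Real.log Z) ^ 10 ≤ 2 * (Kz Z : ℝ) := by
    have h1 := Nat.lt_floor_add_one ((Real.log Z) ^ 10)
    have h2 : (1 : ℝ) ≤ Kz Z := by exact_mod_cast (show 1 ≤ Kz Z from by exact_mod_cast hK)
    unfold Kz at h2 ⊢
    linarith
  have hr1 : (Real.log Z) ^ 10 ≤ (r : ℝ) := by
    have : (Real.log Z) ^ 10 < r := Nat.lt_of_floor_lt hr
    exact this.le
  have hrr : (r : ℝ) ≤ (Hz M Z : ℝ) ^ 2 / (Kz Z : ℝ) :=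
    (Nat.le_floor_iff (by positivity)).1 hr2
  have hrr2 : (r : ℝ) * (Kz Z : ℝ) ≤ (Hz M Z : ℝ) ^ 2 := (le_div_iff₀ hK).1 hrr
  have hr0 : (0 : ℝ) < r := lt_of_lt_of_le (by positivity) hr1
  have hr1' : (1 : ℝ) ≤ r := (one_le_pow₀ hl).trans hr1
  apply va_real
  · positivity
  · exact hl
  · exact hH
  · exact hr1
  · nlinarith [hr0, hKl, hrr2]
  · have h2 : (r : ℝ) ≤ Z ^ 2 := by
      have h3 : (1 : ℝ) ≤ Kz Z := by exact_mod_cast (show 1 ≤ Kz Z from by exact_mod_cast hK)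
      have h4 : (r : ℝ) ≤ (Hz M Z : ℝ) ^ 2 := by nlinarith
      have h5 : (Hz M Z : ℝ) ^ 2 ≤ Z ^ 2 := pow_le_pow_left₀ (by positivity) hHZ 2
      linarith
    have h3 := Real.log_le_log hr0 h2
    rw [Real.log_pow] at h3
    exact_mod_cast h3
  · exact Real.log_nonneg hr1'

theorem svb : SVb := by
  intro M c d hM
  refine ⟨3 + 26 * ((c : ℝ) + d + 8 * ((M / 2 : ℕ) : ℝ)), by positivity, ?_⟩
  filter_upwards [va_ev M hM] with Z hZ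
  obtain ⟨hl, hZ1, hH, hHZ⟩ := hZ
  set H : ℝ := (Hz M Z : ℝ) with hHdef
  set K : ℝ := (Kz Z : ℝ) with hKdef
  set s : ℝ := (c : ℝ) + d with hs
  set g : ℝ := ((M / 2 : ℕ) : ℝ) with hg
  have hs0 : 0 ≤ s := by positivity
  have hg0 : 0 ≤ g := by positivity
  have hl10 : (1 : ℝ) ≤ (Real.log Z) ^ 10 := one_le_pow₀ hl
  have hK1 : (1 : ℝ) ≤ K := by
    rw [hKdef]
    unfold Kz
    have : 1 ≤ ⌊(Real.log Z) ^ 10⌋₊ := by
      rw [Nat.one_le_floor_iff]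
      exact hl10
    exact_mod_cast this
  have hKle : K ≤ (Real.log Z) ^ 10 := by
    rw [hKdef]
    unfold Kz
    exact Nat.floor_le (by positivity)
  have hH1 : 1 ≤ H := by linarith
  have hKH : K ≤ H := by linarith
  have hK0 : 0 < K := by linarith
  have hx : 1 ≤ H ^ 2 / K := by
    rw [le_div_iff₀ hK0]
    nlinarith
  have hQ : H ^ 2 / K / 2 ≤ (⌊H ^ 2 / K⌋₊ : ℝ) := by
    have h1 := Nat.lt_floor_add_one (H ^ 2 / K)
    have h2 : (1 : ℝ) ≤ (⌊H ^ 2 / K⌋₊ : ℝ) := by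
      have : 1 ≤ ⌊H ^ 2 / K⌋₊ := by
        rw [Nat.one_le_floor_iff]
        exact hx
      exact_mod_cast this
    linarith
  have hQ0 : 0 < (⌊H ^ 2 / K⌋₊ : ℝ) := by linarith
  have h3 : 13 * H * (s + 8 * g * H) / (⌊H ^ 2 / K⌋₊ : ℝ) ≤ 26 * (s + 8 * g) * K := by
    rw [div_le_iff₀ hQ0]
    have h4 : 26 * (s + 8 * g) * K * (H ^ 2 / K / 2) ≤
        26 * (s + 8 * g) * K * (⌊H ^ 2 / K⌋₊ : ℝ) :=
      mul_le_mul_of_nonneg_left hQ (by positivity)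
    refine le_trans ?_ h4
    have h5 : 26 * (s + 8 * g) * K * (H ^ 2 / K / 2) = 13 * H * ((s + 8 * g) * H) := by
      field_simp
      ring
    rw [h5]
    apply mul_le_mul_of_nonneg_left _ (by positivity)
    have h6 : s * 1 ≤ s * H := mul_le_mul_of_nonneg_left hH1 hs0
    linarith
  have h7 : 26 * (s + 8 * g) * K ≤ 26 * (s + 8 * g) * (Real.log Z) ^ 10 :=
    mul_le_mul_of_nonneg_left hKle (by positivity)
  linarith

end Pool.Agent.SP80
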