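import Pool.Agent.Lib.MP_1e1427_nt.SP.Stm

namespace Pool.Agent.SP80

open Finset

private lemma w2_split (f : ℕ → ℕ → ℂ) (H : ℕ) :
    ∑ i ∈ range H, ∑ j ∈ range H, f i j = ∑ i ∈ range H, f i i +
      ∑ u ∈ Ico 1 H, ∑ j ∈ range (H - u), (f (j + u) j + f j (j + u)) := by
  induction H with
  | zero => simp
  | succ H ih =>
    have e1 : ∑ i ∈ range (H + 1), ∑ j ∈ range (H + 1), f i j =
        ∑ i ∈ range H, ∑ j ∈ range H, f i j + ∑ i ∈ range H, (f H i + f i H) + f H H := by
      rw [sum_range_succ, sum_range_succ]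
      simp_rw [sum_range_succ]
      rw [sum_add_distrib, sum_add_distrib]
      ring
    have e2 : ∑ u ∈ Ico 1 (H + 1), ∑ j ∈ range (H + 1 - u), (f (j + u) j + f j (j + u)) =
        ∑ u ∈ Ico 1 H, ∑ j ∈ range (H - u), (f (j + u) j + f j (j + u)) +
          ∑ i ∈ range H, (f H i + f i H) := by
      have e3 : ∑ u ∈ Ico 1 (H + 1), ∑ j ∈ range (H + 1 - u), (f (j + u) j + f j (j + u)) =
          ∑ u ∈ Ico 1 (H + 1), (∑ j ∈ range (H - u), (f (j + u) j + f j (j + u)) +
            (f H (H - u) + f (H - u) H)) := by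
        refine sum_congr rfl fun u hu => ?_
        rw [mem_Ico] at hu
        have : H + 1 - u = (H - u) + 1 := by omega
        rw [this, sum_range_succ]
        have h2 : H - u + u = H := by omega
        rw [h2]
      rw [e3, sum_add_distrib]
      congr 1
      · rcases Nat.eq_zero_or_pos H with h0 | h0
        · subst h0; simp
        · rw [sum_Ico_succ_top (by omega)]
          simp
      · rw [← sum_range_reflect, sum_Ico_eq_sum_range]
        refine sum_congr (by simp) fun i hi => ?_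
        rw [mem_range] at hi
        have : H - (1 + i) = H - 1 - i := by omega
        rw [this]
    rw [e1, e2, ih, sum_range_succ]
    ring

private lemma w2_norm_ex (x : ℝ) : ‖ex x‖ = 1 := by
  unfold ex
  exact Complex.norm_exp_ofReal_mul_I _

private lemma w2_ex_add (x y : ℝ) : ex (x + y) = ex x * ex y := by
  unfold ex
  rw [← Complex.exp_add]
  congr 1
  push_cast
  ring

private lemma w2_conj (x : ℝ) : (starRingEnd ℂ) (ex x) = ex (-x) := by
  unfold ex
  rw [← Complex.exp_conj, map_mul, Complex.conj_ofReal, Complex.conj_I]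
  congr 1
  push_cast
  ring

private lemma w2_mn_mono {H H' : ℝ} (h : H ≤ H') (x : ℝ) : mn H x ≤ mn H' x := by
  unfold mn
  split_ifs
  · exact h
  · exact min_le_min_right _ h

private lemma w2_term (h1 : SW1) (b g j0 H : ℕ) (θ : ℝ) (u : ℕ) :
    ‖∑ j ∈ range (H - u), ex (((qd b g (j0 + (j + u)) : ℕ) : ℝ) * θ) *
      (starRingEnd ℂ) (ex (((qd b g (j0 + j) : ℕ) : ℝ) * θ))‖ ≤ mn H (((2 * g * u : ℕ) : ℝ) * θ) := by
  have e : ∑ j ∈ range (H - u), ex (((qd b g (j0 + (j + u)) : ℕ) : ℝ) * θ) *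
      (starRingEnd ℂ) (ex (((qd b g (j0 + j) : ℕ) : ℝ) * θ)) =
      ex (((b * u + g * u ^ 2 : ℕ) : ℝ) * θ) *
        ∑ j ∈ Ico j0 (j0 + (H - u)), ex ((j : ℝ) * (((2 * g * u : ℕ) : ℝ) * θ)) := by
    rw [mul_sum, sum_Ico_eq_sum_range]
    have : j0 + (H - u) - j0 = H - u := by omega
    rw [this]
    refine sum_congr rfl fun j _ => ?_
    rw [w2_conj, ← w2_ex_add, ← w2_ex_add]
    congr 1
    unfold qd
    push_cast
    ring
  rw [e, norm_mul, w2_norm_ex, one_mul]
  refine (h1 j0 (H - u) _).trans (w2_mn_mono ?_ _)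
  exact_mod_cast Nat.sub_le H u

theorem sw2 (h1 : SW1) : SW2 := by
  intro b g j0 H θ
  set z : ℕ → ℂ := fun j => ex (((qd b g (j0 + j) : ℕ) : ℝ) * θ) with hz
  have e0 : WS b g j0 H θ = ∑ j ∈ range H, z j := by
    unfold WS
    rw [sum_Ico_eq_sum_range]
    have : j0 + H - j0 = H := by omega
    rw [this]
  have e1 : ((‖WS b g j0 H θ‖ ^ 2 : ℝ) : ℂ) =
      ∑ i ∈ range H, ∑ j ∈ range H, z i * (starRingEnd ℂ) (z j) := by
    rw [e0, ← Complex.normSq_eq_norm_sq, ← Complex.mul_conj, map_sum, sum_mul_sum]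
  rw [w2_split] at e1
  have e2 : ∀ u, ∑ j ∈ range (H - u), (z (j + u) * (starRingEnd ℂ) (z j) +
      z j * (starRingEnd ℂ) (z (j + u))) =
      ∑ j ∈ range (H - u), z (j + u) * (starRingEnd ℂ) (z j) +
        (starRingEnd ℂ) (∑ j ∈ range (H - u), z (j + u) * (starRingEnd ℂ) (z j)) := by
    intro u
    rw [sum_add_distrib, map_sum]
    congr 1
    refine sum_congr rfl fun j _ => ?_
    simp [mul_comm]
  have e3 : ‖WS b g j0 H θ‖ ^ 2 = ‖((‖WS b g j0 H θ‖ ^ 2 : ℝ) : ℂ)‖ := by
    rw [Complex.norm_real, Real.norm_of_nonneg (by positivity)]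
  rw [e3, e1]
  refine (norm_add_le _ _).trans (add_le_add ?_ ?_)
  · refine (norm_sum_le _ _).trans ?_
    have : ∀ i ∈ range H, ‖z i * (starRingEnd ℂ) (z i)‖ ≤ 1 := by
      intro i _
      rw [norm_mul, RCLike.norm_conj]
      simp only [hz, w2_norm_ex]
      norm_num
    refine (sum_le_sum this).trans ?_
    simp
  · refine (norm_sum_le _ _).trans ?_
    rw [mul_sum]
    refine sum_le_sum fun u _ => ?_
    rw [e2 u]
    refine (norm_add_le _ _).trans ?_
    rw [RCLike.norm_conj, ← two_mul]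
    refine mul_le_mul_of_nonneg_left ?_ (by norm_num)
    exact w2_term h1 b g j0 H θ u

end Pool.Agent.SP80
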