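import Pool.Agent.Lib.MP_1e1427_nt.SP.Stm

/-!
Project SP (MP_1e1427_nt, StrongProbablePrime): Weyl's inequality.
-/

namespace Pool.Agent.SP80

open Finset

private theorem w4_mn_nonneg {H x : ℝ} (hH : 0 ≤ H) : 0 ≤ mn H x := by
  unfold mn
  split_ifs with h
  · exact hH
  · exact le_min hH (by positivity)

theorem sw4 (h2 : SW2) (h3 : SW3) : SW4 := by
  intro b g j0 H θ a r hr hc hθ hg hH
  have h4 := h2 b g j0 H θ
  have h5 := h3 θ a r (2 * g * H) H hr hc hθ (Nat.cast_nonneg H)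
  have h6 : ∑ u ∈ Ico 1 H, mn H (((2 * g * u : ℕ) : ℝ) * θ) ≤
      ∑ v ∈ Icc 1 (2 * g * H), mn H ((v : ℝ) * θ) := by
    have hinj : Set.InjOn (fun u : ℕ => 2 * g * u) (Ico 1 H : Finset ℕ) := by
      intro u _ v _ huv
      exact Nat.eq_of_mul_eq_mul_left (by positivity : 0 < 2 * g) huv
    have h7 : ∑ u ∈ Ico 1 H, mn H (((2 * g * u : ℕ) : ℝ) * θ) =
        ∑ v ∈ (Ico 1 H).image (fun u : ℕ => 2 * g * u), mn H ((v : ℝ) * θ) := by
      rw [Finset.sum_image hinj]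
    rw [h7]
    refine Finset.sum_le_sum_of_subset_of_nonneg ?_ ?_
    · intro v hv
      obtain ⟨u, hu, rfl⟩ := Finset.mem_image.1 hv
      rw [Finset.mem_Ico] at hu
      rw [Finset.mem_Icc]
      refine ⟨Nat.succ_le_of_lt (Nat.mul_pos (by positivity) (by omega)), ?_⟩
      exact Nat.mul_le_mul_left _ (by omega)
    · intro v _ _
      exact w4_mn_nonneg (Nat.cast_nonneg H)
  have hr1 : (1 : ℝ) ≤ r := by exact_mod_cast hr
  have hlog : 0 ≤ Real.log r := Real.log_nonneg hr1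
  have hH0 : (0 : ℝ) ≤ H := Nat.cast_nonneg H
  have hA : (0 : ℝ) ≤ (g : ℝ) * H / r := by positivity
  have hB : (H : ℝ) ≤ H + r * (1 + Real.log r) := by
    have : 0 ≤ (r : ℝ) * (1 + Real.log r) := by positivity
    linarith
  have h8 : ((2 * g * H : ℕ) : ℝ) / r = 2 * ((g : ℝ) * H / r) := by
    push_cast
    ring
  rw [h8] at h5
  generalize (g : ℝ) * H / r = A at hA h5 ⊢
  generalize (H : ℝ) + r * (1 + Real.log r) = B at hB h5 ⊢
  have hAB : 0 ≤ A * B := mul_nonneg hA (hH0.trans hB)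
  nlinarith

end Pool.Agent.SP80
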