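import Mathlib
import Pool.Agent.Lib.MP_1e1427_nt.SP.W1
import Pool.Agent.Lib.MP_1e1427_nt.SP.W2
import Pool.Agent.Lib.MP_1e1427_nt.SP.W3
import Pool.Agent.Lib.MP_1e1427_nt.SP.W4
import Pool.Agent.Lib.MP_1e1427_nt.SP.M1
import Pool.Agent.Lib.MP_1e1427_nt.SP.M2
import Pool.Agent.Lib.MP_1e1427_nt.SP.M3
import Pool.Agent.Lib.MP_1e1427_nt.SP.M4
import Pool.Agent.Lib.MP_1e1427_nt.SP.G1
import Pool.Agent.Lib.MP_1e1427_nt.SP.A1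
import Pool.Agent.Lib.MP_1e1427_nt.SP.A2
import Pool.Agent.Lib.MP_1e1427_nt.SP.PP
import Pool.Agent.Lib.MP_1e1427_nt.SP.F
import Pool.Agent.Lib.MP_1e1427_nt.SP.V1
import Pool.Agent.Lib.MP_1e1427_nt.SP.FL
import Pool.Agent.Lib.MP_1e1427_nt.SP.OI
import Pool.Agent.Lib.MP_1e1427_nt.SP.D1
import Pool.Agent.Lib.MP_1e1427_nt.SP.V2
import Pool.Agent.Lib.MP_1e1427_nt.SP.JA
import Pool.Agent.Lib.MP_1e1427_nt.SP.J0
import Pool.Agent.Lib.MP_1e1427_nt.SP.J1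
import Pool.Agent.Lib.MP_1e1427_nt.SP.J3
import Pool.Agent.Lib.MP_1e1427_nt.SP.T
import Pool.Agent.Lib.MP_1e1427_nt.SP.Va
import Pool.Agent.Lib.MP_1e1427_nt.SP.V3
import Pool.Agent.Lib.MP_1e1427_nt.SP.ID
import Pool.Agent.Lib.MP_1e1427_nt.SP.HH
import Pool.Agent.Lib.MP_1e1427_nt.SP.Kp
import Pool.Agent.Lib.MP_1e1427_nt.SP.KK
import Pool.Agent.Lib.MP_1e1427_nt.SP.C
import Pool.Agent.Lib.MP_1e1427_nt.SP.DC
import Pool.Agent.Lib.MP_1e1427_nt.SP.L1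
import Pool.Agent.Lib.MP_1e1427_nt.SP.L2
import Pool.Agent.Lib.MP_1e1427_nt.SP.N1
import Pool.Agent.Lib.MP_1e1427_nt.SP.N4

/-!
Project SP: all pieces together.
-/

namespace Pool.Agent.SP80

open Finset Filter Topology

theorem fin_w4 : SW4 := sw4 (sw2 sw1) sw3

theorem fin_m3 : SM3 := sm3 sm1

theorem fin_v2 : SV2 :=
  sv2 fin_w4 (sm4 sm2 fin_m3 sg1) (sm5 fin_m3 sg2) sa1 sa2 (smom spp) (sv1 spp) sfl soi sd1

theorem fin_j0 : SJ0 := sj0 sja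

theorem fin_v3 : SV3 := sv3 fin_v2 sva svb sf (sj1 fin_j0) (sj2 sja fin_j0) sj3

theorem fin_l2 : SL2 :=
  sl2 (sl1 (sc fin_v3 (sh sid sj3) (sj1 fin_j0)) (sdc sid (sj1 fin_j0) sj3) (sk skp) st)

end Pool.Agent.SP80
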