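import Pool.Agent.Lib.MP_1e1427_nt.SP.Stm
import Pool.Agent.Lib.MP_0da313_nt.BV.SmallCor
import Pool.Agent.Lib.MP_0da313_nt.BV.T1a

/-!
# The total weight and the class sums
-/

namespace Pool.Agent.SP80

open Finset Filter

private theorem j1_tendsto : Tendsto yZ atTop atTop := by
  unfold yZ
  exact Tendsto.const_mul_atTop (Real.sqrt_pos.2 (by norm_num)) tendsto_id

private theorem j1_psi : ∀ᶠ Z : ℝ in atTop, yZ Z / 48000 ≤ BVall.psiXL 2000 (yZ Z) := by
  have h := j1_tendsto.eventually (BVall.psiXL_lower (lam := 2000) (by norm_num))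
  filter_upwards [h] with Z hZ
  have e : (24 : ℝ) * 2000 = 48000 := by norm_num
  rw [e] at hZ
  exact hZ

private theorem j1_y_ge {Z : ℝ} (hZ : 0 ≤ Z) : Z ≤ yZ Z := by
  unfold yZ
  have h1 : (1 : ℝ) ≤ Real.sqrt (7 / 5) := by
    rw [Real.one_le_sqrt]
    norm_num
  nlinarith

theorem sj1 (h0 : SJ0) : SJ1 := by
  intro M q0 hM hc hq
  have hφ : (0 : ℝ) < (Nat.totient M : ℝ) := by
    exact_mod_cast Nat.totient_pos.2 hM
  refine ⟨9 / 10 * (1 / 48000 / (Nat.totient M : ℝ)), by positivity, ?_⟩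
  filter_upwards [h0 M q0 hM hc hq, j1_psi, eventually_ge_atTop (0 : ℝ)] with Z h1 h2 h3
  have h4 := j1_y_ge h3
  refine le_trans ?_ h1
  have h5 : Z / 48000 ≤ BVall.psiXL 2000 (yZ Z) := by
    refine le_trans ?_ h2
    gcongr
  calc 9 / 10 * (1 / 48000 / (Nat.totient M : ℝ)) * Z =
      9 / 10 * ((Z / 48000) / (Nat.totient M : ℝ)) := by ring
    _ ≤ 9 / 10 * (BVall.psiXL 2000 (yZ Z) / (Nat.totient M : ℝ)) := by gcongr

private theorem j1_wt_prime {M q0 : ℕ} {Z : ℝ} {i : ℕ} (h : wt M q0 Z i ≠ 0) :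
    (q0 + M * i).Prime ∧ BVall.OmL 2000 (yZ Z) (q0 + M * i) ≠ 0 := by
  unfold wt at h
  by_cases hp : (q0 + M * i).Prime
  · rw [if_pos hp] at h
    exact ⟨hp, fun h' => h (by rw [h', mul_zero])⟩
  · rw [if_neg hp] at h
    exact absurd rfl h

private theorem j1_form {M q0 r e i : ℕ} (he : i % r = e) :
    q0 + M * i = q0 + M * e + (M * r) * (i / r) := by
  have h := Nat.mod_add_div i r
  rw [he] at h
  calc q0 + M * i = q0 + M * (e + r * (i / r)) := by rw [h]
    _ = _ := by ring

private theorem j1_le_psi {M q0 r e : ℕ} (hM : 0 < M) {Z : ℝ} (hZ : 0 < Z) :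
    ∑ i ∈ (range (20 * Hz M Z)).filter (fun i => i % r = e), wt M q0 Z i ≤
      BVall.psiAPL 2000 (yZ Z) (M * r) (q0 + M * e) := by
  have hy : 0 < yZ Z := lt_of_lt_of_le hZ (j1_y_ge hZ.le)
  rw [← sum_filter_ne_zero]
  set S := ((range (20 * Hz M Z)).filter (fun i => i % r = e)).filter
    (fun i => wt M q0 Z i ≠ 0) with hS
  have hinj : Set.InjOn (fun i => q0 + M * i) (S : Set ℕ) := by
    intro a _ b _ hab
    have : q0 + M * a = q0 + M * b := hab
    exact Nat.eq_of_mul_eq_mul_left hM (by omega)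
  have h1 : ∑ i ∈ S, wt M q0 Z i = ∑ n ∈ S.image (fun i => q0 + M * i),
      ArithmeticFunction.vonMangoldt n * BVall.OmL 2000 (yZ Z) n := by
    rw [sum_image hinj]
    refine sum_congr rfl fun i hi => ?_
    obtain ⟨hp, -⟩ := j1_wt_prime (mem_filter.1 hi).2
    unfold wt
    rw [if_pos hp, ArithmeticFunction.vonMangoldt_apply_prime hp]
  rw [h1]
  unfold BVall.psiAPL
  refine sum_le_sum_of_subset_of_nonneg ?_ ?_
  · intro n hn
    obtain ⟨i, hi, rfl⟩ := mem_image.1 hn
    obtain ⟨hp, hO⟩ := j1_wt_prime (mem_filter.1 hi).2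
    have hir := (mem_filter.1 (mem_filter.1 hi).1).2
    have hsup := BVall.OmL_support (by norm_num) hy hp.pos hO
    rw [mem_filter, mem_Icc]
    refine ⟨⟨hp.pos, ?_⟩, ?_⟩
    · apply Nat.le_floor
      have h2 := (abs_le.1 hsup.1).2
      nlinarith
    · rw [j1_form hir]
      exact Nat.add_mul_mod_self_left _ _ _
  · intro n _ _
    exact mul_nonneg ArithmeticFunction.vonMangoldt_nonneg (BVall.OmL_nonneg _ hy.le _)

theorem sj2 (ha : SJA) (h0 : SJ0) : SJ2 := by
  intro M q0 B hM hc hq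
  have hφM : (0 : ℝ) < (Nat.totient M : ℝ) := by
    exact_mod_cast Nat.totient_pos.2 hM
  have hlog : ∀ᶠ Z : ℝ in atTop, (60000 * M + 1 : ℝ) ≤ Real.log Z :=
    Real.tendsto_log_atTop.eventually_ge_atTop _
  have hlo : ∀ᶠ Z : ℝ in atTop, ‖(Real.log Z) ^ B‖ ≤ (1 / 4) * ‖id Z‖ :=
    (Real.isLittleO_pow_log_id_atTop (n := B)).bound (by norm_num)
  filter_upwards [h0 M q0 hM hc hq, j1_psi, ha (B + 2) (B + 1), hlog, hlo,
    eventually_ge_atTop (1 : ℝ)] with Z g0 g1 g2 g3 g4 g5
  have hZ : 0 < Z := by linarith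
  have hM1 : (1 : ℝ) ≤ M := by exact_mod_cast hM
  have hL : (1 : ℝ) ≤ Real.log Z := by linarith
  have hL0 : (0 : ℝ) < Real.log Z := by linarith
  have hy := j1_y_ge hZ.le
  have hψ0 : Z / 48000 ≤ BVall.psiXL 2000 (yZ Z) := by
    refine le_trans ?_ g1
    gcongr
  have hOm0 : 0 ≤ Om M q0 Z := by
    refine le_trans ?_ g0
    have : 0 ≤ BVall.psiXL 2000 (yZ Z) := le_trans (by positivity) hψ0
    positivity
  intro r hr hrB hrM e he
  have hφr : (0 : ℝ) < (Nat.totient r : ℝ) := by
    exact_mod_cast Nat.totient_pos.2 hr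
  by_cases hcop : Nat.Coprime (q0 + M * e) r
  · -- the coprime case
    have h1 := j1_le_psi (M := M) (q0 := q0) (r := r) (e := e) hM hZ
    have hq0 : Nat.Coprime (q0 + M * e) M := by
      have := (Nat.coprime_add_mul_left_left q0 M e).2 hc
      exact this
    have h2 := g2 (M * r) (Nat.mul_pos hM hr) (by
      push_cast
      calc (M : ℝ) * r ≤ Real.log Z * (Real.log Z) ^ B := by
            apply mul_le_mul _ hrB (Nat.cast_nonneg r) hL0.le
            linarith
        _ = (Real.log Z) ^ (B + 1) := by ring) (q0 + M * e) (Nat.Coprime.mul_right hq0 hcop)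
    have h3 := (abs_le.1 h2).2
    have hmul : (Nat.totient (M * r) : ℝ) = (Nat.totient M : ℝ) * (Nat.totient r : ℝ) := by
      rw [Nat.totient_mul hrM.symm]
      push_cast
      rfl
    rw [hmul] at h3
    set ψ := BVall.psiXL 2000 (yZ Z) with hψ
    -- the error term
    have herr : Z / (Real.log Z) ^ (B + 2) ≤
        4 / 5 * (ψ / ((Nat.totient M : ℝ) * (Nat.totient r : ℝ))) := by
      have e1 : (Nat.totient r : ℝ) ≤ (Real.log Z) ^ B := by
        refine le_trans ?_ hrB
        exact_mod_cast Nat.totient_le r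
      have e2 : (Nat.totient M : ℝ) ≤ M := by exact_mod_cast Nat.totient_le M
      have e3 : (60000 : ℝ) * M ≤ (Real.log Z) ^ 2 := by nlinarith
      have e4 : (60000 : ℝ) * ((Nat.totient M : ℝ) * (Nat.totient r : ℝ)) ≤
          (Real.log Z) ^ (B + 2) := by
        calc (60000 : ℝ) * ((Nat.totient M : ℝ) * (Nat.totient r : ℝ)) ≤
            60000 * (M * (Real.log Z) ^ B) := by gcongr
          _ = (60000 * M) * (Real.log Z) ^ B := by ring
          _ ≤ (Real.log Z) ^ 2 * (Real.log Z) ^ B := by gcongr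
          _ = (Real.log Z) ^ (B + 2) := by ring
      calc Z / (Real.log Z) ^ (B + 2) ≤
          Z / ((60000 : ℝ) * ((Nat.totient M : ℝ) * (Nat.totient r : ℝ))) := by
            gcongr
        _ = 4 / 5 * ((Z / 48000) / ((Nat.totient M : ℝ) * (Nat.totient r : ℝ))) := by
            field_simp
            norm_num
        _ ≤ _ := by gcongr
    have h4 : 9 / 5 * (ψ / ((Nat.totient M : ℝ) * (Nat.totient r : ℝ))) ≤
        2 * Om M q0 Z / (Nat.totient r : ℝ) := by
      calc 9 / 5 * (ψ / ((Nat.totient M : ℝ) * (Nat.totient r : ℝ))) =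
          2 * (9 / 10 * (ψ / (Nat.totient M : ℝ))) / (Nat.totient r : ℝ) := by
            field_simp
            ring
        _ ≤ _ := by gcongr
    linarith
  · -- no weight
    have h1 : ∑ i ∈ (range (20 * Hz M Z)).filter (fun i => i % r = e), wt M q0 Z i = 0 := by
      refine sum_eq_zero fun i hi => ?_
      by_contra hne
      obtain ⟨hp, hO⟩ := j1_wt_prime hne
      have hir := (mem_filter.1 hi).2
      have hncop : ¬ Nat.Coprime (q0 + M * i) r := by
        intro h
        apply hcop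
        rw [j1_form hir] at h
        have e1 : q0 + M * e + M * r * (i / r) = q0 + M * e + r * (M * (i / r)) := by ring
        rw [e1] at h
        exact (Nat.coprime_add_mul_left_left _ _ _).1 h
      have hdvd : (q0 + M * i) ∣ r := by
        by_contra h
        exact hncop ((Nat.Prime.coprime_iff_not_dvd hp).2 h)
      have hle : ((q0 + M * i : ℕ) : ℝ) ≤ r := by exact_mod_cast Nat.le_of_dvd hr hdvd
      have hsup := (BVall.OmL_support (by norm_num) (lt_of_lt_of_le hZ hy) hp.pos hO).2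
      have h5 : (Real.log Z) ^ B ≤ 1 / 4 * Z := by
        rw [Real.norm_of_nonneg (by positivity), id, Real.norm_of_nonneg hZ.le] at g4
        exact g4
      linarith
    rw [h1]
    positivity

end Pool.Agent.SP80
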