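import Pool.Agent.Lib.MP_1e1427_nt.SP.Stm

namespace Pool.Agent.SP80

open Finset MeasureTheory Filter Topology

private theorem l1_eight (w : ℕ) : 8 ∣ Mw w := Dvd.intro _ rfl

private theorem l1_pos (w : ℕ) : 0 < Mw w := by
  unfold Mw
  refine Nat.mul_pos (by norm_num) (Finset.prod_pos fun p hp => ?_)
  exact (mem_filter.1 hp).2.pos

private theorem l1_five {w : ℕ} (hw : 5 ≤ w) : 5 ∣ Mw w := by
  unfold Mw
  refine Dvd.dvd.mul_left ?_ 8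
  exact Finset.dvd_prod_of_mem (fun p => p)
    (mem_filter.2 ⟨mem_Icc.2 ⟨by norm_num, hw⟩, by norm_num⟩)

theorem sl1 (c : SC) (dc : SDC) (k : SK) (t : ST) : SL1 := by
  intro ε hε δ hδ
  obtain ⟨w, hw, hsum⟩ := t (δ / 40000) (by positivity)
  have hM := l1_pos w
  have h8 := l1_eight w
  have h5 := l1_five hw
  obtain ⟨M, hMdef⟩ : ∃ M, M = Mw w := ⟨_, rfl⟩
  have hk : ∀ ν : ℕ, Odd ν → ∃ q0 c0 d0 : ℕ, q0 < M ∧ q0 % 8 = 3 ∧
      Nat.Coprime q0 M ∧ Nat.Coprime c0 M ∧ Even d0 ∧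
      (2 * (M : ℤ)) ∣ (F0 q0 c0 d0 : ℤ) - 2 * ν := by
    rw [hMdef]
    exact k w hw
  rw [← hMdef] at hM h8 h5 hsum
  have hclass : ∀ ν : ℕ, Odd ν → ∀ᶠ Z : ℝ in atTop, ∀ S : Finset ℕ,
      (∀ n ∈ S, Z ^ 2 < n ∧ (n : ℝ) ≤ 1001 / 1000 * Z ^ 2 ∧ n % M = ν % M ∧
        ¬ (n : ℝ) ^ (1 / 2 - ε) ≤ ((Qs n).card : ℝ)) → (S.card : ℝ) ≤ δ * Z ^ 2 / M := by
    intro ν hν
    obtain ⟨q0, c0, d0, hq1, hq2, hq3, hc, hd, hdvd⟩ := hk ν hν
    filter_upwards [c M q0 c0 d0 ν hM h8 h5 hq2 hq3 hq1 hc hdvd δ hδ hsum,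
      dc M q0 c0 d0 hM h8 hq2 hq3 hq1 hc hd ε hε] with Z hZ1 hZ2 S hS
    refine hZ1 S fun n hn => ?_
    obtain ⟨h1, h2, h3, h4⟩ := hS n hn
    refine ⟨h1, h2, h3, fun s hs => ?_⟩
    by_contra hcon
    exact h4 (hZ2 n h1 h2 s hs (not_lt.1 hcon))
  have hall : ∀ᶠ Z : ℝ in atTop, ∀ ν ∈ (range M).filter (fun ν => Odd ν), ∀ S : Finset ℕ,
      (∀ n ∈ S, Z ^ 2 < n ∧ (n : ℝ) ≤ 1001 / 1000 * Z ^ 2 ∧ n % M = ν % M ∧
        ¬ (n : ℝ) ^ (1 / 2 - ε) ≤ ((Qs n).card : ℝ)) → (S.card : ℝ) ≤ δ * Z ^ 2 / M := by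
    rw [Filter.eventually_all_finset]
    intro ν hν
    exact hclass ν (mem_filter.1 hν).2
  filter_upwards [hall] with Z hZ S hS
  have hmaps : ∀ n ∈ S, n % M ∈ (range M).filter (fun ν => Odd ν) := by
    intro n hn
    rw [mem_filter, mem_range]
    refine ⟨Nat.mod_lt _ hM, ?_⟩
    have h2M : 2 ∣ M := dvd_trans (by norm_num) h8
    rw [Nat.odd_iff, Nat.mod_mod_of_dvd _ h2M]
    exact Nat.odd_iff.1 (hS n hn).1
  have hcard := Finset.card_eq_sum_card_fiberwise hmaps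
  have hcard' : (S.card : ℝ) =
      ∑ ν ∈ (range M).filter (fun ν => Odd ν), ((S.filter fun n => n % M = ν).card : ℝ) := by
    exact_mod_cast hcard
  have hMR : (0 : ℝ) < M := by exact_mod_cast hM
  have hbound : ∀ ν ∈ (range M).filter (fun ν => Odd ν),
      ((S.filter fun n => n % M = ν).card : ℝ) ≤ δ * Z ^ 2 / M := by
    intro ν hν
    refine hZ ν hν _ fun n hn => ?_
    obtain ⟨hn1, hn2⟩ := mem_filter.1 hn
    obtain ⟨h1, h2, h3, h4⟩ := hS n hn1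
    refine ⟨h2, h3, ?_, h4⟩
    rw [← hn2, Nat.mod_mod]
  have hle : (((range M).filter (fun ν => Odd ν)).card : ℝ) ≤ M := by
    have h1 : ((range M).filter (fun ν => Odd ν)).card ≤ (range M).card :=
      Finset.card_filter_le _ _
    rw [card_range] at h1
    exact_mod_cast h1
  calc (S.card : ℝ) ≤ ∑ ν ∈ (range M).filter (fun ν => Odd ν), δ * Z ^ 2 / M := by
        rw [hcard']
        exact Finset.sum_le_sum hbound
    _ = (((range M).filter (fun ν => Odd ν)).card : ℝ) * (δ * Z ^ 2 / M) := by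
        rw [Finset.sum_const, nsmul_eq_mul]
    _ ≤ M * (δ * Z ^ 2 / M) := by
        apply mul_le_mul_of_nonneg_right hle
        positivity
    _ = δ * Z ^ 2 := by
        field_simp

end Pool.Agent.SP80
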