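import Pool.Agent.Lib.MP_1e1427_nt.SP.Stm

/-!
Project SP (MP_1e1427_nt): from `Qs n` to the numbers `N`.
-/

namespace Pool.Agent.SP80

open Finset MeasureTheory Filter Topology

private def n3_f (q : ℕ) : ℕ := 2 ^ q + 2 ^ ((q + 1) / 2) + 1

private theorem n3_f_inj : Function.Injective n3_f := by
  apply StrictMono.injective
  intro a b hab
  unfold n3_f
  have h1 : 2 ^ a < 2 ^ b := Nat.pow_lt_pow_right (by norm_num) hab
  have h2 : 2 ^ ((a + 1) / 2) ≤ 2 ^ ((b + 1) / 2) :=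
    Nat.pow_le_pow_right (by norm_num) (Nat.div_le_div_right (by omega))
  omega

private theorem n3_le_of_sq {a n : ℕ} (h : a ^ 2 ≤ n) : a ≤ n := by
  calc a ≤ a ^ 2 := Nat.le_self_pow (by norm_num) a
    _ ≤ n := h

private theorem n3_fin (n : ℕ) (P : ℕ → Prop) :
    ({N : ℕ | ∃ x y z w : ℕ, x ^ 2 + y ^ 2 + z ^ 2 + w ^ 2 = n ∧
      N = 2 ^ (x + y) + 2 ^ (z + w) + 1 ∧ P N} : Set ℕ).Finite := by
  have h1 : ({N : ℕ | ∃ x y z w : ℕ, x ^ 2 + y ^ 2 + z ^ 2 + w ^ 2 = n ∧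
      N = 2 ^ (x + y) + 2 ^ (z + w) + 1 ∧ P N} : Set ℕ) ⊆
      Set.Iic (2 ^ (n + n) + 2 ^ (n + n) + 1) := by
    rintro N ⟨x, y, z, w, h, hN, -⟩
    have hx : x ≤ n := n3_le_of_sq (by omega)
    have hy : y ≤ n := n3_le_of_sq (by omega)
    have hz : z ≤ n := n3_le_of_sq (by omega)
    have hw : w ≤ n := n3_le_of_sq (by omega)
    have h2 : 2 ^ (x + y) ≤ 2 ^ (n + n) := Nat.pow_le_pow_right (by norm_num) (by omega)
    have h3 : 2 ^ (z + w) ≤ 2 ^ (n + n) := Nat.pow_le_pow_right (by norm_num) (by omega)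
    change N ≤ _
    omega
  exact (Set.finite_Iic _).subset h1

private theorem n3_mem {n q : ℕ} (hq : q ∈ Qs n) : q.Prime ∧ q % 8 = 3 ∧ 4 * n ≤ 3 * q ^ 2 ∧
    ∃ c d : ℕ, Odd c ∧ Even d ∧ c ≤ q ∧ 2 * d ≤ q + 1 ∧
      2 * n = q ^ 2 + ((q + 1) / 2) ^ 2 + c ^ 2 + d ^ 2 := by
  classical
  unfold Qs at hq
  exact (Finset.mem_filter.1 hq).2

theorem sn3 (h1 : SN1) (h2 : SN2) : SN3 := by
  intro n
  have hfin := n3_fin n (fun N =>
      (∃ s t : ℕ, N - 1 = 2 ^ s * t ∧ Odd t ∧ ∃ i < s, N ∣ 2 ^ (2 ^ i * t) + 1) ∧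
      ∀ p : ℕ, p.Prime → p ∣ N → 64 * n < 3 * p ^ 2)
  rw [← Finset.card_image_of_injective (Qs n) n3_f_inj, ← Set.ncard_coe_finset]
  apply Set.ncard_le_ncard _ hfin
  intro N hN
  rw [Finset.mem_coe, Finset.mem_image] at hN
  obtain ⟨q, hq, rfl⟩ := hN
  obtain ⟨hqp, hq8, hqn, c, d, hc, hd, hcq, hdq, hsum⟩ := n3_mem hq
  obtain ⟨k, hk⟩ : ∃ k, q = 8 * k + 3 := ⟨q / 8, by omega⟩
  obtain ⟨c', hc'⟩ := hc
  obtain ⟨d', hd'⟩ := hd
  have hd2 : d = 2 * d' := by omega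
  have hhalf : (q + 1) / 2 = 4 * k + 2 := by omega
  have hc4 : c' ≤ 4 * k + 1 := by omega
  have hd4 : d' ≤ 2 * k + 1 := by omega
  obtain ⟨y, hy⟩ := Nat.exists_eq_add_of_le hc4
  obtain ⟨w, hw⟩ := Nat.exists_eq_add_of_le hd4
  refine ⟨4 * k + 2 + c', y, 2 * k + 1 + d', w, ?_, ?_, ?_, ?_⟩
  · rw [hhalf, hk, hc', hd2] at hsum
    zify at hsum hy hw ⊢
    have e3 : (y : ℤ) = 4 * k + 1 - c' := by linarith
    have e4 : (w : ℤ) = 2 * k + 1 - d' := by linarith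
    rw [e3, e4]
    nlinarith [hsum]
  · unfold n3_f
    rw [hhalf]
    congr 3
    · omega
    · omega
  · exact h2 q hqp hq8
  · intro p hp hpN
    have h3 := h1 q hqp hq8 p hp hpN
    have h4 : (4 * q) * (4 * q) < p * p := Nat.mul_self_lt_mul_self h3
    nlinarith [h4, hqn]

end Pool.Agent.SP80
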