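import Mathlib
import Pool.Agent.Lib.MP_1e1427_nt.SP.N4

/-!
Project SP (MP_1e1427_nt): the numbers `2^q + 2^((q+1)/2) + 1`, `q ≡ 3 mod 8` prime, are pairwise coprime;
the passage from `Qs n` to a set of pairwise coprime numbers `N`.
-/

namespace Pool.Agent.SP80

open Finset Filter Topology

private def n5_f (q : ℕ) : ℕ := 2 ^ q + 2 ^ ((q + 1) / 2) + 1

private theorem n5_f_inj : Function.Injective n5_f := by
  apply StrictMono.injective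
  intro a b hab
  unfold n5_f
  have h1 : 2 ^ a < 2 ^ b := Nat.pow_lt_pow_right (by norm_num) hab
  have h2 : 2 ^ ((a + 1) / 2) ≤ 2 ^ ((b + 1) / 2) :=
    Nat.pow_le_pow_right (by norm_num) (Nat.div_le_div_right (by omega))
  omega

theorem n5_coprime (q r : ℕ) (hq : q.Prime) (hq8 : q % 8 = 3) (hr : r.Prime) (hr8 : r % 8 = 3)
    (hne : q ≠ r) :
    Nat.Coprime (2 ^ q + 2 ^ ((q + 1) / 2) + 1) (2 ^ r + 2 ^ ((r + 1) / 2) + 1) := by
  by_contra hcop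
  obtain ⟨p, hp, hpq, hpr⟩ := Nat.Prime.not_coprime_iff_dvd.1 hcop
  have : Fact p.Prime := ⟨hp⟩
  have h16 : ∀ s : ℕ, s % 8 = 3 → p ∣ 2 ^ s + 2 ^ ((s + 1) / 2) + 1 →
      orderOf (2 ^ 2 : ZMod p) ∣ 2 * s := by
    intro s hs hps
    apply orderOf_dvd_of_pow_eq_one
    have h := (ZMod.natCast_eq_zero_iff (2 ^ (2 * s) + 1) p).2 (hps.trans (n4_dvd s hs))
    push_cast at h
    have h1 : (2 : ZMod p) ^ (2 * s) = -1 := eq_neg_of_add_eq_zero_left h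
    rw [← pow_mul, show 2 * (2 * s) = 2 * s * 2 by ring, pow_mul, h1]
    ring
  have hd : orderOf (2 ^ 2 : ZMod p) ∣ 2 := by
    have h1 := Nat.dvd_gcd (h16 q hq8 hpq) (h16 r hr8 hpr)
    rwa [Nat.gcd_mul_left, (Nat.coprime_primes hq hr).2 hne, mul_one] at h1
  have h4 : (2 ^ 2 : ZMod p) ^ 2 = 1 := orderOf_dvd_iff_pow_eq_one.1 hd
  have h15 : p ∣ 15 := by
    have : ((15 : ℕ) : ZMod p) = 0 := by
      push_cast
      have : (15 : ZMod p) = (2 ^ 2) ^ 2 - 1 := by norm_num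
      rw [this, h4, sub_self]
    exact (ZMod.natCast_eq_zero_iff 15 p).1 this
  have hle : p ≤ 5 := by
    have h9 : p ∣ 3 * 5 := by norm_num; exact h15
    rcases (Nat.Prime.dvd_mul hp).1 h9 with h | h
    · exact (Nat.le_of_dvd (by norm_num) h).trans (by norm_num)
    · exact Nat.le_of_dvd (by norm_num) h
  have h1 := n4_prime_factor q hq hq8 p hp hpq
  have h3 : 3 ≤ q := by omega
  rw [Nat.mod_eq_of_lt (by omega)] at h1
  exact hp.one_lt.ne' h1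

private theorem n5_mem {n q : ℕ} (hq : q ∈ Qs n) : q.Prime ∧ q % 8 = 3 ∧ 4 * n ≤ 3 * q ^ 2 ∧
    ∃ c d : ℕ, Odd c ∧ Even d ∧ c ≤ q ∧ 2 * d ≤ q + 1 ∧
      2 * n = q ^ 2 + ((q + 1) / 2) ^ 2 + c ^ 2 + d ^ 2 := by
  classical
  unfold Qs at hq
  exact (Finset.mem_filter.1 hq).2

/-- from `Qs n` to the numbers `N` -/
theorem n5_set (h2 : SN2) (n : ℕ) : ∃ S : Finset ℕ, (Qs n).card ≤ S.card ∧ (∀ N ∈ S, N ∈ Ns n) ∧
    (∀ N ∈ S, ∀ M ∈ S, N ≠ M → Nat.Coprime N M) := by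
  refine ⟨(Qs n).image n5_f, (Finset.card_image_of_injective (Qs n) n5_f_inj).ge, ?_, ?_⟩
  · intro N hN
    obtain ⟨q, hq, rfl⟩ := Finset.mem_image.1 hN
    obtain ⟨hqp, hq8, hqn, c, d, hc, hd, hcq, hdq, hsum⟩ := n5_mem hq
    obtain ⟨k, hk⟩ : ∃ k, q = 8 * k + 3 := ⟨q / 8, by omega⟩
    obtain ⟨c', hc'⟩ := hc
    obtain ⟨d', hd'⟩ := hd
    have hd2 : d = 2 * d' := by omega
    have hhalf : (q + 1) / 2 = 4 * k + 2 := by omega
    have hc4 : c' ≤ 4 * k + 1 := by omega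
    have hd4 : d' ≤ 2 * k + 1 := by omega
    obtain ⟨y, hy⟩ := Nat.exists_eq_add_of_le hc4
    obtain ⟨w, hw⟩ := Nat.exists_eq_add_of_le hd4
    have hxy : 4 * k + 2 + c' + y = q := by omega
    have hzw : 2 * k + 1 + d' + w = (q + 1) / 2 := by omega
    refine ⟨4 * k + 2 + c', y, 2 * k + 1 + d', w, ?_, ?_, ?_, ?_, ?_, ?_⟩
    · rw [hhalf, hk, hc', hd2] at hsum
      zify at hsum hy hw ⊢
      have e3 : (y : ℤ) = 4 * k + 1 - c' := by linarith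
      have e4 : (w : ℤ) = 2 * k + 1 - d' := by linarith
      rw [e3, e4]
      nlinarith [hsum]
    · rw [hxy, hzw]; rfl
    · rw [hxy]; exact hqp
    · rw [hxy]; exact hqn
    · rw [hxy]
      intro p hp hpN
      exact n4_prime_factor q hqp hq8 p hp hpN
    · exact h2 q hqp hq8
  · intro N hN M hM hNM
    obtain ⟨q, hq, rfl⟩ := Finset.mem_image.1 hN
    obtain ⟨r, hr, rfl⟩ := Finset.mem_image.1 hM
    exact n5_coprime q r (n5_mem hq).1 (n5_mem hq).2.1 (n5_mem hr).1 (n5_mem hr).2.1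
      fun h => hNM (by rw [h])

theorem n5_main (h2 : SL2) (hn : SN2) (ε : ℝ) (hε : 0 < ε) :
    Tendsto (fun X : ℕ => ((({n : ℕ | n ≤ X ∧ Odd n ∧
      ¬ ∃ S : Finset ℕ, (n : ℝ) ^ (1 / 2 - ε) ≤ (S.card : ℝ) ∧ (∀ N ∈ S, N ∈ Ns n) ∧
        (∀ N ∈ S, ∀ M ∈ S, N ≠ M → Nat.Coprime N M)} : Set ℕ).ncard : ℕ) : ℝ) / X)
      atTop (𝓝 0) := by
  refine squeeze_zero (fun X => by positivity) (fun X => ?_) (h2 ε hε)
  have hsub : ({n : ℕ | n ≤ X ∧ Odd n ∧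
      ¬ ∃ S : Finset ℕ, (n : ℝ) ^ (1 / 2 - ε) ≤ (S.card : ℝ) ∧ (∀ N ∈ S, N ∈ Ns n) ∧
        (∀ N ∈ S, ∀ M ∈ S, N ≠ M → Nat.Coprime N M)} : Set ℕ) ⊆
      (((Icc 1 X).filter (fun n : ℕ => Odd n ∧
        ¬ (n : ℝ) ^ (1 / 2 - ε) ≤ ((Qs n).card : ℝ)) : Finset ℕ) : Set ℕ) := by
    rintro n ⟨h1, h4, h5⟩
    simp only [Finset.coe_filter, Finset.mem_Icc, Set.mem_ofPred_eq]
    refine ⟨⟨h4.pos, h1⟩, h4, fun h6 => h5 ?_⟩
    obtain ⟨S, hS1, hS2, hS3⟩ := n5_set hn n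
    exact ⟨S, h6.trans (by exact_mod_cast hS1), hS2, hS3⟩
  have hc := Set.ncard_le_ncard hsub (Finset.finite_toSet _)
  rw [Set.ncard_coe_finset] at hc
  gcongr

end Pool.Agent.SP80
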